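import Mathlib

set_option autoImplicit false
set_option linter.unusedSectionVars false
set_option linter.unusedSimpArgs false

open Finset Equiv AlternatingMap

namespace Pool.Agent.Mal.Syz

variable {F : Type} [Field F] [CharZero F] {E U : Type} [AddCommGroup E] [Module F E]
  [AddCommGroup U] [Module F U]

/-- `a ↦ f a ∘ j` -/
def lf {m : ℕ} (f : E →ₗ[F] (U →ₗ[F] U)) (j : E [⋀^Fin m]→ₗ[F] U) :
    E →ₗ[F] (E [⋀^Fin m]→ₗ[F] U) where
  toFun a := (f a).compAlternatingMap j
  map_add' a b := by ext v; simp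
  map_smul' c a := by ext v; simp

@[simp] theorem lf_apply {m : ℕ} (f : E →ₗ[F] (U →ₗ[F] U)) (j : E [⋀^Fin m]→ₗ[F] U) (a : E)
    (v : Fin m → E) : lf f j a v = f a (j v) := rfl

/-- alternating sum `∑ ± f(v_i) j(v without i)` -/
def un {m : ℕ} (f : E →ₗ[F] (U →ₗ[F] U)) (j : E [⋀^Fin m]→ₗ[F] U) :
    E [⋀^Fin (m + 1)]→ₗ[F] U := alternatizeUncurryFin (lf f j)

theorem un_apply {m : ℕ} (f : E →ₗ[F] (U →ₗ[F] U)) (j : E [⋀^Fin m]→ₗ[F] U)
    (v : Fin (m + 1) → E) :
    un f j v = ∑ i : Fin (m + 1), (-1 : ℤ) ^ (i : ℕ) • f (v i) (j (Fin.removeNth i v)) := by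
  rw [un, alternatizeUncurryFin_apply]
  rfl

theorem un_add_left {m : ℕ} (f g : E →ₗ[F] (U →ₗ[F] U)) (j : E [⋀^Fin m]→ₗ[F] U) :
    un (f + g) j = un f j + un g j := by
  ext v
  simp only [un_apply, AlternatingMap.add_apply, LinearMap.add_apply, smul_add,
    Finset.sum_add_distrib]

theorem un_smul_left {m : ℕ} (c : F) (f : E →ₗ[F] (U →ₗ[F] U)) (j : E [⋀^Fin m]→ₗ[F] U) :
    un (c • f) j = c • un f j := by
  ext v
  simp only [un_apply, AlternatingMap.smul_apply, LinearMap.smul_apply, Finset.smul_sum]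
  exact Finset.sum_congr rfl fun i _ => smul_comm _ _ _

theorem un_add {m : ℕ} (f : E →ₗ[F] (U →ₗ[F] U)) (j k : E [⋀^Fin m]→ₗ[F] U) :
    un f (j + k) = un f j + un f k := by
  ext v
  simp only [un_apply, AlternatingMap.add_apply, map_add, smul_add, Finset.sum_add_distrib]

theorem un_smul {m : ℕ} (c : F) (f : E →ₗ[F] (U →ₗ[F] U)) (j : E [⋀^Fin m]→ₗ[F] U) :
    un f (c • j) = c • un f j := by
  ext v
  simp only [un_apply, AlternatingMap.smul_apply, map_smul, Finset.smul_sum]
  exact Finset.sum_congr rfl fun i _ => smul_comm _ _ _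

/-- the two commuting double sums are opposite -/
theorem un_un {m : ℕ} (f g : E →ₗ[F] (U →ₗ[F] U)) (h : ∀ a b u, f a (g b u) = g b (f a u))
    (j : E [⋀^Fin m]→ₗ[F] U) : un f (un g j) = - un g (un f j) := by
  let s : E →ₗ[F] E →ₗ[F] (E [⋀^Fin m]→ₗ[F] U) :=
    { toFun := fun a =>
        { toFun := fun b => (f a).compAlternatingMap (lf g j b) + (g a).compAlternatingMap (lf f j b)
          map_add' := by intro x y; ext v; simp; abel
          map_smul' := by intro c x; ext v; simp }
      map_add' := by intro x y; ext b v; simp; abel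
      map_smul' := by intro c x; ext b v; simp }
  have hs : ∀ x y, s x y = s y x := by
    intro x y
    ext v
    change f x (g y (j v)) + g x (f y (j v)) = f y (g x (j v)) + g y (f x (j v))
    rw [h x y, ← h y x, add_comm]
  have h1 := alternatizeUncurryFin_alternatizeUncurryFinLM_comp_of_symmetric hs
  have h2 : un f (un g j) + un g (un f j) = 0 := by
    rw [← h1]
    ext v
    rw [AlternatingMap.add_apply, un_apply, un_apply, alternatizeUncurryFin_apply,
      ← Finset.sum_add_distrib]
    refine Finset.sum_congr rfl fun i _ => ?_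
    rw [← smul_add]
    congr 1
    simp only [LinearMap.coe_comp, Function.comp_apply, alternatizeUncurryFinLM_apply]
    rw [alternatizeUncurryFin_apply, un_apply, un_apply, map_sum, map_sum,
      ← Finset.sum_add_distrib]
    refine Finset.sum_congr rfl fun k _ => ?_
    rw [map_zsmul, map_zsmul, ← smul_add]
    rfl
  exact eq_neg_of_add_eq_zero_left h2

theorem j_update {m : ℕ} (j : E [⋀^Fin (m + 1)]→ₗ[F] U) (u : Fin (m + 1) → E) (i : Fin (m + 1))
    (y : E) : j (Function.update u i y) = (-1 : ℤ) ^ (i : ℕ) • j (Fin.cons y (Fin.removeNth i u)) := by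
  have h := j.map_insertNth i y (Fin.removeNth i u)
  rw [Fin.insertNth_removeNth] at h
  exact h

theorem un_cons {m : ℕ} (f : E →ₗ[F] (U →ₗ[F] U)) (j : E [⋀^Fin m]→ₗ[F] U) (y : E)
    (u : Fin m → E) : un f j (Fin.cons y u) = f y (j u) -
      ∑ i, f (u i) (j (Function.update u i y)) := by
  rw [un_apply, Fin.sum_univ_succ, sub_eq_add_neg, ← Finset.sum_neg_distrib]
  congr 1
  · simp
  · cases m with
    | zero => simp
    | succ m =>
      refine Finset.sum_congr rfl fun i _ => ?_
      rw [j_update, map_zsmul, Fin.cons_succ]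
      have : Fin.removeNth i.succ (Fin.cons y u : Fin (m + 1 + 1) → E)
          = Fin.cons y (Fin.removeNth i u) := by
        funext k
        refine Fin.cases ?_ (fun k => ?_) k
        · simp [Fin.removeNth]
        · simp [Fin.removeNth]
      rw [this, Fin.val_succ, pow_succ]
      rw [mul_neg_one, neg_smul]

/-- the averaged product with a new letter -/
noncomputable def up {m : ℕ} (f : E →ₗ[F] (U →ₗ[F] U)) (j : E [⋀^Fin m]→ₗ[F] U) :
    E [⋀^Fin (m + 1)]→ₗ[F] U := ((m + 1 : F)⁻¹) • un f j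

theorem up_smul {m : ℕ} (f : E →ₗ[F] (U →ₗ[F] U)) (j : E [⋀^Fin m]→ₗ[F] U) :
    (m + 1 : F) • up f j = un f j := by
  rw [up, smul_smul, mul_inv_cancel₀ (Nat.cast_add_one_ne_zero m), one_smul]

theorem up_cons {m : ℕ} (f : E →ₗ[F] (U →ₗ[F] U)) (j : E [⋀^Fin m]→ₗ[F] U) (y : E)
    (u : Fin m → E) : (m + 1 : F) • up f j (Fin.cons y u) = f y (j u) -
      ∑ i, f (u i) (j (Function.update u i y)) := by
  rw [← un_cons, ← up_smul, AlternatingMap.smul_apply]

/-- anticommutator -/
def ac (L : E →ₗ[F] (U →ₗ[F] U)) : E →ₗ[F] E →ₗ[F] (U →ₗ[F] U) where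
  toFun a :=
    { toFun := fun b => L a ∘ₗ L b + L b ∘ₗ L a
      map_add' := by intro x y; ext v; simp; abel
      map_smul' := by intro c x; ext v; simp }
  map_add' := by intro x y; ext b v; simp; abel
  map_smul' := by intro c x; ext b v; simp

theorem ac_apply (L : E →ₗ[F] (U →ₗ[F] U)) (a b : E) (u : U) :
    ac L a b u = L a (L b u) + L b (L a u) := rfl

/-- the anticommutators are central -/
def Cliff (L : E →ₗ[F] (U →ₗ[F] U)) : Prop := ∀ a b c u, ac L a b (L c u) = L c (ac L a b u)

/-- the relation `x J_{m+1}(v) = J_{m+2}(x,v) + 1/2 ∑ ± {x, v_i} J_m(v without i)` -/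
def Rel {m : ℕ} (L : E →ₗ[F] (U →ₗ[F] U)) (j : E [⋀^Fin m]→ₗ[F] U) : Prop :=
  ∀ (x : E) (v : Fin (m + 1) → E), L x (up L j v) =
    up L (up L j) (Fin.cons x v) + (1 / 2 : F) • un (ac L x) j v

theorem Rel.up {m : ℕ} {L : E →ₗ[F] (U →ₗ[F] U)} (hL : Cliff L) {j : E [⋀^Fin m]→ₗ[F] U}
    (h : Rel L j) : Rel L (up L j) := by
  intro x v
  obtain ⟨J1, hJ1⟩ : ∃ J, J = Syz.up L j := ⟨_, rfl⟩
  obtain ⟨J2, hJ2⟩ : ∃ J, J = Syz.up L J1 := ⟨_, rfl⟩
  rw [← hJ1, ← hJ2]
  -- relation as equality of alternating maps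
  have e1 : (L x).compAlternatingMap J1 = J2.curryLeft x + (1 / 2 : F) • un (ac L x) j := by
    ext w
    have := h x w
    rw [← hJ1, ← hJ2] at this
    exact this
  have e2 : un L ((L x).compAlternatingMap J1) = un (ac L x) J1 - (m + 2 : F) • (L x).compAlternatingMap J2 := by
    have : (m + 2 : F) • (L x).compAlternatingMap J2 = (L x).compAlternatingMap (un L J1) := by
      rw [hJ2, ← up_smul]
      ext w
      simp only [AlternatingMap.smul_apply, LinearMap.compAlternatingMap_apply, map_smul]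
      congr 1
      push_cast; ring
    rw [this]
    ext w
    simp only [AlternatingMap.sub_apply, LinearMap.compAlternatingMap_apply, un_apply]
    rw [map_sum, ← Finset.sum_sub_distrib]
    refine Finset.sum_congr rfl fun i _ => ?_
    rw [map_zsmul, ← smul_sub, ac_apply]
    congr 1
    abel
  have e3 : un L (un (ac L x) j) = - ((m + 1 : F) • un (ac L x) J1) := by
    rw [un_un L (ac L x) (fun a b u => (hL x b a u).symm), ← un_smul, hJ1, up_smul]
  have e4 : (m + 3 : F) • Syz.up L J2 (Fin.cons x v) = L x (J2 v) - un L (J2.curryLeft x) v := by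
    have h5 : (m + 3 : F) • Syz.up L J2 (Fin.cons x v) = un L J2 (Fin.cons x v) := by
      rw [← up_smul, AlternatingMap.smul_apply]
      congr 1
      push_cast; ring
    rw [h5, un_apply, Fin.sum_univ_succ, un_apply, sub_eq_add_neg, ← Finset.sum_neg_distrib]
    congr 1
    · simp
    · refine Finset.sum_congr rfl fun i _ => ?_
      rw [Fin.cons_succ, Fin.val_succ, pow_succ, mul_neg_one, neg_smul]
      congr 3
      change J2 _ = J2 (Fin.cons x (Fin.removeNth i v))
      congr 1
      funext k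
      refine Fin.cases ?_ (fun k => ?_) k
      · simp [Fin.removeNth]
      · simp [Fin.removeNth]
  have e5 := congrArg (fun g => g v) (congrArg (un L) e1)
  beta_reduce at e5
  rw [e2, un_add, un_smul, e3] at e5
  simp only [AlternatingMap.sub_apply, AlternatingMap.add_apply, AlternatingMap.smul_apply,
    LinearMap.compAlternatingMap_apply, AlternatingMap.neg_apply] at e5
  have e6 : (m + 3 : F) • (L x (J2 v)) = (m + 3 : F) • (Syz.up L J2 (Fin.cons x v) +
      (1 / 2 : F) • un (ac L x) J1 v) := by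
    rw [smul_add, e4]
    linear_combination (norm := module) (-1 : F) • e5
  have hne : (m + 3 : F) ≠ 0 := by
    have := Nat.cast_add_one_ne_zero (R := F) (m + 2)
    intro h0
    apply this
    push_cast
    linear_combination h0
  exact smul_right_injective U hne e6

/-- q-Cramer rule -/
theorem Rel.cons {m : ℕ} {L : E →ₗ[F] (U →ₗ[F] U)} {j : E [⋀^Fin m]→ₗ[F] U}
    (h : Rel L j) (x y : E) (u : Fin m → E) :
    ac L x y (j u) - ∑ i, ac L x (u i) (j (Function.update u i y)) =
      (2 : F) • (L x (Syz.up L j (Fin.cons y u)) -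
        Syz.up L (Syz.up L j) (Fin.cons x (Fin.cons y u))) := by
  rw [← un_cons, h x (Fin.cons y u)]
  module

/-- the constant `0`-form satisfies the relation -/
theorem rel_const (L : E →ₗ[F] (U →ₗ[F] U)) (u0 : U) :
    Rel L (AlternatingMap.constOfIsEmpty F E (Fin 0) u0) := by
  intro x v
  have h1 : ∀ y : E, up L (AlternatingMap.constOfIsEmpty F E (Fin 0) u0) (fun _ => y) = L y u0 := by
    intro y
    have := up_cons L (AlternatingMap.constOfIsEmpty F E (Fin 0) u0) y Fin.elim0
    simp only [Nat.cast_zero, zero_add, one_smul, Finset.univ_eq_empty, Finset.sum_empty, sub_zero,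
      AlternatingMap.constOfIsEmpty_apply] at this
    refine Eq.trans ?_ this
    congr 1
    funext k
    refine Fin.cases ?_ (fun k => k.elim0) k
    simp
  have hv : v = fun _ => v 0 := by
    funext k
    congr 1
    exact Subsingleton.elim (α := Fin 1) _ _
  have h2 := up_cons L (up L (AlternatingMap.constOfIsEmpty F E (Fin 0) u0)) x v
  have h3 : ∑ i : Fin (0 + 1), L (v i) (up L (AlternatingMap.constOfIsEmpty F E (Fin 0) u0)
      (Function.update v i x)) = L (v 0) (L x u0) := by
    have : (univ : Finset (Fin (0 + 1))) = {0} := rfl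
    rw [this, Finset.sum_singleton]
    congr 1
    rw [← h1 x]
    congr 1
    funext k
    have hk : k = 0 := Subsingleton.elim (α := Fin 1) _ _
    rw [hk, Function.update_self]
  have h4 : up L (AlternatingMap.constOfIsEmpty F E (Fin 0) u0) v = L (v 0) u0 := by
    rw [hv, h1]
  rw [h3, h4] at h2
  have h5 : un (ac L x) (AlternatingMap.constOfIsEmpty F E (Fin 0) u0) v
      = L x (L (v 0) u0) + L (v 0) (L x u0) := by
    rw [un_apply]
    have : (univ : Finset (Fin (0 + 1))) = {0} := rfl
    rw [this, Finset.sum_singleton, AlternatingMap.constOfIsEmpty_apply]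
    simp [ac_apply]
  rw [h4, h5]
  have h6 : up L (up L (AlternatingMap.constOfIsEmpty F E (Fin 0) u0)) (Fin.cons x v)
      = (1 / 2 : F) • (L x (L (v 0) u0) - L (v 0) (L x u0)) := by
    rw [← h2, smul_smul]
    have : (1 / 2 : F) * ((0 + 1 : ℕ) + 1 : F) = 1 := by
      push_cast; norm_num
    rw [this, one_smul]
  rw [h6]
  module

/-- alternating sum of a function of `m` arguments -/
def psum (m : ℕ) (g : (Fin m → E) → U) (y : Fin m → E) : U :=
  ∑ s : Perm (Fin m), (Perm.sign s : ℤ) • g (y ∘ s)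

theorem psum_alt {m : ℕ} (j : E [⋀^Fin m]→ₗ[F] U) (y : Fin m → E) :
    psum m j y = (m.factorial : F) • j y := by
  unfold psum
  have : ∀ s : Perm (Fin m), (Perm.sign s : ℤ) • j (y ∘ s) = j y := by
    intro s
    rw [j.map_perm, Units.smul_def, smul_smul]
    simp
  rw [Finset.sum_congr rfl (fun s _ => this s), Finset.sum_const, Finset.card_univ,
    Fintype.card_perm, Fintype.card_fin, Nat.cast_smul_eq_nsmul]

theorem psum_step {m : ℕ} (f : E →ₗ[F] (U →ₗ[F] U)) (g : (Fin m → E) → U) (c : F)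
    (j : E [⋀^Fin m]→ₗ[F] U) (h : ∀ z, psum m g z = c • j z) (y : Fin (m + 1) → E) :
    psum (m + 1) (fun z => f (z 0) (g (Fin.tail z))) y = c • un f j y := by
  obtain ⟨y0, z, rfl⟩ : ∃ y0 z, y = Fin.cons y0 z := ⟨y 0, Fin.tail y, (Fin.cons_self_tail y).symm⟩
  unfold psum at h ⊢
  rw [← Equiv.sum_comp (Perm.decomposeFin (n := m)).symm, Fintype.sum_prod_type, Fin.sum_univ_succ,
    un_cons, smul_sub, sub_eq_add_neg, Finset.smul_sum, ← Finset.sum_neg_distrib]
  congr 1
  · rw [← map_smul, ← h z, map_sum]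
    refine Finset.sum_congr rfl fun e _ => ?_
    beta_reduce
    rw [map_zsmul, Perm.decomposeFin.symm_sign, if_pos rfl, one_mul, Function.comp_apply,
      Perm.decomposeFin_symm_apply_zero, Fin.cons_zero]
    congr 3
  · refine Finset.sum_congr rfl fun p _ => ?_
    rw [← map_smul, ← h, map_sum, ← Finset.sum_neg_distrib]
    refine Finset.sum_congr rfl fun e _ => ?_
    beta_reduce
    rw [map_zsmul, Perm.decomposeFin.symm_sign, if_neg (Fin.succ_ne_zero p), Function.comp_apply,
      Perm.decomposeFin_symm_apply_zero, Fin.cons_succ]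
    rw [neg_one_mul, Units.val_neg, neg_smul]
    congr 4
    funext x
    simp only [Fin.tail, Function.comp_apply, Perm.decomposeFin_symm_apply_succ]
    by_cases hx : e x = p
    · rw [hx, swap_apply_right, Fin.cons_zero, Function.update_self]
    · rw [swap_apply_of_ne_of_ne (Fin.succ_ne_zero _) (fun h => hx (Fin.succ_injective _ h)),
        Fin.cons_succ, Function.update_of_ne hx]

theorem psum_up {m : ℕ} (f : E →ₗ[F] (U →ₗ[F] U)) (j : E [⋀^Fin m]→ₗ[F] U) (y : Fin (m + 1) → E) :
    psum (m + 1) (fun z => f (z 0) (j (Fin.tail z))) y = ((m + 1).factorial : F) • up f j y := by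
  rw [psum_step f j (m.factorial : F) j (fun z => psum_alt j z), ← up_smul,
    AlternatingMap.smul_apply, smul_smul, Nat.factorial_succ]
  congr 1
  push_cast; ring

theorem psum_add {m : ℕ} (g h : (Fin m → E) → U) (y : Fin m → E) :
    psum m (fun z => g z + h z) y = psum m g y + psum m h y := by
  unfold psum
  rw [← Finset.sum_add_distrib]
  exact Finset.sum_congr rfl fun s _ => smul_add _ _ _

theorem psum_smul {m : ℕ} (c : F) (g : (Fin m → E) → U) (y : Fin m → E) :
    psum m (fun z => c • g z) y = c • psum m g y := by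
  unfold psum
  rw [Finset.smul_sum]
  exact Finset.sum_congr rfl fun s _ => smul_comm _ _ _

/-- the relation `R6` in expanded form -/
theorem rel4 (L : E →ₗ[F] (U →ₗ[F] U)) (j : E [⋀^Fin 4]→ₗ[F] U)
    (R6 : ∀ (v : E) (y : Fin 5 → E), ∑ s : Perm (Fin 5), (Perm.sign s : ℤ) •
      (L (y (s 0)) (L (y (s 1)) (j ![v, y (s 2), y (s 3), y (s 4)]))
        - L v (L (y (s 0)) (j ![y (s 1), y (s 2), y (s 3), y (s 4)]))
        + (7 / 2 : F) • (L v (L (y (s 0)) (j ![y (s 1), y (s 2), y (s 3), y (s 4)]))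
          + L (y (s 0)) (L v (j ![y (s 1), y (s 2), y (s 3), y (s 4)])))) = 0) : Rel L j := by
  intro x v
  have h1 : psum 5 (fun z => L (z 0) (j (Fin.tail z))) v = (120 : F) • up L j v := by
    rw [psum_up]; congr 1
  have h2 : psum 5 (fun z => (ac L x) (z 0) (j (Fin.tail z))) v = (24 : F) • un (ac L x) j v := by
    rw [psum_step (ac L x) j (24 : F) j]
    intro z
    rw [psum_alt]; congr 1
  have h3 : psum 5 (fun z => L (z 0) (L ((Fin.tail z) 0) ((j.curryLeft x) (Fin.tail (Fin.tail z))))) v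
      = (6 : F) • un L (un L (j.curryLeft x)) v := by
    rw [psum_step L (fun z => L (z 0) (j.curryLeft x (Fin.tail z))) (6 : F) (un L (j.curryLeft x))]
    intro z
    rw [psum_step L (j.curryLeft x) (6 : F) (j.curryLeft x)]
    intro z
    rw [psum_alt]; congr 1
  have h4 : psum 5 (fun z => (L (z 0) (L ((Fin.tail z) 0) ((j.curryLeft x) (Fin.tail (Fin.tail z)))) +
      (-1 : F) • (L x (L (z 0) (j (Fin.tail z)))) + (7 / 2 : F) • (ac L x (z 0) (j (Fin.tail z))))) v = 0 := by
    rw [← R6 x v]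
    unfold psum
    refine Finset.sum_congr rfl fun s _ => ?_
    congr 1
    have t1 : Fin.tail (v ∘ s) = ![v (s 1), v (s 2), v (s 3), v (s 4)] := by
      funext k; fin_cases k <;> rfl
    have t2 : j.curryLeft x (Fin.tail (Fin.tail (v ∘ s))) = j ![x, v (s 2), v (s 3), v (s 4)] := by
      change j _ = j _
      congr 1
      funext k; fin_cases k <;> rfl
    beta_reduce
    rw [t2, t1, ac_apply, neg_one_smul, ← sub_eq_add_neg]
    rfl
  rw [psum_add, psum_add, psum_smul, psum_smul, h2, h3] at h4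
  have h5 : psum 5 (fun z => L x (L (z 0) (j (Fin.tail z)))) v = (120 : F) • L x (up L j v) := by
    rw [← map_smul, ← h1]
    unfold psum
    rw [map_sum]
    exact Finset.sum_congr rfl fun s _ => (map_zsmul (L x) _ _).symm
  rw [h5] at h4
  -- expand `up (up j)`
  have h6 : (6 : F) • up L (up L j) (Fin.cons x v) = L x (up L j v) - un L ((up L j).curryLeft x) v := by
    have h7 : (6 : F) • up L (up L j) (Fin.cons x v) = un L (up L j) (Fin.cons x v) := by
      rw [← up_smul, AlternatingMap.smul_apply]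
      congr 1
      push_cast; norm_num
    rw [h7, un_apply, Fin.sum_univ_succ, un_apply, sub_eq_add_neg, ← Finset.sum_neg_distrib]
    congr 1
    · simp
    · refine Finset.sum_congr rfl fun i _ => ?_
      rw [Fin.cons_succ, Fin.val_succ, pow_succ, mul_neg_one, neg_smul]
      congr 3
      change up L j _ = up L j (Fin.cons x (Fin.removeNth i v))
      congr 1
      funext k
      refine Fin.cases ?_ (fun k => ?_) k
      · simp [Fin.removeNth]
      · simp [Fin.removeNth]
  have h8 : (5 : F) • (up L j).curryLeft x = (L x).compAlternatingMap j - un L (j.curryLeft x) := by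
    ext w
    change (5 : F) • up L j (Fin.cons x w) = L x (j w) - un L (j.curryLeft x) w
    have h7 : (5 : F) • up L j (Fin.cons x w) = un L j (Fin.cons x w) := by
      rw [← up_smul, AlternatingMap.smul_apply]
      congr 1
      push_cast; norm_num
    rw [h7, un_apply, Fin.sum_univ_succ, un_apply, sub_eq_add_neg, ← Finset.sum_neg_distrib]
    congr 1
    · simp
    · refine Finset.sum_congr rfl fun i _ => ?_
      rw [Fin.cons_succ, Fin.val_succ, pow_succ, mul_neg_one, neg_smul]
      congr 3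
      change j _ = j (Fin.cons x (Fin.removeNth i w))
      congr 1
      funext k
      refine Fin.cases ?_ (fun k => ?_) k
      · simp [Fin.removeNth]
      · simp [Fin.removeNth]
  have h9 : (5 : F) • un L ((up L j).curryLeft x) v = un (ac L x) j v - (5 : F) • L x (up L j v)
      - un L (un L (j.curryLeft x)) v := by
    rw [← AlternatingMap.smul_apply, ← un_smul, h8, sub_eq_add_neg, un_add, AlternatingMap.add_apply]
    have e1 : un L (-(un L (j.curryLeft x))) v = - un L (un L (j.curryLeft x)) v := by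
      have := congrArg (fun g => g v) (un_smul (-1 : F) L (un L (j.curryLeft x)))
      simpa using this
    have e2 : un L ((L x).compAlternatingMap j) v = un (ac L x) j v - (5 : F) • L x (up L j v) := by
      have e3 : (5 : F) • up L j v = un L j v := by
        rw [← up_smul, AlternatingMap.smul_apply]
        congr 1
        push_cast; norm_num
      rw [← map_smul, e3, un_apply, un_apply, un_apply, map_sum, ← Finset.sum_sub_distrib]
      refine Finset.sum_congr rfl fun i _ => ?_
      rw [map_zsmul, ← smul_sub, ac_apply, LinearMap.compAlternatingMap_apply]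
      congr 1
      abel
    rw [e1, e2]
    abel
  have h10 : (30 : F) • L x (up L j v) = (30 : F) • (up L (up L j) (Fin.cons x v) + (1 / 2 : F) • un (ac L x) j v) := by
    linear_combination (norm := module) (-5 : F) • h6 + h9 - (1 / 6 : F) • h4
  exact smul_right_injective U (by norm_num : (30 : F) ≠ 0) h10

/-- the tower over a form -/
noncomputable def tow {m : ℕ} (L : E →ₗ[F] (U →ₗ[F] U)) (j : E [⋀^Fin m]→ₗ[F] U) :
    (k : ℕ) → E [⋀^Fin (m + k)]→ₗ[F] U
  | 0 => j
  | k + 1 => up L (tow L j k)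

theorem tow_rel {m : ℕ} {L : E →ₗ[F] (U →ₗ[F] U)} (hL : Cliff L) {j : E [⋀^Fin m]→ₗ[F] U}
    (h : Rel L j) (k : ℕ) : Rel L (tow L j k) := by
  induction k with
  | zero => exact h
  | succ k ih => exact ih.up hL

/-- the tower over a vector -/
noncomputable def ww (L : E →ₗ[F] (U →ₗ[F] U)) (u0 : U) : (m : ℕ) → E [⋀^Fin m]→ₗ[F] U
  | 0 => AlternatingMap.constOfIsEmpty F E (Fin 0) u0
  | m + 1 => up L (ww L u0 m)

theorem ww_rel {L : E →ₗ[F] (U →ₗ[F] U)} (hL : Cliff L) (u0 : U) (m : ℕ) : Rel L (ww L u0 m) := by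
  induction m with
  | zero => exact rel_const L u0
  | succ m ih => exact ih.up hL

theorem tow_ww {m : ℕ} (L : E →ₗ[F] (U →ₗ[F] U)) (u0 : U) (k : ℕ) :
    tow L (ww L u0 m) k = ww L u0 (m + k) := by
  induction k with
  | zero => rfl
  | succ k ih =>
    change up L (tow L (ww L u0 m) k) = up L (ww L u0 (m + k))
    rw [ih]

/-- iterated action -/
def fold {m : ℕ} (L : E →ₗ[F] (U →ₗ[F] U)) (u0 : U) (v : Fin m → E) : U :=
  (List.ofFn v).foldr (fun a u => L a u) u0

theorem fold_succ {m : ℕ} (L : E →ₗ[F] (U →ₗ[F] U)) (u0 : U) (v : Fin (m + 1) → E) :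
    fold L u0 v = L (v 0) (fold L u0 (Fin.tail v)) := by
  unfold fold
  rw [List.ofFn_succ]
  rfl

theorem psum_fold (L : E →ₗ[F] (U →ₗ[F] U)) (u0 : U) (m : ℕ) (v : Fin m → E) :
    psum m (fold L u0) v = (m.factorial : F) • ww L u0 m v := by
  induction m with
  | zero =>
    unfold psum
    simp [fold, ww]
  | succ m ih =>
    have h1 : (fold L u0 : (Fin (m + 1) → E) → U) = fun z => L (z 0) (fold L u0 (Fin.tail z)) := by
      funext z; exact fold_succ L u0 z
    rw [h1, psum_step L (fold L u0) (m.factorial : F) (ww L u0 m) ih, ww, ← up_smul,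
      AlternatingMap.smul_apply, smul_smul, Nat.factorial_succ]
    congr 1
    push_cast; ring

theorem ww_ortho {L : E →ₗ[F] (U →ₗ[F] U)} (hL : Cliff L) (u0 : U) (m : ℕ) (v : Fin m → E)
    (h : ∀ i j, i ≠ j → ac L (v i) (v j) = 0) : ww L u0 m v = fold L u0 v := by
  induction m with
  | zero => simp [ww, fold]
  | succ m ih =>
    rw [fold_succ, ← ih (Fin.tail v) (fun i j hij => h _ _ (fun h => hij (Fin.succ_injective _ h)))]
    cases m with
    | zero =>
      have := up_cons L (ww L u0 0) (v 0) (Fin.tail v)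
      rw [Fin.cons_self_tail] at this
      simpa [ww] using this
    | succ m =>
      have h1 := ww_rel hL u0 m (v 0) (Fin.tail v)
      rw [Fin.cons_self_tail] at h1
      have h2 : un (ac L (v 0)) (ww L u0 m) (Fin.tail v) = 0 := by
        rw [un_apply]
        apply Finset.sum_eq_zero
        intro i _
        have : ac L (v 0) (Fin.tail v i) = 0 := h 0 i.succ (Fin.succ_ne_zero i).symm
        rw [this, LinearMap.zero_apply, smul_zero]
      rw [h2, smul_zero, add_zero] at h1
      exact h1.symm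

section nat
variable {E' U' : Type} [AddCommGroup E'] [Module F E'] [AddCommGroup U'] [Module F U']

theorem up_nat {m : ℕ} (L : E →ₗ[F] (U →ₗ[F] U)) (L' : E' →ₗ[F] (U' →ₗ[F] U'))
    (g : E →ₗ[F] E') (φ : U →ₗ[F] U') (h : ∀ e u, φ (L e u) = L' (g e) (φ u))
    (j : E [⋀^Fin m]→ₗ[F] U) (j' : E' [⋀^Fin m]→ₗ[F] U') (hj : ∀ v, φ (j v) = j' (g ∘ v))
    (v : Fin (m + 1) → E) : φ (up L j v) = up L' j' (g ∘ v) := by
  rw [up, up, AlternatingMap.smul_apply, AlternatingMap.smul_apply, map_smul, un_apply, un_apply,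
    map_sum]
  congr 1
  refine Finset.sum_congr rfl fun i _ => ?_
  rw [map_zsmul, h, hj]
  rfl

theorem tow_nat {m : ℕ} (L : E →ₗ[F] (U →ₗ[F] U)) (L' : E' →ₗ[F] (U' →ₗ[F] U'))
    (g : E →ₗ[F] E') (φ : U →ₗ[F] U') (h : ∀ e u, φ (L e u) = L' (g e) (φ u))
    (j : E [⋀^Fin m]→ₗ[F] U) (j' : E' [⋀^Fin m]→ₗ[F] U') (hj : ∀ v, φ (j v) = j' (g ∘ v))
    (k : ℕ) (v : Fin (m + k) → E) : φ (tow L j k v) = tow L' j' k (g ∘ v) := by
  induction k with
  | zero => exact hj v
  | succ k ih => exact up_nat L L' g φ h (tow L j k) (tow L' j' k) ih v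

theorem ww_nat (L : E →ₗ[F] (U →ₗ[F] U)) (L' : E' →ₗ[F] (U' →ₗ[F] U'))
    (g : E →ₗ[F] E') (φ : U →ₗ[F] U') (h : ∀ e u, φ (L e u) = L' (g e) (φ u)) (u0 : U)
    (m : ℕ) (v : Fin m → E) : φ (ww L u0 m v) = ww L' (φ u0) m (g ∘ v) := by
  induction m with
  | zero => simp [ww]
  | succ m ih => exact up_nat L L' g φ h (ww L u0 m) (ww L' (φ u0) m) ih v

end nat

end Pool.Agent.Mal.Syz
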