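import Mathlib
import Pool.Agent.Mal.Tower

set_option autoImplicit false
set_option linter.unusedSectionVars false
set_option linter.unusedSimpArgs false

open Finset Equiv

namespace Pool.Agent.Mal.Syz

variable (F : Type) [Field F] (E : Type) [AddCommGroup E] [Module F E]

/-- defining relation: anticommutators of letters are central -/
inductive ClRel : TensorAlgebra F E → TensorAlgebra F E → Prop
  | mk (a b c : E) : ClRel
      ((TensorAlgebra.ι F a * TensorAlgebra.ι F b + TensorAlgebra.ι F b * TensorAlgebra.ι F a)
        * TensorAlgebra.ι F c)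
      (TensorAlgebra.ι F c *
        (TensorAlgebra.ι F a * TensorAlgebra.ι F b + TensorAlgebra.ι F b * TensorAlgebra.ι F a))

/-- the universal algebra in which the anticommutators of letters are central -/
def Cl := RingQuot (ClRel F E)

noncomputable instance : Ring (Cl F E) := inferInstanceAs (Ring (RingQuot (ClRel F E)))
noncomputable instance : Algebra F (Cl F E) := inferInstanceAs (Algebra F (RingQuot (ClRel F E)))

variable {E}

/-- the letters -/
noncomputable def cι : E →ₗ[F] Cl F E :=
  (RingQuot.mkAlgHom F (ClRel F E)).toLinearMap ∘ₗ TensorAlgebra.ι F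

variable {F} [CharZero F]

theorem cι_rel (a b c : E) : (cι F a * cι F b + cι F b * cι F a) * cι F c =
    cι F c * (cι F a * cι F b + cι F b * cι F a) := by
  have := RingQuot.mkAlgHom_rel F (ClRel.mk (F := F) a b c)
  simp only [map_mul, map_add] at this
  exact this

/-- universal property -/
noncomputable def clLift {A : Type} [Ring A] [Algebra F A] (f : E →ₗ[F] A)
    (h : ∀ a b c, (f a * f b + f b * f a) * f c = f c * (f a * f b + f b * f a)) :
    Cl F E →ₐ[F] A :=
  RingQuot.liftAlgHom F ⟨TensorAlgebra.lift F f, by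
    rintro x y ⟨a, b, c⟩
    simpa [map_mul, map_add] using h a b c⟩

theorem clLift_ι {A : Type} [Ring A] [Algebra F A] (f : E →ₗ[F] A)
    (h : ∀ a b c, (f a * f b + f b * f a) * f c = f c * (f a * f b + f b * f a)) (e : E) :
    clLift f h (cι F e) = f e := by
  have : clLift f h (cι F e) = (RingQuot.liftAlgHom F ⟨TensorAlgebra.lift F f, by
    rintro x y ⟨a, b, c⟩
    simpa [map_mul, map_add] using h a b c⟩) (RingQuot.mkAlgHom F (ClRel F E) (TensorAlgebra.ι F e)) := rfl
  rw [this, RingQuot.liftAlgHom_mkAlgHom_apply, TensorAlgebra.lift_ι_apply]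

/-- products of letters -/
noncomputable def wd : List E → Cl F E
  | [] => 1
  | a :: l => cι F a * wd l

theorem wd_append (l l' : List E) : (wd (l ++ l') : Cl F E) = wd l * wd l' := by
  induction l with
  | nil => simp [wd]
  | cons a l ih => simp only [List.cons_append, wd, ih, mul_assoc]

theorem cl_span : Submodule.span F (Set.range (wd : List E → Cl F E)) = ⊤ := by
  obtain ⟨S, hS⟩ : ∃ S : Subalgebra F (Cl F E), S.toSubmodule = Submodule.span F (Set.range (wd : List E → Cl F E)) := by
    refine ⟨(Submodule.span F (Set.range (wd : List E → Cl F E))).toSubalgebra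
      (Submodule.subset_span ⟨[], rfl⟩) ?_, ?_⟩
    · intro x y hx hy
      induction hx using Submodule.span_induction with
      | mem x hx =>
        obtain ⟨l, rfl⟩ := hx
        induction hy using Submodule.span_induction with
        | mem y hy =>
          obtain ⟨l', rfl⟩ := hy
          exact Submodule.subset_span ⟨l ++ l', wd_append l l'⟩
        | zero => rw [mul_zero]; exact Submodule.zero_mem _
        | add a b _ _ ha hb => rw [mul_add]; exact Submodule.add_mem _ ha hb
        | smul c a _ ha => rw [mul_smul_comm]; exact Submodule.smul_mem _ _ ha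
      | zero => rw [zero_mul]; exact Submodule.zero_mem _
      | add a b _ _ ha hb => rw [add_mul]; exact Submodule.add_mem _ ha hb
      | smul c a _ ha => rw [smul_mul_assoc]; exact Submodule.smul_mem _ _ ha
    · rfl
  rw [← hS]
  rw [Algebra.toSubmodule_eq_top]
  rw [eq_top_iff]
  intro x _
  obtain ⟨t, rfl⟩ := RingQuot.mkAlgHom_surjective F (ClRel F E) x
  induction t using TensorAlgebra.induction with
  | algebraMap r => 
    rw [AlgHom.commutes]
    exact S.algebraMap_mem r
  | ι e =>
    have : (RingQuot.mkAlgHom F (ClRel F E)) (TensorAlgebra.ι F e) ∈ S.toSubmodule := by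
      rw [hS]
      refine Submodule.subset_span ⟨[e], ?_⟩
      change cι F e * 1 = _
      rw [mul_one]; rfl
    exact this
  | mul a b ha hb => rw [map_mul]; exact S.mul_mem (ha trivial) (hb trivial)
  | add a b ha hb => rw [map_add]; exact S.add_mem (ha trivial) (hb trivial)

theorem cl_induction {p : Cl F E → Prop} (h1 : p 1) (hm : ∀ e x, p x → p (cι F e * x))
    (ha : ∀ x y, p x → p y → p (x + y)) (hs : ∀ (c : F) x, p x → p (c • x)) (x : Cl F E) : p x := by
  have hx : x ∈ Submodule.span F (Set.range (wd : List E → Cl F E)) := by rw [cl_span]; trivial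
  induction hx using Submodule.span_induction with
  | mem x hx =>
    obtain ⟨l, rfl⟩ := hx
    induction l with
    | nil => exact h1
    | cons a l ih => exact hm a _ ih
  | zero => simpa using hs 0 1 h1
  | add a b _ _ ha' hb => exact ha _ _ ha' hb
  | smul c a _ ha' => exact hs _ _ ha'

theorem cl_hom_ext {A : Type} [Ring A] [Algebra F A] (f g : Cl F E →ₐ[F] A)
    (h : ∀ e, f (cι F e) = g (cι F e)) : f = g := by
  ext x
  induction x using cl_induction with
  | h1 => rw [map_one, map_one]
  | hm e x hx => rw [map_mul, map_mul, h, hx]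
  | ha x y hx hy => rw [map_add, map_add, hx, hy]
  | hs c x hx => rw [map_smul, map_smul, hx]

/-- functoriality -/
noncomputable def clMap {E' : Type} [AddCommGroup E'] [Module F E'] (g : E →ₗ[F] E') :
    Cl F E →ₐ[F] Cl F E' :=
  clLift (cι F ∘ₗ g) (fun a b c => cι_rel (g a) (g b) (g c))

theorem clMap_ι {E' : Type} [AddCommGroup E'] [Module F E'] (g : E →ₗ[F] E') (e : E) :
    clMap g (cι F e) = cι F (g e) := clLift_ι _ _ e

theorem clMap_wd {E' : Type} [AddCommGroup E'] [Module F E'] (g : E →ₗ[F] E') (l : List E) :
    clMap g (wd l) = wd (l.map g) := by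
  induction l with
  | nil => simp [wd]
  | cons a l ih => simp only [List.map_cons, wd, map_mul, clMap_ι, ih]

section act
variable {U : Type} [AddCommGroup U] [Module F U]

/-- the action of the universal algebra on a module -/
noncomputable def clAct (L : E →ₗ[F] (U →ₗ[F] U)) (hL : Cliff L) : Cl F E →ₐ[F] Module.End F U :=
  clLift (A := Module.End F U) L (by
    intro a b c
    ext u
    exact hL a b c u)

theorem clAct_ι (L : E →ₗ[F] (U →ₗ[F] U)) (hL : Cliff L) (e : E) : clAct L hL (cι F e) = L e :=
  clLift_ι _ _ e

theorem clAct_wd (L : E →ₗ[F] (U →ₗ[F] U)) (hL : Cliff L) (e : E) (l : List E) (u : U) :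
    clAct L hL (wd (e :: l)) u = L e (clAct L hL (wd l) u) := by
  rw [wd, map_mul, clAct_ι]; rfl

/-- equivariance -/
theorem clAct_nat {E' U' : Type} [AddCommGroup E'] [Module F E'] [AddCommGroup U'] [Module F U']
    (L : E →ₗ[F] (U →ₗ[F] U)) (hL : Cliff L) (L' : E' →ₗ[F] (U' →ₗ[F] U')) (hL' : Cliff L')
    (g : E →ₗ[F] E') (φ : U →ₗ[F] U') (h : ∀ e u, φ (L e u) = L' (g e) (φ u)) (x : Cl F E) (u : U) :
    φ (clAct L hL x u) = clAct L' hL' (clMap g x) (φ u) := by
  induction x using cl_induction with
  | h1 => simp
  | hm e x hx =>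
    rw [map_mul, map_mul, map_mul, clAct_ι, clMap_ι, clAct_ι, Module.End.mul_apply,
      Module.End.mul_apply, h, hx]
  | ha x y hx hy => simp only [map_add, LinearMap.add_apply, hx, hy]
  | hs c x hx => simp only [map_smul, LinearMap.smul_apply, hx]

end act

/-- left multiplication by letters -/
noncomputable def lm : E →ₗ[F] (Cl F E →ₗ[F] Cl F E) := LinearMap.mul F (Cl F E) ∘ₗ cι F

@[simp] theorem lm_apply (e : E) (x : Cl F E) : lm e x = cι F e * x := rfl

theorem lm_cliff : Cliff (lm : E →ₗ[F] (Cl F E →ₗ[F] Cl F E)) := by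
  intro a b c u
  simp only [ac_apply, lm_apply]
  have := congrArg (fun z => z * u) (cι_rel (F := F) a b c)
  simp only [add_mul, mul_add, mul_assoc] at this ⊢
  exact this

theorem clAct_lm (x y : Cl F E) : clAct lm lm_cliff x y = x * y := by
  induction x using cl_induction with
  | h1 => simp
  | hm e x hx => rw [map_mul, clAct_ι, Module.End.mul_apply, hx, lm_apply, mul_assoc]
  | ha x y hx hy => simp only [map_add, LinearMap.add_apply, hx, hy, add_mul]
  | hs c x hx => simp only [map_smul, LinearMap.smul_apply, hx, smul_mul_assoc]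

end Pool.Agent.Mal.Syz
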