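import Mathlib
import Pool.Agent.Mal.Cl

set_option autoImplicit false
set_option linter.unusedSectionVars false
set_option linter.unusedSimpArgs false

open Finset Equiv

namespace Pool.Agent.Mal.Syz

/-- the multilinear form of the syzygy theorem (proved in `Pool.Agent.Mal.SyzML`) -/
def Stmt_SyzML : Prop :=
  ∀ (F : Type) [Field F] [CharZero F] (E U : Type) [AddCommGroup E] [Module F E]
    [AddCommGroup U] [Module F U] (L : E →ₗ[F] (U →ₗ[F] U)) (hL : Cliff L)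
    (j : E [⋀^Fin 4]→ₗ[F] U) (_ : Rel L j) (n : ℕ) (c : Perm (Fin (n + 4)) → F)
    (_ : ∑ σ : Perm (Fin (n + 4)), c σ •
      ((wd (List.ofFn (fun i : Fin n => Finsupp.single (σ (Fin.castAdd 4 i)) (1 : F))) :
          Cl F (Fin (n + 4) →₀ F)) *
        ww lm 1 4 (fun k : Fin 4 => Finsupp.single (σ (Fin.natAdd n k)) (1 : F))) = 0)
    (b : Fin (n + 4) → E),
    ∑ σ : Perm (Fin (n + 4)), c σ •
      clAct L hL (wd (List.ofFn (fun i : Fin n => b (σ (Fin.castAdd 4 i)))))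
        (j (fun k : Fin 4 => b (σ (Fin.natAdd n k)))) = 0

/-- the module `Ht` -/
def Stmt_Ht : Prop :=
  ∀ (F : Type) [Field F] [CharZero F] (E U : Type) [AddCommGroup E] [Module F E]
    [AddCommGroup U] [Module F U] (L : E →ₗ[F] (U →ₗ[F] U)) (_ : Cliff L)
    (j : E [⋀^Fin 4]→ₗ[F] U) (_ : Rel L j),
    ∃ (H : Type) (_ : AddCommGroup H) (_ : Module F H) (LH : E →ₗ[F] (H →ₗ[F] H))
      (_ : Cliff LH) (one : H) (i : U →ₗ[F] H),
      Function.Injective i ∧ (∀ a u, LH a (i u) = i (L a u)) ∧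
      (∀ y : Fin 4 → E, ∑ s : Perm (Fin 4), (Perm.sign s : ℤ) •
        LH (y (s 0)) (LH (y (s 1)) (LH (y (s 2)) (LH (y (s 3)) one))) = (24 : F) • i (j y)) ∧
      (∀ S : Submodule F H, one ∈ S → (∀ a, ∀ h ∈ S, LH a h ∈ S) → (∀ u, i u ∈ S) → S = ⊤) ∧
      (∀ (O : Type) [AddCommGroup O] [Module F O] (A : E →ₗ[F] (O →ₗ[F] O)) (_ : Cliff A)
        (eU : U →ₗ[F] O) (_ : ∀ a u, A a (eU u) = eU (L a u)) (o1 : O)
        (_ : ∀ y : Fin 4 → E, ∑ s : Perm (Fin 4), (Perm.sign s : ℤ) •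
          A (y (s 0)) (A (y (s 1)) (A (y (s 2)) (A (y (s 3)) o1))) = (24 : F) • eU (j y)),
        ∃ e : H →ₗ[F] O, (∀ a h, e (LH a h) = A a (e h)) ∧ (∀ u, e (i u) = eU u) ∧ e one = o1)

end Pool.Agent.Mal.Syz
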