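import Mathlib
import Pool.Agent.Mal.SyzDefs

set_option autoImplicit false
set_option linter.unusedSectionVars false
set_option linter.unusedSimpArgs false

open Finset Equiv

namespace Pool.Agent.Mal.Syz

/-- Everything the extension theorem needs about a pair `(B, J)`.  `Γ` is the commutative ring of
scalars, `U` is `Jt` (scalar part and vector part in `J`), `O` is the octonion module of the cross
product algebra `Bhat`, `K a b o` is the lift of the Jacobian `J(a,b,o)`, `M j o` the lift of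
`j ∘ o`, `one` the unit of `O`. -/
structure XSys (F : Type) [Field F] (B : Type) [NonUnitalNonAssocRing B] [Module F B]
    (J : Submodule F B) (Γ U O : Type) [CommRing Γ] [Algebra F Γ]
    [AddCommGroup U] [Module F U] [Module Γ U] [IsScalarTower F Γ U]
    [AddCommGroup O] [Module F O] [Module Γ O] [IsScalarTower F Γ O] where
  sq : ∀ x : B, x * x = 0
  idl : ∀ j ∈ J, ∀ b : B, j * b ∈ J
  jac : ∀ a b c : B, (a * b) * c + (b * c) * a + (c * a) * b ∈ J
  q : B → B → Γ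
  L : B →ₗ[F] (U →ₗ[F] U)
  A : B →ₗ[F] (O →ₗ[F] O)
  eU : U →ₗ[F] O
  one : O
  K : B →ₗ[F] B →ₗ[F] (O →ₗ[F] U)
  M : J →ₗ[F] (O →ₗ[F] U)
  j4 : B [⋀^Fin 4]→ₗ[F] U
  L_smul : ∀ (γ : Γ) a u, L a (γ • u) = γ • L a u
  A_smul : ∀ (γ : Γ) a o, A a (γ • o) = γ • A a o
  eU_smul : ∀ (γ : Γ) u, eU (γ • u) = γ • eU u
  K_smul : ∀ (γ : Γ) a b o, K a b (γ • o) = γ • K a b o
  L_ac : ∀ a b u, L a (L b u) + L b (L a u) = (-2 : F) • q a b • u
  A_ac : ∀ a b o, A a (A b o) + A b (A a o) = (-2 : F) • q a b • o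
  eU_L : ∀ a u, eU (L a u) = A a (eU u)
  K_alt : ∀ a o, K a a o = 0
  /-- `(ab) u = 1/2 [a,b] u + 2/3 J(a,b,u)` in `U` -/
  R1 : ∀ a b u, L (a * b) u = (1 / 2 : F) • (L a (L b u) - L b (L a u)) + (2 / 3 : F) • K a b (eU u)
  /-- the same in `O` -/
  R2 : ∀ a b o, A (a * b) o = (1 / 2 : F) • (A a (A b o) - A b (A a o)) + (2 / 3 : F) • eU (K a b o)
  /-- the lift of `G(a;b,c) = 0` -/
  R3 : ∀ a b c o, L a (K b c o) - K b c (A a o) + (2 : F) • K a (b * c) o
    + M ⟨_, jac a b c⟩ o = 0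
  R4 : ∀ (j : J) o, eU (M j o) = A (j : B) o
  R4' : ∀ (j : J) u, M j (eU u) = L (j : B) u
  R5 : ∀ (j : J) (a : B) o, (1 / 2 : F) • (M j (A a o) - L a (M j o)) + (2 / 3 : F) • K (j : B) a o
    = M ⟨(j : B) * a, idl _ j.2 a⟩ o
  /-- the lift of `a J(b,c,o) + J(b,c,a o)` is alternating -/
  R9 : ∀ a c o, L a (K a c o) + K a c (A a o) = 0
  Minj : ∀ j : J, M j one = 0 → j = 0
  /-- relations over `Γ` between the vectors of `O` lift to `K` -/
  K0 : ∀ (s : Finset ℕ) (γ : ℕ → Γ) (b : ℕ → B), ∑ i ∈ s, γ i • A (b i) one = 0 →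
    ∀ c o, ∑ i ∈ s, γ i • K (b i) c o = 0
  rel : Rel L j4
  /-- the fully alternating identities -/
  D : ∀ k ≤ 3, ∀ y : Fin (4 + k) → B,
    psum (4 + k) (fun y =>
      L (y (Fin.castAdd k 0)) (L (y (Fin.castAdd k 3)) (K (y (Fin.castAdd k 1)) (y (Fin.castAdd k 2))
            (fold A one (fun i => y (Fin.natAdd 4 i))))
          + K (y (Fin.castAdd k 1)) (y (Fin.castAdd k 2)) (A (y (Fin.castAdd k 3))
            (fold A one (fun i => y (Fin.natAdd 4 i)))))
        - (L (y (Fin.castAdd k 3)) (K (y (Fin.castAdd k 1)) (y (Fin.castAdd k 2))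
            (A (y (Fin.castAdd k 0)) (fold A one (fun i => y (Fin.natAdd 4 i)))))
          + K (y (Fin.castAdd k 1)) (y (Fin.castAdd k 2)) (A (y (Fin.castAdd k 3))
            (A (y (Fin.castAdd k 0)) (fold A one (fun i => y (Fin.natAdd 4 i))))))) y
      = (-6 * ((4 + k).factorial : F)) • tow L j4 k y

end Pool.Agent.Mal.Syz
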