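import Mathlib

set_option autoImplicit false
set_option linter.unusedSectionVars false

namespace Pool.Agent.Mal

section vand

variable {F : Type} [Field F] [CharZero F] {W : Type} [AddCommGroup W] [Module F W]

theorem vand (s : Finset ℕ) (A : ℕ → W) (h : ∀ c : F, ∑ j ∈ s, c ^ j • A j = 0) :
    ∀ j ∈ s, A j = 0 := by
  intro j hj
  rw [← Module.forall_dual_apply_eq_zero_iff F]
  intro l
  let p : Polynomial F := ∑ i ∈ s, Polynomial.monomial i (l (A i))
  have hp : p = 0 := by
    apply Polynomial.funext
    intro c
    have h1 := congrArg l (h c)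
    simp only [map_sum, map_smul, smul_eq_mul, map_zero] at h1
    simp only [p, Polynomial.eval_finsetSum, Polynomial.eval_monomial, Polynomial.eval_zero]
    rw [← h1]
    exact Finset.sum_congr rfl fun i _ => mul_comm _ _
  have h2 : p.coeff j = l (A j) := by
    simp only [p, Polynomial.finsetSum_coeff, Polynomial.coeff_monomial]
    rw [Finset.sum_ite_eq' s j]
    simp [hj]
  rw [← h2, hp, Polynomial.coeff_zero]

end vand

section poly

variable {R W : Type} [CommRing R] [AddCommGroup W] [Module R W]

/-- polynomial functions of one scalar with values in a module -/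
def IsPoly (p : R → W) : Prop := ∃ (s : Finset ℕ) (A : ℕ → W), ∀ r, p r = ∑ j ∈ s, r ^ j • A j

theorem IsPoly.zero : IsPoly (fun _ : R => (0 : W)) := ⟨∅, 0, by intro r; simp⟩

theorem IsPoly.mono (k : ℕ) (a : W) : IsPoly (fun r : R => r ^ k • a) :=
  ⟨{k}, fun _ => a, by intro r; simp⟩

theorem IsPoly.const (a : W) : IsPoly (fun _ : R => a) :=
  ⟨{0}, fun _ => a, by intro r; simp⟩

theorem IsPoly.add {p q : R → W} (hp : IsPoly p) (hq : IsPoly q) : IsPoly (fun r => p r + q r) := by
  classical
  obtain ⟨s, A, hA⟩ := hp
  obtain ⟨t, B, hB⟩ := hq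
  refine ⟨s ∪ t, fun j => (if j ∈ s then A j else 0) + (if j ∈ t then B j else 0), ?_⟩
  intro r
  beta_reduce
  rw [hA, hB]
  simp only [smul_add, Finset.sum_add_distrib]
  congr 1
  · rw [← Finset.sum_subset (Finset.subset_union_left : s ⊆ s ∪ t)]
    · exact Finset.sum_congr rfl fun i hi => by rw [if_pos hi]
    · intro i _ hi; rw [if_neg hi, smul_zero]
  · rw [← Finset.sum_subset (Finset.subset_union_right : t ⊆ s ∪ t)]
    · exact Finset.sum_congr rfl fun i hi => by rw [if_pos hi]
    · intro i _ hi; rw [if_neg hi, smul_zero]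

theorem IsPoly.sum {ι : Type} (s : Finset ι) (p : ι → R → W) (hp : ∀ i ∈ s, IsPoly (p i)) :
    IsPoly (fun r => ∑ i ∈ s, p i r) := by
  classical
  induction s using Finset.induction_on with
  | empty => simpa using IsPoly.zero
  | insert i s hi ih =>
    have h := (hp i (Finset.mem_insert_self i s)).add
      (ih (fun k hk => hp k (Finset.mem_insert_of_mem hk)))
    simpa [Finset.sum_insert hi] using h

theorem IsPoly.eq_zero {F : Type} [Field F] [CharZero F] [Algebra F R] {p : R → W} (hp : IsPoly p)
    (h : ∀ c : F, p (algebraMap F R c) = 0) (r : R) : p r = 0 := by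
  let _ : Module F W := Module.compHom W (algebraMap F R)
  obtain ⟨s, A, hA⟩ := hp
  have h1 := vand (F := F) s A (by
    intro c
    have := h c
    rw [hA] at this
    rw [← this]
    refine Finset.sum_congr rfl fun j _ => ?_
    rw [← map_pow]; rfl)
  rw [hA]
  exact Finset.sum_eq_zero fun j hj => by rw [h1 j hj, smul_zero]

end poly

section alg

variable {R A : Type} [CommRing R] [NonUnitalNonAssocRing A] [Module R A] [IsScalarTower R A A]
  [SMulCommClass R A A]

theorem IsPoly.mul {p q : R → A} (hp : IsPoly p) (hq : IsPoly q) : IsPoly (fun r => p r * q r) := by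
  obtain ⟨s, P, hP⟩ := hp
  obtain ⟨t, Q, hQ⟩ := hq
  have : (fun r => p r * q r) = fun r => ∑ i ∈ s, ∑ j ∈ t, r ^ (i + j) • (P i * Q j) := by
    funext r
    rw [hP, hQ, Finset.sum_mul_sum]
    refine Finset.sum_congr rfl fun i _ => Finset.sum_congr rfl fun j _ => ?_
    rw [smul_mul_smul_comm, pow_add]
  rw [this]
  exact IsPoly.sum _ _ fun i _ => IsPoly.sum _ _ fun j _ => IsPoly.mono _ _

theorem IsPoly.magma (u : ℕ → R → A) (hu : ∀ i, IsPoly (u i)) (m : FreeMagma ℕ) :
    IsPoly (fun r => FreeMagma.lift (fun i => u i r) m) := by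
  induction m with
  | ih1 i => exact hu i
  | ih2 x y hx hy =>
    simp only [map_mul]
    exact hx.mul hy

variable {F : Type} [Field F] [CharZero F] [Algebra F R] [Module F A] [IsScalarTower F R A]
  [IsScalarTower F A A] [SMulCommClass F A A]

theorem lift_apply (v : ℕ → A) (f : FreeNonUnitalNonAssocAlgebra F ℕ) :
    FreeNonUnitalNonAssocAlgebra.lift F v f = f.coeff.sum fun m c => c • FreeMagma.lift v m := rfl

theorem IsPoly.lift (u : ℕ → R → A) (hu : ∀ i, IsPoly (u i)) (f : FreeNonUnitalNonAssocAlgebra F ℕ) :
    IsPoly (fun r => FreeNonUnitalNonAssocAlgebra.lift F (fun i => u i r) f) := by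
  simp only [lift_apply]
  unfold Finsupp.sum
  apply IsPoly.sum
  intro m _
  obtain ⟨s, P, hP⟩ := IsPoly.magma u hu m
  refine ⟨s, fun j => f.coeff m • P j, fun r => ?_⟩
  have hr := hP r
  beta_reduce at hr ⊢
  rw [hr, Finset.smul_sum]
  refine Finset.sum_congr rfl fun j _ => ?_
  rw [← algebraMap_smul R (f.coeff m) (P j), ← algebraMap_smul R (f.coeff m) (_ • P j), smul_smul,
    smul_smul, mul_comm]

/-- a bound for the letters of a word -/
def bd (m : FreeMagma ℕ) : ℕ := FreeMagma.recOnMul m (fun i => i + 1) (fun _ _ a b => max a b)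

theorem bd_mul (x y : FreeMagma ℕ) : bd (x * y) = max (bd x) (bd y) := rfl

theorem bd_of (i : ℕ) : bd (FreeMagma.of i) = i + 1 := rfl

theorem magma_congr {B : Type} [Mul B] (v v' : ℕ → B) (m : FreeMagma ℕ)
    (h : ∀ i < bd m, v i = v' i) : FreeMagma.lift v m = FreeMagma.lift v' m := by
  induction m with
  | ih1 i => exact h i (by rw [bd_of]; omega)
  | ih2 x y hx hy =>
    rw [bd_mul] at h
    rw [map_mul, map_mul, hx (fun i hi => h i (lt_of_lt_of_le hi (le_max_left _ _))),
      hy (fun i hi => h i (lt_of_lt_of_le hi (le_max_right _ _)))]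

theorem exists_bd (f : FreeNonUnitalNonAssocAlgebra F ℕ) : ∃ N : ℕ, ∀ v v' : ℕ → A,
    (∀ i < N, v i = v' i) → FreeNonUnitalNonAssocAlgebra.lift F v f
      = FreeNonUnitalNonAssocAlgebra.lift F v' f := by
  refine ⟨f.coeff.support.sup bd, fun v v' h => ?_⟩
  rw [lift_apply, lift_apply]
  unfold Finsupp.sum
  refine Finset.sum_congr rfl fun m hm => ?_
  beta_reduce
  rw [magma_congr v v' m fun i hi => h i (lt_of_lt_of_le hi (Finset.le_sup (f := bd) hm))]

theorem vanish_span (W : Submodule F A) (f : FreeNonUnitalNonAssocAlgebra F ℕ)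
    (hW : ∀ v : ℕ → A, (∀ i, v i ∈ W) → FreeNonUnitalNonAssocAlgebra.lift F v f = 0)
    (v : ℕ → A) (hv : ∀ i, v i ∈ Submodule.span R (W : Set A)) :
    FreeNonUnitalNonAssocAlgebra.lift F v f = 0 := by
  classical
  have key : ∀ n : ℕ, ∀ v : ℕ → A, (∀ i < n, v i ∈ Submodule.span R (W : Set A)) →
      (∀ i, n ≤ i → v i ∈ W) → FreeNonUnitalNonAssocAlgebra.lift F v f = 0 := by
    intro n
    induction n with
    | zero => intro v _ h; exact hW v fun i => h i (Nat.zero_le _)
    | succ n ih =>
      intro v h1 h2
      have key2 : ∀ (m : ℕ) (r : Fin m → R) (g : Fin m → A), (∀ k, g k ∈ W) → ∀ w ∈ W,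
          FreeNonUnitalNonAssocAlgebra.lift F (Function.update v n (w + ∑ k, r k • g k)) f = 0 := by
        intro m
        induction m with
        | zero =>
          intro r g _ w hw
          apply ih
          · intro i hi
            rw [Function.update_of_ne (by omega)]
            exact h1 i (by omega)
          · intro i hi
            rcases Nat.eq_or_lt_of_le hi with rfl | hi
            · simpa using hw
            · rw [Function.update_of_ne (by omega)]
              exact h2 i hi
        | succ m ihm =>
          intro r g hg w hw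
          have hp : IsPoly (fun c : R => FreeNonUnitalNonAssocAlgebra.lift F
              (fun i => (Function.update v n (w + ∑ k : Fin m, r k.castSucc • g k.castSucc
                + c • g (Fin.last m))) i) f) := by
            apply IsPoly.lift (u := fun i c => (Function.update v n (w + ∑ k : Fin m,
              r k.castSucc • g k.castSucc + c • g (Fin.last m))) i)
            intro i
            by_cases hi : i = n
            · subst hi
              simp only [Function.update_self]
              refine (IsPoly.const _).add ?_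
              have := IsPoly.mono (R := R) 1 (g (Fin.last m))
              simpa using this
            · simp only [Function.update_of_ne hi]
              exact IsPoly.const _
          have h3 := hp.eq_zero (F := F) (by
            intro c
            have h4 := ihm (fun k => r k.castSucc) (fun k => g k.castSucc) (fun k => hg _)
              (w + c • g (Fin.last m)) (W.add_mem hw (W.smul_mem c (hg _)))
            rw [algebraMap_smul]
            rw [← h4]
            congr 2
            funext i
            congr 1
            abel) (r (Fin.last m))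
          rw [Fin.sum_univ_castSucc, ← add_assoc]
          exact h3
      obtain ⟨m, r, g, hg⟩ := Submodule.mem_span_set'.mp (h1 n (Nat.lt_succ_self n))
      have h5 := key2 m r (fun k => (g k : A)) (fun k => (g k).2) 0 W.zero_mem
      rwa [zero_add, hg, Function.update_eq_self] at h5
  obtain ⟨N, hN⟩ := exists_bd (A := A) f
  rw [hN v (fun i => if i < N then v i else 0) (fun i hi => by simp [hi])]
  apply key N
  · intro i hi; simpa [hi] using hv i
  · intro i hi; simp [Nat.not_lt.mpr hi]

/-- the component of degree `j` -/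
noncomputable def wj (v : ℕ → A) (f : FreeNonUnitalNonAssocAlgebra F ℕ) (j : ℕ) : A :=
  ∑ m ∈ f.coeff.support with m.length = j, f.coeff m • FreeMagma.lift v m

theorem length_pos (m : FreeMagma ℕ) : 0 < m.length := by
  induction m with
  | ih1 i => exact Nat.one_pos
  | ih2 x y hx hy => exact Nat.add_pos_left hx _

theorem magma_smul (s : R) (v : ℕ → A) (m : FreeMagma ℕ) :
    FreeMagma.lift (fun i => s • v i) m = s ^ m.length • FreeMagma.lift v m := by
  induction m with
  | ih1 i => simp [FreeMagma.length]
  | ih2 x y hx hy =>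
    rw [map_mul, map_mul, hx, hy, smul_mul_smul_comm, ← pow_add]; rfl

theorem sum_wj (v : ℕ → A) (f : FreeNonUnitalNonAssocAlgebra F ℕ) :
    FreeNonUnitalNonAssocAlgebra.lift F v f
      = ∑ j ∈ f.coeff.support.image FreeMagma.length, wj v f j := by
  rw [lift_apply]
  unfold Finsupp.sum wj
  rw [Finset.sum_fiberwise_of_maps_to]
  intro m hm
  exact Finset.mem_image_of_mem _ hm

theorem wj_smul (s : R) (v : ℕ → A) (f : FreeNonUnitalNonAssocAlgebra F ℕ) (j : ℕ) :
    wj (fun i => s • v i) f j = s ^ j • wj v f j := by
  unfold wj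
  rw [Finset.smul_sum]
  refine Finset.sum_congr rfl fun m hm => ?_
  rw [magma_smul, (Finset.mem_filter.mp hm).2]
  rw [← algebraMap_smul R (f.coeff m) (FreeMagma.lift v m),
    ← algebraMap_smul R (f.coeff m) (_ • FreeMagma.lift v m), smul_smul,
    smul_smul, mul_comm]

theorem wj_eq_zero_of (s : R) (v : ℕ → A) (f : FreeNonUnitalNonAssocAlgebra F ℕ)
    (h : ∀ c : F, FreeNonUnitalNonAssocAlgebra.lift F (fun i => c • s • v i) f = 0) (j : ℕ) :
    s ^ j • wj v f j = 0 := by
  by_cases hj : j ∈ f.coeff.support.image FreeMagma.length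
  · have h1 := vand (F := F) (f.coeff.support.image FreeMagma.length) (fun j => s ^ j • wj v f j) (by
      intro c
      have h2 := h c
      rw [sum_wj] at h2
      rw [← h2]
      refine Finset.sum_congr rfl fun k _ => ?_
      have h3 : (fun i => c • s • v i) = fun i => (algebraMap F R c * s) • v i := by
        funext i; rw [mul_smul, algebraMap_smul]
      rw [h3, wj_smul, mul_pow, ← map_pow, mul_smul, algebraMap_smul])
    exact h1 j hj
  · have : wj v f j = 0 := by
      unfold wj
      apply Finset.sum_eq_zero
      intro m hm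
      exact absurd (Finset.mem_image.mpr ⟨m, (Finset.mem_filter.mp hm).1, (Finset.mem_filter.mp hm).2⟩) hj
    rw [this, smul_zero]

end alg

end Pool.Agent.Mal
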