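import Pool.Agent.Mal.SyzDefs
import Pool.Agent.Mal.EvalLem

/-! The module `Ht` from the multilinear syzygy theorem. -/

set_option autoImplicit false
set_option linter.unusedSectionVars false
set_option linter.unusedSimpArgs false

open Finset Equiv

namespace Pool.Agent.Mal.Syz.HtX

section pol
variable {F : Type} [Field F]

/-- inclusion-exclusion -/
theorem ie {m : ℕ} (T : Finset (Fin m)) :
    ∑ S : Finset (Fin m), (if T ⊆ S then (-1 : F) ^ S.card else 0) =
      if T = univ then (-1 : F) ^ m else 0 := by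
  by_cases hT : T = univ
  · subst hT
    rw [if_pos rfl, Finset.sum_eq_single univ]
    · simp
    · intro S _ hS
      rw [if_neg]
      intro h
      exact hS (Finset.univ_subset_iff.1 h)
    · intro h; exact absurd (Finset.mem_univ _) h
  · rw [if_neg hT]
    obtain ⟨p, hp⟩ : ∃ p, p ∉ T := by
      by_contra h
      push Not at h
      exact hT (Finset.eq_univ_iff_forall.2 h)
    refine Finset.sum_involution (fun S _ => if p ∈ S then S.erase p else insert p S) ?_ ?_ ?_ ?_
    · intro S _
      by_cases hpS : p ∈ S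
      · simp only [if_pos hpS]
        have hsub : T ⊆ S.erase p ↔ T ⊆ S := by
          constructor
          · intro h; exact h.trans (Finset.erase_subset _ _)
          · intro h; exact Finset.subset_erase.2 ⟨h, hp⟩
        by_cases hTS : T ⊆ S
        · rw [if_pos hTS, if_pos (hsub.2 hTS)]
          have := Finset.card_erase_add_one hpS
          rw [← this, pow_succ]; ring
        · rw [if_neg hTS, if_neg (fun h => hTS (hsub.1 h)), add_zero]
      · simp only [if_neg hpS]
        have hsub : T ⊆ insert p S ↔ T ⊆ S := by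
          constructor
          · intro h x hx
            rcases Finset.mem_insert.1 (h hx) with h' | h'
            · exact absurd (h' ▸ hx) hp
            · exact h'
          · intro h; exact h.trans (Finset.subset_insert _ _)
        by_cases hTS : T ⊆ S
        · rw [if_pos hTS, if_pos (hsub.2 hTS), Finset.card_insert_of_notMem hpS, pow_succ]; ring
        · rw [if_neg hTS, if_neg (fun h => hTS (hsub.1 h)), add_zero]
    · intro S _ _ h
      by_cases hpS : p ∈ S
      · simp only [if_pos hpS] at h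
        rw [← h] at hpS
        exact Finset.notMem_erase p S hpS
      · simp only [if_neg hpS] at h
        apply hpS
        rw [← h]
        exact Finset.mem_insert_self _ _
    · intro S _; exact Finset.mem_univ _
    · intro S _
      by_cases hpS : p ∈ S
      · simp only [if_pos hpS, if_neg (Finset.notMem_erase p S)]
        exact Finset.insert_erase hpS
      · simp only [if_neg hpS, if_pos (Finset.mem_insert_self p S)]
        exact Finset.erase_insert hpS

/-- polarisation -/
theorem polar {m : ℕ} {E W : Type} [AddCommGroup E] [Module F E] [AddCommGroup W] [Module F W]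
    (M : MultilinearMap F (fun _ : Fin m => (Fin m →₀ F)) W) (ξ : Fin m → (E →ₗ[F] F))
    (v : Fin m → E) :
    ∑ S : Finset (Fin m), (-1 : F) ^ S.card •
      M (fun q => ∑ p ∈ S, ξ p (v q) • Finsupp.single p (1 : F)) =
    (-1 : F) ^ m • ∑ τ : Perm (Fin m), (∏ q, ξ (τ q) (v q)) •
      M (fun q => Finsupp.single (τ q) (1 : F)) := by
  classical
  have h1 : ∀ S : Finset (Fin m), M (fun q => ∑ p ∈ S, ξ p (v q) • Finsupp.single p (1 : F)) =
      ∑ f : Fin m → Fin m, (if univ.image f ⊆ S then (∏ q, ξ (f q) (v q)) •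
        M (fun q => Finsupp.single (f q) (1 : F)) else 0) := by
    intro S
    rw [MultilinearMap.map_sum_finset, ← Finset.sum_filter]
    refine Finset.sum_congr ?_ ?_
    · ext f
      simp [Fintype.mem_piFinset, Finset.image_subset_iff]
    · intro f _
      exact M.map_smul_univ (fun q => ξ (f q) (v q)) (fun q => Finsupp.single (f q) (1 : F))
  have h2 : ∑ S : Finset (Fin m), (-1 : F) ^ S.card •
      M (fun q => ∑ p ∈ S, ξ p (v q) • Finsupp.single p (1 : F)) =
      ∑ f : Fin m → Fin m, (∑ S : Finset (Fin m),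
        (if univ.image f ⊆ S then (-1 : F) ^ S.card else 0)) • ((∏ q, ξ (f q) (v q)) •
        M (fun q => Finsupp.single (f q) (1 : F))) := by
    rw [Finset.sum_congr rfl (fun S _ => by rw [h1 S, Finset.smul_sum]), Finset.sum_comm]
    refine Finset.sum_congr rfl fun f _ => ?_
    rw [Finset.sum_smul]
    refine Finset.sum_congr rfl fun S _ => ?_
    by_cases h : univ.image f ⊆ S
    · rw [if_pos h, if_pos h]
    · rw [if_neg h, if_neg h, smul_zero, zero_smul]
  rw [h2, Finset.sum_congr rfl (fun f _ => by rw [ie])]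
  have h3 : ∀ f : Fin m → Fin m, (if univ.image f = univ then (-1 : F) ^ m else 0) •
      ((∏ q, ξ (f q) (v q)) • M (fun q => Finsupp.single (f q) (1 : F))) =
      if univ.image f = univ then (-1 : F) ^ m • ((∏ q, ξ (f q) (v q)) •
        M (fun q => Finsupp.single (f q) (1 : F))) else 0 := by
    intro f
    by_cases h : univ.image f = univ
    · rw [if_pos h, if_pos h]
    · rw [if_neg h, if_neg h, zero_smul]
  rw [Finset.sum_congr rfl (fun f _ => h3 f), ← Finset.sum_filter, Finset.smul_sum]
  symm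
  refine Finset.sum_nbij (fun τ : Perm (Fin m) => (τ : Fin m → Fin m)) ?_ ?_ ?_ ?_
  · intro τ _
    rw [Finset.mem_filter]
    exact ⟨Finset.mem_univ _, Finset.image_univ_of_surjective τ.surjective⟩
  · intro τ _ τ' _ h
    exact Equiv.ext (congrFun h)
  · intro f hf
    have hf' : univ.image f = univ := (Finset.mem_filter.1 hf).2
    have hs : Function.Surjective f := by
      intro y
      have : y ∈ univ.image f := by rw [hf']; exact Finset.mem_univ y
      obtain ⟨x, _, hx⟩ := Finset.mem_image.1 this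
      exact ⟨x, hx⟩
    have hb : Function.Bijective f := Finite.surjective_iff_bijective.1 hs
    exact ⟨Equiv.ofBijective f hb, Finset.mem_coe.2 (Finset.mem_univ _), rfl⟩
  · intro τ _; rfl

end pol

section spl
variable {F : Type} [Field F] {E A B C : Type} [AddCommGroup E] [Module F E] [AddCommGroup A]
  [Module F A] [AddCommGroup B] [Module F B] [AddCommGroup C] [Module F C]

theorem upd_ll {n : ℕ} [DecidableEq (Fin (n + 4))] (v : Fin (n + 4) → E) (i : Fin n) (x : E) :
    (fun k : Fin n => Function.update v (Fin.castAdd 4 i) x (Fin.castAdd 4 k)) =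
      Function.update (fun k : Fin n => v (Fin.castAdd 4 k)) i x := by
  funext k
  by_cases h : k = i
  · subst h
    rw [Function.update_self, Function.update_self]
  · rw [Function.update_of_ne h, Function.update_of_ne]
    intro h'
    exact h (Fin.castAdd_injective n 4 h')

theorem upd_lr {n : ℕ} [DecidableEq (Fin (n + 4))] (v : Fin (n + 4) → E) (i : Fin n) (x : E) :
    (fun k : Fin 4 => Function.update v (Fin.castAdd 4 i) x (Fin.natAdd n k)) =
      (fun k : Fin 4 => v (Fin.natAdd n k)) := by
  funext k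
  rw [Function.update_of_ne]
  intro h'
  have := congrArg Fin.val h'
  rw [Fin.val_natAdd, Fin.val_castAdd] at this
  omega

theorem upd_rr {n : ℕ} [DecidableEq (Fin (n + 4))] (v : Fin (n + 4) → E) (i : Fin 4) (x : E) :
    (fun k : Fin 4 => Function.update v (Fin.natAdd n i) x (Fin.natAdd n k)) =
      Function.update (fun k : Fin 4 => v (Fin.natAdd n k)) i x := by
  funext k
  by_cases h : k = i
  · subst h
    rw [Function.update_self, Function.update_self]
  · rw [Function.update_of_ne h, Function.update_of_ne]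
    intro h'
    have := congrArg Fin.val h'
    rw [Fin.val_natAdd, Fin.val_natAdd] at this
    exact h (Fin.ext (by omega))

theorem upd_rl {n : ℕ} [DecidableEq (Fin (n + 4))] (v : Fin (n + 4) → E) (i : Fin 4) (x : E) :
    (fun k : Fin n => Function.update v (Fin.natAdd n i) x (Fin.castAdd 4 k)) =
      (fun k : Fin n => v (Fin.castAdd 4 k)) := by
  funext k
  rw [Function.update_of_ne]
  intro h'
  have := congrArg Fin.val h'
  rw [Fin.val_natAdd, Fin.val_castAdd] at this
  omega

/-- product of two multilinear maps in separate variables -/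
def spl {n : ℕ} (β : A →ₗ[F] B →ₗ[F] C) (f : MultilinearMap F (fun _ : Fin n => E) A)
    (g : MultilinearMap F (fun _ : Fin 4 => E) B) :
    MultilinearMap F (fun _ : Fin (n + 4) => E) C where
  toFun v := β (f (fun i => v (Fin.castAdd 4 i))) (g (fun k => v (Fin.natAdd n k)))
  map_update_add' := by
    intro _ v i x y
    refine Fin.addCases (fun i => ?_) (fun i => ?_) i
    · rw [upd_ll, upd_ll, upd_ll, upd_lr, upd_lr, upd_lr, f.map_update_add, map_add,
        LinearMap.add_apply]
    · rw [upd_rr, upd_rr, upd_rr, upd_rl, upd_rl, upd_rl, g.map_update_add, map_add]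
  map_update_smul' := by
    intro _ v i c x
    refine Fin.addCases (fun i => ?_) (fun i => ?_) i
    · rw [upd_ll, upd_ll, upd_lr, upd_lr, f.map_update_smul, map_smul,
        LinearMap.smul_apply]
    · rw [upd_rr, upd_rr, upd_rl, upd_rl, g.map_update_smul, map_smul]

end spl

section main
variable {F : Type} [Field F] [CharZero F] {E U : Type} [AddCommGroup E] [Module F E]
  [AddCommGroup U] [Module F U]

theorem wd_eq (l : List E) : (wd l : Cl F E) = (l.map (cι F)).prod := by
  induction l with
  | nil => simp [wd]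
  | cons a l ih => simp [wd, ih]

/-- words as a multilinear map -/
noncomputable def fW (F E : Type) [Field F] [CharZero F] [AddCommGroup E] [Module F E] (n : ℕ) :
    MultilinearMap F (fun _ : Fin n => E) (Cl F E) :=
  (MultilinearMap.mkPiAlgebraFin F n (Cl F E)).compLinearMap (fun _ => cι F)

theorem fW_apply (n : ℕ) (v : Fin n → E) : fW F E n v = wd (List.ofFn v) := by
  rw [fW, MultilinearMap.compLinearMap_apply, MultilinearMap.mkPiAlgebraFin_apply, wd_eq,
    List.map_ofFn]
  rfl

noncomputable def Phi (F E : Type) [Field F] [CharZero F] [AddCommGroup E] [Module F E] (n : ℕ) :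
    MultilinearMap F (fun _ : Fin (n + 4) => E) (Cl F E) :=
  spl (LinearMap.mul F (Cl F E)) (fW F E n) (ww lm (1 : Cl F E) 4).toMultilinearMap

noncomputable def Psi (L : E →ₗ[F] (U →ₗ[F] U)) (hL : Cliff L) (j : E [⋀^Fin 4]→ₗ[F] U) (n : ℕ) :
    MultilinearMap F (fun _ : Fin (n + 4) => E) U :=
  spl ((clAct L hL).toLinearMap : Cl F E →ₗ[F] (U →ₗ[F] U)) (fW F E n) j.toMultilinearMap

theorem Phi_apply (n : ℕ) (v : Fin (n + 4) → E) : Phi F E n v =
    wd (List.ofFn (fun i : Fin n => v (Fin.castAdd 4 i))) *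
      ww lm (1 : Cl F E) 4 (fun k : Fin 4 => v (Fin.natAdd n k)) := by
  rw [← fW_apply]; rfl

theorem Psi_apply (L : E →ₗ[F] (U →ₗ[F] U)) (hL : Cliff L) (j : E [⋀^Fin 4]→ₗ[F] U) (n : ℕ)
    (v : Fin (n + 4) → E) : Psi L hL j n v =
    clAct L hL (wd (List.ofFn (fun i : Fin n => v (Fin.castAdd 4 i))))
      (j (fun k : Fin 4 => v (Fin.natAdd n k))) := by
  rw [← fW_apply]; rfl

theorem clMap_ww {E' : Type} [AddCommGroup E'] [Module F E'] (g : E →ₗ[F] E') (y : Fin 4 → E) :
    clMap g (ww lm (1 : Cl F E) 4 y) = ww lm (1 : Cl F E') 4 (g ∘ y) := by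
  have := ww_nat (lm : E →ₗ[F] (Cl F E →ₗ[F] Cl F E)) (lm : E' →ₗ[F] (Cl F E' →ₗ[F] Cl F E')) g
    (clMap g).toLinearMap (by
      intro e u
      simp [clMap_ι]) (1 : Cl F E) 4 y
  simpa using this

theorem Phi_nat {E' : Type} [AddCommGroup E'] [Module F E'] (g : E →ₗ[F] E') (n : ℕ)
    (v : Fin (n + 4) → E) : clMap g (Phi F E n v) = Phi F E' n (g ∘ v) := by
  rw [Phi_apply, Phi_apply, map_mul, clMap_wd, clMap_ww, List.map_ofFn]
  rfl

theorem hom_core (h : Stmt_SyzML) (L : E →ₗ[F] (U →ₗ[F] U)) (hL : Cliff L)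
    (j : E [⋀^Fin 4]→ₗ[F] U) (hR : Rel L j) (n : ℕ) {κ : Type} (P : Finset κ) (c : κ → F)
    (e : κ → Fin (n + 4) → E) (h0 : ∑ k ∈ P, c k • Phi F E n (e k) = 0) :
    ∑ k ∈ P, c k • Psi L hL j n (e k) = 0 := by
  classical
  -- polarised relation
  have h2 : ∀ ξ : Fin (n + 4) → (E →ₗ[F] F), ∑ τ : Perm (Fin (n + 4)),
      (∑ k ∈ P, c k * ∏ q, ξ (τ q) (e k q)) •
        Phi F (Fin (n + 4) →₀ F) n (fun q => Finsupp.single (τ q) (1 : F)) = 0 := by
    intro ξ
    have hS : ∀ S : Finset (Fin (n + 4)), ∑ k ∈ P, c k • Phi F (Fin (n + 4) →₀ F) n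
        (fun q => ∑ p ∈ S, ξ p (e k q) • Finsupp.single p (1 : F)) = 0 := by
      intro S
      have h3 := congrArg (clMap (∑ p ∈ S, (ξ p).smulRight (Finsupp.single p (1 : F)))) h0
      rw [map_sum, map_zero] at h3
      rw [← h3]
      refine Finset.sum_congr rfl fun k _ => ?_
      rw [map_smul, Phi_nat]
      congr 2
      funext q
      simp [LinearMap.sum_apply]
    have h4 : ∑ S : Finset (Fin (n + 4)), (-1 : F) ^ S.card • ∑ k ∈ P, c k •
        Phi F (Fin (n + 4) →₀ F) n
        (fun q => ∑ p ∈ S, ξ p (e k q) • Finsupp.single p (1 : F)) = 0 :=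
      Finset.sum_eq_zero fun S _ => by rw [hS S, smul_zero]
    have h5 : ∑ S : Finset (Fin (n + 4)), (-1 : F) ^ S.card • ∑ k ∈ P, c k •
        Phi F (Fin (n + 4) →₀ F) n
        (fun q => ∑ p ∈ S, ξ p (e k q) • Finsupp.single p (1 : F)) =
        ∑ k ∈ P, c k • ∑ S : Finset (Fin (n + 4)), (-1 : F) ^ S.card •
        Phi F (Fin (n + 4) →₀ F) n
        (fun q => ∑ p ∈ S, ξ p (e k q) • Finsupp.single p (1 : F)) := by
      rw [Finset.sum_congr rfl (fun S _ => by rw [Finset.smul_sum]), Finset.sum_comm]
      refine Finset.sum_congr rfl fun k _ => ?_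
      rw [Finset.smul_sum]
      exact Finset.sum_congr rfl fun S _ => smul_comm _ _ _
    rw [h5] at h4
    have h6 : ∑ k ∈ P, c k • ∑ S : Finset (Fin (n + 4)), (-1 : F) ^ S.card •
        Phi F (Fin (n + 4) →₀ F) n
        (fun q => ∑ p ∈ S, ξ p (e k q) • Finsupp.single p (1 : F)) =
        (-1 : F) ^ (n + 4) • ∑ τ : Perm (Fin (n + 4)),
      (∑ k ∈ P, c k * ∏ q, ξ (τ q) (e k q)) •
        Phi F (Fin (n + 4) →₀ F) n (fun q => Finsupp.single (τ q) (1 : F)) := by
      rw [Finset.sum_congr rfl (fun k _ => by rw [polar])]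
      rw [Finset.sum_congr rfl (fun k _ => by rw [smul_comm (c k) ((-1 : F) ^ (n + 4))]),
        ← Finset.smul_sum]
      congr 1
      rw [Finset.sum_congr rfl (fun k _ => by rw [Finset.smul_sum]), Finset.sum_comm]
      refine Finset.sum_congr rfl fun τ _ => ?_
      rw [Finset.sum_smul]
      exact Finset.sum_congr rfl fun k _ => smul_smul _ _ _
    rw [h6] at h4
    have hne : (-1 : F) ^ (n + 4) ≠ 0 := pow_ne_zero _ (by norm_num)
    exact (smul_eq_zero.1 h4).resolve_left hne
  -- the multilinear theorem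
  have h7 : ∀ (ξ : Fin (n + 4) → (E →ₗ[F] F)) (b : Fin (n + 4) → E),
      ∑ τ : Perm (Fin (n + 4)), (∑ k ∈ P, c k * ∏ q, ξ (τ q) (e k q)) •
        Psi L hL j n (fun q => b (τ q)) = 0 := by
    intro ξ b
    have h8 := h F E U L hL j hR n (fun τ => ∑ k ∈ P, c k * ∏ q, ξ (τ q) (e k q)) (by
      rw [← h2 ξ]
      refine Finset.sum_congr rfl fun τ _ => ?_
      rw [Phi_apply]) b
    rw [← h8]
    refine Finset.sum_congr rfl fun τ _ => ?_
    rw [Psi_apply]
  -- a basis
  let β := Module.Basis.ofVectorSpace F E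
  let s : Finset (Module.Basis.ofVectorSpaceIndex F E) :=
    P.biUnion fun k => univ.biUnion fun q => (β.repr (e k q)).support
  have hexp : ∀ k ∈ P, ∀ q, e k q = ∑ i ∈ s, β.coord i (e k q) • β i := by
    intro k hk q
    conv_lhs => rw [← β.linearCombination_repr (e k q)]
    rw [Finsupp.linearCombination_apply, Finsupp.sum]
    refine Finset.sum_subset ?_ ?_
    · intro i hi
      exact Finset.mem_biUnion.2 ⟨k, hk, Finset.mem_biUnion.2 ⟨q, Finset.mem_univ _, hi⟩⟩
    · intro i _ hi
      rw [Finsupp.notMem_support_iff.1 hi, zero_smul]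
  set G : (Fin (n + 4) → Module.Basis.ofVectorSpaceIndex F E) → U := fun ℓ =>
    (∑ k ∈ P, c k * ∏ q, β.coord (ℓ q) (e k q)) • Psi L hL j n (fun q => β (ℓ q)) with hG
  have h9 : ∀ τ : Perm (Fin (n + 4)), ∑ ℓ ∈ Fintype.piFinset (fun _ : Fin (n + 4) => s),
      G (fun q => ℓ (τ q)) = ∑ ℓ ∈ Fintype.piFinset (fun _ : Fin (n + 4) => s), G ℓ := by
    intro τ
    refine Finset.sum_nbij' (fun ℓ q => ℓ (τ q)) (fun ℓ q => ℓ (τ⁻¹ q)) ?_ ?_ ?_ ?_ ?_
    · intro ℓ hℓ
      rw [Fintype.mem_piFinset] at hℓ ⊢
      exact fun q => hℓ _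
    · intro ℓ hℓ
      rw [Fintype.mem_piFinset] at hℓ ⊢
      exact fun q => hℓ _
    · intro ℓ _
      funext q
      simp
    · intro ℓ _
      funext q
      simp
    · intro ℓ _; rfl
  have h10 : ∑ ℓ ∈ Fintype.piFinset (fun _ : Fin (n + 4) => s),
      ∑ τ : Perm (Fin (n + 4)), G (fun q => ℓ (τ q)) = 0 :=
    Finset.sum_eq_zero fun ℓ _ => h7 (fun p => β.coord (ℓ p)) (fun p => β (ℓ p))
  rw [Finset.sum_comm, Finset.sum_congr rfl (fun τ _ => h9 τ), Finset.sum_const] at h10
  have h11 : ∑ ℓ ∈ Fintype.piFinset (fun _ : Fin (n + 4) => s), G ℓ = 0 := by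
    have hc : (univ : Finset (Perm (Fin (n + 4)))).card ≠ 0 := by
      rw [Finset.card_univ, Fintype.card_perm]
      exact Nat.factorial_ne_zero _
    rw [← Nat.cast_smul_eq_nsmul F] at h10
    exact (smul_eq_zero.1 h10).resolve_left (Nat.cast_ne_zero.2 hc)
  rw [← h11]
  symm
  simp only [hG]
  rw [Finset.sum_congr rfl (fun ℓ _ => by rw [Finset.sum_smul]), Finset.sum_comm]
  refine Finset.sum_congr rfl fun k hk => ?_
  rw [Finset.sum_congr rfl (fun ℓ _ => by rw [mul_smul]), ← Finset.smul_sum]
  congr 1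
  conv_rhs => rw [show e k = fun q => ∑ i ∈ s, β.coord i (e k q) • β i from
    funext (hexp k hk)]
  rw [MultilinearMap.map_sum_finset]
  refine Finset.sum_congr rfl fun ℓ _ => ?_
  exact ((Psi L hL j n).map_smul_univ (fun q => β.coord (ℓ q) (e k q)) (fun q => β (ℓ q))).symm

theorem inj_core (h : Stmt_SyzML) (L : E →ₗ[F] (U →ₗ[F] U)) (hL : Cliff L)
    (j : E [⋀^Fin 4]→ₗ[F] U) (hR : Rel L j) (P : Finset (List E × (Fin 4 → E)))
    (c : List E × (Fin 4 → E) → F)
    (h0 : ∑ p ∈ P, c p • ((wd p.1 : Cl F E) * ww lm (1 : Cl F E) 4 p.2) = 0) :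
    ∑ p ∈ P, c p • clAct L hL (wd p.1) (j p.2) = 0 := by
  classical
  set len : List E × (Fin 4 → E) → ℕ := fun p => p.1.length + 4 with hlen
  -- homogeneous components
  have h1 : ∀ m, ∑ p ∈ P with len p = m, c p • ((wd p.1 : Cl F E) *
      ww lm (1 : Cl F E) 4 p.2) = 0 := by
    intro m
    by_cases hm : m ∈ P.image len
    · refine vand (F := F) (P.image len) (fun m => ∑ p ∈ P with len p = m, c p •
        ((wd p.1 : Cl F E) * ww lm (1 : Cl F E) 4 p.2)) ?_ m hm
      intro t
      have h2 := congrArg (clMap (t • (LinearMap.id : E →ₗ[F] E))) h0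
      rw [map_sum, map_zero] at h2
      have hw : ∀ l : List E, (clMap (t • (LinearMap.id : E →ₗ[F] E))) (wd l : Cl F E) =
          t ^ l.length • (wd l : Cl F E) := by
        intro l
        induction l with
        | nil => simp [wd]
        | cons a l ih =>
          rw [wd, map_mul, clMap_ι, ih, List.length_cons, pow_succ]
          rw [LinearMap.smul_apply, LinearMap.id_apply, map_smul, smul_mul_smul_comm, mul_comm]
      have hW : ∀ y : Fin 4 → E, (clMap (t • (LinearMap.id : E →ₗ[F] E)))
          (ww lm (1 : Cl F E) 4 y) = t ^ 4 • ww lm (1 : Cl F E) 4 y := by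
        intro y
        rw [clMap_ww]
        have := (ww lm (1 : Cl F E) 4).toMultilinearMap.map_smul_univ (fun _ => t) y
        rw [Finset.prod_const, Finset.card_univ, Fintype.card_fin] at this
        exact this
      have h3 : ∑ m ∈ P.image len, t ^ m • ∑ p ∈ P with len p = m, c p •
          ((wd p.1 : Cl F E) * ww lm (1 : Cl F E) 4 p.2) =
          ∑ p ∈ P, t ^ len p • (c p • ((wd p.1 : Cl F E) * ww lm (1 : Cl F E) 4 p.2)) := by
        rw [← Finset.sum_fiberwise_of_maps_to (g := len) (t := P.image len)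
          (fun p hp => Finset.mem_image_of_mem len hp)]
        refine Finset.sum_congr rfl fun m _ => ?_
        rw [Finset.smul_sum]
        refine Finset.sum_congr rfl fun p hp => ?_
        rw [(Finset.mem_filter.1 hp).2]
      rw [h3, ← h2]
      refine Finset.sum_congr rfl fun p _ => ?_
      rw [map_smul, map_mul, hw, hW, smul_mul_smul_comm, hlen, smul_comm (c p), ← pow_add]
    · apply Finset.sum_eq_zero
      intro p hp
      exact absurd (Finset.mem_image.2 ⟨p, (Finset.mem_filter.1 hp).1, (Finset.mem_filter.1 hp).2⟩)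
        hm
  rw [← Finset.sum_fiberwise_of_maps_to (g := len) (t := P.image len)
    (fun p hp => Finset.mem_image_of_mem len hp)]
  refine Finset.sum_eq_zero fun m hm => ?_
  obtain ⟨p0, -, hp0⟩ := Finset.mem_image.1 hm
  obtain ⟨n, rfl⟩ : ∃ n, m = n + 4 := ⟨p0.1.length, hp0.symm⟩
  have hkey : ∀ p ∈ P.filter (fun p => len p = n + 4), p.1 = List.ofFn (fun i : Fin n =>
      p.1.getD i 0) := by
    intro p hp
    have hl : p.1.length = n := by
      have := (Finset.mem_filter.1 hp).2
      simp only [hlen] at this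
      omega
    apply List.ext_getElem
    · rw [List.length_ofFn, hl]
    · intro i h1 h2
      rw [List.getElem_ofFn]
      simp [List.getD_eq_getElem?_getD, h1]
  have h4 := hom_core h L hL j hR n (P.filter (fun p => len p = n + 4)) c
    (fun p => Fin.append (fun i : Fin n => p.1.getD i 0) p.2) (by
      rw [← h1 (n + 4)]
      refine Finset.sum_congr rfl fun p hp => ?_
      rw [Phi_apply]
      simp only [Fin.append_left, Fin.append_right]
      rw [← hkey p hp])
  rw [← h4]
  refine Finset.sum_congr rfl fun p hp => ?_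
  rw [Psi_apply]
  simp only [Fin.append_left, Fin.append_right]
  rw [← hkey p hp]

end main

end Pool.Agent.Mal.Syz.HtX

namespace Pool.Agent.Mal.Syz

open HtX

theorem ht_proof (h : Stmt_SyzML) : Stmt_Ht := by
  intro F _ _ E U _ _ _ _ L hL j hR
  classical
  -- the relations
  let κ : List E × (Fin 4 → E) → Cl F E × U := fun p =>
    ((wd p.1 : Cl F E) * ww lm (1 : Cl F E) 4 p.2, - clAct L hL (wd p.1) (j p.2))
  let K : Submodule F (Cl F E × U) := Submodule.span F (Set.range κ)
  have hinj : ∀ u : U, ((0 : Cl F E), u) ∈ K → u = 0 := by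
    intro u hu
    obtain ⟨c, hc⟩ := Finsupp.mem_span_range_iff_exists_finsupp.1 hu
    rw [Finsupp.sum] at hc
    have h1 := congrArg Prod.fst hc
    have h2 := congrArg Prod.snd hc
    rw [Prod.fst_sum] at h1
    rw [Prod.snd_sum] at h2
    simp only [κ, Prod.smul_mk] at h1 h2
    have h3 := inj_core h L hL j hR c.support c h1
    rw [← h2]
    rw [Finset.sum_congr rfl (fun p _ => smul_neg (c p) _), Finset.sum_neg_distrib, h3, neg_zero]
  let base : E →ₗ[F] (Cl F E × U →ₗ[F] Cl F E × U) :=
    { toFun := fun a => (lm a).prodMap (L a)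
      map_add' := by
        intro a b
        apply LinearMap.ext
        rintro ⟨x, u⟩
        simp [add_mul]
      map_smul' := by
        intro a b
        apply LinearMap.ext
        rintro ⟨x, u⟩
        simp }
  have hbase : ∀ a x u, base a (x, u) = (cι F a * x, L a u) := fun a x u => rfl
  have hst : ∀ a, K ≤ K.comap (base a) := by
    intro a
    rw [Submodule.span_le]
    rintro _ ⟨p, rfl⟩
    refine Submodule.subset_span ⟨(a :: p.1, p.2), ?_⟩
    simp only [κ]
    rw [hbase, clAct_wd, map_neg, wd, mul_assoc]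
  let LH : E →ₗ[F] ((Cl F E × U) ⧸ K →ₗ[F] (Cl F E × U) ⧸ K) :=
    { toFun := fun a => K.mapQ K (base a) (hst a)
      map_add' := by
        intro a b
        apply Submodule.linearMap_qext
        apply LinearMap.ext
        intro x
        simp only [LinearMap.comp_apply, Submodule.mkQ_apply, Submodule.mapQ_apply,
          LinearMap.add_apply, map_add, Submodule.Quotient.mk_add]
      map_smul' := by
        intro a b
        apply Submodule.linearMap_qext
        apply LinearMap.ext
        intro x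
        simp only [LinearMap.comp_apply, Submodule.mkQ_apply, Submodule.mapQ_apply,
          LinearMap.smul_apply, map_smul, Submodule.Quotient.mk_smul, RingHom.id_apply] }
  have hLH : ∀ a x u, LH a (K.mkQ (x, u)) = K.mkQ (cι F a * x, L a u) := fun a x u => rfl
  have hrel : ∀ y : Fin 4 → E, K.mkQ (ww lm (1 : Cl F E) 4 y, 0) = K.mkQ (0, j y) := by
    intro y
    rw [← sub_eq_zero, ← map_sub, Submodule.mkQ_apply, Submodule.Quotient.mk_eq_zero]
    refine Submodule.subset_span ⟨([], y), ?_⟩
    simp [κ, wd]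
  have hCl : Cliff LH := by
    intro a b c z
    obtain ⟨⟨x, u⟩, rfl⟩ := K.mkQ_surjective z
    have h1 := lm_cliff (F := F) a b c x
    have h2 := hL a b c u
    simp only [ac_apply, lm_apply] at h1 h2
    simp only [ac_apply, hLH, ← map_add, Prod.mk_add_mk]
    rw [h1, h2]
  refine ⟨(Cl F E × U) ⧸ K, inferInstance, inferInstance, LH, hCl, K.mkQ (1, 0),
    K.mkQ ∘ₗ LinearMap.inr F (Cl F E) U, ?_, ?_, ?_, ?_, ?_⟩
  · rw [injective_iff_map_eq_zero]
    intro u hu
    refine hinj u ?_
    rw [← Submodule.Quotient.mk_eq_zero K]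
    exact hu
  · intro a u
    simp only [LinearMap.comp_apply, LinearMap.inr_apply]
    rw [hLH, mul_zero]
  · intro y
    have h1 := psum_fold (lm : E →ₗ[F] (Cl F E →ₗ[F] Cl F E)) (1 : Cl F E) 4 y
    unfold psum at h1
    have h2 : ∀ s : Perm (Fin 4), fold (lm : E →ₗ[F] (Cl F E →ₗ[F] Cl F E)) (1 : Cl F E) (y ∘ s) =
        cι F (y (s 0)) * (cι F (y (s 1)) * (cι F (y (s 2)) * (cι F (y (s 3)) * 1))) := by
      intro s
      rfl
    simp only [hLH, map_zero]
    have h3 : ∀ s : Perm (Fin 4), (Perm.sign s : ℤ) • K.mkQ (cι F (y (s 0)) * (cι F (y (s 1)) *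
        (cι F (y (s 2)) * (cι F (y (s 3)) * 1))), (0 : U)) =
        (K.mkQ ∘ₗ LinearMap.inl F (Cl F E) U) ((Perm.sign s : ℤ) •
          fold (lm : E →ₗ[F] (Cl F E →ₗ[F] Cl F E)) (1 : Cl F E) (y ∘ s)) := by
      intro s
      rw [map_zsmul, h2]
      rfl
    rw [Finset.sum_congr rfl (fun s _ => h3 s), ← map_sum, h1, map_smul]
    simp only [LinearMap.comp_apply, LinearMap.inr_apply, LinearMap.inl_apply]
    rw [hrel]
    congr 1
  · intro S h1 h2 h3
    rw [eq_top_iff]
    intro z hz
    clear hz
    obtain ⟨⟨x, u⟩, rfl⟩ := K.mkQ_surjective z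
    have h4 : K.mkQ (x, (0 : U)) ∈ S := by
      induction x using cl_induction with
      | h1 => exact h1
      | hm e x hx =>
        have := h2 e _ hx
        rwa [hLH, map_zero] at this
      | ha x y hx hy =>
        have := S.add_mem hx hy
        rwa [← map_add, Prod.mk_add_mk, add_zero] at this
      | hs c x hx =>
        have := S.smul_mem c hx
        rwa [← map_smul, Prod.smul_mk, smul_zero] at this
    have h5 := S.add_mem h4 (h3 u)
    rw [LinearMap.comp_apply, LinearMap.inr_apply, ← map_add, Prod.mk_add_mk, add_zero,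
      zero_add] at h5
    exact h5
  · intro O _ _ A hA eU hU o1 ho
    let act : Cl F E →ₗ[F] O := (LinearMap.applyₗ o1) ∘ₗ (clAct A hA).toLinearMap
    have hact : ∀ x, act x = clAct A hA x o1 := fun x => rfl
    have hW : ∀ y : Fin 4 → E, act (ww lm (1 : Cl F E) 4 y) = eU (j y) := by
      intro y
      have h1 := ww_nat (lm : E →ₗ[F] (Cl F E →ₗ[F] Cl F E)) A LinearMap.id act (by
        intro e x
        rw [hact, hact, lm_apply, map_mul, clAct_ι]
        rfl) (1 : Cl F E) 4 y
      have h2 : act 1 = o1 := by rw [hact, map_one]; rfl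
      rw [h1, h2]
      have h3 := psum_fold A o1 4 y
      have h4 : psum 4 (fold A o1) y = ∑ s : Perm (Fin 4), (Perm.sign s : ℤ) •
          A (y (s 0)) (A (y (s 1)) (A (y (s 2)) (A (y (s 3)) o1))) := rfl
      rw [h4, ho y] at h3
      have h5 : ((Nat.factorial 4 : ℕ) : F) = 24 := by
        norm_num [Nat.factorial]
      rw [h5] at h3
      exact (smul_right_injective O (by norm_num : (24 : F) ≠ 0) h3).symm
    have hUw : ∀ (l : List E) (u : U), eU (clAct L hL (wd l) u) = clAct A hA (wd l) (eU u) := by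
      intro l u
      induction l with
      | nil => simp [wd]
      | cons a l ih => rw [clAct_wd, clAct_wd, ← hU, ih]
    let E0 : Cl F E × U →ₗ[F] O := act.coprod eU
    have hE0 : ∀ x u, E0 (x, u) = act x + eU u := fun x u => LinearMap.coprod_apply _ _ _
    have hK : K ≤ LinearMap.ker E0 := by
      rw [Submodule.span_le]
      rintro _ ⟨p, rfl⟩
      rw [SetLike.mem_coe, LinearMap.mem_ker]
      simp only [κ]
      rw [hE0, hact, map_mul, Module.End.mul_apply, ← hact, hW, map_neg, hUw, add_neg_cancel]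
    have he : ∀ x u, K.liftQ E0 hK (K.mkQ (x, u)) = act x + eU u := by
      intro x u
      rw [← hE0]
      exact Submodule.liftQ_apply _ _ _
    refine ⟨K.liftQ E0 hK, ?_, ?_, ?_⟩
    · intro a z
      obtain ⟨⟨x, u⟩, rfl⟩ := K.mkQ_surjective z
      rw [hLH, he, he, map_add, hU, hact, hact, map_mul, clAct_ι]
      rfl
    · intro u
      rw [LinearMap.comp_apply, LinearMap.inr_apply, he, map_zero, zero_add]
    · rw [he, map_zero, add_zero, hact, map_one]
      rfl

end Pool.Agent.Mal.Syz
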