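import Mathlib
import Pool.Agent.Mal.EvalLem

set_option autoImplicit false
set_option linter.unusedSectionVars false

open Finset Equiv

namespace Pool.Agent.Mal.Cap

variable {F : Type} [Field F] [CharZero F] {B N : Type} [AddCommGroup B] [Module F B]
  [AddCommGroup N] [Module F N] {n : ℕ}

/-- first order part of the vanishing on constant arguments -/
theorem pol (Φ : MultilinearMap F (fun _ : Fin n => B) N) (U : Finset (Fin n)) (m' : Fin n → B)
    (w : B) (h : ∀ c : F, Φ (U.piecewise ((fun _ => c • w) + m') m') = 0) :
    ∑ q ∈ U, Φ (Function.update m' q w) = 0 := by
  classical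
  have h1 : ∀ c : F, ∑ j ∈ range (U.card + 1),
      c ^ j • ∑ s ∈ powersetCard j U, Φ (s.piecewise (fun _ => w) m') = 0 := by
    intro c
    rw [← h c, Φ.map_piecewise_add, Finset.sum_powerset]
    refine Finset.sum_congr rfl fun j _ => ?_
    rw [Finset.smul_sum]
    refine Finset.sum_congr rfl fun s hs => ?_
    have h2 := Φ.map_piecewise_smul (fun _ => c) (s.piecewise (fun _ => w) m') s
    rw [Finset.prod_const, (Finset.mem_powersetCard.mp hs).2] at h2
    rw [← h2]
    congr 1
    funext i
    by_cases hi : i ∈ s
    · simp [hi]
    · simp [hi]
  have h3 := vand (F := F) (range (U.card + 1)) _ h1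
  rcases Nat.eq_zero_or_pos U.card with h0 | h0
  · rw [Finset.card_eq_zero] at h0
    simp [h0]
  · have h4 := h3 1 (by rw [mem_range]; omega)
    rw [Finset.powersetCard_one, Finset.sum_map] at h4
    rw [← h4]
    refine Finset.sum_congr rfl fun q _ => ?_
    congr 1
    funext i
    by_cases hi : i = q
    · subst hi; simp
    · simp [hi]

/-- alternating sum along a tuple of positions -/
noncomputable def altS (Φ : MultilinearMap F (fun _ : Fin n => B) N) (r : ℕ) (P : Fin r → Fin n)
    (b : Fin n → B) : N :=
  ∑ σ : Perm (Fin r), (Perm.sign σ : ℤ) • Φ (Function.extend P (fun x => b (P (σ x))) b)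

theorem elim_step (Φ : MultilinearMap F (fun _ : Fin n => B) N) (r : ℕ) (S : Finset (Fin n))
    (P : Fin r → Fin n) (hP : Function.Injective P) (hPS : ∀ x, P x ∉ S) (b : Fin n → B) (z : B)
    (hb : ∀ q ∈ S, b q = z)
    (H : ∀ x, ∀ b'' : Fin n → B, (∀ i, (∀ x, P x ≠ i) → b'' i = b i) → ∀ y : B,
      Φ ((insert (P x) S).piecewise (fun _ => y) b'') = 0) :
    ∑ q ∈ S, altS Φ (r + 1) (Fin.cons q P) b = ((S.card + r : ℕ) : ℤ) • altS Φ r P b := by
  classical
  have hcons : ∀ q ∈ S, Function.Injective (Fin.cons q P : Fin (r + 1) → Fin n) := by
    intro q hq
    rw [Fin.cons_injective_iff]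
    refine ⟨?_, hP⟩
    rintro ⟨x, hx⟩
    exact hPS x (hx ▸ hq)
  -- the term of one permutation
  have key : ∀ e : Perm (Fin r), ∑ q ∈ S, ∑ p : Fin (r + 1),
      ((Perm.sign (Perm.decomposeFin.symm (p, e)) : ℤ) •
        Φ (Function.extend (Fin.cons q P : Fin (r + 1) → Fin n)
          (fun x => b ((Fin.cons q P : Fin (r + 1) → Fin n) (Perm.decomposeFin.symm (p, e) x))) b))
      = ((S.card + r : ℕ) : ℤ) • ((Perm.sign e : ℤ) •
        Φ (Function.extend P (fun x => b (P (e x))) b)) := by
    intro e
    obtain ⟨b2, hb2⟩ : ∃ b2 : Fin n → B, b2 = Function.extend P (fun x => b (P (e x))) b := ⟨_, rfl⟩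
    have hb2P : ∀ x, b2 (P x) = b (P (e x)) := by
      intro x; rw [hb2, hP.extend_apply]
    have hb2n : ∀ i, (∀ x, P x ≠ i) → b2 i = b i := by
      intro i hi
      rw [hb2, Function.extend_apply']
      rintro ⟨x, hx⟩; exact hi x hx
    rw [← hb2]
    have e0 : ∀ q ∈ S, Function.extend (Fin.cons q P : Fin (r + 1) → Fin n)
          (fun x => b ((Fin.cons q P : Fin (r + 1) → Fin n) (Perm.decomposeFin.symm (0, e) x))) b
          = b2 := by
      intro q hq
      funext i
      by_cases hi : ∃ x, (Fin.cons q P : Fin (r + 1) → Fin n) x = i
      · obtain ⟨x, rfl⟩ := hi
        rw [(hcons q hq).extend_apply]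
        refine Fin.cases ?_ (fun x => ?_) x
        · simp only [Perm.decomposeFin_symm_apply_zero, Fin.cons_zero]
          rw [hb2n q (fun x hx => hPS x (hx ▸ hq))]
        · simp only [Perm.decomposeFin_symm_apply_succ, swap_self, refl_apply, Fin.cons_succ]
          rw [hb2P]
      · rw [Function.extend_apply' _ _ _ hi]
        rw [hb2n i]
        intro x hx
        exact hi ⟨x.succ, by simpa using hx⟩
    have e1 : ∀ q ∈ S, ∀ p : Fin r, Function.extend (Fin.cons q P : Fin (r + 1) → Fin n)
          (fun x => b ((Fin.cons q P : Fin (r + 1) → Fin n) (Perm.decomposeFin.symm (p.succ, e) x))) b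
          = Function.update (Function.update b2 (P (e.symm p)) z) q (b (P p)) := by
      intro q hq p
      have hq' : ∀ x, P x ≠ q := fun x hx => hPS x (hx ▸ hq)
      funext i
      by_cases hi : ∃ x, (Fin.cons q P : Fin (r + 1) → Fin n) x = i
      · obtain ⟨x, rfl⟩ := hi
        rw [(hcons q hq).extend_apply]
        refine Fin.cases ?_ (fun x => ?_) x
        · simp only [Perm.decomposeFin_symm_apply_zero, Fin.cons_zero, Fin.cons_succ]
          rw [Function.update_self]
        · simp only [Perm.decomposeFin_symm_apply_succ, Fin.cons_succ]
          rw [Function.update_of_ne (hq' x)]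
          by_cases hx : e x = p
          · subst hx
            rw [swap_apply_right, Fin.cons_zero, Equiv.symm_apply_apply, Function.update_self,
              hb q hq]
          · rw [swap_apply_of_ne_of_ne (Fin.succ_ne_zero _) (fun h => hx (Fin.succ_injective _ h)),
              Fin.cons_succ, Function.update_of_ne, hb2P]
            intro h
            apply hx
            rw [hP h, Equiv.apply_symm_apply]
      · rw [Function.extend_apply' _ _ _ hi]
        have hiq : i ≠ q := fun h => hi ⟨0, by simp [h]⟩
        have hiP : ∀ x, P x ≠ i := fun x hx => hi ⟨x.succ, by simpa using hx⟩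
        rw [Function.update_of_ne hiq, Function.update_of_ne (fun h => hiP _ h.symm), hb2n i hiP]
    have e2 : ∀ p : Fin r, ∑ q ∈ S,
        Φ (Function.update (Function.update b2 (P (e.symm p)) z) q (b (P p))) = - Φ b2 := by
      intro p
      have ht : P (e.symm p) ∉ S := hPS _
      have h1 := pol Φ (insert (P (e.symm p)) S) (Function.update b2 (P (e.symm p)) z) (b (P p)) (by
        intro c
        have h2 := H (e.symm p) b2 hb2n (c • b (P p) + z)
        rw [← h2]
        congr 1
        funext i
        by_cases hi : i ∈ insert (P (e.symm p)) S
        · rw [Finset.piecewise_eq_of_mem _ _ _ hi, Finset.piecewise_eq_of_mem _ _ _ hi]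
          rw [Pi.add_apply]
          congr 1
          by_cases hi2 : i = P (e.symm p)
          · rw [hi2, Function.update_self]
          · have hiS : i ∈ S := (Finset.mem_insert.mp hi).resolve_left hi2
            rw [Function.update_of_ne hi2, hb2n i (fun x hx => hPS x (hx ▸ hiS)), hb i hiS]
        · rw [Finset.piecewise_eq_of_notMem _ _ _ hi, Finset.piecewise_eq_of_notMem _ _ _ hi]
          rw [Function.update_of_ne (fun h => hi (by rw [h]; exact Finset.mem_insert_self _ _))])
      rw [Finset.sum_insert ht] at h1
      have h3 : Function.update (Function.update b2 (P (e.symm p)) z) (P (e.symm p)) (b (P p)) = b2 := by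
        rw [Function.update_idem]
        have : b (P p) = b2 (P (e.symm p)) := by rw [hb2P, Equiv.apply_symm_apply]
        rw [this, Function.update_eq_self]
      rw [h3] at h1
      exact eq_neg_of_add_eq_zero_right h1
    have e3 : ∀ q ∈ S, ∑ p : Fin (r + 1),
      ((Perm.sign (Perm.decomposeFin.symm (p, e)) : ℤ) •
        Φ (Function.extend (Fin.cons q P : Fin (r + 1) → Fin n)
          (fun x => b ((Fin.cons q P : Fin (r + 1) → Fin n) (Perm.decomposeFin.symm (p, e) x))) b))
        = (Perm.sign e : ℤ) • Φ b2 + ∑ p : Fin r, - ((Perm.sign e : ℤ) •
          Φ (Function.update (Function.update b2 (P (e.symm p)) z) q (b (P p)))) := by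
      intro q hq
      rw [Fin.sum_univ_succ]
      congr 1
      · rw [e0 q hq]; simp
      · refine Finset.sum_congr rfl fun p _ => ?_
        rw [e1 q hq p]
        simp [Fin.succ_ne_zero]
    rw [Finset.sum_congr rfl e3, Finset.sum_add_distrib, Finset.sum_comm]
    have e4 : ∀ p : Fin r, ∑ q ∈ S, - ((Perm.sign e : ℤ) •
          Φ (Function.update (Function.update b2 (P (e.symm p)) z) q (b (P p))))
          = (Perm.sign e : ℤ) • Φ b2 := by
      intro p
      rw [Finset.sum_neg_distrib, ← Finset.smul_sum, e2 p, smul_neg, neg_neg]
    rw [Finset.sum_congr rfl (fun p _ => e4 p), Finset.sum_const, Finset.sum_const,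
      Finset.card_univ, Fintype.card_fin, ← add_smul, ← natCast_zsmul]
  unfold altS
  have h5 : ∀ q ∈ S, ∑ σ : Perm (Fin (r + 1)), (Perm.sign σ : ℤ) •
      Φ (Function.extend (Fin.cons q P : Fin (r + 1) → Fin n)
        (fun x => b ((Fin.cons q P : Fin (r + 1) → Fin n) (σ x))) b)
      = ∑ e : Perm (Fin r), ∑ p : Fin (r + 1),
      ((Perm.sign (Perm.decomposeFin.symm (p, e)) : ℤ) •
        Φ (Function.extend (Fin.cons q P : Fin (r + 1) → Fin n)
          (fun x => b ((Fin.cons q P : Fin (r + 1) → Fin n) (Perm.decomposeFin.symm (p, e) x))) b)) := by
    intro q _
    rw [← Equiv.sum_comp (Perm.decomposeFin (n := r)).symm, Fintype.sum_prod_type, Finset.sum_comm]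
  rw [Finset.sum_congr rfl h5, Finset.sum_comm, Finset.sum_congr rfl (fun e _ => key e),
    Finset.smul_sum]

/-- constant on the classes of colour less than `k` -/
def Cst (k : ℕ) (χ : Fin n → ℕ) (b : Fin n → B) : Prop := ∀ p q, χ p = χ q → χ p < k → b p = b q

/-- vanishing when one more position joins class `k` -/
def Star (Φ : MultilinearMap F (fun _ : Fin n => B) N) (k : ℕ) (χ : Fin n → ℕ) : Prop :=
  ∀ p, k < χ p → ∀ b : Fin n → B, Cst (k + 1) (Function.update χ p k) b → Φ b = 0

theorem claim_base (Φ : MultilinearMap F (fun _ : Fin n => B) N) (m : ℕ)
    (h1 : ∀ P : Fin (m + 1) → Fin n, Function.Injective P → ∀ b, altS Φ (m + 1) P b = 0)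
    (h2 : ∀ (π : Fin n → Fin m) (z : Fin m → B), Φ (fun i => z (π i)) = 0)
    (χ : Fin n → ℕ) (hχ : ∀ k < m, Star Φ k χ) (b : Fin n → B) (hb : Cst m χ b) : Φ b = 0 := by
  classical
  by_cases hall : ∀ p, χ p < m
  · have := h2 (fun p => ⟨χ p, hall p⟩) (fun k => if h : ∃ p, χ p = k then b h.choose else 0)
    rw [← this]
    congr 1
    funext p
    have hex : ∃ q, χ q = χ p := ⟨p, rfl⟩
    rw [dif_pos hex]
    exact hb p _ hex.choose_spec.symm (hall p)
  · push Not at hall
    obtain ⟨p, hp⟩ := hall
    have D : ∀ r' : ℕ, ∀ r, r + r' = m → ∀ P : Fin (r + 1) → Fin n, P (Fin.last r) = p →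
        (∀ j : Fin r, χ (P j.castSucc) = r' + j) → altS Φ (r + 1) P b = 0 := by
      intro r'
      induction r' with
      | zero =>
        intro r hr P hlast hj
        have hr' : r = m := by omega
        subst hr'
        apply h1
        intro x y hxy
        induction x using Fin.lastCases with
        | last =>
          induction y using Fin.lastCases with
          | last => rfl
          | cast y =>
            exfalso
            have := hj y
            rw [← hxy, hlast] at this
            omega
        | cast x =>
          induction y using Fin.lastCases with
          | last =>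
            exfalso
            have := hj x
            rw [hxy, hlast] at this
            omega
          | cast y =>
            have h3 := hj x
            have h4 := hj y
            rw [hxy, h4] at h3
            congr 1
            ext
            omega
      | succ r' ih =>
        intro r hr P hlast hj
        have hcol : ∀ x, r' < χ (P x) := by
          intro x
          induction x using Fin.lastCases with
          | last => rw [hlast]; omega
          | cast x => rw [hj x]; omega
        have hinj : Function.Injective P := by
          intro x y hxy
          induction x using Fin.lastCases with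
          | last =>
            induction y using Fin.lastCases with
            | last => rfl
            | cast y =>
              exfalso
              have := hj y
              rw [← hxy, hlast] at this
              omega
          | cast x =>
            induction y using Fin.lastCases with
            | last =>
              exfalso
              have := hj x
              rw [hxy, hlast] at this
              omega
            | cast y =>
              have h3 := hj x
              have h4 := hj y
              rw [hxy, h4] at h3
              congr 1
              ext
              omega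
        obtain ⟨z, hz⟩ : ∃ z : B, ∀ q ∈ univ.filter (fun q => χ q = r'), b q = z := by
          by_cases hex : ∃ q, χ q = r'
          · obtain ⟨q0, hq0⟩ := hex
            refine ⟨b q0, fun q hq => ?_⟩
            have hq' := (Finset.mem_filter.mp hq).2
            exact hb q q0 (by rw [hq', hq0]) (by omega)
          · refine ⟨0, fun q hq => ?_⟩
            exact absurd ⟨q, (Finset.mem_filter.mp hq).2⟩ hex
        have hel := elim_step Φ (r + 1) (univ.filter (fun q => χ q = r')) P hinj
          (fun x hx => by
            have := (Finset.mem_filter.mp hx).2
            have := hcol x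
            omega) b z hz (by
          intro x b2 hb2 y
          apply hχ r' (by omega) (P x) (hcol x)
          intro u v huv hu
          by_cases hux : u = P x
          · subst hux
            rw [Function.update_self] at huv hu
            have hv : v ∈ insert (P x) (univ.filter (fun q => χ q = r')) := by
              by_cases hvx : v = P x
              · rw [hvx]; exact Finset.mem_insert_self _ _
              · rw [Function.update_of_ne hvx] at huv
                exact Finset.mem_insert_of_mem (Finset.mem_filter.mpr ⟨Finset.mem_univ _, huv.symm⟩)
            rw [Finset.piecewise_eq_of_mem _ _ _ (Finset.mem_insert_self _ _),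
              Finset.piecewise_eq_of_mem _ _ _ hv]
          · rw [Function.update_of_ne hux] at huv hu
            by_cases hur : χ u = r'
            · have hv : v ∈ insert (P x) (univ.filter (fun q => χ q = r')) := by
                by_cases hvx : v = P x
                · rw [hvx]; exact Finset.mem_insert_self _ _
                · rw [Function.update_of_ne hvx] at huv
                  exact Finset.mem_insert_of_mem
                    (Finset.mem_filter.mpr ⟨Finset.mem_univ _, by rw [← huv, hur]⟩)
              have hu' : u ∈ insert (P x) (univ.filter (fun q => χ q = r')) :=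
                Finset.mem_insert_of_mem (Finset.mem_filter.mpr ⟨Finset.mem_univ _, hur⟩)
              rw [Finset.piecewise_eq_of_mem _ _ _ hu', Finset.piecewise_eq_of_mem _ _ _ hv]
            · have hvx : v ≠ P x := by
                intro h
                rw [h, Function.update_self] at huv
                exact hur huv
              rw [Function.update_of_ne hvx] at huv
              have hlow : ∀ w, χ w < r' → ∀ x, P x ≠ w := by
                intro w hw x hx
                have := hcol x
                rw [hx] at this
                omega
              have hu2 : χ u < r' := by omega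
              have hn : ∀ w, w ≠ P x → χ w < r' →
                  w ∉ insert (P x) (univ.filter (fun q => χ q = r')) := by
                intro w hw1 hw2 hw3
                rcases Finset.mem_insert.mp hw3 with h | h
                · exact hw1 h
                · have := (Finset.mem_filter.mp h).2
                  omega
              rw [Finset.piecewise_eq_of_notMem _ _ _ (hn u hux hu2),
                Finset.piecewise_eq_of_notMem _ _ _ (hn v hvx (by omega)),
                hb2 u (hlow u hu2), hb2 v (hlow v (by omega))]
              exact hb u v huv (by omega))
        have hz0 : ∑ q ∈ univ.filter (fun q => χ q = r'), altS Φ (r + 1 + 1) (Fin.cons q P) b = 0 := by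
          apply Finset.sum_eq_zero
          intro q hq
          apply ih (r + 1) (by omega)
          · rw [← Fin.succ_last, Fin.cons_succ, hlast]
          · intro j
            induction j using Fin.cases with
            | zero =>
              simp only [Fin.castSucc_zero, Fin.cons_zero]
              rw [(Finset.mem_filter.mp hq).2]; simp
            | succ j =>
              rw [← Fin.succ_castSucc, Fin.cons_succ, hj j]
              simp only [Fin.val_succ]
              omega
        rw [hz0] at hel
        have hne : (((univ.filter (fun q => χ q = r')).card + (r + 1) : ℕ) : F) ≠ 0 := by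
          rw [Nat.cast_ne_zero]; omega
        have h6 : (((univ.filter (fun q => χ q = r')).card + (r + 1) : ℕ) : F) • altS Φ (r + 1) P b
            = 0 := by
          rw [Nat.cast_smul_eq_nsmul]
          rw [natCast_zsmul] at hel
          exact hel.symm
        exact (smul_eq_zero.mp h6).resolve_left hne
    have h7 := D m 0 (by omega) (fun _ => p) rfl (fun j => j.elim0)
    unfold altS at h7
    haveI hss : Subsingleton (Fin (0 + 1)) := inferInstanceAs (Subsingleton (Fin 1))
    rw [Fintype.sum_subsingleton _ (1 : Perm (Fin (0 + 1)))] at h7
    simp only [Perm.sign_one, Units.val_one, one_smul, Perm.one_apply] at h7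
    rw [← h7]
    congr 1
    funext i
    by_cases hi : i = p
    · subst hi
      have : Function.Injective (fun _ : Fin (0 + 1) => i) := fun x y _ => Subsingleton.elim _ _
      exact (this.extend_apply (fun _ => b i) b 0).symm
    · rw [Function.extend_apply']
      rintro ⟨x, hx⟩
      exact hi hx.symm

/-- the colouring with `S` recoloured -/
def recol (i : ℕ) (χ : Fin n → ℕ) (S : Finset (Fin n)) (p : Fin n) : ℕ :=
  if χ p < i then χ p else if p ∈ S then i else i + 1

theorem claim_step (Φ : MultilinearMap F (fun _ : Fin n => B) N) (i : ℕ)
    (IH : ∀ χ : Fin n → ℕ, (∀ k < i + 1, Star Φ k χ) → ∀ b : Fin n → B, Cst (i + 1) χ b → Φ b = 0)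
    (χ : Fin n → ℕ) (hχ : ∀ k < i, Star Φ k χ) (b : Fin n → B) (hb : Cst i χ b) : Φ b = 0 := by
  classical
  have main : ∀ d : ℕ, ∀ S : Finset (Fin n), Sᶜ.card ≤ d → ∀ b : Fin n → B,
      Cst (i + 1) (recol i χ S) b → Φ b = 0 := by
    intro d
    induction d with
    | zero =>
      intro S hS b hb
      apply IH (recol i χ S) _ b hb
      intro k hk p hp b hb
      rcases Nat.lt_or_ge k i with hki | hki
      · apply hχ k hki p _ b
        · intro u v huv hu
          apply hb u v
          · by_cases hup : u = p
            · subst hup
              rw [Function.update_self] at huv hu ⊢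
              by_cases hvp : v = u
              · rw [hvp, Function.update_self]
              · rw [Function.update_of_ne hvp] at huv ⊢
                rw [recol, if_pos (by omega)]; exact huv
            · rw [Function.update_of_ne hup] at huv hu ⊢
              rw [recol, if_pos (by omega)]
              by_cases hvp : v = p
              · subst hvp
                rw [Function.update_self] at huv ⊢; exact huv
              · rw [Function.update_of_ne hvp] at huv ⊢
                rw [recol, if_pos (by omega)]; exact huv
          · by_cases hup : u = p
            · subst hup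
              rw [Function.update_self]; omega
            · rw [Function.update_of_ne hup] at hu ⊢
              rw [recol, if_pos (by omega)]; exact hu
        · by_contra hcon
          rw [recol] at hp
          split_ifs at hp <;> omega
      · have hki' : k = i := by omega
        subst hki'
        exfalso
        rw [recol] at hp
        have hpS : p ∈ S := by
          by_contra hcon
          have : p ∈ Sᶜ := Finset.mem_compl.mpr hcon
          have := Finset.card_pos.mpr ⟨p, this⟩
          omega
        split_ifs at hp <;> omega
    | succ d ihd =>
      intro S hS b hb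
      apply IH (recol i χ S) _ b hb
      intro k hk p hp b hb
      rcases Nat.lt_or_ge k i with hki | hki
      · apply hχ k hki p _ b
        · intro u v huv hu
          apply hb u v
          · by_cases hup : u = p
            · subst hup
              rw [Function.update_self] at huv hu ⊢
              by_cases hvp : v = u
              · rw [hvp, Function.update_self]
              · rw [Function.update_of_ne hvp] at huv ⊢
                rw [recol, if_pos (by omega)]; exact huv
            · rw [Function.update_of_ne hup] at huv hu ⊢
              rw [recol, if_pos (by omega)]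
              by_cases hvp : v = p
              · subst hvp
                rw [Function.update_self] at huv ⊢; exact huv
              · rw [Function.update_of_ne hvp] at huv ⊢
                rw [recol, if_pos (by omega)]; exact huv
          · by_cases hup : u = p
            · subst hup
              rw [Function.update_self]; omega
            · rw [Function.update_of_ne hup] at hu ⊢
              rw [recol, if_pos (by omega)]; exact hu
        · by_contra hcon
          rw [recol] at hp
          split_ifs at hp <;> omega
      · have hki' : k = i := by omega
        subst hki'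
        have hpS : p ∉ S := by
          intro hcon
          rw [recol, if_pos hcon] at hp
          split_ifs at hp <;> omega
        have hpi : ¬ χ p < k := by
          intro hcon
          rw [recol, if_pos hcon] at hp
          omega
        apply ihd (insert p S) _ b
        · have hrec : recol k χ (insert p S) = Function.update (recol k χ S) p k := by
            funext u
            by_cases hup : u = p
            · subst hup
              rw [Function.update_self, recol, if_neg hpi, if_pos (Finset.mem_insert_self _ _)]
            · rw [Function.update_of_ne hup, recol, recol]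
              by_cases hu : χ u < k
              · rw [if_pos hu, if_pos hu]
              · rw [if_neg hu, if_neg hu]
                by_cases huS : u ∈ S
                · rw [if_pos huS, if_pos (Finset.mem_insert_of_mem huS)]
                · rw [if_neg huS, if_neg (fun h => (Finset.mem_insert.mp h).elim hup huS)]
          rw [hrec]; exact hb
        · have h1 : (insert p S)ᶜ ⊂ Sᶜ := by
            rw [Finset.ssubset_iff_subset_ne]
            constructor
            · exact Finset.compl_subset_compl.mpr (Finset.subset_insert _ _)
            · intro h
              have : p ∈ Sᶜ := Finset.mem_compl.mpr hpS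
              rw [← h] at this
              exact (Finset.mem_compl.mp this) (Finset.mem_insert_self _ _)
          have := Finset.card_lt_card h1
          omega
  apply main _ ∅ le_rfl b
  intro u v huv hu
  have e : ∀ w, recol i χ ∅ w < i + 1 → χ w < i ∧ recol i χ ∅ w = χ w := by
    intro w hw
    rw [recol] at hw ⊢
    by_cases h : χ w < i
    · rw [if_pos h]; exact ⟨h, rfl⟩
    · rw [if_neg h, if_neg (Finset.notMem_empty _)] at hw; omega
  have hu1 := e u hu
  have hv1 := e v (by rw [← huv]; exact hu)
  exact hb u v (by rw [← hu1.2, ← hv1.2]; exact huv) hu1.1

/-- a multilinear map of `n` arguments which is killed by alternating sums in `m + 1` positions and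
vanishes on all tuples with at most `m` different arguments (in the strong sense) is zero -/
theorem capelli (Φ : MultilinearMap F (fun _ : Fin n => B) N) (m : ℕ)
    (h1 : ∀ P : Fin (m + 1) → Fin n, Function.Injective P → ∀ b, altS Φ (m + 1) P b = 0)
    (h2 : ∀ (π : Fin n → Fin m) (z : Fin m → B), Φ (fun i => z (π i)) = 0) (b : Fin n → B) :
    Φ b = 0 := by
  have main : ∀ j i, i + j = m → ∀ χ : Fin n → ℕ, (∀ k < i, Star Φ k χ) →
      ∀ b : Fin n → B, Cst i χ b → Φ b = 0 := by
    intro j
    induction j with
    | zero =>
      intro i hi χ hχ b hb
      have : i = m := by omega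
      subst this
      exact claim_base Φ i h1 h2 χ hχ b hb
    | succ j ih =>
      intro i hi χ hχ b hb
      exact claim_step Φ i (ih (i + 1) (by omega)) χ hχ b hb
  exact main m 0 (by omega) (fun _ => 0) (fun k hk => absurd hk (Nat.not_lt_zero _)) b
    (fun p q _ h => absurd h (Nat.not_lt_zero _))

end Pool.Agent.Mal.Cap
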