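import Mathlib

set_option autoImplicit false
set_option linter.unusedSectionVars false
set_option linter.unusedSimpArgs false

open Finset Equiv

namespace Pool.Agent.Mal.Syz

/-- number of occurrences of a letter in a tuple -/
def cnt {N m : ℕ} (u : Fin m → Fin N) (c : Fin N) : ℕ := ∑ i, if u i = c then 1 else 0

theorem cnt_update {N m : ℕ} (u : Fin m → Fin N) (i : Fin m) (y c : Fin N) :
    cnt (Function.update u i y) c + (if u i = c then 1 else 0) =
      cnt u c + (if y = c then 1 else 0) := by
  unfold cnt
  rw [← Finset.add_sum_erase univ _ (Finset.mem_univ i),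
    ← Finset.add_sum_erase univ (fun j => if u j = c then 1 else 0) (Finset.mem_univ i)]
  have : ∑ x ∈ univ.erase i, (if Function.update u i y x = c then 1 else 0)
      = ∑ x ∈ univ.erase i, (if u x = c then 1 else 0) := by
    refine Finset.sum_congr rfl fun x hx => ?_
    rw [Function.update_of_ne (Finset.ne_of_mem_erase hx)]
  rw [this, Function.update_self]
  omega

theorem cnt_cons {N m : ℕ} (u : Fin m → Fin N) (y c : Fin N) :
    cnt (Fin.cons y u : Fin (m + 1) → Fin N) c = (if y = c then 1 else 0) + cnt u c := by
  unfold cnt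
  rw [Fin.sum_univ_succ]
  simp

theorem cnt_perm {N m : ℕ} (τ : Perm (Fin N)) (u : Fin m → Fin N) (c : Fin N) :
    cnt (τ ∘ u) c = cnt u (τ.symm c) := by
  unfold cnt
  refine Finset.sum_congr rfl fun i _ => ?_
  congr 1
  rw [Function.comp_apply, Equiv.eq_symm_apply]

theorem cnt_pos {N m : ℕ} (u : Fin m → Fin N) (c : Fin N) (h : 0 < cnt u c) : ∃ i, u i = c := by
  by_contra hcon
  push Not at hcon
  have : cnt u c = 0 := Finset.sum_eq_zero fun i _ => if_neg (hcon i)
  omega

theorem cnt_self {N m : ℕ} (u : Fin m → Fin N) (i : Fin m) : 0 < cnt u (u i) := by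
  unfold cnt
  rw [← Finset.add_sum_erase univ _ (Finset.mem_univ i), if_pos rfl]
  omega

theorem cnt_two {N m : ℕ} (u : Fin m → Fin N) (i k : Fin m) (hik : k ≠ i) (h : u k = u i) :
    2 ≤ cnt u (u i) := by
  unfold cnt
  rw [← Finset.add_sum_erase univ _ (Finset.mem_univ i),
    ← Finset.add_sum_erase (univ.erase i) _ (Finset.mem_erase.mpr ⟨hik, Finset.mem_univ k⟩),
    if_pos rfl, if_pos h]
  omega

/-- every letter is used exactly once -/
def Val {N m : ℕ} (A : List (Fin N)) (u : Fin m → Fin N) : Prop := ∀ c, A.count c + cnt u c = 1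

theorem Val.inj {N m : ℕ} {A : List (Fin N)} {u : Fin m → Fin N} (h : Val A u) :
    Function.Injective u := by
  intro k i hki
  by_contra hcon
  have := cnt_two u i k hcon hki
  have := h (u i)
  omega

theorem Val.not_mem {N m : ℕ} {A : List (Fin N)} {u : Fin m → Fin N} (h : Val A u) (i : Fin m) :
    u i ∉ A := by
  intro hi
  have h1 := List.count_pos_iff.mpr hi
  have h2 := cnt_self u i
  have := h (u i)
  omega

theorem Val.perm {N m : ℕ} {A : List (Fin N)} {u : Fin m → Fin N} (h : Val A u)
    (τ : Perm (Fin N)) : Val (A.map τ) (τ ∘ u) := by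
  intro c
  rw [cnt_perm]
  have : (A.map τ).count c = A.count (τ.symm c) := by
    conv_lhs => rw [← τ.apply_symm_apply c]
    exact List.count_map_of_injective A τ τ.injective _
  rw [this]
  exact h _

/-- data for one step of the descending induction -/
structure Mdl (F : Type) [Field F] (N m : ℕ) (M : Type) [AddCommGroup M] [Module F M] where
  X : Fin N → (M →ₗ[F] M)
  act : Perm (Fin N) → (M →ₗ[F] M)
  j0 : (Fin m → Fin N) → M
  j1 : (Fin (m + 1) → Fin N) → M
  j2 : (Fin (m + 2) → Fin N) → M
  central : ∀ a b c v, X a (X b (X c v)) + X b (X a (X c v)) = X c (X a (X b v) + X b (X a v))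
  act_mul : ∀ σ τ v, act (σ * τ) v = act σ (act τ v)
  act_X : ∀ τ i v, act τ (X i v) = X (τ i) (act τ v)
  act_j0 : ∀ τ u, act τ (j0 u) = j0 (τ ∘ u)
  act_j1 : ∀ τ u, act τ (j1 u) = j1 (τ ∘ u)
  cr : ∀ y u, (m + 1 : F) • j1 (Fin.cons y u) =
    X y (j0 u) - ∑ i, X (u i) (j0 (Function.update u i y))
  cr2 : ∀ y w, (m + 2 : F) • j2 (Fin.cons y w) =
    X y (j1 w) - ∑ i, X (w i) (j1 (Function.update w i y))
  qcr : ∀ x y u, (X x (X y (j0 u)) + X y (X x (j0 u))) -
    ∑ i, (X x (X (u i) (j0 (Function.update u i y))) + X (u i) (X x (j0 (Function.update u i y))))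
    = (2 : F) • (X x (j1 (Fin.cons y u)) - j2 (Fin.cons x (Fin.cons y u)))

namespace Mdl

variable {F : Type} [Field F] [CharZero F] {N m : ℕ} {M : Type} [AddCommGroup M] [Module F M]
  (D : Mdl F N m M)

/-- word action -/
def ap (A : List (Fin N)) : M →ₗ[F] M := A.foldr (fun a f => D.X a ∘ₗ f) LinearMap.id

theorem ap_nil (v : M) : D.ap [] v = v := rfl

theorem ap_cons (a : Fin N) (A : List (Fin N)) (v : M) : D.ap (a :: A) v = D.X a (D.ap A v) := rfl

theorem ap_append (A B : List (Fin N)) (v : M) : D.ap (A ++ B) v = D.ap A (D.ap B v) := by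
  induction A with
  | nil => rfl
  | cons a A ih => rw [List.cons_append, ap_cons, ih, ap_cons]

theorem act_ap (τ : Perm (Fin N)) (A : List (Fin N)) (v : M) :
    D.act τ (D.ap A v) = D.ap (A.map τ) (D.act τ v) := by
  induction A with
  | nil => rfl
  | cons a A ih => rw [ap_cons, D.act_X, ih, List.map_cons, ap_cons]

theorem ap_central (a b : Fin N) (A : List (Fin N)) (v : M) :
    D.X a (D.X b (D.ap A v)) + D.X b (D.X a (D.ap A v)) =
      D.ap A (D.X a (D.X b v) + D.X b (D.X a v)) := by
  induction A with
  | nil => rfl
  | cons c A ih => rw [ap_cons, D.central, ih, ap_cons]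

/-- the span of the generators of level `m` -/
def V0 : Submodule F M := Submodule.span F {v | ∃ A u, Val A u ∧ v = D.ap A (D.j0 u)}

/-- the span of the generators of level `m + 1` -/
def V1 : Submodule F M := Submodule.span F {v | ∃ A u, Val A u ∧ v = D.ap A (D.j1 u)}

theorem mem_V1 (A : List (Fin N)) (u : Fin (m + 1) → Fin N) (h : Val A u) :
    D.ap A (D.j1 u) ∈ D.V1 := Submodule.subset_span ⟨A, u, h, rfl⟩

theorem mem_V1' (A : List (Fin N)) (x : Fin N) (u : Fin (m + 1) → Fin N)
    (h : Val A (Fin.cons x u : Fin (m + 2) → Fin N)) : D.ap A (D.j2 (Fin.cons x u)) ∈ D.V1 := by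
  have h1 : (m + 2 : F) • D.ap A (D.j2 (Fin.cons x u)) ∈ D.V1 := by
    rw [← map_smul, D.cr2, map_sub, map_sum]
    apply Submodule.sub_mem
    · have : D.ap A (D.X x (D.j1 u)) = D.ap (A ++ [x]) (D.j1 u) := by rw [ap_append]; rfl
      rw [this]
      apply D.mem_V1
      intro c
      have := h c
      rw [cnt_cons] at this
      rw [List.count_append, List.count_singleton]
      simp only [beq_iff_eq]
      omega
    · apply Submodule.sum_mem
      intro i _
      have : D.ap A (D.X (u i) (D.j1 (Function.update u i x))) =
        D.ap (A ++ [u i]) (D.j1 (Function.update u i x)) := by rw [ap_append]; rfl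
      rw [this]
      apply D.mem_V1
      intro c
      have h2 := h c
      rw [cnt_cons] at h2
      have h3 := cnt_update u i x c
      rw [List.count_append, List.count_singleton]
      simp only [beq_iff_eq]
      omega
  have hne : (m + 2 : F) ≠ 0 := by
    have := Nat.cast_add_one_ne_zero (R := F) (m + 1)
    intro h0
    apply this
    push_cast
    linear_combination h0
  have h2 := Submodule.smul_mem D.V1 ((m + 2 : F)⁻¹) h1
  rwa [smul_smul, inv_mul_cancel₀ hne, one_smul] at h2

/-- alternation over the positions of `P` -/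
noncomputable def alt (P : Fin (m + 1) ↪ Fin N) : M →ₗ[F] M :=
  ∑ σ : Perm (Fin (m + 1)), (Perm.sign σ : ℤ) • D.act (σ.viaEmbedding P)

theorem alt_apply (P : Fin (m + 1) ↪ Fin N) (v : M) : D.alt P v =
    ∑ σ : Perm (Fin (m + 1)), (Perm.sign σ : ℤ) • D.act (σ.viaEmbedding P) v := by
  simp [alt, LinearMap.sum_apply]

theorem alt_V1 (P : Fin (m + 1) ↪ Fin N) (v : M) (hv : v ∈ D.V1) : D.alt P v ∈ D.V1 := by
  rw [alt_apply]
  apply Submodule.sum_mem
  intro σ _
  apply zsmul_mem
  induction hv using Submodule.span_induction with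
  | mem v hv =>
    obtain ⟨A, u, h, rfl⟩ := hv
    rw [act_ap, D.act_j1]
    exact D.mem_V1 _ _ (h.perm _)
  | zero => rw [map_zero]; exact Submodule.zero_mem _
  | add a b _ _ ha hb => rw [map_add]; exact Submodule.add_mem _ ha hb
  | smul c a _ ha => rw [map_smul]; exact Submodule.smul_mem _ _ ha

theorem viaEmbedding_swap (P : Fin (m + 1) ↪ Fin N) (a b : Fin (m + 1)) :
    (swap a b).viaEmbedding P = swap (P a) (P b) := by
  ext i
  by_cases hi : ∃ x, P x = i
  · obtain ⟨x, rfl⟩ := hi
    rw [Perm.viaEmbedding_apply, ← P.injective.map_swap]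
  · rw [Perm.viaEmbedding_apply_of_notMem _ _ _ (by simpa using hi)]
    rw [swap_apply_of_ne_of_ne]
    · intro h; exact hi ⟨a, h.symm⟩
    · intro h; exact hi ⟨b, h.symm⟩

theorem alt_swap (P : Fin (m + 1) ↪ Fin N) (a b : Fin (m + 1)) (hab : a ≠ b) (v : M) :
    D.alt P (D.act (swap (P a) (P b)) v) = - D.alt P v := by
  have e : D.alt P v = ∑ σ : Perm (Fin (m + 1)), (Perm.sign (σ * swap a b) : ℤ) •
      D.act ((σ * swap a b).viaEmbedding P) v := by
    rw [alt_apply]
    exact (Equiv.sum_comp (Equiv.mulRight (swap a b))
      (fun σ : Perm (Fin (m + 1)) => (Perm.sign σ : ℤ) • D.act (σ.viaEmbedding P) v)).symm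
  rw [e, alt_apply, ← Finset.sum_neg_distrib]
  refine Finset.sum_congr rfl fun σ _ => ?_
  have h1 : (σ * swap a b).viaEmbedding P = σ.viaEmbedding P * (swap a b).viaEmbedding P :=
    map_mul (Perm.viaEmbeddingHom P) σ (swap a b)
  rw [h1, Perm.sign_mul, Perm.sign_swap hab, D.act_mul, ← viaEmbedding_swap]
  simp

/-- a swap of letters outside the word -/
theorem map_swap_of_not_mem (A : List (Fin N)) (y z : Fin N) (hy : y ∉ A) (hz : z ∉ A) :
    A.map (swap y z) = A := by
  conv_rhs => rw [← List.map_id A]
  refine List.map_congr_left fun a ha => ?_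
  have h1 : a ≠ y := by rintro rfl; exact hy ha
  have h2 : a ≠ z := by rintro rfl; exact hz ha
  rw [swap_apply_of_ne_of_ne h1 h2]
  rfl

theorem swap_comp (u : Fin m → Fin N) (hu : Function.Injective u) (y : Fin N)
    (hy : ∀ k, u k ≠ y) (i : Fin m) : swap y (u i) ∘ u = Function.update u i y := by
  funext k
  by_cases hk : k = i
  · subst hk; rw [Function.comp_apply, swap_apply_right, Function.update_self]
  · rw [Function.comp_apply, Function.update_of_ne hk,
      swap_apply_of_ne_of_ne (hy k) (fun h => hk (hu h))]

/-- number of letters of `P` in a word -/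
def tc (P : Fin (m + 1) ↪ Fin N) (A : List (Fin N)) : ℕ := A.countP (fun a => decide (∃ x, P x = a))

/-- type (i) and (ii) reduction -/
theorem red (P : Fin (m + 1) ↪ Fin N) (u : Fin m → Fin N) (y : Fin N)
    (hyu : ∀ k, u k ≠ y) (x : Fin (m + 1)) (hx : P x = y)
    (G : Fin N → (Fin m → Fin N) → M)
    (hG : ∀ i, (∃ x, P x = u i) → D.act (swap y (u i)) (G y u) = G (u i) (Function.update u i y))
    (hV : G y u - ∑ i, G (u i) (Function.update u i y) ∈ D.V1)
    (IH : ∀ i, (¬ ∃ x, P x = u i) → D.alt P (G (u i) (Function.update u i y)) ∈ D.V1) :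
    D.alt P (G y u) ∈ D.V1 := by
  classical
  have h1 := D.alt_V1 P _ hV
  rw [map_sub, map_sum] at h1
  have h2 : ∑ i, D.alt P (G (u i) (Function.update u i y)) =
      ∑ i, (if ∃ x, P x = u i then - D.alt P (G y u)
        else D.alt P (G (u i) (Function.update u i y))) := by
    refine Finset.sum_congr rfl fun i _ => ?_
    by_cases hi : ∃ x, P x = u i
    · rw [if_pos hi, ← hG i hi]
      obtain ⟨x', hx'⟩ := hi
      rw [← hx, ← hx', D.alt_swap P x x' (fun h => hyu i (by rw [← hx', ← h, hx]))]
    · rw [if_neg hi]
  rw [h2, Finset.sum_ite, Finset.sum_const, smul_neg, sub_add_eq_sub_sub, sub_neg_eq_add] at h1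
  have h3 : ∑ i ∈ univ.filter (fun i => ¬ ∃ x, P x = u i),
      D.alt P (G (u i) (Function.update u i y)) ∈ D.V1 := by
    apply Submodule.sum_mem
    intro i hi
    exact IH i (Finset.mem_filter.mp hi).2
  have h4 := Submodule.add_mem _ h1 h3
  rw [sub_add_cancel] at h4
  have h5 : ((univ.filter (fun i => ∃ x, P x = u i)).card + 1 : F) • D.alt P (G y u) ∈ D.V1 := by
    rw [add_smul, one_smul, Nat.cast_smul_eq_nsmul, add_comm]
    exact h4
  have hne := Nat.cast_add_one_ne_zero (R := F) (univ.filter (fun i => ∃ x, P x = u i)).card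
  have h6 := Submodule.smul_mem D.V1 (((univ.filter (fun i => ∃ x, P x = u i)).card + 1 : F)⁻¹) h5
  rwa [smul_smul, inv_mul_cancel₀ hne, one_smul] at h6

theorem tc_append (P : Fin (m + 1) ↪ Fin N) (A B : List (Fin N)) :
    tc P (A ++ B) = tc P A + tc P B := List.countP_append

theorem tc_cons (P : Fin (m + 1) ↪ Fin N) (a : Fin N) (A : List (Fin N)) :
    tc P (a :: A) = tc P A + if ∃ x, P x = a then 1 else 0 := by
  unfold tc
  rw [List.countP_cons]
  simp

theorem tc_nil (P : Fin (m + 1) ↪ Fin N) : tc P [] = 0 := rfl

/-- there is a letter of `P` outside the tuple -/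
theorem exists_out (P : Fin (m + 1) ↪ Fin N) (A : List (Fin N)) (u : Fin m → Fin N)
    (h : Val A u) : ∃ x, P x ∈ A := by
  by_contra hcon
  push Not at hcon
  have h1 : ∀ x, ∃ i, u i = P x := by
    intro x
    apply cnt_pos
    have := h (P x)
    rw [List.count_eq_zero_of_not_mem (hcon x)] at this
    omega
  choose f hf using h1
  have hinj : Function.Injective f := by
    intro a b hab
    apply P.injective
    rw [← hf a, ← hf b, hab]
  have := Fintype.card_le_of_injective f hinj
  simp at this

theorem alt_mem_aux (P : Fin (m + 1) ↪ Fin N) (k : ℕ) : ∀ (A : List (Fin N)) (u : Fin m → Fin N),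
    Val A u → tc P A ≤ k → D.alt P (D.ap A (D.j0 u)) ∈ D.V1 := by
  induction k with
  | zero =>
    intro A u h hk
    obtain ⟨x, hx⟩ := exists_out P A u h
    exfalso
    have : 0 < tc P A := List.countP_pos_iff.mpr ⟨P x, hx, by simp⟩
    omega
  | succ k IH =>
    -- type (i)
    have t1 : ∀ (C : List (Fin N)) (y : Fin N) (u : Fin m → Fin N), Val (C ++ [y]) u →
        tc P (C ++ [y]) ≤ k + 1 → (∃ x, P x = y) →
        D.alt P (D.ap C (D.X y (D.j0 u))) ∈ D.V1 := by
      intro C y u h hk hy
      obtain ⟨x, hx⟩ := hy
      have hC : ∀ c, C.count c + (if y = c then 1 else 0) + cnt u c = 1 := by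
        intro c
        have := h c
        rw [List.count_append, List.count_singleton] at this
        simpa only [beq_iff_eq] using this
      have hyC : y ∉ C := by
        intro hy
        have h1 := List.count_pos_iff.mpr hy
        have := hC y
        rw [if_pos rfl] at this
        omega
      have huC : ∀ i, u i ∉ C := fun i hi => h.not_mem i (List.mem_append_left _ hi)
      have hyu : ∀ i, u i ≠ y := fun i hi => h.not_mem i (by rw [hi]; simp)
      apply D.red P u y hyu x hx (fun z w => D.ap C (D.X z (D.j0 w)))
      · intro i _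
        rw [D.act_ap, map_swap_of_not_mem C y (u i) hyC (huC i), D.act_X, swap_apply_left,
          D.act_j0, swap_comp u h.inj y hyu i]
      · rw [← map_sum, ← map_sub, ← D.cr y u, map_smul]
        apply Submodule.smul_mem
        apply D.mem_V1
        intro c
        rw [cnt_cons]
        have := hC c
        omega
      · intro i hi
        have : D.ap C (D.X (u i) (D.j0 (Function.update u i y))) =
          D.ap (C ++ [u i]) (D.j0 (Function.update u i y)) := by rw [ap_append]; rfl
        rw [this]
        apply IH
        · intro c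
          rw [List.count_append, List.count_singleton]
          simp only [beq_iff_eq]
          have h1 := hC c
          have h2 := cnt_update u i y c
          omega
        · rw [tc_append, tc_cons, tc_nil, if_neg hi]
          rw [tc_append, tc_cons, tc_nil, if_pos ⟨x, hx⟩] at hk
          omega
    -- type (ii)
    have t2 : ∀ (C : List (Fin N)) (y z : Fin N) (u : Fin m → Fin N), Val (C ++ [y, z]) u →
        tc P (C ++ [y, z]) ≤ k + 1 → (∃ x, P x = y) →
        D.alt P (D.ap C (D.X y (D.X z (D.j0 u)) + D.X z (D.X y (D.j0 u)))) ∈ D.V1 := by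
      intro C y z u h hk hy
      obtain ⟨x, hx⟩ := hy
      have hC : ∀ c, C.count c + (if y = c then 1 else 0) + (if z = c then 1 else 0)
          + cnt u c = 1 := by
        intro c
        have := h c
        rw [List.count_append, List.count_cons, List.count_singleton] at this
        simp only [beq_iff_eq] at this
        omega
      have hyC : y ∉ C := by
        intro hy
        have h1 := List.count_pos_iff.mpr hy
        have := hC y
        rw [if_pos rfl] at this
        omega
      have hyz : z ≠ y := by
        intro hzy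
        have := hC y
        rw [if_pos rfl, if_pos hzy] at this
        omega
      have huC : ∀ i, u i ∉ C := fun i hi => h.not_mem i (List.mem_append_left _ hi)
      have hyu : ∀ i, u i ≠ y := fun i hi => h.not_mem i (by rw [hi]; simp)
      have hzu : ∀ i, u i ≠ z := fun i hi => h.not_mem i (by rw [hi]; simp)
      apply D.red P u y hyu x hx
        (fun t w => D.ap C (D.X t (D.X z (D.j0 w)) + D.X z (D.X t (D.j0 w))))
      · intro i _
        rw [D.act_ap, map_swap_of_not_mem C y (u i) hyC (huC i), map_add, D.act_X, D.act_X,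
          D.act_X, D.act_X, swap_apply_left, swap_apply_of_ne_of_ne hyz (hzu i).symm,
          D.act_j0, swap_comp u h.inj y hyu i]
      · rw [← map_sum, ← map_sub]
        have e : (D.X y (D.X z (D.j0 u)) + D.X z (D.X y (D.j0 u))) -
            ∑ i, (D.X (u i) (D.X z (D.j0 (Function.update u i y))) +
              D.X z (D.X (u i) (D.j0 (Function.update u i y))))
            = (2 : F) • (D.X z (D.j1 (Fin.cons y u)) - D.j2 (Fin.cons z (Fin.cons y u))) := by
          rw [← D.qcr z y u, add_comm (D.X y (D.X z (D.j0 u)))]
          congr 1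
          exact Finset.sum_congr rfl fun i _ => add_comm _ _
        rw [e, map_smul]
        apply Submodule.smul_mem
        rw [map_sub]
        apply Submodule.sub_mem
        · have : D.ap C (D.X z (D.j1 (Fin.cons y u))) = D.ap (C ++ [z]) (D.j1 (Fin.cons y u)) := by
            rw [ap_append]; rfl
          rw [this]
          apply D.mem_V1
          intro c
          rw [cnt_cons, List.count_append, List.count_singleton]
          simp only [beq_iff_eq]
          have := hC c
          omega
        · apply D.mem_V1'
          intro c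
          rw [cnt_cons, cnt_cons]
          have := hC c
          omega
      · intro i hi
        have e1 : D.ap C (D.X (u i) (D.X z (D.j0 (Function.update u i y))) +
            D.X z (D.X (u i) (D.j0 (Function.update u i y)))) =
          D.ap (C ++ [u i, z]) (D.j0 (Function.update u i y)) +
            D.ap (C ++ [z, u i]) (D.j0 (Function.update u i y)) := by
          rw [ap_append, ap_append, ← map_add]; rfl
        rw [e1, map_add]
        apply Submodule.add_mem
        · apply IH
          · intro c
            rw [List.count_append, List.count_cons, List.count_singleton]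
            simp only [beq_iff_eq]
            have h1 := hC c
            have h2 := cnt_update u i y c
            omega
          · have hy1 : ∃ x, P x = y := ⟨x, hx⟩
            rw [tc_append, tc_cons, tc_cons, tc_nil] at hk ⊢
            rw [if_neg hi]
            rw [if_pos hy1] at hk
            omega
        · apply IH
          · intro c
            rw [List.count_append, List.count_cons, List.count_singleton]
            simp only [beq_iff_eq]
            have h1 := hC c
            have h2 := cnt_update u i y c
            omega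
          · have hy1 : ∃ x, P x = y := ⟨x, hx⟩
            rw [tc_append, tc_cons, tc_cons, tc_nil] at hk ⊢
            rw [if_neg hi]
            rw [if_pos hy1] at hk
            omega
    -- general position of the letter
    have t3 : ∀ (A2 A1 : List (Fin N)) (y : Fin N) (u : Fin m → Fin N), Val (A1 ++ y :: A2) u →
        tc P (A1 ++ y :: A2) ≤ k + 1 → (∃ x, P x = y) →
        D.alt P (D.ap (A1 ++ y :: A2) (D.j0 u)) ∈ D.V1 := by
      intro A2
      induction A2 with
      | nil =>
        intro A1 y u h hk hy
        have : D.ap (A1 ++ [y]) (D.j0 u) = D.ap A1 (D.X y (D.j0 u)) := by rw [ap_append]; rfl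
        rw [this]
        exact t1 A1 y u h hk hy
      | cons z A2 ih =>
        intro A1 y u h hk hy
        have e : D.ap (A1 ++ y :: z :: A2) (D.j0 u) =
            D.ap (A1 ++ A2) (D.X y (D.X z (D.j0 u)) + D.X z (D.X y (D.j0 u)))
            - D.ap ((A1 ++ [z]) ++ y :: A2) (D.j0 u) := by
          rw [ap_append, ap_append, ap_append, ap_append, ← ap_central, ← map_sub]
          congr 1
          rw [ap_cons, ap_cons, ap_cons, ap_cons, ap_nil, add_sub_cancel_right]
        rw [e, map_sub]
        apply Submodule.sub_mem
        · apply t2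
          · intro c
            have h1 := h c
            simp only [List.count_append, List.count_cons, List.count_nil] at h1 ⊢
            omega
          · rw [tc_append, tc_cons, tc_cons] at hk
            rw [tc_append, tc_append, tc_cons, tc_cons, tc_nil]
            omega
          · exact hy
        · apply ih
          · intro c
            have h1 := h c
            simp only [List.count_append, List.count_cons, List.count_nil] at h1 ⊢
            omega
          · rw [tc_append, tc_cons, tc_cons] at hk
            rw [tc_append, tc_append, tc_cons, tc_cons, tc_nil]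
            omega
          · exact hy
    intro A u h hk
    obtain ⟨x, hx⟩ := exists_out P A u h
    obtain ⟨A1, A2, rfl⟩ := List.append_of_mem hx
    exact t3 A2 A1 (P x) u h hk ⟨x, rfl⟩

theorem alt_mem (P : Fin (m + 1) ↪ Fin N) (v : M) (hv : v ∈ D.V0) : D.alt P v ∈ D.V1 := by
  induction hv using Submodule.span_induction with
  | mem v hv =>
    obtain ⟨A, u, h, rfl⟩ := hv
    exact D.alt_mem_aux P _ A u h le_rfl
  | zero => rw [map_zero]; exact Submodule.zero_mem _
  | add a b _ _ ha hb => rw [map_add]; exact Submodule.add_mem _ ha hb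
  | smul c a _ ha => rw [map_smul]; exact Submodule.smul_mem _ _ ha

end Mdl

end Pool.Agent.Mal.Syz
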