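import Mathlib
import Pool.Agent.Mal.Cl

set_option autoImplicit false
set_option linter.unusedSectionVars false
set_option linter.unusedSimpArgs false

open Finset Equiv

namespace Pool.Agent.Mal.Syz

section clif

variable {F : Type} [Field F] [CharZero F] {m : ℕ}
  {R : Type} [CommRing R] [IsDomain R] [Algebra F R] (Q : QuadraticForm R (Fin m → R))

/-- left multiplication by vectors, as `F`-linear operators -/
noncomputable def LD : (Fin m → R) →ₗ[F] (CliffordAlgebra Q →ₗ[F] CliffordAlgebra Q) where
  toFun v := LinearMap.mulLeft F (CliffordAlgebra.ι Q v)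
  map_add' x y := by ext u; simp [add_mul]
  map_smul' c x := by
    ext u
    have : CliffordAlgebra.ι Q (c • x) = c • CliffordAlgebra.ι Q x := by
      rw [← algebraMap_smul R c x, map_smul, algebraMap_smul]
    simp [this]

omit [CharZero F] [IsDomain R] in
@[simp] theorem LD_apply (v : Fin m → R) (u : CliffordAlgebra Q) :
    LD (F := F) Q v u = CliffordAlgebra.ι Q v * u := rfl

omit [IsDomain R] in
theorem LD_ac (v w : Fin m → R) (u : CliffordAlgebra Q) :
    ac (LD (F := F) Q) v w u = QuadraticMap.polar Q v w • u := by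
  rw [ac_apply]
  simp only [LD_apply]
  rw [← mul_assoc, ← mul_assoc, ← add_mul, CliffordAlgebra.ι_mul_ι_add_swap, Algebra.smul_def]

omit [IsDomain R] in
theorem LD_cliff : Cliff (LD (F := F) Q) := by
  intro a b c u
  rw [LD_ac, LD_ac]
  simp only [LD_apply]
  rw [mul_smul_comm]

omit [IsDomain R] in
/-- the alternating sum of products of vectors is a multiple of the one of the basis -/
theorem psum_det (v : Fin m → (Fin m → R)) : ∃ r : R,
    psum m (fold (LD (F := F) Q) 1) v = r • psum m (fold (LD (F := F) Q) 1) (fun i => Pi.single i 1) := by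
  let A : (Fin m → R) [⋀^Fin m]→ₗ[R] CliffordAlgebra Q :=
    MultilinearMap.alternatization
      ((MultilinearMap.mkPiAlgebraFin R m (CliffordAlgebra Q)).compLinearMap
        (fun _ => CliffordAlgebra.ι Q))
  have hA : ∀ w : Fin m → (Fin m → R), A w = psum m (fold (LD (F := F) Q) 1) w := by
    intro w
    change MultilinearMap.alternatization _ w = _
    rw [MultilinearMap.alternatization_apply]
    unfold psum
    refine Finset.sum_congr rfl fun s _ => ?_
    rw [Units.smul_def]
    congr 1
    change (MultilinearMap.mkPiAlgebraFin R m (CliffordAlgebra Q)) _ = _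
    rw [MultilinearMap.mkPiAlgebraFin_apply]
    unfold fold
    have e0 : (List.ofFn fun i => CliffordAlgebra.ι Q (w (s i)))
        = (List.ofFn (w ∘ s)).map (CliffordAlgebra.ι Q) := by rw [List.map_ofFn]; rfl
    change (List.ofFn fun i => CliffordAlgebra.ι Q (w (s i))).prod = _
    rw [e0]
    generalize List.ofFn (w ∘ s) = l
    induction l with
    | nil => rfl
    | cons a l ih => rw [List.map_cons, List.prod_cons, List.foldr_cons, ih]; rfl
  refine ⟨(Pi.basisFun R (Fin m)).det v, ?_⟩
  rw [← hA, ← hA]
  have h1 : A = (LinearMap.toSpanSingleton R (CliffordAlgebra Q)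
      (A (fun i => Pi.single i 1))).compAlternatingMap (Pi.basisFun R (Fin m)).det := by
    refine Module.Basis.ext_alternating (Pi.basisFun R (Fin m)) fun s hs => ?_
    obtain ⟨σ, rfl⟩ : ∃ σ : Perm (Fin m), s = σ :=
      ⟨Equiv.ofBijective s (Finite.injective_iff_bijective.mp hs), rfl⟩
    have e1 : (fun i => (Pi.basisFun R (Fin m)) (σ i)) = (Pi.basisFun R (Fin m)) ∘ σ := rfl
    rw [e1, AlternatingMap.map_perm, AlternatingMap.map_perm]
    congr 1
    rw [LinearMap.compAlternatingMap_apply, Module.Basis.det_self, LinearMap.toSpanSingleton_apply,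
      one_smul]
    congr 1
    funext i
    simp
  conv_lhs => rw [h1]
  rfl

/-- right multiplication by a product of orthogonal anisotropic vectors is injective -/
theorem fold_reg [Module.IsTorsionFree R (CliffordAlgebra Q)] {k : ℕ} (v : Fin k → (Fin m → R))
    (hv : ∀ i, Q (v i) ≠ 0) (c : CliffordAlgebra Q)
    (h : c * fold (LD (F := F) Q) 1 v = 0) : c = 0 := by
  induction k generalizing c with
  | zero => simpa [fold] using h
  | succ k ih =>
    rw [fold_succ, LD_apply, ← mul_assoc] at h
    have h1 := ih (Fin.tail v) (fun i => hv _) _ h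
    have h2 : c * CliffordAlgebra.ι Q (v 0) * CliffordAlgebra.ι Q (v 0) = 0 := by
      rw [h1, zero_mul]
    rw [mul_assoc, CliffordAlgebra.ι_sq_scalar, ← Algebra.commutes, ← Algebra.smul_def] at h2
    exact (smul_eq_zero.mp h2).resolve_left (hv 0)

theorem clif_reg [Module.IsTorsionFree R (CliffordAlgebra Q)] (v : Fin m → (Fin m → R))
    (hv : ∀ i, Q (v i) ≠ 0) (ho : ∀ i j, i ≠ j → QuadraticMap.polar Q (v i) (v j) = 0)
    (c : CliffordAlgebra Q)
    (h : c * ww (LD (F := F) Q) 1 m (fun i => Pi.single i 1) = 0) : c = 0 := by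
  apply fold_reg (F := F) Q v hv
  rw [← ww_ortho (LD_cliff Q) 1 m v (by
    intro i j hij
    ext u
    rw [LD_ac, ho i j hij, zero_smul]; rfl)]
  obtain ⟨r, hr⟩ := psum_det (F := F) Q v
  rw [psum_fold, psum_fold] at hr
  have h1 : (m.factorial : F) • (c * ww (LD (F := F) Q) 1 m v) = 0 := by
    rw [← mul_smul_comm, hr, mul_smul_comm, mul_smul_comm, h, smul_zero, smul_zero]
  exact (smul_eq_zero.mp h1).resolve_left (Nat.cast_ne_zero.mpr (Nat.factorial_ne_zero m))

end clif

section generic

variable (F : Type) [Field F] [CharZero F] (m : ℕ)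

/-- the coefficient ring of the generic symmetric form -/
abbrev RR := MvPolynomial (Sym2 (Fin m)) F

/-- generic symmetric matrix -/
noncomputable def GG : Matrix (Fin m) (Fin m) (RR F m) := fun i j => MvPolynomial.X s(i, j)

/-- generic form -/
noncomputable def QQ : QuadraticForm (RR F m) (Fin m → RR F m) :=
  (Matrix.toBilin' (GG F m)).toQuadraticMap

theorem QQ_apply (v : Fin m → RR F m) :
    QQ F m v = ∑ i, ∑ j, v i * MvPolynomial.X s(i, j) * v j := by
  change Matrix.toBilin' (GG F m) v v = _
  rw [Matrix.toBilin'_apply]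
  rfl

theorem GG_symm : (GG F m).IsSymm := by
  ext i j
  simp [GG, Sym2.eq_swap]

theorem BB_symm (v w : Fin m → RR F m) :
    Matrix.toBilin' (GG F m) v w = Matrix.toBilin' (GG F m) w v := by
  rw [Matrix.toBilin'_apply, Matrix.toBilin'_apply, Finset.sum_comm]
  refine Finset.sum_congr rfl fun i _ => Finset.sum_congr rfl fun j _ => ?_
  have : GG F m j i = GG F m i j := by simp [GG, Sym2.eq_swap]
  rw [this]; ring

theorem QQ_polar (v w : Fin m → RR F m) :
    QuadraticMap.polar (QQ F m) v w = 2 * Matrix.toBilin' (GG F m) v w := by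
  rw [QQ, LinearMap.BilinMap.polar_toQuadraticMap, BB_symm F m w v]
  ring

theorem det_GG : (GG F m).det ≠ 0 := by
  intro h
  have h1 := congrArg (MvPolynomial.eval
    (Sym2.lift ⟨fun i j : Fin m => if i = j then (1 : F) else 0, by
      intro i j; simp only [eq_comm]⟩)) h
  rw [RingHom.map_det, map_zero] at h1
  have h2 : (MvPolynomial.eval
    (Sym2.lift ⟨fun i j : Fin m => if i = j then (1 : F) else 0, by
      intro i j; simp only [eq_comm]⟩)).mapMatrix (GG F m) = 1 := by
    ext i j
    simp [GG, Matrix.one_apply]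
  rw [h2, Matrix.det_one] at h1
  exact one_ne_zero h1

/-- orthogonal anisotropic vectors -/
theorem exists_ortho : ∃ v : Fin m → (Fin m → RR F m), (∀ i, QQ F m (v i) ≠ 0) ∧
    ∀ i j, i ≠ j → QuadraticMap.polar (QQ F m) (v i) (v j) = 0 := by
  classical
  let K := FractionRing (RR F m)
  let φ : RR F m →+* K := algebraMap (RR F m) K
  have hφ : Function.Injective φ := IsFractionRing.injective (RR F m) K
  haveI : Invertible (2 : K) := invertibleOfNonzero two_ne_zero
  let GK : Matrix (Fin m) (Fin m) K := (GG F m).map φ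
  have hdet : GK.det ≠ 0 := by
    have : GK.det = φ (GG F m).det := by rw [RingHom.map_det]; rfl
    rw [this]
    intro h
    exact det_GG F m (hφ (by rw [h, map_zero]))
  have hsymm : LinearMap.IsSymm (Matrix.toBilin' GK) := by
    constructor
    intro v w
    rw [RingHom.id_apply, Matrix.toBilin'_apply, Matrix.toBilin'_apply, Finset.sum_comm]
    refine Finset.sum_congr rfl fun i _ => Finset.sum_congr rfl fun j _ => ?_
    have : GK j i = GK i j := by simp [GK, GG, Sym2.eq_swap]
    rw [this]; ring
  obtain ⟨b0, hb0⟩ := LinearMap.BilinForm.exists_orthogonal_basis hsymm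
  have hnd : (Matrix.toBilin' GK).Nondegenerate :=
    LinearMap.BilinForm.nondegenerate_toBilin'_of_det_ne_zero' GK hdet
  have hb1 := hb0.not_isOrtho_basis_self_of_separatingLeft hnd.1
  have hfin : Module.finrank K (Fin m → K) = m := Module.finrank_fin_fun K
  let e : Fin m ≃ Fin (Module.finrank K (Fin m → K)) := finCongr hfin.symm
  -- clear denominators
  have hcl : ∀ i : Fin m, ∃ d : RR F m, d ≠ 0 ∧ ∃ u : Fin m → RR F m,
      ∀ k, φ (u k) = φ d * b0 (e i) k := by
    intro i
    obtain ⟨d, hd⟩ := IsLocalization.exist_integer_multiples_of_finite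
      (nonZeroDivisors (RR F m)) (fun k => b0 (e i) k)
    choose u hu using hd
    refine ⟨d, nonZeroDivisors.coe_ne_zero d, u, fun k => ?_⟩
    have := hu k
    change φ (u k) = (d : RR F m) • b0 (e i) k at this
    rw [this, Algebra.smul_def]
  choose d hd u hu using hcl
  have hB : ∀ i j, φ (Matrix.toBilin' (GG F m) (u i) (u j)) =
      φ (d i) * φ (d j) * Matrix.toBilin' GK (b0 (e i)) (b0 (e j)) := by
    intro i j
    rw [Matrix.toBilin'_apply, Matrix.toBilin'_apply, map_sum, Finset.mul_sum]
    refine Finset.sum_congr rfl fun k _ => ?_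
    rw [map_sum, Finset.mul_sum]
    refine Finset.sum_congr rfl fun l _ => ?_
    rw [map_mul, map_mul, hu, hu]
    change _ * φ (GG F m k l) * _ = _ * (_ * φ (GG F m k l) * _)
    ring
  refine ⟨u, fun i h => ?_, fun i j hij => ?_⟩
  · have h1 : Matrix.toBilin' (GG F m) (u i) (u i) = 0 := h
    have h2 := hB i i
    rw [h1, map_zero] at h2
    have h3 : φ (d i) ≠ 0 := fun h => hd i (hφ (by rw [h, map_zero]))
    exact mul_ne_zero (mul_ne_zero h3 h3) (hb1 (e i)) h2.symm
  · have h2 := hB i j
    have h3 : Matrix.toBilin' GK (b0 (e i)) (b0 (e j)) = 0 :=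
      hb0 (fun h => hij (e.injective h))
    rw [h3, mul_zero] at h2
    have h4 : Matrix.toBilin' (GG F m) (u i) (u j) = 0 := hφ (by rw [h2, map_zero])
    rw [QQ_polar, h4, mul_zero]

/-- scalars extension of vectors -/
noncomputable def gl : (Fin m →₀ F) →ₗ[F] (Fin m → RR F m) where
  toFun e := fun i => MvPolynomial.C (e i)
  map_add' a b := by funext i; simp
  map_smul' c a := by funext i; simp [MvPolynomial.smul_eq_C_mul]

/-- letters in the generic Clifford algebra -/
noncomputable def fl : (Fin m →₀ F) →ₗ[F] CliffordAlgebra (QQ F m) where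
  toFun e := CliffordAlgebra.ι (QQ F m) (gl F m e)
  map_add' a b := by rw [map_add, map_add]
  map_smul' c a := by
    have : (c • gl F m a) = (MvPolynomial.C c : RR F m) • gl F m a := by
      funext i
      simp [MvPolynomial.smul_eq_C_mul]
    rw [map_smul, this, map_smul, RingHom.id_apply]
    exact (algebraMap_smul (RR F m) c (CliffordAlgebra.ι (QQ F m) (gl F m a)))

theorem fl_apply (e : Fin m →₀ F) : fl F m e = CliffordAlgebra.ι (QQ F m) (gl F m e) := rfl

/-- the comparison map -/
noncomputable def psi : Cl F (Fin m →₀ F) →ₐ[F] CliffordAlgebra (QQ F m) :=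
  clLift (fl F m) (by
    intro a b c
    simp only [fl_apply]
    rw [CliffordAlgebra.ι_mul_ι_add_swap]
    exact Algebra.commutes _ _)

theorem psi_ι (e : Fin m →₀ F) : psi F m (cι F e) = CliffordAlgebra.ι (QQ F m) (gl F m e) :=
  clLift_ι _ _ e

theorem ac_center {E : Type} [AddCommGroup E] [Module F E] (a b : E) :
    (1 / 2 : F) • (cι F a * cι F b + cι F b * cι F a) ∈ Subalgebra.center F (Cl F E) := by
  apply Subalgebra.smul_mem
  rw [Subalgebra.mem_center_iff]
  intro x
  induction x using cl_induction with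
  | h1 => rw [one_mul, mul_one]
  | hm e x hx => rw [mul_assoc, hx, ← mul_assoc, ← mul_assoc, cι_rel]
  | ha x y hx hy => rw [add_mul x y, hx, hy, ← mul_add _ x y]
  | hs c x hx => rw [smul_mul_assoc, mul_smul_comm, hx]

theorem psi_inj : Function.Injective (psi F m) := by
  classical
  let cR : RR F m →ₐ[F] Subalgebra.center F (Cl F (Fin m →₀ F)) :=
    MvPolynomial.aeval (Sym2.lift ⟨fun i j =>
      (⟨(1 / 2 : F) • (cι F (Finsupp.single i 1) * cι F (Finsupp.single j 1)
        + cι F (Finsupp.single j 1) * cι F (Finsupp.single i 1)), ac_center F _ _⟩ :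
        Subalgebra.center F (Cl F (Fin m →₀ F))), by
      intro i j
      apply Subtype.ext
      simp only [add_comm]⟩)
  let dR : RR F m →+* Cl F (Fin m →₀ F) := ((Subalgebra.center F _).val.comp cR).toRingHom
  have hdR : ∀ r x, dR r * x = x * dR r := by
    intro r x
    exact (Subalgebra.mem_center_iff.mp (cR r).2 x).symm
  have hdX : ∀ i j, dR (MvPolynomial.X s(i, j)) =
      (1 / 2 : F) • (cι F (Finsupp.single i 1) * cι F (Finsupp.single j 1)
        + cι F (Finsupp.single j 1) * cι F (Finsupp.single i 1)) := by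
    intro i j
    change ((cR (MvPolynomial.X s(i, j)) : Subalgebra.center F (Cl F (Fin m →₀ F))) :
      Cl F (Fin m →₀ F)) = _
    rw [MvPolynomial.aeval_X]
    rfl
  have hdC : ∀ c : F, dR (MvPolynomial.C c) = algebraMap F _ c := by
    intro c
    exact (((Subalgebra.center F _).val.comp cR).commutes c)
  let _ : Algebra (RR F m) (Cl F (Fin m →₀ F)) := dR.toAlgebra' hdR
  have hsmul : ∀ (r : RR F m) (x : Cl F (Fin m →₀ F)), r • x = dR r * x := fun _ _ => rfl
  let f0 : (Fin m → RR F m) →ₗ[RR F m] Cl F (Fin m →₀ F) :=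
    { toFun := fun v => ∑ i, dR (v i) * cι F (Finsupp.single i 1)
      map_add' := by
        intro a b
        rw [← Finset.sum_add_distrib]
        exact Finset.sum_congr rfl fun i _ => by rw [Pi.add_apply, map_add, add_mul]
      map_smul' := by
        intro c a
        rw [RingHom.id_apply, hsmul, Finset.mul_sum]
        exact Finset.sum_congr rfl fun i _ => by
          rw [Pi.smul_apply, smul_eq_mul, map_mul, mul_assoc] }
  have hf0 : ∀ v, f0 v * f0 v = algebraMap (RR F m) _ (QQ F m v) := by
    intro v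
    change (∑ i, dR (v i) * cι F (Finsupp.single i 1)) * (∑ i, dR (v i) * cι F (Finsupp.single i 1))
      = dR (QQ F m v)
    have e1 : (∑ i, dR (v i) * cι F (Finsupp.single i 1)) * (∑ i, dR (v i) * cι F (Finsupp.single i 1))
        = ∑ i, ∑ j, dR (v i * v j) * (cι F (Finsupp.single i 1) * cι F (Finsupp.single j 1)) := by
      rw [Finset.sum_mul]
      refine Finset.sum_congr rfl fun i _ => ?_
      rw [Finset.mul_sum]
      refine Finset.sum_congr rfl fun j _ => ?_
      rw [map_mul, mul_assoc, ← mul_assoc (cι F (Finsupp.single i 1)) (dR (v j)), ← hdR (v j)]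
      simp only [mul_assoc]
    have e2 : (∑ i, dR (v i) * cι F (Finsupp.single i 1)) * (∑ i, dR (v i) * cι F (Finsupp.single i 1))
        = ∑ i, ∑ j, dR (v i * v j) * (cι F (Finsupp.single j 1) * cι F (Finsupp.single i 1)) := by
      rw [e1, Finset.sum_comm]
      refine Finset.sum_congr rfl fun i _ => Finset.sum_congr rfl fun j _ => ?_
      rw [mul_comm (v j) (v i)]
    have e3 : (∑ i, dR (v i) * cι F (Finsupp.single i 1)) * (∑ i, dR (v i) * cι F (Finsupp.single i 1))
        = (1 / 2 : F) • (∑ i, ∑ j, dR (v i * v j) *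
          (cι F (Finsupp.single i 1) * cι F (Finsupp.single j 1))
        + ∑ i, ∑ j, dR (v i * v j) * (cι F (Finsupp.single j 1) * cι F (Finsupp.single i 1))) := by
      rw [← e1, ← e2]; module
    rw [e3, QQ_apply, map_sum, ← Finset.sum_add_distrib, Finset.smul_sum]
    refine Finset.sum_congr rfl fun i _ => ?_
    rw [map_sum, ← Finset.sum_add_distrib, Finset.smul_sum]
    refine Finset.sum_congr rfl fun j _ => ?_
    have e4 : v i * MvPolynomial.X s(i, j) * v j = (v i * v j) * MvPolynomial.X s(i, j) := by ring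
    rw [e4, map_mul dR (v i * v j), hdX, ← mul_add, mul_smul_comm]
  let χ : CliffordAlgebra (QQ F m) →ₐ[RR F m] Cl F (Fin m →₀ F) :=
    CliffordAlgebra.lift (QQ F m) ⟨f0, hf0⟩
  have hχ : ∀ x, χ (psi F m x) = x := by
    intro x
    induction x using cl_induction with
    | h1 => rw [map_one, map_one]
    | hm e x hx =>
      rw [map_mul, map_mul, hx, psi_ι]
      congr 1
      change χ _ = _
      rw [show χ (CliffordAlgebra.ι (QQ F m) (gl F m e)) = f0 (gl F m e) from
        CliffordAlgebra.lift_ι_apply _ _ _]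
      change ∑ i, dR (MvPolynomial.C (e i)) * cι F (Finsupp.single i 1) = _
      have : e = ∑ i, e i • Finsupp.single i (1 : F) := by
        ext k
        rw [Finsupp.finsetSum_apply]
        simp [Finsupp.single_apply]
      conv_rhs => rw [this]
      rw [map_sum]
      refine Finset.sum_congr rfl fun i _ => ?_
      rw [hdC, map_smul, Algebra.smul_def]
    | ha x y hx hy => rw [map_add, map_add, hx, hy]
    | hs c x hx =>
      rw [map_smul, ← algebraMap_smul (RR F m) c, map_smul, hx, hsmul]
      change dR (MvPolynomial.C c) * x = c • x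
      rw [hdC, Algebra.smul_def]
  exact Function.LeftInverse.injective hχ

theorem reg (c : Cl F (Fin m →₀ F))
    (h : c * ww (lm : (Fin m →₀ F) →ₗ[F] _) 1 m (fun i => Finsupp.single i 1) = 0) : c = 0 := by
  apply psi_inj F m
  rw [map_zero]
  let _ : Invertible (2 : RR F m) := ⟨MvPolynomial.C (1 / 2), by
    rw [show (2 : RR F m) = MvPolynomial.C 2 from rfl, ← map_mul]; norm_num, by
    rw [show (2 : RR F m) = MvPolynomial.C 2 from rfl, ← map_mul]; norm_num⟩
  let b := ((Pi.basisFun (RR F m) (Fin m)).ExteriorAlgebra).map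
    (CliffordAlgebra.equivExterior (QQ F m)).symm
  have : Module.Free (RR F m) (CliffordAlgebra (QQ F m)) := Module.Free.of_basis b
  obtain ⟨v, hv, ho⟩ := exists_ortho F m
  apply clif_reg (F := F) (QQ F m) v hv ho
  have h1 := congrArg (psi F m) h
  rw [map_mul, map_zero] at h1
  have h2 := ww_nat lm (LD (F := F) (QQ F m)) (gl F m) (psi F m).toLinearMap (by
    intro e u
    change psi F m (cι F e * u) = _
    rw [map_mul, psi_ι]; rfl) (1 : Cl F (Fin m →₀ F)) m (fun i => Finsupp.single i 1)
  have h3 : (psi F m).toLinearMap (1 : Cl F (Fin m →₀ F)) = 1 := map_one (psi F m)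
  rw [h3] at h2
  have h4 : (gl F m ∘ fun i => Finsupp.single i (1 : F)) = fun i => Pi.single i 1 := by
    funext i k
    change MvPolynomial.C (Finsupp.single i (1 : F) k) = _
    by_cases hik : i = k
    · subst hik; simp
    · rw [Finsupp.single_eq_of_ne (Ne.symm hik), Pi.single_eq_of_ne (Ne.symm hik), map_zero]
  rw [h4] at h2
  rw [← h2]
  exact h1

end generic

end Pool.Agent.Mal.Syz
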