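import Mathlib
import Pool.Agent.Mal.SyzDefs
import Pool.Agent.Mal.Reg
import Pool.Agent.Mal.Model
import Pool.Agent.Mal.Capelli

set_option autoImplicit false
set_option linter.unusedSectionVars false
set_option linter.unusedSimpArgs false

open Finset Equiv

namespace Pool.Agent.Mal.Syz

variable {F : Type} [Field F] [CharZero F] {E U : Type} [AddCommGroup E] [Module F E]
  [AddCommGroup U] [Module F U]

/-- basis letters -/
noncomputable def sg {N : ℕ} (F : Type) [Field F] (i : Fin N) : Fin N →₀ F := Finsupp.single i 1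

section model

variable (L : E →ₗ[F] (U →ₗ[F] U)) (N : ℕ)

/-- operators of the letters -/
noncomputable def mX (i : Fin N) : (((Fin N → E) → U) × Cl F (Fin N →₀ F)) →ₗ[F]
    (((Fin N → E) → U) × Cl F (Fin N →₀ F)) where
  toFun v := (fun b => L (b i) (v.1 b), cι F (sg F i) * v.2)
  map_add' a b := by
    apply Prod.ext
    · funext b; simp
    · simp [mul_add]
  map_smul' c a := by
    apply Prod.ext
    · funext b; simp
    · simp

/-- action of permutations of the letters -/
noncomputable def mact (τ : Perm (Fin N)) : (((Fin N → E) → U) × Cl F (Fin N →₀ F)) →ₗ[F]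
    (((Fin N → E) → U) × Cl F (Fin N →₀ F)) where
  toFun v := (fun b => v.1 (b ∘ τ), clMap (Finsupp.lmapDomain F F τ) v.2)
  map_add' a b := by
    apply Prod.ext
    · funext b; simp
    · simp
  map_smul' c a := by
    apply Prod.ext
    · funext b; simp
    · simp

/-- the vectors `J_{4+k}` -/
noncomputable def mj (j : E [⋀^Fin 4]→ₗ[F] U) (k : ℕ) (u : Fin (4 + k) → Fin N) :
    ((Fin N → E) → U) × Cl F (Fin N →₀ F) :=
  (fun b => tow L j k (b ∘ u), tow lm (ww lm 1 4) k (sg F ∘ u))

theorem mX_fst (i : Fin N) (v : ((Fin N → E) → U) × Cl F (Fin N →₀ F)) (b : Fin N → E) :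
    (mX L N i v).1 b = L (b i) (v.1 b) := rfl

theorem mX_snd (i : Fin N) (v : ((Fin N → E) → U) × Cl F (Fin N →₀ F)) :
    (mX L N i v).2 = cι F (sg F i) * v.2 := rfl

theorem lmap_sg (τ : Perm (Fin N)) (i : Fin N) :
    Finsupp.lmapDomain F F τ (sg F i) = sg F (τ i) := by
  rw [Finsupp.lmapDomain_apply, sg, Finsupp.mapDomain_single]; rfl

theorem comp_cons {A B : Type} {m : ℕ} (f : A → B) (y : A) (u : Fin m → A) :
    f ∘ (Fin.cons y u : Fin (m + 1) → A) = Fin.cons (f y) (f ∘ u) := by
  funext i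
  refine Fin.cases ?_ (fun i => ?_) i
  · simp
  · simp

theorem comp_update' {A B : Type} {m : ℕ} (f : A → B) (u : Fin m → A) (i : Fin m) (y : A) :
    f ∘ Function.update u i y = Function.update (f ∘ u) i (f y) := by
  funext k
  by_cases hk : k = i
  · subst hk; simp
  · simp [hk]

theorem clMap_perm (τ : Perm (Fin N)) (k : ℕ) (u : Fin (4 + k) → Fin N) :
    clMap (Finsupp.lmapDomain F F τ) (tow lm (ww lm 1 4) k (sg F ∘ u)) =
      tow lm (ww lm 1 4) k (sg F ∘ (τ ∘ u)) := by
  rw [tow_ww]
  have h := ww_nat (lm : (Fin N →₀ F) →ₗ[F] _) (lm : (Fin N →₀ F) →ₗ[F] _)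
    (Finsupp.lmapDomain F F τ) (clMap (Finsupp.lmapDomain F F τ)).toLinearMap (by
      intro e u
      change clMap _ (cι F e * u) = _
      rw [map_mul, clMap_ι]; rfl) 1 (4 + k) (sg F ∘ u)
  have h1 : (clMap (Finsupp.lmapDomain F F τ)).toLinearMap (1 : Cl F (Fin N →₀ F)) = 1 :=
    map_one (clMap (Finsupp.lmapDomain F F τ))
  rw [h1] at h
  have h2 : (Finsupp.lmapDomain F F τ : (Fin N →₀ F) → _) ∘ (sg F ∘ u) = sg F ∘ (τ ∘ u) := by
    funext i
    exact lmap_sg N τ (u i)
  rw [h2] at h
  exact h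

theorem cast2 (m : ℕ) : ((m + 1 : ℕ) : F) + 1 = (m : F) + 2 := by push_cast; ring

theorem m_central (hL : Cliff L) (a b c : Fin N) (v : ((Fin N → E) → U) × Cl F (Fin N →₀ F)) :
    mX L N a (mX L N b (mX L N c v)) + mX L N b (mX L N a (mX L N c v)) =
      mX L N c (mX L N a (mX L N b v) + mX L N b (mX L N a v)) := by
  apply Prod.ext
  · funext w
    have := hL (w a) (w b) (w c) (v.1 w)
    rw [ac_apply, ac_apply] at this
    exact this
  · have := lm_cliff (F := F) (sg F a) (sg F b) (sg F c) v.2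
    rw [ac_apply, ac_apply] at this
    exact this

theorem clMap_comp' {E1 E2 E3 : Type} [AddCommGroup E1] [Module F E1] [AddCommGroup E2]
    [Module F E2] [AddCommGroup E3] [Module F E3] (f : E1 →ₗ[F] E2) (g : E2 →ₗ[F] E3)
    (x : Cl F E1) : clMap g (clMap f x) = clMap (g ∘ₗ f) x := by
  induction x using cl_induction with
  | h1 => rw [map_one, map_one, map_one]
  | hm e x hx => rw [map_mul, map_mul, map_mul, hx, clMap_ι, clMap_ι, clMap_ι]; rfl
  | ha x y hx hy => rw [map_add, map_add, map_add, hx, hy]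
  | hs c x hx => rw [map_smul, map_smul, map_smul, hx]

theorem lmap_mul (σ τ : Perm (Fin N)) : Finsupp.lmapDomain F F (σ * τ : Perm (Fin N)) =
    Finsupp.lmapDomain F F σ ∘ₗ Finsupp.lmapDomain F F τ := by
  rw [← Finsupp.lmapDomain_comp]
  rfl

theorem mact_fst (τ : Perm (Fin N)) (v : ((Fin N → E) → U) × Cl F (Fin N →₀ F)) :
    (mact N τ v).1 = fun b => v.1 (b ∘ τ) := rfl

theorem mact_snd (τ : Perm (Fin N)) (v : ((Fin N → E) → U) × Cl F (Fin N →₀ F)) :
    (mact N τ v).2 = clMap (Finsupp.lmapDomain F F τ) v.2 := rfl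

theorem m_act_mul (σ τ : Perm (Fin N)) (v : ((Fin N → E) → U) × Cl F (Fin N →₀ F)) :
    mact N (σ * τ) v = mact N σ (mact N τ v) := by
  apply Prod.ext
  · rw [mact_fst, mact_fst, mact_fst]
    rfl
  · rw [mact_snd, mact_snd, mact_snd, clMap_comp', lmap_mul]

theorem m_act_X (τ : Perm (Fin N)) (i : Fin N) (v : ((Fin N → E) → U) × Cl F (Fin N →₀ F)) :
    mact N τ (mX L N i v) = mX L N (τ i) (mact N τ v) := by
  apply Prod.ext
  · rfl
  · change clMap _ (cι F (sg F i) * v.2) = cι F (sg F (τ i)) * clMap _ v.2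
    rw [map_mul, clMap_ι, lmap_sg]

theorem m_act_j (j : E [⋀^Fin 4]→ₗ[F] U) (k : ℕ) (τ : Perm (Fin N)) (u : Fin (4 + k) → Fin N) :
    mact N τ (mj L N j k u) = mj L N j k (τ ∘ u) := by
  apply Prod.ext
  · rfl
  · exact clMap_perm N τ k u

theorem m_cr (j : E [⋀^Fin 4]→ₗ[F] U) (k : ℕ) (y : Fin N) (u : Fin (4 + k) → Fin N) :
    (((4 + k : ℕ) : F) + 1) • mj L N j (k + 1) (Fin.cons y u) =
    mX L N y (mj L N j k u) - ∑ i, mX L N (u i) (mj L N j k (Function.update u i y)) := by
  apply Prod.ext
  · funext b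
    have := up_cons L (tow L j k) (b y) (b ∘ u)
    rw [← comp_cons] at this
    rw [Prod.smul_fst, Prod.fst_sub, Prod.fst_sum, Pi.smul_apply, Pi.sub_apply, Finset.sum_apply]
    refine this.trans ?_
    congr 1
    refine Finset.sum_congr rfl fun i _ => ?_
    rw [← comp_update']
    rfl
  · have := up_cons (lm : (Fin N →₀ F) →ₗ[F] _) (tow lm (ww lm 1 4) k) (sg F y) (sg F ∘ u)
    rw [← comp_cons] at this
    rw [Prod.smul_snd, Prod.snd_sub, Prod.snd_sum]
    refine this.trans ?_
    congr 1
    refine Finset.sum_congr rfl fun i _ => ?_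
    rw [← comp_update']
    rfl

theorem m_qcr (hL : Cliff L) (j : E [⋀^Fin 4]→ₗ[F] U) (hj : Rel L j) (k : ℕ) (x y : Fin N)
    (u : Fin (4 + k) → Fin N) : (mX L N x (mX L N y (mj L N j k u)) +
      mX L N y (mX L N x (mj L N j k u))) -
    ∑ i, (mX L N x (mX L N (u i) (mj L N j k (Function.update u i y))) +
      mX L N (u i) (mX L N x (mj L N j k (Function.update u i y))))
    = (2 : F) • (mX L N x (mj L N j (k + 1) (Fin.cons y u)) -
      mj L N j (k + 2) (Fin.cons x (Fin.cons y u))) := by
  apply Prod.ext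
  · funext b
    have := (tow_rel hL hj k).cons (b x) (b y) (b ∘ u)
    rw [← comp_cons, ← comp_cons] at this
    rw [Prod.smul_fst, Prod.fst_sub, Prod.fst_sum, Pi.smul_apply, Pi.sub_apply, Finset.sum_apply]
    refine Eq.trans ?_ this
    congr 1
    refine Finset.sum_congr rfl fun i _ => ?_
    rw [← comp_update']
    rfl
  · have := (tow_rel lm_cliff (ww_rel lm_cliff (1 : Cl F (Fin N →₀ F)) 4) k).cons
      (sg F x) (sg F y) (sg F ∘ u)
    rw [← comp_cons, ← comp_cons] at this
    rw [Prod.smul_snd, Prod.snd_sub, Prod.snd_sum]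
    refine Eq.trans ?_ this
    congr 1
    refine Finset.sum_congr rfl fun i _ => ?_
    rw [← comp_update']
    rfl

/-- the model -/
noncomputable def mdl (hL : Cliff L) (j : E [⋀^Fin 4]→ₗ[F] U) (hj : Rel L j) (k : ℕ) :
    Mdl F N (4 + k) (((Fin N → E) → U) × Cl F (Fin N →₀ F)) where
  X := mX L N
  act := mact N
  j0 := mj L N j k
  j1 := mj L N j (k + 1)
  j2 := mj L N j (k + 2)
  central := m_central L N hL
  act_mul := m_act_mul N
  act_X := m_act_X L N
  act_j0 := m_act_j L N j k
  act_j1 := m_act_j L N j (k + 1)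
  cr := m_cr L N j k
  cr2 := by
    intro y u
    rw [← cast2]
    exact m_cr L N j (k + 1) y u
  qcr := m_qcr L N hL j hj k

variable (hL : Cliff L) (j : E [⋀^Fin 4]→ₗ[F] U) (hj : Rel L j)

theorem ap_fst (k : ℕ) (A : List (Fin N)) (v : ((Fin N → E) → U) × Cl F (Fin N →₀ F))
    (b : Fin N → E) : ((mdl L N hL j hj k).ap A v).1 b = clAct L hL (wd (A.map b)) (v.1 b) := by
  induction A with
  | nil => rw [Mdl.ap_nil, List.map_nil, wd, map_one]; rfl
  | cons a A ih =>
    rw [Mdl.ap_cons, List.map_cons, clAct_wd, ← ih]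
    rfl

theorem ap_snd (k : ℕ) (A : List (Fin N)) (v : ((Fin N → E) → U) × Cl F (Fin N →₀ F)) :
    ((mdl L N hL j hj k).ap A v).2 = wd (A.map (sg F)) * v.2 := by
  induction A with
  | nil => rw [Mdl.ap_nil, List.map_nil, wd, one_mul]
  | cons a A ih =>
    rw [Mdl.ap_cons, List.map_cons, wd, mul_assoc, ← ih]
    rfl

/-- generator functions depend linearly on every letter used once -/
theorem gen_indep (k : ℕ) (A : List (Fin N)) (u : Fin (4 + k) → Fin N) (i : Fin N)
    (h : A.count i + cnt u i = 0) (b : Fin N → E) (x : E) :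
    clAct L hL (wd (A.map (Function.update b i x))) (tow L j k (Function.update b i x ∘ u)) =
      clAct L hL (wd (A.map b)) (tow L j k (b ∘ u)) := by
  have h1 : A.map (Function.update b i x) = A.map b := by
    apply List.map_congr_left
    intro a ha
    rw [Function.update_of_ne]
    rintro rfl
    have := List.count_pos_iff.mpr ha
    omega
  have h2 : Function.update b i x ∘ u = b ∘ u := by
    funext l
    rw [Function.comp_apply, Function.comp_apply, Function.update_of_ne]
    intro hl
    have := cnt_self u l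
    rw [hl] at this
    omega
  rw [h1, h2]

theorem gen_lin (k : ℕ) (A : List (Fin N)) (u : Fin (4 + k) → Fin N) (i : Fin N)
    (h : A.count i + cnt u i = 1) (b : Fin N → E) : ∃ T : E →ₗ[F] U, ∀ x,
    clAct L hL (wd (A.map (Function.update b i x))) (tow L j k (Function.update b i x ∘ u)) = T x := by
  induction A with
  | nil =>
    rw [List.count_nil, zero_add] at h
    obtain ⟨l, hl⟩ := cnt_pos u i (by omega)
    refine ⟨(tow L j k).toMultilinearMap.toLinearMap (b ∘ u) l, fun x => ?_⟩
    rw [List.map_nil, wd, map_one]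
    change tow L j k _ = tow L j k _
    congr 1
    funext l'
    by_cases hl' : l' = l
    · subst hl'; rw [Function.comp_apply, hl, Function.update_self, Function.update_self]
    · rw [Function.comp_apply, Function.update_of_ne hl', Function.update_of_ne, Function.comp_apply]
      intro h2
      have := cnt_two u l l' hl' (by rw [h2, hl])
      rw [hl] at this
      omega
  | cons a A ih =>
    by_cases ha : a = i
    · subst ha
      rw [List.count_cons_self] at h
      refine ⟨L.flip (clAct L hL (wd (A.map b)) (tow L j k (b ∘ u))), fun x => ?_⟩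
      rw [List.map_cons, clAct_wd, gen_indep L N hL j k A u a (by omega) b x, Function.update_self]
      rfl
    · rw [List.count_cons_of_ne ha] at h
      obtain ⟨T, hT⟩ := ih h
      refine ⟨L (b a) ∘ₗ T, fun x => ?_⟩
      rw [List.map_cons, clAct_wd, hT, Function.update_of_ne ha]
      rfl

theorem gen_ml (k : ℕ) (A : List (Fin N)) (u : Fin (4 + k) → Fin N) (h : Val A u) :
    ∃ Φ : MultilinearMap F (fun _ : Fin N => E) U, ∀ b,
      Φ b = ((mdl L N hL j hj k).ap A (mj L N j k u)).1 b := by
  refine ⟨⟨fun b => clAct L hL (wd (A.map b)) (tow L j k (b ∘ u)), ?_, ?_⟩, fun b => ?_⟩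
  · intro inst b i x y
    have : inst = instDecidableEqFin N := Subsingleton.elim _ _
    subst this
    obtain ⟨T, hT⟩ := gen_lin L N hL j k A u i (h i) b
    rw [hT, hT, hT, map_add]
  · intro inst b i c x
    have : inst = instDecidableEqFin N := Subsingleton.elim _ _
    subst this
    obtain ⟨T, hT⟩ := gen_lin L N hL j k A u i (h i) b
    rw [hT, hT, map_smul]
  · rw [ap_fst]
    rfl

theorem V0_ml (k : ℕ) (v : ((Fin N → E) → U) × Cl F (Fin N →₀ F))
    (hv : v ∈ (mdl L N hL j hj k).V0) :
    ∃ Φ : MultilinearMap F (fun _ : Fin N => E) U, ∀ b, Φ b = v.1 b := by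
  induction hv using Submodule.span_induction with
  | mem v hv =>
    obtain ⟨A, u, h, rfl⟩ := hv
    exact gen_ml L N hL j hj k A u h
  | zero => exact ⟨0, fun b => rfl⟩
  | add x y _ _ hx hy =>
    obtain ⟨Φ, h1⟩ := hx
    obtain ⟨Ψ, h2⟩ := hy
    exact ⟨Φ + Ψ, fun b => by rw [add_apply, h1, h2]; rfl⟩
  | smul c x _ hx =>
    obtain ⟨Φ, h1⟩ := hx
    exact ⟨c • Φ, fun b => by rw [smul_apply, h1]; rfl⟩

/-- specialisation to few letters -/
theorem V0_special (k : ℕ) (π : Fin N → Fin (4 + k)) (z : Fin (4 + k) → E)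
    (v : ((Fin N → E) → U) × Cl F (Fin N →₀ F)) (hv : v ∈ (mdl L N hL j hj k).V0) :
    ∃ C : Cl F (Fin (4 + k) →₀ F),
      v.1 (z ∘ π) = clAct L hL (clMap (Finsupp.linearCombination F z) C) (tow L j k z) ∧
      clMap (Finsupp.lmapDomain F F π) v.2 =
        C * ww (lm : (Fin (4 + k) →₀ F) →ₗ[F] _) 1 (4 + k) (sg F) := by
  induction hv using Submodule.span_induction with
  | mem v hv =>
    obtain ⟨A, u, h, rfl⟩ := hv
    rw [show (mdl L N hL j hj k).j0 u = mj L N j k u from rfl, ap_fst, ap_snd, map_mul, clMap_wd,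
      List.map_map]
    have e1 : (mj L N j k u).1 (z ∘ π) = tow L j k (z ∘ (π ∘ u)) := rfl
    have e2 : clMap (Finsupp.lmapDomain F F π) (mj L N j k u).2 =
        ww (lm : (Fin (4 + k) →₀ F) →ₗ[F] _) 1 (4 + k) (sg F ∘ (π ∘ u)) := by
      have e0 : (mj L N j k u).2 = tow lm (ww lm 1 4) k (sg F ∘ u) := rfl
      rw [e0, tow_ww]
      have h := ww_nat (lm : (Fin N →₀ F) →ₗ[F] _) (lm : (Fin (4 + k) →₀ F) →ₗ[F] _)
        (Finsupp.lmapDomain F F π) (clMap (Finsupp.lmapDomain F F π)).toLinearMap (by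
          intro e u
          change clMap _ (cι F e * u) = _
          rw [map_mul, clMap_ι]; rfl) 1 (4 + k) (sg F ∘ u)
      have h1 : (clMap (Finsupp.lmapDomain F F π)).toLinearMap (1 : Cl F (Fin N →₀ F)) = 1 :=
        map_one (clMap (Finsupp.lmapDomain F F π))
      rw [h1] at h
      have h2 : (Finsupp.lmapDomain F F π : (Fin N →₀ F) → _) ∘ (sg F ∘ u) = sg F ∘ (π ∘ u) := by
        funext i
        rw [Function.comp_apply, Function.comp_apply, Finsupp.lmapDomain_apply, sg,
          Finsupp.mapDomain_single]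
        rfl
      rw [h2] at h
      exact h
    have e3 : (Finsupp.lmapDomain F F π : (Fin N →₀ F) → _) ∘ sg F = fun i => sg F (π i) := by
      funext i
      rw [Function.comp_apply, Finsupp.lmapDomain_apply, sg, Finsupp.mapDomain_single]
      rfl
    rw [e1, e2, e3]
    by_cases hinj : Function.Injective (π ∘ u)
    · obtain ⟨σ, hσ⟩ : ∃ σ : Perm (Fin (4 + k)), π ∘ u = σ :=
        ⟨Equiv.ofBijective _ (Finite.injective_iff_bijective.mp hinj), rfl⟩
      refine ⟨(Perm.sign σ : ℤ) • wd (A.map (fun i => sg F (π i))), ?_, ?_⟩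
      · rw [hσ, AlternatingMap.map_perm, map_zsmul, map_zsmul, clMap_wd, List.map_map,
          Units.smul_def, map_zsmul, LinearMap.smul_apply]
        congr 4
        apply List.map_congr_left
        intro a _
        rw [Function.comp_apply, Function.comp_apply, sg, Finsupp.linearCombination_single, one_smul]
      · rw [hσ, AlternatingMap.map_perm, Units.smul_def, mul_smul_comm, smul_mul_assoc]
    · refine ⟨0, ?_, ?_⟩
      · rw [AlternatingMap.map_eq_zero_of_not_injective, map_zero, map_zero, map_zero,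
          LinearMap.zero_apply]
        intro hh
        exact hinj hh.of_comp
      · rw [AlternatingMap.map_eq_zero_of_not_injective, mul_zero, zero_mul]
        intro hh
        exact hinj hh.of_comp
  | zero =>
    refine ⟨0, ?_, ?_⟩
    · rw [map_zero, map_zero, LinearMap.zero_apply]; rfl
    · rw [zero_mul, Prod.snd_zero, map_zero]
  | add x y _ _ hx hy =>
    obtain ⟨C, h1, h2⟩ := hx
    obtain ⟨D, h3, h4⟩ := hy
    refine ⟨C + D, ?_, ?_⟩
    · rw [Prod.fst_add, Pi.add_apply, h1, h3, map_add, map_add, LinearMap.add_apply]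
    · rw [Prod.snd_add, map_add, h2, h4, add_mul]
  | smul c x _ hx =>
    obtain ⟨C, h1, h2⟩ := hx
    refine ⟨c • C, ?_, ?_⟩
    · rw [Prod.smul_fst, Pi.smul_apply, h1, map_smul, map_smul, LinearMap.smul_apply]
    · rw [Prod.smul_snd, map_smul, h2, smul_mul_assoc]

theorem Val.length {m : ℕ} {A : List (Fin N)} {u : Fin m → Fin N} (h : Val A u) : m ≤ N := by
  have := Fintype.card_le_of_injective u h.inj
  simpa using this

/-- the descending induction -/
theorem desc (d : ℕ) : ∀ k, N < 4 + k + d → ∀ v ∈ (mdl L N hL j hj k).V0, v.2 = 0 → v.1 = 0 := by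
  induction d with
  | zero =>
    intro k hk v hv _
    have : (mdl L N hL j hj k).V0 = ⊥ := by
      rw [eq_bot_iff, Mdl.V0, Submodule.span_le]
      rintro _ ⟨A, u, h, rfl⟩
      have := Val.length N h
      omega
    rw [this, Submodule.mem_bot] at hv
    rw [hv]; rfl
  | succ d ih =>
    intro k hk v hv hv2
    obtain ⟨Φ, hΦ⟩ := V0_ml L N hL j hj k v hv
    have hcap := Cap.capelli Φ (4 + k) (by
      intro P hP b
      have h1 := (mdl L N hL j hj k).alt_mem ⟨P, hP⟩ v hv
      have h2 : (mdl L N hL j hj k).alt ⟨P, hP⟩ v ∈ (mdl L N hL j hj (k + 1)).V0 := h1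
      have h3 := ih (k + 1) (by omega) _ h2 (by
        rw [Mdl.alt_apply, Prod.snd_sum]
        apply Finset.sum_eq_zero
        intro σ _
        have : ((mdl L N hL j hj k).act (σ.viaEmbedding ⟨P, hP⟩) v).2 = 0 := by
          change (mact N _ v).2 = 0
          rw [mact_snd, hv2, map_zero]
        rw [Prod.smul_snd, this, smul_zero])
      have h4 := congrFun h3 b
      rw [Mdl.alt_apply, Prod.fst_sum, Finset.sum_apply] at h4
      unfold Cap.altS
      refine Eq.trans ?_ h4
      refine Finset.sum_congr rfl fun σ _ => ?_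
      rw [Prod.smul_fst, Pi.smul_apply]
      congr 1
      rw [hΦ]
      change _ = (mact N (σ.viaEmbedding ⟨P, hP⟩) v).1 b
      rw [mact_fst]
      beta_reduce
      refine congrArg v.1 ?_
      funext i
      by_cases hi : ∃ x, P x = i
      · obtain ⟨x, rfl⟩ := hi
        rw [hP.extend_apply, Function.comp_apply]
        have := Perm.viaEmbedding_apply σ ⟨P, hP⟩ x
        change (σ.viaEmbedding ⟨P, hP⟩) (P x) = P (σ x) at this
        rw [this]
      · rw [Function.extend_apply' _ _ _ hi, Function.comp_apply,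
          Perm.viaEmbedding_apply_of_notMem _ _ _ (by simpa using hi)]) (by
      intro π z
      obtain ⟨C, h1, h2⟩ := V0_special L N hL j hj k π z v hv
      rw [hv2, map_zero] at h2
      have h3 := reg F (4 + k) C h2.symm
      rw [hΦ]
      change v.1 (z ∘ π) = 0
      rw [h1, h3, map_zero, map_zero, LinearMap.zero_apply])
    funext b
    rw [← hΦ b, hcap b]; rfl

end model

theorem count_ofFn {N n : ℕ} (f : Fin n → Fin N) (c : Fin N) : (List.ofFn f).count c = cnt f c := by
  induction n with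
  | zero => simp [cnt]
  | succ n ih =>
    rw [List.ofFn_succ, List.count_cons, ih]
    unfold cnt
    rw [Fin.sum_univ_succ]
    simp only [beq_iff_eq]
    rw [add_comm]

theorem syzML : Stmt_SyzML := by
  intro F _ _ E U _ _ _ _ L hL j hj n c h b
  have hval : ∀ σ : Perm (Fin (n + 4)), Val (List.ofFn (fun i : Fin n => σ (Fin.castAdd 4 i)))
      (fun k : Fin 4 => σ (Fin.natAdd n k)) := by
    intro σ c
    rw [count_ofFn]
    unfold cnt
    rw [← Fin.sum_univ_add (fun i : Fin (n + 4) => if σ i = c then 1 else 0)]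
    rw [Finset.sum_eq_single (σ.symm c)]
    · simp
    · intro i _ hi
      rw [if_neg]
      intro h; exact hi (by rw [← h, Equiv.symm_apply_apply])
    · intro h; exact absurd (Finset.mem_univ _) h
  have key := desc L (n + 4) hL j hj (n + 1) 0 (by omega)
    (∑ σ : Perm (Fin (n + 4)), c σ • (mdl L (n + 4) hL j hj 0).ap
      (List.ofFn (fun i : Fin n => σ (Fin.castAdd 4 i)))
      (mj L (n + 4) j 0 (fun k : Fin 4 => σ (Fin.natAdd n k))))
    (by
      apply Submodule.sum_mem
      intro σ _
      apply Submodule.smul_mem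
      exact Submodule.subset_span ⟨_, _, hval σ, rfl⟩)
    (by
      rw [Prod.snd_sum, ← h]
      refine Finset.sum_congr rfl fun σ _ => ?_
      rw [Prod.smul_snd, ap_snd, List.map_ofFn]
      rfl)
  have key2 := congrFun key b
  rw [Prod.fst_sum, Finset.sum_apply] at key2
  refine Eq.trans ?_ key2
  refine Finset.sum_congr rfl fun σ _ => ?_
  rw [Prod.smul_fst, Pi.smul_apply, ap_fst, List.map_ofFn]
  rfl

end Pool.Agent.Mal.Syz
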