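import Pool.Agent.Mal.CpFinal

set_option autoImplicit false
set_option linter.unusedSectionVars false
set_option linter.unusedSimpArgs false

open scoped TensorProduct

namespace Pool.Agent.Mal

/-- the Lie axioms for a nonassociative ring -/
def IsLie (L : Type) [NonUnitalNonAssocRing L] : Prop :=
  (∀ x : L, x * x = 0) ∧ ∀ x y z : L, (x * y) * z + (y * z) * x + (z * x) * y = 0

theorem IsLie.anti {L : Type} [NonUnitalNonAssocRing L] (h : IsLie L) (x y : L) :
    x * y = - (y * x) := by
  have h1 := h.1 (x + y)
  rw [add_mul, mul_add, mul_add, h.1 x, h.1 y, zero_add, add_zero] at h1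
  exact eq_neg_of_add_eq_zero_left h1

theorem IsLie.malcev {L : Type} [NonUnitalNonAssocRing L] (h : IsLie L) (x y z : L) :
    (x * y) * (x * z) = ((x * y) * z) * x + ((y * z) * x) * x + ((z * x) * x) * y := by
  have h1 := congrArg (fun t => t * x) (h.2 x y z)
  simp only [add_mul, zero_mul] at h1
  have h2 := h.2 (z * x) x y
  have h3 : (x * y) * (z * x) = - ((x * y) * (x * z)) := by
    rw [h.anti z x, mul_neg]
  have h4 : (y * (z * x)) * x = - (((z * x) * y) * x) := by
    rw [h.anti y (z * x), neg_mul]
  rw [h3, h4] at h2
  linear_combination (norm := module) - h2 - h1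

section semidirect

variable {F T : Type} [Field F] [NonUnitalNonAssocRing T] [Module F T]
  [IsScalarTower F T T] [SMulCommClass F T T]

/-- the semidirect product of an algebra with a derivation -/
@[ext]
structure SD (δ : T →ₗ[F] T) where
  x : T
  c : F

namespace SD

variable {δ : T →ₗ[F] T}

instance : Zero (SD δ) := ⟨⟨0, 0⟩⟩
instance : Add (SD δ) := ⟨fun a b => ⟨a.x + b.x, a.c + b.c⟩⟩
instance : Neg (SD δ) := ⟨fun a => ⟨-a.x, -a.c⟩⟩
instance : Sub (SD δ) := ⟨fun a b => ⟨a.x - b.x, a.c - b.c⟩⟩
instance : Mul (SD δ) := ⟨fun a b => ⟨a.x * b.x + a.c • δ b.x - b.c • δ a.x, 0⟩⟩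
instance : SMul F (SD δ) := ⟨fun r a => ⟨r • a.x, r * a.c⟩⟩

@[simp] theorem x_zero : (0 : SD δ).x = 0 := rfl
@[simp] theorem c_zero : (0 : SD δ).c = 0 := rfl
@[simp] theorem x_add (a b : SD δ) : (a + b).x = a.x + b.x := rfl
@[simp] theorem c_add (a b : SD δ) : (a + b).c = a.c + b.c := rfl
@[simp] theorem x_neg (a : SD δ) : (-a).x = -a.x := rfl
@[simp] theorem c_neg (a : SD δ) : (-a).c = -a.c := rfl
@[simp] theorem x_sub (a b : SD δ) : (a - b).x = a.x - b.x := rfl
@[simp] theorem c_sub (a b : SD δ) : (a - b).c = a.c - b.c := rfl
@[simp] theorem x_mul (a b : SD δ) : (a * b).x = a.x * b.x + a.c • δ b.x - b.c • δ a.x := rfl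
@[simp] theorem c_mul (a b : SD δ) : (a * b).c = 0 := rfl
@[simp] theorem x_smul (r : F) (a : SD δ) : (r • a).x = r • a.x := rfl
@[simp] theorem c_smul (r : F) (a : SD δ) : (r • a).c = r * a.c := rfl

instance : NonUnitalNonAssocRing (SD δ) where
  add_assoc a b c := by ext <;> simp [add_assoc]
  zero_add a := by ext <;> simp
  add_zero a := by ext <;> simp
  add_comm a b := by ext <;> simp [add_comm]
  neg_add_cancel a := by ext <;> simp
  sub_eq_add_neg a b := by ext <;> simp [sub_eq_add_neg]
  nsmul := nsmulRec
  zsmul := zsmulRec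
  left_distrib a b c := by
    ext
    · simp only [x_add, c_add, x_mul, mul_add, map_add, smul_add, add_smul]; abel
    · simp
  right_distrib a b c := by
    ext
    · simp only [x_add, c_add, x_mul, add_mul, map_add, smul_add, add_smul]; abel
    · simp
  zero_mul a := by ext <;> simp
  mul_zero a := by ext <;> simp

instance : Module F (SD δ) where
  one_smul a := by ext <;> simp
  mul_smul r s a := by ext <;> simp [mul_smul, mul_assoc]
  smul_zero r := by ext <;> simp
  smul_add r a b := by ext <;> simp [mul_add]
  add_smul r s a := by ext <;> simp [add_smul, add_mul]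
  zero_smul a := by ext <;> simp

instance : IsScalarTower F (SD δ) (SD δ) where
  smul_assoc r a b := by
    ext
    · simp only [smul_eq_mul, x_mul, x_smul, c_smul, smul_mul_assoc, map_smul, smul_add, smul_sub]
      module
    · simp

instance : SMulCommClass F (SD δ) (SD δ) where
  smul_comm r a b := by
    ext
    · simp only [smul_eq_mul, x_mul, x_smul, c_smul, mul_smul_comm, map_smul, smul_add, smul_sub]
      module
    · simp

theorem isLie (hT : IsLie T) (hδ : ∀ a b, δ (a * b) = δ a * b + a * δ b) : IsLie (SD δ) := by
  constructor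
  · intro a
    ext
    · simp [hT.1]
    · simp
  · intro a b c
    ext
    · have h1 := hT.2 a.x b.x c.x
      simp only [x_add, x_mul, c_mul, add_mul, sub_mul, smul_mul_assoc, map_add, map_sub, map_smul,
        hδ, zero_smul, x_zero]
      rw [hT.anti (a.x) (δ b.x), hT.anti (b.x) (δ c.x), hT.anti (c.x) (δ a.x)]
      linear_combination (norm := module) h1
    · simp

end SD

end semidirect

section tensor

variable {F L : Type} [Field F] [CharZero F] [NonUnitalNonAssocRing L] [Module F L]
  [IsScalarTower F L L] [SMulCommClass F L L]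

/-- polynomials with coefficients in `L` -/
abbrev LX (F L : Type) [Field F] [NonUnitalNonAssocRing L] [Module F L] : Type :=
  Polynomial F ⊗[F] L

theorem LX.isLie (hL : IsLie L) : IsLie (LX F L) := by
  have anti : ∀ x y : LX F L, x * y = - (y * x) := by
    intro x y
    induction x using TensorProduct.induction_on with
    | zero => simp
    | add a b ha hb => rw [add_mul, mul_add, ha, hb]; abel
    | tmul p a =>
      induction y using TensorProduct.induction_on with
      | zero => simp
      | add c d hc hd => rw [mul_add, add_mul, hc, hd]; abel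
      | tmul q b =>
        rw [Algebra.TensorProduct.tmul_mul_tmul, Algebra.TensorProduct.tmul_mul_tmul, mul_comm p q,
          hL.anti a b, TensorProduct.tmul_neg]
  constructor
  · intro x
    have h := anti x x
    have h2 : (2 : F) • (x * x) = 0 := by
      rw [two_smul]
      nth_rw 1 [h]
      simp
    exact (smul_eq_zero.mp h2).resolve_left two_ne_zero
  · intro x y z
    induction x using TensorProduct.induction_on with
    | zero => simp
    | add a b ha hb =>
      simp only [add_mul, mul_add]
      linear_combination (norm := module) ha + hb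
    | tmul p a =>
      induction y using TensorProduct.induction_on with
      | zero => simp
      | add c d hc hd =>
        simp only [add_mul, mul_add]
        linear_combination (norm := module) hc + hd
      | tmul q b =>
        induction z using TensorProduct.induction_on with
        | zero => simp
        | add c d hc hd =>
          simp only [add_mul, mul_add]
          linear_combination (norm := module) hc + hd
        | tmul r c =>
          simp only [Algebra.TensorProduct.tmul_mul_tmul]
          rw [show q * r * p = p * q * r by ring, show r * p * q = p * q * r by ring,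
            ← TensorProduct.tmul_add, ← TensorProduct.tmul_add, hL.2, TensorProduct.tmul_zero]

/-- the derivation -/
noncomputable def del (F L : Type) [Field F] [NonUnitalNonAssocRing L] [Module F L] :
    LX F L →ₗ[F] LX F L := LinearMap.rTensor L Polynomial.derivative

theorem del_tmul (p : Polynomial F) (a : L) : del F L (p ⊗ₜ a) = Polynomial.derivative p ⊗ₜ a := rfl

theorem del_mul (x y : LX F L) : del F L (x * y) = del F L x * y + x * del F L y := by
  induction x using TensorProduct.induction_on with
  | zero => simp
  | add a b ha hb =>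
    simp only [add_mul, map_add, ha, hb]
    abel
  | tmul p a =>
    induction y using TensorProduct.induction_on with
    | zero => simp
    | add c d hc hd =>
      simp only [mul_add, map_add, hc, hd]
      abel
    | tmul q b =>
      rw [Algebra.TensorProduct.tmul_mul_tmul, del_tmul, del_tmul, del_tmul,
        Algebra.TensorProduct.tmul_mul_tmul, Algebra.TensorProduct.tmul_mul_tmul,
        Polynomial.derivative_mul, TensorProduct.add_tmul]

/-- evaluation at zero -/
noncomputable def ev0 (F L : Type) [Field F] [NonUnitalNonAssocRing L] [Module F L] :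
    LX F L →ₗ[F] L :=
  TensorProduct.lift ((LinearMap.lsmul F L).comp (Polynomial.leval 0))

theorem ev0_tmul (p : Polynomial F) (a : L) : ev0 F L (p ⊗ₜ a) = p.eval 0 • a := by
  simp [ev0, Polynomial.leval]

theorem ev0_mul (x y : LX F L) : ev0 F L (x * y) = ev0 F L x * ev0 F L y := by
  induction x using TensorProduct.induction_on with
  | zero => simp
  | add a b ha hb => simp only [add_mul, map_add, ha, hb]
  | tmul p a =>
    induction y using TensorProduct.induction_on with
    | zero => simp
    | add c d hc hd => simp only [mul_add, map_add, hc, hd]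
    | tmul q b =>
      rw [Algebra.TensorProduct.tmul_mul_tmul, ev0_tmul, ev0_tmul, ev0_tmul, Polynomial.eval_mul,
        smul_mul_smul_comm]

end tensor

section final

variable {F : Type} [Field F] [CharZero F]

theorem lift_hom {A B : Type} [NonUnitalNonAssocRing A] [Module F A] [IsScalarTower F A A]
    [SMulCommClass F A A] [NonUnitalNonAssocRing B] [Module F B] [IsScalarTower F B B]
    [SMulCommClass F B B] (g : A →ₗ[F] B) (hg : ∀ a b, g (a * b) = g a * g b) (v : ℕ → A)
    (f : FreeNonUnitalNonAssocAlgebra F ℕ) :
    g (FreeNonUnitalNonAssocAlgebra.lift F v f)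
      = FreeNonUnitalNonAssocAlgebra.lift F (fun i => g (v i)) f := by
  have h : ∀ m : FreeMagma ℕ, g (FreeMagma.lift v m) = FreeMagma.lift (fun i => g (v i)) m := by
    intro m
    induction m with
    | ih1 i => rfl
    | ih2 x y hx hy =>
      rw [map_mul (FreeMagma.lift v), map_mul (FreeMagma.lift fun i => g (v i)), hg, hx, hy]
  rw [lift_apply, lift_apply, map_finsuppSum]
  refine Finsupp.sum_congr fun m _ => ?_
  rw [map_smul, h]

variable {L : Type} [NonUnitalNonAssocRing L] [Module F L] [IsScalarTower F L L]
  [SMulCommClass F L L]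

/-- the inclusion of an algebra in the semidirect product -/
def SD.inc {T : Type} [NonUnitalNonAssocRing T] [Module F T] [IsScalarTower F T T]
    [SMulCommClass F T T] (δ : T →ₗ[F] T) : T →ₗ[F] SD δ where
  toFun t := ⟨t, 0⟩
  map_add' a b := by ext <;> simp
  map_smul' r a := by ext <;> simp

theorem SD.inc_mul {T : Type} [NonUnitalNonAssocRing T] [Module F T] [IsScalarTower F T T]
    [SMulCommClass F T T] (δ : T →ₗ[F] T) (a b : T) :
    SD.inc δ (a * b) = SD.inc δ a * SD.inc δ b := by
  ext <;> simp [SD.inc]

/-- transfer from the semidirect product -/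
theorem vanish_of_SD (f : FreeNonUnitalNonAssocAlgebra F ℕ) (u : ℕ → LX F L)
    (h : FreeNonUnitalNonAssocAlgebra.lift F (fun i => SD.inc (del F L) (u i)) f = 0) :
    FreeNonUnitalNonAssocAlgebra.lift F (fun i => ev0 F L (u i)) f = 0 := by
  rw [← lift_hom (SD.inc (del F L)) (SD.inc_mul _)] at h
  have h1 : FreeNonUnitalNonAssocAlgebra.lift F u f = 0 := congrArg SD.x h
  rw [← lift_hom (ev0 F L) ev0_mul, h1, map_zero]

theorem lie_sq (f : FreeNonUnitalNonAssocAlgebra F ℕ) (hf : SqKill F f) (hL : IsLie L)
    (v : ℕ → L) : FreeNonUnitalNonAssocAlgebra.lift F v f = 0 := by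
  have hS : IsLie (SD (del F L)) := SD.isLie (LX.isLie hL) del_mul
  have h := vanish_of_SD f (fun i => (1 : Polynomial F) ⊗ₜ v i) (hf (SD (del F L)) hS.1 hS.malcev _ (by
    intro i
    apply Submodule.subset_span
    refine ⟨⟨0, 1⟩, ⟨Polynomial.X ⊗ₜ v i, 0⟩, ?_⟩
    ext
    · simp [SD.inc, del_tmul]
    · simp [SD.inc]))
  simpa [ev0_tmul] using h

theorem lie_three (f : FreeNonUnitalNonAssocAlgebra F ℕ) (hf : ThreeKill F f) (hL : IsLie L)
    (v : ℕ → L) : FreeNonUnitalNonAssocAlgebra.lift F v f = 0 := by
  have hS : IsLie (SD (del F L)) := SD.isLie (LX.isLie hL) del_mul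
  obtain ⟨N, hN⟩ := exists_bd (A := L) f
  let a : LX F L := ∑ i ∈ Finset.range N, (Polynomial.C ((i.factorial : F)⁻¹) * Polynomial.X ^ i) ⊗ₜ v i
  have hu : ∀ k, SD.inc (del F L) ((del F L ^ k) a) ∈
      NonUnitalAlgebra.adjoin F ({SD.inc (del F L) a, ⟨0, 1⟩, ⟨0, 1⟩} : Set (SD (del F L))) := by
    intro k
    induction k with
    | zero => exact NonUnitalAlgebra.subset_adjoin F (by simp)
    | succ k ih =>
      have : SD.inc (del F L) ((del F L ^ (k + 1)) a)
          = (⟨0, 1⟩ : SD (del F L)) * SD.inc (del F L) ((del F L ^ k) a) := by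
        ext
        · simp [SD.inc, pow_succ']
        · simp [SD.inc]
      rw [this]
      exact mul_mem (NonUnitalAlgebra.subset_adjoin F (by simp)) ih
  have h := vanish_of_SD f (fun k => (del F L ^ k) a) (hf (SD (del F L)) hS.1 hS.malcev _ _ _ _ hu)
  rw [← h]
  apply hN
  intro k hk
  have hd : ∀ (k : ℕ) (p : Polynomial F) (b : L),
      (del F L ^ k) (p ⊗ₜ b) = (Polynomial.derivative^[k] p) ⊗ₜ b := by
    intro k
    induction k with
    | zero => intro p b; rfl
    | succ k ih =>
      intro p b
      rw [pow_succ', Module.End.mul_apply, ih, del_tmul, Function.iterate_succ_apply']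
  have he : ∀ (k : ℕ) (p : Polynomial F), (Polynomial.derivative^[k] p).eval 0
      = (k.factorial : F) * p.coeff k := by
    intro k p
    rw [← Polynomial.coeff_zero_eq_eval_zero, Polynomial.coeff_iterate_derivative, zero_add,
      Nat.descFactorial_self, nsmul_eq_mul]
  have h1 : ev0 F L ((del F L ^ k) a) = v k := by
    simp only [a, map_sum, hd, ev0_tmul, he, Polynomial.coeff_C_mul, Polynomial.coeff_X_pow]
    rw [Finset.sum_eq_single k]
    · have : (k.factorial : F) ≠ 0 := Nat.cast_ne_zero.mpr (Nat.factorial_ne_zero k)
      simp [this]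
    · intro b _ hb
      simp [Ne.symm hb]
    · intro hk'
      exact absurd (Finset.mem_range.mpr hk) hk'
  exact h1.symm

end final

end Pool.Agent.Mal
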