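import Mathlib
import Pool.Agent.Mal.XSys

set_option autoImplicit false
set_option linter.unusedSectionVars false
set_option linter.unusedSimpArgs false

open Finset Equiv

namespace Pool.Agent.Mal.Syz

section perm

variable {B T : Type}

/-- antisymmetry under adjacent transpositions implies antisymmetry -/
theorem alt_of_adj [AddCommGroup T] {m : ℕ} (f : (Fin m → B) → T)
    (h : ∀ i j : Fin m, i.val + 1 = j.val → ∀ y, f (y ∘ swap i j) = - f y) (σ : Perm (Fin m)) :
    ∀ y, f (y ∘ σ) = (Perm.sign σ : ℤ) • f y := by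
  cases m with
  | zero =>
    intro y
    have : σ = 1 := Subsingleton.elim _ _
    subst this
    simp
  | succ n =>
    have hσ : σ ∈ Submonoid.closure (Set.range fun i : Fin n => swap i.castSucc i.succ) := by
      rw [Perm.mclosure_swap_castSucc_succ]; trivial
    induction hσ using Submonoid.closure_induction with
    | mem σ hσ =>
      obtain ⟨i, rfl⟩ := hσ
      intro y
      rw [h _ _ (by simp), Perm.sign_swap (Fin.castSucc_lt_succ).ne]
      simp
    | one => intro y; simp
    | mul σ τ _ _ h1 h2 =>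
      intro y
      have : y ∘ (σ * τ : Perm (Fin (n + 1))) = (y ∘ σ) ∘ τ := rfl
      rw [this, h2, h1, smul_smul, Perm.sign_mul, Units.val_mul, mul_comm]

variable [AddCommGroup T]

theorem psum_perm {m : ℕ} (g : (Fin m → B) → T) (τ : Perm (Fin m)) (y : Fin m → B) :
    (∑ s : Perm (Fin m), (Perm.sign s : ℤ) • g ((y ∘ s) ∘ τ)) =
      (Perm.sign τ : ℤ) • ∑ s : Perm (Fin m), (Perm.sign s : ℤ) • g (y ∘ s) := by
  rw [← Equiv.sum_comp (Equiv.mulRight τ) (fun s : Perm (Fin m) => (Perm.sign s : ℤ) • g (y ∘ s)),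
    Finset.smul_sum]
  refine Finset.sum_congr rfl fun s _ => ?_
  rw [Equiv.coe_mulRight, smul_smul, Perm.sign_mul, Units.val_mul, mul_comm (Perm.sign s : ℤ),
    ← mul_assoc, ← Units.val_mul, Int.units_mul_self, Units.val_one, one_mul]
  rfl

/-- permutation of the first four positions -/
def ext4 (k : ℕ) (ρ : Perm (Fin 4)) : Perm (Fin (4 + k)) :=
  finSumFinEquiv.permCongr (Perm.sumCongr ρ 1)

theorem ext4_sign (k : ℕ) (ρ : Perm (Fin 4)) : Perm.sign (ext4 k ρ) = Perm.sign ρ := by
  rw [ext4, Perm.sign_permCongr, Perm.sign_sumCongr]; simp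

theorem ext4_left (k : ℕ) (ρ : Perm (Fin 4)) (i : Fin 4) :
    ext4 k ρ (Fin.castAdd k i) = Fin.castAdd k (ρ i) := by
  simp [ext4, Equiv.permCongr_apply]

theorem ext4_right (k : ℕ) (ρ : Perm (Fin 4)) (i : Fin k) :
    ext4 k ρ (Fin.natAdd 4 i) = Fin.natAdd 4 i := by
  simp [ext4, Equiv.permCongr_apply]

end perm

section D

variable {F : Type} [Field F] [CharZero F] {B U T : Type} [AddCommGroup B] [Module F B]
  [AddCommGroup U] [Module F U] [AddCommGroup T] [Module F T]
  (L : B →ₗ[F] (U →ₗ[F] U)) (A : B →ₗ[F] (T →ₗ[F] T)) (g : U →ₗ[F] T)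
  (K : B →ₗ[F] B →ₗ[F] (T →ₗ[F] U))

theorem fold_four (t : T) (k : ℕ) (y : Fin (4 + k) → B) : fold A t y =
    A (y (Fin.castAdd k 0)) (A (y (Fin.castAdd k 1)) (A (y (Fin.castAdd k 2))
      (A (y (Fin.castAdd k 3)) (fold A t (fun i => y (Fin.natAdd 4 i)))))) := by
  unfold fold
  rw [List.ofFn_add, List.foldr_append]
  rfl

/-- the operator of a product of two letters -/
def opP (x y : B) : T →ₗ[F] T :=
  (1 / 2 : F) • (A x ∘ₗ A y - A y ∘ₗ A x) + (2 / 3 : F) • (g ∘ₗ K x y)

theorem opP_apply (x y : B) (t : T) : opP A g K x y t =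
    (1 / 2 : F) • (A x (A y t) - A y (A x t)) + (2 / 3 : F) • g (K x y t) := rfl

/-- `-1/2 {xy, z}` -/
def opS (x y z : B) : T →ₗ[F] T :=
  (-1 / 2 : F) • (opP A g K x y ∘ₗ A z + A z ∘ₗ opP A g K x y)

theorem opS_apply (x y z : B) (t : T) : opS A g K x y z t =
    (-1 / 2 : F) • (opP A g K x y (A z t) + A z (opP A g K x y t)) := rfl

/-- the commutator of a letter with `opS` -/
def opD (x y z w : B) : T →ₗ[F] T := A w ∘ₗ opS A g K x y z - opS A g K x y z ∘ₗ A w

theorem opD_apply (x y z w : B) (t : T) : opD A g K x y z w t =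
    A w (opS A g K x y z t) - opS A g K x y z (A w t) := rfl

/-- the `U`-valued part -/
def kp (x y z : B) (t : T) : U := L z (K x y t) + K x y (A z t)

/-- the `U`-valued part of the commutator -/
def kq (w x y z : B) (t : T) : U := L w (kp L A K x y z t) - kp L A K x y z (A w t)

variable (hg : ∀ a u, g (L a u) = A a (g u))
include hg

theorem opS_eq (x y z : B) (t : T) : opS A g K x y z t =
    (-1 / 4 : F) • (A x (A y (A z t)) - A y (A x (A z t)) + A z (A x (A y t)) - A z (A y (A x t)))
      - (1 / 3 : F) • g (kp L A K x y z t) := by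
  rw [opS_apply, opP_apply, opP_apply, kp]
  simp only [map_add, map_sub, map_smul, hg]
  module

theorem opD_eq (x y z w : B) (t : T) : opD A g K x y z w t =
    (-1 / 4 : F) • (A w (A x (A y (A z t))) - A w (A y (A x (A z t))) + A w (A z (A x (A y t)))
      - A w (A z (A y (A x t)))
      - (A x (A y (A z (A w t))) - A y (A x (A z (A w t))) + A z (A x (A y (A w t)))
      - A z (A y (A x (A w t)))))
      - (1 / 3 : F) • g (kq L A K w x y z t) := by
  rw [opD_apply, opS_eq L A g K hg, opS_eq L A g K hg, kq]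
  simp only [map_add, map_sub, map_smul, hg]
  module

/-- word in the first four letters -/
def w4 (t : T) (k : ℕ) (i0 i1 i2 i3 : Fin 4) (y : Fin (4 + k) → B) : T :=
  A (y (Fin.castAdd k i0)) (A (y (Fin.castAdd k i1)) (A (y (Fin.castAdd k i2))
    (A (y (Fin.castAdd k i3)) (fold A t (fun i => y (Fin.natAdd 4 i))))))

omit hg in
theorem psum_w4 (t : T) (k : ℕ) (y : Fin (4 + k) → B) (ρ : Perm (Fin 4)) :
    psum (4 + k) (w4 A t k (ρ 0) (ρ 1) (ρ 2) (ρ 3)) y =
      (Perm.sign ρ : ℤ) • psum (4 + k) (fold A t) y := by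
  rw [← ext4_sign k ρ]
  unfold psum
  rw [← psum_perm]
  refine Finset.sum_congr rfl fun s _ => ?_
  congr 1
  rw [fold_four]
  simp only [w4, Function.comp_apply, ext4_left, ext4_right]

theorem psum_D (t : T) (k : ℕ) (y : Fin (4 + k) → B) :
    psum (4 + k) (fun y : Fin (4 + k) → B =>
      opD A g K (y (Fin.castAdd k 1)) (y (Fin.castAdd k 2)) (y (Fin.castAdd k 3))
        (y (Fin.castAdd k 0)) (fold A t (fun i => y (Fin.natAdd 4 i)))) y
      = (-2 : F) • psum (4 + k) (fold A t) y - (1 / 3 : F) • g (psum (4 + k)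
        (fun y : Fin (4 + k) → B =>
      kq L A K (y (Fin.castAdd k 0)) (y (Fin.castAdd k 1)) (y (Fin.castAdd k 2))
        (y (Fin.castAdd k 3)) (fold A t (fun i => y (Fin.natAdd 4 i)))) y) := by
  have k0 := psum_w4 A t k y 1
  have k1 := psum_w4 A t k y (swap 1 2)
  have k2 := psum_w4 A t k y (swap 1 2 * swap 1 3)
  have k3 := psum_w4 A t k y (swap 1 3)
  have k4 := psum_w4 A t k y (finRotate 4)
  have k5 := psum_w4 A t k y (swap 0 2 * swap 2 3)
  have k6 := psum_w4 A t k y (swap 0 3)
  have k7 := psum_w4 A t k y (swap 0 3 * swap 1 2)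
  rw [show Perm.sign (1 : Perm (Fin 4)) = 1 from by decide,
    show (1 : Perm (Fin 4)) 0 = 0 from by decide, show (1 : Perm (Fin 4)) 1 = 1 from by decide,
    show (1 : Perm (Fin 4)) 2 = 2 from by decide, show (1 : Perm (Fin 4)) 3 = 3 from by decide] at k0
  rw [show Perm.sign (swap 1 2 : Perm (Fin 4)) = -1 from by decide,
    show (swap 1 2 : Perm (Fin 4)) 0 = 0 from by decide,
    show (swap 1 2 : Perm (Fin 4)) 1 = 2 from by decide,
    show (swap 1 2 : Perm (Fin 4)) 2 = 1 from by decide,
    show (swap 1 2 : Perm (Fin 4)) 3 = 3 from by decide] at k1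
  rw [show Perm.sign (swap 1 2 * swap 1 3 : Perm (Fin 4)) = 1 from by decide,
    show (swap 1 2 * swap 1 3 : Perm (Fin 4)) 0 = 0 from by decide,
    show (swap 1 2 * swap 1 3 : Perm (Fin 4)) 1 = 3 from by decide,
    show (swap 1 2 * swap 1 3 : Perm (Fin 4)) 2 = 1 from by decide,
    show (swap 1 2 * swap 1 3 : Perm (Fin 4)) 3 = 2 from by decide] at k2
  rw [show Perm.sign (swap 1 3 : Perm (Fin 4)) = -1 from by decide,
    show (swap 1 3 : Perm (Fin 4)) 0 = 0 from by decide,
    show (swap 1 3 : Perm (Fin 4)) 1 = 3 from by decide,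
    show (swap 1 3 : Perm (Fin 4)) 2 = 2 from by decide,
    show (swap 1 3 : Perm (Fin 4)) 3 = 1 from by decide] at k3
  rw [show Perm.sign (finRotate 4) = -1 from by decide,
    show (finRotate 4) 0 = 1 from by decide,
    show (finRotate 4) 1 = 2 from by decide,
    show (finRotate 4) 2 = 3 from by decide,
    show (finRotate 4) 3 = 0 from by decide] at k4
  rw [show Perm.sign (swap 0 2 * swap 2 3 : Perm (Fin 4)) = 1 from by decide,
    show (swap 0 2 * swap 2 3 : Perm (Fin 4)) 0 = 2 from by decide,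
    show (swap 0 2 * swap 2 3 : Perm (Fin 4)) 1 = 1 from by decide,
    show (swap 0 2 * swap 2 3 : Perm (Fin 4)) 2 = 3 from by decide,
    show (swap 0 2 * swap 2 3 : Perm (Fin 4)) 3 = 0 from by decide] at k5
  rw [show Perm.sign (swap 0 3 : Perm (Fin 4)) = -1 from by decide,
    show (swap 0 3 : Perm (Fin 4)) 0 = 3 from by decide,
    show (swap 0 3 : Perm (Fin 4)) 1 = 1 from by decide,
    show (swap 0 3 : Perm (Fin 4)) 2 = 2 from by decide,
    show (swap 0 3 : Perm (Fin 4)) 3 = 0 from by decide] at k6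
  rw [show Perm.sign (swap 0 3 * swap 1 2 : Perm (Fin 4)) = 1 from by decide,
    show (swap 0 3 * swap 1 2 : Perm (Fin 4)) 0 = 3 from by decide,
    show (swap 0 3 * swap 1 2 : Perm (Fin 4)) 1 = 2 from by decide,
    show (swap 0 3 * swap 1 2 : Perm (Fin 4)) 2 = 1 from by decide,
    show (swap 0 3 * swap 1 2 : Perm (Fin 4)) 3 = 0 from by decide] at k7
  have expand : psum (4 + k) (fun y : Fin (4 + k) → B =>
      opD A g K (y (Fin.castAdd k 1)) (y (Fin.castAdd k 2)) (y (Fin.castAdd k 3))
        (y (Fin.castAdd k 0)) (fold A t (fun i => y (Fin.natAdd 4 i)))) y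
      = (-1 / 4 : F) • (psum (4 + k) (w4 A t k 0 1 2 3) y - psum (4 + k) (w4 A t k 0 2 1 3) y
        + psum (4 + k) (w4 A t k 0 3 1 2) y - psum (4 + k) (w4 A t k 0 3 2 1) y
        - (psum (4 + k) (w4 A t k 1 2 3 0) y - psum (4 + k) (w4 A t k 2 1 3 0) y
        + psum (4 + k) (w4 A t k 3 1 2 0) y - psum (4 + k) (w4 A t k 3 2 1 0) y))
        - (1 / 3 : F) • g (psum (4 + k)
        (fun y : Fin (4 + k) → B =>
      kq L A K (y (Fin.castAdd k 0)) (y (Fin.castAdd k 1)) (y (Fin.castAdd k 2))
        (y (Fin.castAdd k 3)) (fold A t (fun i => y (Fin.natAdd 4 i)))) y) := by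
    unfold psum
    simp only [map_sum, ← Finset.sum_sub_distrib, ← Finset.sum_add_distrib, Finset.smul_sum]
    refine Finset.sum_congr rfl fun s _ => ?_
    rw [opD_eq L A g K hg, map_zsmul]
    simp only [w4]
    module
  rw [expand, k0, k1, k2, k3, k4, k5, k6, k7]
  simp only [Units.val_neg, Units.val_one, one_smul, neg_smul]
  module

omit hg

theorem opP_anti (hK : ∀ x y t, K x y t = - K y x t) (x y : B) (t : T) :
    opP A g K x y t = - opP A g K y x t := by
  rw [opP_apply, opP_apply, hK x y, map_neg]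
  module

theorem opS_anti12 (hK : ∀ x y t, K x y t = - K y x t) (x y z : B) (t : T) :
    opS A g K x y z t = - opS A g K y x z t := by
  rw [opS_apply, opS_apply, opP_anti A g K hK x y, opP_anti A g K hK x y, map_neg]
  module

include hg in
theorem opS_anti23 (hA : Cliff A) (hK : ∀ x y t, K x y t = - K y x t)
    (hR9 : ∀ a b c t, L a (K b c t) + L b (K a c t) + K b c (A a t) + K a c (A b t) = 0)
    (x y z : B) (t : T) :
    opS A g K x y z t = - opS A g K x z y t := by
  rw [opS_eq L A g K hg, opS_eq L A g K hg]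
  have h1 := hA y z x t
  rw [ac_apply, ac_apply] at h1
  have h2 := hR9 y z x t
  have h3 : kp L A K x y z t + kp L A K x z y t = 0 := by
    unfold kp
    rw [hK x y, hK x z, hK x y, hK x z, map_neg, map_neg]
    linear_combination (norm := module) -h2
  have h4 : g (kp L A K x y z t) + g (kp L A K x z y t) = 0 := by
    rw [← map_add, h3, map_zero]
  simp only [map_add] at h1
  linear_combination (norm := module) (1 / 4 : F) • h1 - (1 / 3 : F) • h4

theorem opP_ac (hA : Cliff A)
    (hKac : ∀ x y a b t, g (K x y (ac A a b t)) = ac A a b (g (K x y t))) (x y a b : B) (t : T) :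
    opP A g K x y (ac A a b t) = ac A a b (opP A g K x y t) := by
  rw [opP_apply, opP_apply, hKac, ← hA, ← hA, ← hA, ← hA, map_add, map_smul, map_smul, map_sub]

theorem opS_ac (hA : Cliff A)
    (hKac : ∀ x y a b t, g (K x y (ac A a b t)) = ac A a b (g (K x y t))) (x y z a b : B) (t : T) :
    opS A g K x y z (ac A a b t) = ac A a b (opS A g K x y z t) := by
  rw [opS_apply, opS_apply, ← hA, opP_ac A g K hA hKac, opP_ac A g K hA hKac, ← hA, map_smul,
    map_add]

theorem opD_ac (hA : Cliff A)
    (hKac : ∀ x y a b t, g (K x y (ac A a b t)) = ac A a b (g (K x y t))) (x y z w a b : B) (t : T) :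
    opD A g K x y z w (ac A a b t) = ac A a b (opD A g K x y z w t) := by
  rw [opD_apply, opD_apply, ← hA, opS_ac A g K hA hKac, opS_ac A g K hA hKac, ← hA, map_sub]

theorem opD_anti34 (hA : Cliff A)
    (hKac : ∀ x y a b t, g (K x y (ac A a b t)) = ac A a b (g (K x y t))) (x y z w : B) (t : T) :
    opD A g K x y z w t = - opD A g K x y w z t := by
  have h1 := opP_ac A g K hA hKac x y z w t
  rw [ac_apply, ac_apply] at h1
  rw [opD_apply, opD_apply, opS_apply, opS_apply, opS_apply, opS_apply]
  simp only [map_add, map_sub, map_smul] at h1 ⊢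
  linear_combination (norm := module) (1 / 2 : F) • h1

theorem opD_boot (hA : Cliff A)
    (hKac : ∀ x y a b t, g (K x y (ac A a b t)) = ac A a b (g (K x y t))) (x y z w v : B) (t : T) :
    opD A g K x y z w (A v t) + opD A g K x y z v (A w t) =
      - A w (opD A g K x y z v t) - A v (opD A g K x y z w t) := by
  have h1 := opS_ac A g K hA hKac x y z w v t
  rw [ac_apply, ac_apply] at h1
  rw [opD_apply, opD_apply, opD_apply, opD_apply]
  simp only [map_add, map_sub, map_smul] at h1 ⊢
  linear_combination (norm := module) - h1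

/-- adjacent transposition in a word -/
theorem fold_adj (hA : Cliff A) (t : T) : ∀ (k : ℕ) (v : Fin k → B) (i j : Fin k),
    i.val + 1 = j.val → ∃ l : List B, l.length + 2 = k ∧
      fold A t v + fold A t (v ∘ swap i j) = ac A (v i) (v j) (l.foldr (fun a u => A a u) t) := by
  intro k
  induction k with
  | zero => intro v i; exact i.elim0
  | succ k ih =>
    intro v i j hij
    induction i using Fin.cases with
    | zero =>
      cases k with
      | zero =>
        exfalso
        have := j.isLt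
        simp at hij
      | succ k =>
        have hj : j = Fin.succ 0 := by ext; simp at hij ⊢; omega
        subst hj
        refine ⟨List.ofFn (Fin.tail (Fin.tail v)), by simp, ?_⟩
        rw [fold_succ, fold_succ, fold_succ, fold_succ, ac_apply]
        have e1 : (v ∘ swap (0 : Fin (k + 1 + 1)) (Fin.succ 0)) 0 = v (Fin.succ 0) := by
          rw [Function.comp_apply, swap_apply_left]
        have e2 : Fin.tail (v ∘ swap (0 : Fin (k + 1 + 1)) (Fin.succ 0)) 0 = v 0 := by
          rw [Fin.tail, Function.comp_apply, swap_apply_right]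
        have e3 : Fin.tail (Fin.tail (v ∘ swap (0 : Fin (k + 1 + 1)) (Fin.succ 0))) =
            Fin.tail (Fin.tail v) := by
          funext l
          rw [Fin.tail, Fin.tail, Fin.tail, Fin.tail, Function.comp_apply, swap_apply_of_ne_of_ne]
          · exact Fin.succ_ne_zero _
          · intro h
            have := Fin.succ_injective _ h
            exact Fin.succ_ne_zero _ this
        rw [e1, e2, e3]
        rfl
    | succ i =>
      obtain ⟨j', rfl⟩ : ∃ j', j = Fin.succ j' := by
        refine ⟨j.pred ?_, (Fin.succ_pred _ _).symm⟩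
        rintro rfl
        simp at hij
      obtain ⟨l, hl, hl2⟩ := ih (Fin.tail v) i j' (by simpa using hij)
      refine ⟨v 0 :: l, by rw [List.length_cons, ← hl], ?_⟩
      rw [fold_succ, fold_succ]
      have e1 : (v ∘ swap i.succ j'.succ) 0 = v 0 := by
        rw [Function.comp_apply, swap_apply_of_ne_of_ne]
        · exact (Fin.succ_ne_zero _).symm
        · exact (Fin.succ_ne_zero _).symm
      have e2 : Fin.tail (v ∘ swap i.succ j'.succ) = Fin.tail v ∘ swap i j' := by
        funext x
        rw [Fin.tail, Function.comp_apply, Function.comp_apply, Fin.tail,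
          ← (Fin.succ_injective k).map_swap]
      rw [e1, e2, ← map_add, hl2, ← hA, List.foldr_cons]
      rfl

end D

end Pool.Agent.Mal.Syz
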