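import Mathlib
import Pool.Agent.Mal.X1

set_option autoImplicit false
set_option linter.unusedSectionVars false
set_option linter.unusedSimpArgs false

open Finset Equiv

namespace Pool.Agent.Mal.Syz

variable {F : Type} [Field F] [CharZero F] {B : Type} [NonUnitalNonAssocRing B] [Module F B]
  {J : Submodule F B} {Γ U O : Type} [CommRing Γ] [Algebra F Γ]
  [AddCommGroup U] [Module F U] [Module Γ U] [IsScalarTower F Γ U]
  [AddCommGroup O] [Module F O] [Module Γ O] [IsScalarTower F Γ O]

namespace XSys

variable (S : XSys F B J Γ U O)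

theorem ac_L (a b : B) (u : U) : ac S.L a b u = (-2 : F) • S.q a b • u := S.L_ac a b u

theorem ac_A (a b : B) (o : O) : ac S.A a b o = (-2 : F) • S.q a b • o := S.A_ac a b o

theorem cliffL : Cliff S.L := by
  intro a b c u
  rw [S.ac_L, S.ac_L, map_smul, S.L_smul]

theorem cliffA : Cliff S.A := by
  intro a b c u
  rw [S.ac_A, S.ac_A, map_smul, S.A_smul]

theorem K_anti (x y : B) (o : O) : S.K x y o = - S.K y x o := by
  have h := S.K_alt (x + y) o
  simp only [map_add, LinearMap.add_apply, S.K_alt, zero_add, add_zero] at h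
  rw [eq_neg_iff_add_eq_zero, add_comm]; exact h

theorem K_ac (x y a b : B) (o : O) : S.K x y (ac S.A a b o) = ac S.L a b (S.K x y o) := by
  rw [S.ac_L, S.ac_A, map_smul, S.K_smul]

theorem eU_ac (a b : B) (u : U) : S.eU (ac S.L a b u) = ac S.A a b (S.eU u) := by
  rw [S.ac_L, S.ac_A, map_smul, S.eU_smul]

theorem R9' (a b c : B) (o : O) : S.L a (S.K b c o) + S.L b (S.K a c o) + S.K b c (S.A a o)
    + S.K a c (S.A b o) = 0 := by
  have h := S.R9 (a + b) c o
  have ha := S.R9 a c o
  have hb := S.R9 b c o
  simp only [map_add, LinearMap.add_apply] at h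
  linear_combination (norm := module) h - ha - hb

theorem opP_O (x y : B) (o : O) : opP S.A S.eU S.K x y o = S.A (x * y) o := by
  rw [opP_apply, S.R2]

theorem opD_O (x y z w : B) (o : O) : opD S.A S.eU S.K x y z w o = 0 := by
  have h : ∀ x y z o, opS S.A S.eU S.K x y z o = S.q (x * y) z • o := by
    intro x y z o
    rw [opS_apply, S.opP_O, S.opP_O, S.A_ac, smul_smul]
    norm_num
  rw [opD_apply, h, h, S.A_smul, sub_self]

theorem alt4 (y : Fin 4 → B) : ∑ s : Perm (Fin 4), (Perm.sign s : ℤ) •
      S.A (y (s 0)) (S.A (y (s 1)) (S.A (y (s 2)) (S.A (y (s 3)) S.one))) = (24 : F) • S.eU (S.j4 y) := by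
  have h := psum_D S.L S.A S.eU S.K S.eU_L S.one 0 y
  have h2 := S.D 0 (by norm_num) y
  have h3 : psum (4 + 0) (fun y : Fin (4 + 0) → B =>
      opD S.A S.eU S.K (y (Fin.castAdd 0 1)) (y (Fin.castAdd 0 2)) (y (Fin.castAdd 0 3))
        (y (Fin.castAdd 0 0)) (fold S.A S.one (fun i => y (Fin.natAdd 4 i)))) y = 0 := by
    unfold psum
    apply Finset.sum_eq_zero
    intro s _
    beta_reduce
    rw [S.opD_O, smul_zero]
  rw [h3] at h
  have h4 : psum (4 + 0) (fun y : Fin (4 + 0) → B =>
      kq S.L S.A S.K (y (Fin.castAdd 0 0)) (y (Fin.castAdd 0 1)) (y (Fin.castAdd 0 2))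
        (y (Fin.castAdd 0 3)) (fold S.A S.one (fun i => y (Fin.natAdd 4 i)))) y
      = (-6 * ((4 + 0).factorial : F)) • tow S.L S.j4 0 y := by
    rw [← h2]
    unfold psum
    refine Finset.sum_congr rfl fun s _ => ?_
    simp only [kq, kp, map_add]
  rw [h4, map_smul] at h
  have h5 : psum (4 + 0) (fold S.A S.one) y = ∑ s : Perm (Fin 4), (Perm.sign s : ℤ) •
      S.A (y (s 0)) (S.A (y (s 1)) (S.A (y (s 2)) (S.A (y (s 3)) S.one))) := rfl
  rw [h5] at h
  have h6 : tow S.L S.j4 0 y = S.j4 y := rfl
  rw [h6] at h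
  have h7 : ((4 + 0).factorial : F) = 24 := by norm_num [Nat.factorial]
  rw [h7] at h
  linear_combination (norm := module) (1 / 2 : F) • h

end XSys

/-- the module `Ht` together with its map to `O` -/
structure HSys (S : XSys F B J Γ U O) (H : Type) [AddCommGroup H] [Module F H] where
  A : B →ₗ[F] (H →ₗ[F] H)
  cl : Cliff A
  one : H
  i : U →ₗ[F] H
  inj : Function.Injective i
  i_L : ∀ a u, A a (i u) = i (S.L a u)
  alt4 : ∀ y : Fin 4 → B, ∑ s : Perm (Fin 4), (Perm.sign s : ℤ) •
      A (y (s 0)) (A (y (s 1)) (A (y (s 2)) (A (y (s 3)) one))) = (24 : F) • i (S.j4 y)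
  gen : ∀ T : Submodule F H, one ∈ T → (∀ a, ∀ h ∈ T, A a h ∈ T) → (∀ u, i u ∈ T) → T = ⊤
  e : H →ₗ[F] O
  e_A : ∀ a h, e (A a h) = S.A a (e h)
  e_i : ∀ u, e (i u) = S.eU u
  e_one : e one = S.one

theorem exists_HSys (hHt : Stmt_Ht) (S : XSys F B J Γ U O) :
    ∃ (H : Type) (_ : AddCommGroup H) (_ : Module F H), Nonempty (HSys S H) := by
  obtain ⟨H, i1, i2, LH, hLH, one, i, hinj, hiL, halt, hgen, huniv⟩ :=
    hHt F B U S.L S.cliffL S.j4 S.rel
  obtain ⟨e, h1, h2, h3⟩ := huniv O S.A S.cliffA S.eU (fun a u => (S.eU_L a u).symm) S.one S.alt4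
  exact ⟨H, i1, i2, ⟨⟨LH, hLH, one, i, hinj, hiL, halt, hgen, e, h1, h2, h3⟩⟩⟩

namespace HSys

variable {S : XSys F B J Γ U O} {H : Type} [AddCommGroup H] [Module F H] (h : HSys S H)

/-- `K` on `H` -/
def K : B →ₗ[F] B →ₗ[F] (H →ₗ[F] U) where
  toFun x :=
    { toFun := fun y => S.K x y ∘ₗ h.e
      map_add' := by intro a b; ext t; simp
      map_smul' := by intro c a; ext t; simp }
  map_add' := by intro a b; ext y t; simp
  map_smul' := by intro c a; ext y t; simp

theorem K_apply (x y : B) (t : H) : h.K x y t = S.K x y (h.e t) := rfl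

theorem e_ac (a b : B) (t : H) : h.e (ac h.A a b t) = ac S.A a b (h.e t) := by
  rw [ac_apply, ac_apply, map_add, h.e_A, h.e_A, h.e_A, h.e_A]

theorem i_ac (a b : B) (u : U) : h.i (ac S.L a b u) = ac h.A a b (h.i u) := by
  rw [ac_apply, ac_apply, map_add, h.i_L, h.i_L, h.i_L, h.i_L]

theorem K_anti (x y : B) (t : H) : h.K x y t = - h.K y x t := S.K_anti x y _

theorem K_ac (x y a b : B) (t : H) : h.i (h.K x y (ac h.A a b t)) = ac h.A a b (h.i (h.K x y t)) := by
  rw [K_apply, e_ac, S.K_ac, i_ac]; rfl

theorem R9' (a b c : B) (t : H) : S.L a (h.K b c t) + S.L b (h.K a c t) + h.K b c (h.A a t)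
    + h.K a c (h.A b t) = 0 := by
  rw [K_apply, K_apply, K_apply, K_apply, h.e_A, h.e_A]
  exact S.R9' a b c _

theorem opP_i (x y : B) (u : U) : opP h.A h.i h.K x y (h.i u) = h.i (S.L (x * y) u) := by
  rw [opP_apply, S.R1, h.i_L, h.i_L, h.i_L, h.i_L, K_apply, h.e_i]
  simp only [map_add, map_sub, map_smul]

theorem opS_i (x y z : B) (u : U) : opS h.A h.i h.K x y z (h.i u) = h.i (S.q (x * y) z • u) := by
  rw [opS_apply, h.i_L, opP_i, opP_i, h.i_L, ← map_add, S.L_ac, map_smul, smul_smul]
  norm_num

theorem opD_i (x y z w : B) (u : U) : opD h.A h.i h.K x y z w (h.i u) = 0 := by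
  rw [opD_apply, h.i_L, opS_i, opS_i, h.i_L, S.L_smul, sub_self]

/-- alternating words of length at least four are in `U` -/
theorem ww_eq (k : ℕ) (y : Fin (4 + k) → B) : ww h.A h.one (4 + k) y = h.i (tow S.L S.j4 k y) := by
  rw [← tow_ww]
  have h0 : ∀ v : Fin 4 → B, h.i (S.j4 v) = ww h.A h.one 4 v := by
    intro v
    have h1 := psum_fold h.A h.one 4 v
    have h2 : psum 4 (fold h.A h.one) v = (24 : F) • h.i (S.j4 v) := h.alt4 v
    rw [h2] at h1
    have h7 : ((4 : ℕ).factorial : F) = 24 := by norm_num [Nat.factorial]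
    rw [h7] at h1
    exact smul_right_injective H (by norm_num : (24 : F) ≠ 0) h1
  have := tow_nat S.L h.A LinearMap.id h.i (fun a u => (h.i_L a u).symm) S.j4 (ww h.A h.one 4)
    (fun v => h0 v) k y
  rw [this]
  rfl

theorem D12 (x y z w : B) (t : H) : opD h.A h.i h.K x y z w t = - opD h.A h.i h.K y x z w t := by
  rw [opD_apply, opD_apply, opS_anti12 h.A h.i h.K h.K_anti x y, opS_anti12 h.A h.i h.K h.K_anti x y,
    map_neg]
  abel

theorem D23 (x y z w : B) (t : H) : opD h.A h.i h.K x y z w t = - opD h.A h.i h.K x z y w t := by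
  rw [opD_apply, opD_apply,
    opS_anti23 S.L h.A h.i h.K (fun a u => (h.i_L a u).symm) h.cl h.K_anti h.R9' x y,
    opS_anti23 S.L h.A h.i h.K (fun a u => (h.i_L a u).symm) h.cl h.K_anti h.R9' x y,
    map_neg]
  abel

theorem D34 (x y z w : B) (t : H) : opD h.A h.i h.K x y z w t = - opD h.A h.i h.K x y w z t :=
  opD_anti34 h.A h.i h.K h.cl h.K_ac x y z w t

theorem Dboot (x y z w v : B) (t : H) (h0 : ∀ x y z w, opD h.A h.i h.K x y z w t = 0) :
    opD h.A h.i h.K x y z w (h.A v t) = - opD h.A h.i h.K x y z v (h.A w t) := by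
  have := opD_boot h.A h.i h.K h.cl h.K_ac x y z w v t
  rw [h0, h0, map_zero, map_zero, neg_zero, sub_zero] at this
  exact eq_neg_of_add_eq_zero_left this

/-- the function to be shown zero -/
def ff (k : ℕ) (y : Fin (4 + k) → B) : H :=
  opD h.A h.i h.K (y (Fin.castAdd k 1)) (y (Fin.castAdd k 2)) (y (Fin.castAdd k 3))
        (y (Fin.castAdd k 0)) (fold h.A h.one (fun i => y (Fin.natAdd 4 i)))

theorem ff_adj (k : ℕ)
    (IH : ∀ l : List B, l.length < k → ∀ x y z w,
      opD h.A h.i h.K x y z w (l.foldr (fun a u => h.A a u) h.one) = 0)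
    (i j : Fin (4 + k)) (hij : i.val + 1 = j.val) (y : Fin (4 + k) → B) :
    h.ff k (y ∘ swap i j) = - h.ff k y := by
  have hr : ∀ a b : Fin 4, (fun l : Fin k => (y ∘ swap (Fin.castAdd k a) (Fin.castAdd k b))
      (Fin.natAdd 4 l)) = fun l => y (Fin.natAdd 4 l) := by
    intro a b
    funext l
    rw [Function.comp_apply, swap_apply_of_ne_of_ne]
    · intro h; have := congrArg Fin.val h; simp at this; omega
    · intro h; have := congrArg Fin.val h; simp at this; omega
  have hl : ∀ a b c : Fin 4, (y ∘ swap (Fin.castAdd k a) (Fin.castAdd k b)) (Fin.castAdd k c) =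
      y (Fin.castAdd k (swap a b c)) := by
    intro a b c
    rw [Function.comp_apply, (Fin.castAdd_injective 4 k).map_swap]
  induction i using Fin.addCases with
  | left a =>
    by_cases ha : a.val < 3
    · obtain ⟨b, rfl⟩ : ∃ b : Fin 4, j = Fin.castAdd k b := by
        refine ⟨⟨a.val + 1, by omega⟩, ?_⟩
        ext
        simpa using hij.symm
      have hab : a.val + 1 = b.val := by simpa using hij
      unfold ff
      rw [hr, hl, hl, hl, hl]
      fin_cases a
      · obtain rfl : b = 1 := by ext; simpa using hab.symm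
        simp only [Fin.zero_eta, Fin.mk_one, Fin.reduceFinMk]
        rw [show (swap 0 1 : Perm (Fin 4)) 0 = 1 from by decide,
          show (swap 0 1 : Perm (Fin 4)) 1 = 0 from by decide,
          show (swap 0 1 : Perm (Fin 4)) 2 = 2 from by decide,
          show (swap 0 1 : Perm (Fin 4)) 3 = 3 from by decide]
        rw [h.D12, h.D23, h.D34, h.D23, h.D12, neg_neg, neg_neg]
      · obtain rfl : b = 2 := by ext; simpa using hab.symm
        simp only [Fin.zero_eta, Fin.mk_one, Fin.reduceFinMk]
        rw [show (swap 1 2 : Perm (Fin 4)) 0 = 0 from by decide,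
          show (swap 1 2 : Perm (Fin 4)) 1 = 2 from by decide,
          show (swap 1 2 : Perm (Fin 4)) 2 = 1 from by decide,
          show (swap 1 2 : Perm (Fin 4)) 3 = 3 from by decide]
        rw [h.D12]
      · obtain rfl : b = 3 := by ext; simpa using hab.symm
        simp only [Fin.zero_eta, Fin.mk_one, Fin.reduceFinMk]
        rw [show (swap 2 3 : Perm (Fin 4)) 0 = 0 from by decide,
          show (swap 2 3 : Perm (Fin 4)) 1 = 1 from by decide,
          show (swap 2 3 : Perm (Fin 4)) 2 = 3 from by decide,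
          show (swap 2 3 : Perm (Fin 4)) 3 = 2 from by decide]
        rw [h.D23]
      · exact absurd ha (by simp)
    · obtain rfl : a = 3 := by ext; simp; omega
      cases k with
      | zero =>
        exfalso
        have := j.isLt
        simp at hij
        omega
      | succ k =>
        obtain rfl : j = Fin.natAdd 4 0 := by
          ext
          simpa using hij.symm
        unfold ff
        rw [fold_succ, fold_succ]
        have e0 : (y ∘ swap (Fin.castAdd (k + 1) 3) (Fin.natAdd 4 0)) (Fin.castAdd (k + 1) 3) =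
            y (Fin.natAdd 4 0) := by rw [Function.comp_apply, swap_apply_left]
        have e1 : (y ∘ swap (Fin.castAdd (k + 1) 3) (Fin.natAdd 4 0)) (Fin.natAdd 4 0) =
            y (Fin.castAdd (k + 1) 3) := by rw [Function.comp_apply, swap_apply_right]
        have e2 : ∀ c : Fin 4, c ≠ 3 →
            (y ∘ swap (Fin.castAdd (k + 1) 3) (Fin.natAdd 4 0)) (Fin.castAdd (k + 1) c) =
            y (Fin.castAdd (k + 1) c) := by
          intro c hc
          rw [Function.comp_apply, swap_apply_of_ne_of_ne]
          · exact fun h => hc (Fin.castAdd_injective 4 (k + 1) h)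
          · intro h; have := congrArg Fin.val h; simp at this; omega
        have e3 : Fin.tail (fun l => (y ∘ swap (Fin.castAdd (k + 1) 3) (Fin.natAdd 4 0))
            (Fin.natAdd 4 l)) = Fin.tail (fun l => y (Fin.natAdd 4 l)) := by
          funext l
          simp only [Fin.tail]
          rw [Function.comp_apply, swap_apply_of_ne_of_ne]
          · intro h; have := congrArg Fin.val h; simp at this; omega
          · intro h; have := congrArg Fin.val h; simp at this
        rw [e0, e1, e2 0 (by decide), e2 1 (by decide), e2 2 (by decide), e3]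
        have h0 : ∀ x z w v, opD h.A h.i h.K x z w v
            (fold h.A h.one (Fin.tail fun l => y (Fin.natAdd 4 l))) = 0 := by
          intro x z w v
          exact IH _ (by simp) x z w v
        rw [h.D34, h.Dboot _ _ _ _ _ _ h0, h.D34, neg_neg]
  | right a =>
    obtain ⟨b, rfl⟩ : ∃ b : Fin k, j = Fin.natAdd 4 b := by
      have hj := j.isLt
      simp only [Fin.val_natAdd] at hij
      refine ⟨⟨a.val + 1, by omega⟩, ?_⟩
      ext
      simp only [Fin.val_natAdd]
      omega
    have hab : a.val + 1 = b.val := by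
      simp only [Fin.val_natAdd] at hij
      omega
    unfold ff
    have e1 : ∀ c : Fin 4, (y ∘ swap (Fin.natAdd 4 a) (Fin.natAdd 4 b)) (Fin.castAdd k c) =
        y (Fin.castAdd k c) := by
      intro c
      rw [Function.comp_apply, swap_apply_of_ne_of_ne]
      · intro h; have := congrArg Fin.val h; simp at this; omega
      · intro h; have := congrArg Fin.val h; simp at this; omega
    have e2 : (fun l => (y ∘ swap (Fin.natAdd 4 a) (Fin.natAdd 4 b)) (Fin.natAdd 4 l)) =
        (fun l => y (Fin.natAdd 4 l)) ∘ swap a b := by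
      funext l
      rw [Function.comp_apply, Function.comp_apply, (Fin.natAdd_injective k 4).map_swap]
    rw [e1, e1, e1, e1, e2]
    obtain ⟨l, hl1, hl2⟩ := fold_adj h.A h.cl h.one k (fun l => y (Fin.natAdd 4 l)) a b hab
    rw [← add_eq_zero_iff_eq_neg, ← map_add, add_comm, hl2, opD_ac h.A h.i h.K h.cl h.K_ac,
      IH l (by omega), map_zero]

theorem ff_zero (k : ℕ)
    (IH : ∀ l : List B, l.length < k → ∀ x y z w,
      opD h.A h.i h.K x y z w (l.foldr (fun a u => h.A a u) h.one) = 0)
    (y : Fin (4 + k) → B) : h.ff k y = 0 := by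
  have halt := fun σ => alt_of_adj (h.ff k) (fun i j hij y => h.ff_adj k IH i j hij y) σ y
  rcases Nat.lt_or_ge k 4 with hk | hk
  · have h1 := psum_D S.L h.A h.i h.K (fun a u => (h.i_L a u).symm) h.one k y
    have h2 := S.D k (by omega) y
    have hf : ∀ v : Fin k → B, h.e (fold h.A h.one v) = fold S.A S.one v := by
      intro v
      unfold fold
      generalize List.ofFn v = l
      induction l with
      | nil => exact h.e_one
      | cons a l ih => rw [List.foldr_cons, List.foldr_cons, h.e_A, ih]
    have h4 : psum (4 + k) (fun y : Fin (4 + k) → B =>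
        kq S.L h.A h.K (y (Fin.castAdd k 0)) (y (Fin.castAdd k 1)) (y (Fin.castAdd k 2))
          (y (Fin.castAdd k 3)) (fold h.A h.one (fun i => y (Fin.natAdd 4 i)))) y
        = (-6 * ((4 + k).factorial : F)) • tow S.L S.j4 k y := by
      rw [← h2]
      unfold psum
      refine Finset.sum_congr rfl fun s _ => ?_
      simp only [kq, kp, map_add, K_apply, h.e_A, hf]
    rw [h4, map_smul, psum_fold, h.ww_eq] at h1
    have h5 : psum (4 + k) (fun y : Fin (4 + k) → B =>
        opD h.A h.i h.K (y (Fin.castAdd k 1)) (y (Fin.castAdd k 2)) (y (Fin.castAdd k 3))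
        (y (Fin.castAdd k 0)) (fold h.A h.one (fun i => y (Fin.natAdd 4 i)))) y
        = ((4 + k).factorial : F) • h.ff k y := by
      unfold psum
      have : ∀ s : Perm (Fin (4 + k)), (Perm.sign s : ℤ) • h.ff k (y ∘ s) = h.ff k y := by
        intro s
        rw [halt, smul_smul, ← Units.val_mul, Int.units_mul_self, Units.val_one, one_smul]
      refine (Finset.sum_congr rfl (fun s _ => this s)).trans ?_
      rw [Finset.sum_const, Finset.card_univ,
        Fintype.card_perm, Fintype.card_fin, Nat.cast_smul_eq_nsmul]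
    rw [h5] at h1
    have h6 : ((4 + k).factorial : F) • h.ff k y = 0 := by
      rw [h1]; module
    exact (smul_eq_zero.mp h6).resolve_left (Nat.cast_ne_zero.mpr (Nat.factorial_ne_zero _))
  · obtain ⟨k', rfl⟩ : ∃ k', k = 4 + k' := ⟨k - 4, by omega⟩
    have h1 : ∀ s : Perm (Fin (4 + k')), (Perm.sign s : ℤ) • opD h.A h.i h.K
        (y (Fin.castAdd (4 + k') 1)) (y (Fin.castAdd (4 + k') 2)) (y (Fin.castAdd (4 + k') 3))
        (y (Fin.castAdd (4 + k') 0)) (fold h.A h.one ((fun i => y (Fin.natAdd 4 i)) ∘ s))
        = h.ff (4 + k') y := by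
      intro s
      have h2 := halt (finSumFinEquiv.permCongr (Perm.sumCongr 1 s))
      rw [Perm.sign_permCongr, Perm.sign_sumCongr, Perm.sign_one, one_mul] at h2
      have h3 : h.ff (4 + k') (y ∘ (finSumFinEquiv.permCongr (Perm.sumCongr 1 s))) =
          opD h.A h.i h.K
        (y (Fin.castAdd (4 + k') 1)) (y (Fin.castAdd (4 + k') 2)) (y (Fin.castAdd (4 + k') 3))
        (y (Fin.castAdd (4 + k') 0)) (fold h.A h.one ((fun i => y (Fin.natAdd 4 i)) ∘ s)) := by
        have e1 : ∀ c : Fin 4, (y ∘ (finSumFinEquiv.permCongr (Perm.sumCongr 1 s)))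
            (Fin.castAdd (4 + k') c) = y (Fin.castAdd (4 + k') c) := by
          intro c
          simp [Equiv.permCongr_apply]
        have e2 : (fun l => (y ∘ (finSumFinEquiv.permCongr (Perm.sumCongr 1 s)))
            (Fin.natAdd 4 l)) = (fun i => y (Fin.natAdd 4 i)) ∘ s := by
          funext l
          simp [Equiv.permCongr_apply]
        unfold ff
        rw [e1, e1, e1, e1, e2]
      rw [← h3, h2, smul_smul, ← Units.val_mul, Int.units_mul_self, Units.val_one, one_smul]
    have h2 : ((4 + k').factorial : F) • h.ff (4 + k') y = opD h.A h.i h.K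
        (y (Fin.castAdd (4 + k') 1)) (y (Fin.castAdd (4 + k') 2)) (y (Fin.castAdd (4 + k') 3))
        (y (Fin.castAdd (4 + k') 0)) (psum (4 + k') (fold h.A h.one) (fun i => y (Fin.natAdd 4 i))) := by
      have e3 : ((4 + k').factorial : F) • h.ff (4 + k') y =
          ∑ _s : Perm (Fin (4 + k')), h.ff (4 + k') y := by
        rw [Finset.sum_const, Finset.card_univ, Fintype.card_perm, Fintype.card_fin,
          Nat.cast_smul_eq_nsmul]
      rw [e3]
      unfold psum
      rw [map_sum]
      refine Finset.sum_congr rfl fun s _ => ?_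
      rw [map_zsmul, h1]
    rw [psum_fold, map_smul, h.ww_eq, h.opD_i, smul_zero] at h2
    exact (smul_eq_zero.mp h2).resolve_left (Nat.cast_ne_zero.mpr (Nat.factorial_ne_zero _))

/-- the fourth order identity on letters -/
theorem opD_letters (x y z w : B) (t : H) : opD h.A h.i h.K x y z w t = 0 := by
  have main : ∀ n, ∀ l : List B, l.length < n → ∀ x y z w,
      opD h.A h.i h.K x y z w (l.foldr (fun a u => h.A a u) h.one) = 0 := by
    intro n
    induction n with
    | zero => intro l hl; exact absurd hl (Nat.not_lt_zero _)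
    | succ n ih =>
      intro l hl x y z w
      have := h.ff_zero l.length (fun l' hl' => ih l' (by omega))
        (Fin.append ![w, x, y, z] l.get)
      unfold ff at this
      simp only [Fin.append_left, Fin.append_right] at this
      have e : fold h.A h.one (fun i => l.get i) = l.foldr (fun a u => h.A a u) h.one := by
        unfold fold
        congr 1
        exact List.ofFn_get l
      rw [e] at this
      exact this
  let T : Submodule F H :=
    { carrier := {t | ∀ x y z w, ∀ l : List B,
        opD h.A h.i h.K x y z w (l.foldr (fun a u => h.A a u) t) = 0}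
      add_mem' := by
        intro a b ha hb x y z w l
        have : l.foldr (fun a u => h.A a u) (a + b) = l.foldr (fun a u => h.A a u) a
            + l.foldr (fun a u => h.A a u) b := by
          induction l with
          | nil => rfl
          | cons c l ih => simp only [List.foldr_cons, ih, map_add]
        rw [this, map_add, ha, hb, add_zero]
      zero_mem' := by
        intro x y z w l
        have : l.foldr (fun a u => h.A a u) (0 : H) = 0 := by
          induction l with
          | nil => rfl
          | cons c l ih => simp only [List.foldr_cons, ih, map_zero]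
        rw [this, map_zero]
      smul_mem' := by
        intro c a ha x y z w l
        have : l.foldr (fun a u => h.A a u) (c • a) = c • l.foldr (fun a u => h.A a u) a := by
          induction l with
          | nil => rfl
          | cons c l ih => simp only [List.foldr_cons, ih, map_smul]
        rw [this, map_smul, ha, smul_zero] }
  have hT := h.gen T (fun x y z w l => main _ l (Nat.lt_succ_self _) x y z w)
    (by
      intro a t ht x y z w l
      have := ht x y z w (l ++ [a])
      rw [List.foldr_append] at this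
      exact this)
    (by
      intro u x y z w l
      have : ∃ u', l.foldr (fun a u => h.A a u) (h.i u) = h.i u' := by
        induction l with
        | nil => exact ⟨u, rfl⟩
        | cons c l ih =>
          obtain ⟨u', hu'⟩ := ih
          exact ⟨S.L c u', by rw [List.foldr_cons, hu', h.i_L]⟩
      obtain ⟨u', hu'⟩ := this
      rw [hu', h.opD_i])
  have : t ∈ T := by rw [hT]; trivial
  exact this x y z w []

end HSys

end Pool.Agent.Mal.Syz
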