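import Mathlib
import Pool.Agent.Mal.X2

set_option autoImplicit false
set_option linter.unusedSectionVars false
set_option linter.unusedSimpArgs false

open Finset Equiv

namespace Pool.Agent.Mal.Syz

variable {F : Type} [Field F] [CharZero F] {B : Type} [NonUnitalNonAssocRing B] [Module F B]
  {J : Submodule F B} {Γ U O : Type} [CommRing Γ] [Algebra F Γ]
  [AddCommGroup U] [Module F U] [Module Γ U] [IsScalarTower F Γ U]
  [AddCommGroup O] [Module F O] [Module Γ O] [IsScalarTower F Γ O]

namespace HSys

variable {S : XSys F B J Γ U O} {H : Type} [AddCommGroup H] [Module F H] (h : HSys S H)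
  (v : ℕ → B)

/-- value of a word -/
def ev (v : ℕ → B) : FreeMagma ℕ → B
  | FreeMagma.of i => v i
  | FreeMagma.mul x y => ev v x * ev v y

/-- operator of a word -/
def op (v : ℕ → B) : FreeMagma ℕ → (H →ₗ[F] H)
  | FreeMagma.of i => h.A (v i)
  | FreeMagma.mul x y => (1 / 2 : F) • (op v x ∘ₗ op v y - op v y ∘ₗ op v x)
      + (2 / 3 : F) • (h.i ∘ₗ h.K (ev v x) (ev v y))

theorem op_of (i : ℕ) (t : H) : h.op v (FreeMagma.of i) t = h.A (v i) t := rfl

theorem op_mul (x y : FreeMagma ℕ) (t : H) : h.op v (x * y) t =
    (1 / 2 : F) • (h.op v x (h.op v y t) - h.op v y (h.op v x t))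
      + (2 / 3 : F) • h.i (S.K (ev v x) (ev v y) (h.e t)) := rfl

theorem ev_mul (x y : FreeMagma ℕ) : ev v (x * y) = ev v x * ev v y := rfl

theorem op_i (m : FreeMagma ℕ) (u : U) : h.op v m (h.i u) = h.i (S.L (ev v m) u) := by
  induction m generalizing u with
  | ih1 i => exact h.i_L _ _
  | ih2 x y hx hy =>
    rw [op_mul, hy, hx, hx, hy, h.e_i, ev_mul, S.R1]
    simp only [map_add, map_sub, map_smul]

theorem e_op (m : FreeMagma ℕ) (t : H) : h.e (h.op v m t) = S.A (ev v m) (h.e t) := by
  induction m generalizing t with
  | ih1 i => exact h.e_A _ _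
  | ih2 x y hx hy =>
    rw [op_mul, ev_mul, S.R2]
    simp only [map_add, map_sub, map_smul, hx, hy, h.e_i]

theorem op_anti (x y : FreeMagma ℕ) (t : H) : h.op v (x * y) t = - h.op v (y * x) t := by
  rw [op_mul, op_mul, S.K_anti (ev v x), map_neg]
  module

/-- anticommutator of two words -/
def acw (a b : FreeMagma ℕ) : H →ₗ[F] H := h.op v a ∘ₗ h.op v b + h.op v b ∘ₗ h.op v a

theorem acw_apply (a b : FreeMagma ℕ) (t : H) : h.acw v a b t =
    h.op v a (h.op v b t) + h.op v b (h.op v a t) := rfl

theorem acw_symm (a b : FreeMagma ℕ) : h.acw v a b = h.acw v b a := add_comm _ _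

theorem acw_i (a b : FreeMagma ℕ) (u : U) : h.acw v a b (h.i u) =
    h.i (ac S.L (ev v a) (ev v b) u) := by
  rw [acw_apply, ac_apply, h.op_i, h.op_i, h.op_i, h.op_i, map_add]

theorem e_acw (a b : FreeMagma ℕ) (t : H) : h.e (h.acw v a b t) =
    ac S.A (ev v a) (ev v b) (h.e t) := by
  rw [acw_apply, ac_apply, map_add, h.e_op, h.e_op, h.e_op, h.e_op]

/-- commuting with all letters -/
def Zp (a b : FreeMagma ℕ) : Prop := ∀ i t, h.acw v a b (h.op v (FreeMagma.of i) t) =
  h.op v (FreeMagma.of i) (h.acw v a b t)

theorem Zp.all {a b : FreeMagma ℕ} (hz : h.Zp v a b) (c : FreeMagma ℕ) (t : H) :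
    h.acw v a b (h.op v c t) = h.op v c (h.acw v a b t) := by
  induction c generalizing t with
  | ih1 i => exact hz i t
  | ih2 x y hx hy =>
    rw [op_mul, op_mul, map_add, map_smul, map_smul, map_sub, hx, hy, hy, hx, acw_i, e_acw, S.K_ac]

theorem Zp.symm {a b : FreeMagma ℕ} (hz : h.Zp v a b) : h.Zp v b a := by
  intro i t
  rw [h.acw_symm v b a]; exact hz i t

/-- the Jacobi type exchange -/
theorem exch {p c d : FreeMagma ℕ} (hz : h.Zp v c d) (t : H) :
    h.op v d (h.acw v p c t) - h.acw v p c (h.op v d t) =
      - (h.op v c (h.acw v p d t) - h.acw v p d (h.op v c t)) := by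
  have h1 := Zp.all h v hz p t
  simp only [acw_apply, map_add] at h1 ⊢
  linear_combination (norm := module) h1

theorem acw_expand (a b c : FreeMagma ℕ) (t : H) : h.acw v (a * b) c t =
    (1 / 2 : F) • (h.op v a (h.op v b (h.op v c t)) - h.op v b (h.op v a (h.op v c t))
      + h.op v c (h.op v a (h.op v b t)) - h.op v c (h.op v b (h.op v a t)))
    + (2 / 3 : F) • h.i (kp S.L S.A S.K (ev v a) (ev v b) (ev v c) (h.e t)) := by
  rw [acw_apply, op_mul, op_mul, kp, h.e_op]
  simp only [map_add, map_sub, map_smul, h.op_i]
  module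

theorem kp_anti (x y z : B) (o : O) : kp S.L S.A S.K x y z o + kp S.L S.A S.K x z y o = 0 := by
  unfold kp
  have h2 := S.R9' y z x o
  rw [S.K_anti x y, S.K_anti x z, S.K_anti x y, S.K_anti x z, map_neg, map_neg]
  linear_combination (norm := module) -h2

theorem swap12 (a b c : FreeMagma ℕ) (t : H) : h.acw v (a * b) c t = - h.acw v (b * a) c t := by
  rw [acw_apply, acw_apply, op_anti, op_anti h v a b, map_neg]
  abel

theorem swap23 {a b c : FreeMagma ℕ} (hz : h.Zp v b c) (t : H) :
    h.acw v (a * b) c t = - h.acw v (a * c) b t := by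
  have h1 := Zp.all h v hz a t
  have h2 := kp_anti (S := S) (ev v a) (ev v b) (ev v c) (h.e t)
  have h3 := congrArg h.i h2
  rw [map_add, map_zero] at h3
  rw [acw_expand, acw_expand]
  simp only [acw_apply, map_add] at h1
  linear_combination (norm := module) (-1 / 2 : F) • h1 + (2 / 3 : F) • h3

/-- all anticommutators of words are central -/
theorem central (n : ℕ) : ∀ a b : FreeMagma ℕ, a.length + b.length ≤ n → h.Zp v a b := by
  induction n with
  | zero =>
    intro a b hab
    have := a.length_pos
    omega
  | succ n ih =>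
    -- composite first factor
    have key : ∀ a1 a2 b : FreeMagma ℕ, (a1 * a2).length + b.length ≤ n + 1 →
        h.Zp v (a1 * a2) b := by
      intro a1 a2 b hab i t
      have hl : (a1 * a2).length = a1.length + a2.length := rfl
      have hd : (FreeMagma.of i : FreeMagma ℕ).length = 1 := rfl
      have p1 := a1.length_pos
      have p2 := a2.length_pos
      have p3 := b.length_pos
      rw [hl] at hab
      rw [eq_comm, ← sub_eq_zero]
      by_cases hb : 1 < b.length
      · rw [h.exch v (ih b (FreeMagma.of i) (by omega))]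
        have := Zp.all h v (ih (a1 * a2) (FreeMagma.of i) (by rw [hl]; omega)) b t
        rw [this, sub_self, neg_zero]
      · by_cases ha1 : 1 < a1.length
        · -- cyclic permutation
          have hz1 := ih a2 b (by omega)
          have hz2 := ih a1 b (by omega)
          have hz3 := ih a1 a2 (by omega)
          have e : ∀ t, h.acw v (a1 * a2) b t = h.acw v (a2 * b) a1 t := by
            intro t
            rw [h.swap12 v a1 a2, h.swap23 v hz2, neg_neg]
          rw [e, e, h.exch v (ih a1 (FreeMagma.of i) (by omega))]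
          have := Zp.all h v (ih (a2 * b) (FreeMagma.of i) (by
            have : (a2 * b).length = a2.length + b.length := rfl
            omega)) a1 t
          rw [this, sub_self, neg_zero]
        · by_cases ha2 : 1 < a2.length
          · have hz1 := ih a2 b (by omega)
            have e : ∀ t, h.acw v (a1 * a2) b t = - h.acw v (a1 * b) a2 t := by
              intro t
              rw [h.swap23 v hz1]
            rw [e, e, map_neg, ← neg_sub', h.exch v (ih a2 (FreeMagma.of i) (by omega))]
            have := Zp.all h v (ih (a1 * b) (FreeMagma.of i) (by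
              have : (a1 * b).length = a1.length + b.length := rfl
              omega)) a2 t
            rw [this, sub_self, neg_zero, neg_zero]
          · -- three letters
            have hlet : ∀ a : FreeMagma ℕ, ¬ 1 < a.length → ∃ j, a = FreeMagma.of j := by
              intro a ha
              cases a with
              | of j => exact ⟨j, rfl⟩
              | mul x y =>
                exfalso
                have h1 := x.length_pos
                have h2 := y.length_pos
                have h3 : (FreeMagma.mul x y).length = x.length + y.length := rfl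
                omega
            obtain ⟨j1, rfl⟩ := hlet a1 ha1
            obtain ⟨j2, rfl⟩ := hlet a2 ha2
            obtain ⟨j3, rfl⟩ := hlet b hb
            have h1 := h.opD_letters (v j1) (v j2) (v j3) (v i) t
            rw [opD_apply] at h1
            have h2 : ∀ t, opS h.A h.i h.K (v j1) (v j2) (v j3) t =
                (-1 / 2 : F) • h.acw v (FreeMagma.of j1 * FreeMagma.of j2) (FreeMagma.of j3) t := by
              intro t; rfl
            rw [h2, h2, map_smul, ← smul_sub] at h1
            exact (smul_eq_zero.mp h1).resolve_left (by norm_num)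
    intro a b hab
    cases a with
    | mul x y => exact key x y b hab
    | of i =>
      cases b with
      | mul x y =>
        exact Zp.symm h v (key x y (FreeMagma.of i) (by rw [add_comm]; exact hab))
      | of j =>
        intro k t
        exact h.cl (v i) (v j) (v k) t

theorem acw_op (a b c : FreeMagma ℕ) (t : H) :
    h.acw v a b (h.op v c t) = h.op v c (h.acw v a b t) :=
  Zp.all h v (h.central v _ a b le_rfl) c t

theorem acw_comm (a b c d : FreeMagma ℕ) (t : H) :
    h.acw v a b (h.acw v c d t) = h.acw v c d (h.acw v a b t) := by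
  rw [acw_apply _ _ c d, acw_apply _ _ c d, map_add, acw_op, acw_op, acw_op, acw_op]

theorem acw_swap23 (a b c : FreeMagma ℕ) (t : H) :
    h.acw v (a * b) c t = - h.acw v (a * c) b t :=
  h.swap23 v (h.central v _ b c le_rfl) t

/-- the cross product identity for operators of words -/
theorem op_cp (a b c : FreeMagma ℕ) (t : H) :
    h.op v (a * (c * b)) t + h.op v (c * (a * b)) t =
      (-1 / 2 : F) • h.acw v a b (h.op v c t) + (-1 / 2 : F) • h.acw v c b (h.op v a t)
        + h.acw v a c (h.op v b t) := by
  have h1 := S.R3 (ev v a) (ev v c) (ev v b) (h.e t)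
  have h2 := S.R3 (ev v c) (ev v a) (ev v b) (h.e t)
  have h3 : (⟨_, S.jac (ev v a) (ev v c) (ev v b)⟩ : J) = - ⟨_, S.jac (ev v c) (ev v a) (ev v b)⟩ := by
    apply Subtype.ext
    have anti : ∀ x y : B, x * y = - (y * x) := by
      intro x y
      have h1 := S.sq (x + y)
      rw [add_mul, mul_add, mul_add, S.sq x, S.sq y, zero_add, add_zero] at h1
      exact eq_neg_of_add_eq_zero_left h1
    change (ev v a * ev v c) * ev v b + (ev v c * ev v b) * ev v a + (ev v b * ev v a) * ev v c =
      - ((ev v c * ev v a) * ev v b + (ev v a * ev v b) * ev v c + (ev v b * ev v c) * ev v a)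
    rw [anti (ev v a) (ev v c), anti (ev v c) (ev v b), anti (ev v b) (ev v a)]
    simp only [neg_mul]
    abel
  rw [h3, map_neg, LinearMap.neg_apply] at h1
  have h4 : S.L (ev v a) (S.K (ev v c) (ev v b) (h.e t)) - S.K (ev v c) (ev v b) (S.A (ev v a) (h.e t))
      + (2 : F) • S.K (ev v a) (ev v c * ev v b) (h.e t)
      + (S.L (ev v c) (S.K (ev v a) (ev v b) (h.e t)) - S.K (ev v a) (ev v b) (S.A (ev v c) (h.e t))
      + (2 : F) • S.K (ev v c) (ev v a * ev v b) (h.e t)) = 0 := by
    linear_combination (norm := module) h1 + h2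
  have h5 := congrArg h.i h4
  have c1 := h.acw_op v a b c t
  have c2 := h.acw_op v c b a t
  have c3 := h.acw_op v a c b t
  simp only [op_mul, acw_apply, map_add, map_sub, map_smul, h.op_i, h.e_op, map_zero, ev_mul] at *
  linear_combination (norm := module) (1 / 3 : F) • h5 + (1 / 4 : F) • c1 + (1 / 4 : F) • c2
    - (1 / 2 : F) • c3

end HSys

end Pool.Agent.Mal.Syz
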