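import Mathlib
import Pool.Agent.Mal.X3
import Pool.Agent.Mal.LieKill

set_option autoImplicit false
set_option linter.unusedSectionVars false
set_option linter.unusedSimpArgs false

open Finset Equiv

namespace Pool.Agent.Mal.Syz

section quot

variable {R W : Type} [CommRing R] [AddCommGroup W] [Module R W]

/-- product on a quotient -/
def qmul (m : W →ₗ[R] W →ₗ[R] W) (I : Submodule R W) (h1 : ∀ w ∈ I, ∀ a, m w a ∈ I)
    (h2 : ∀ a, ∀ w ∈ I, m a w ∈ I) : (W ⧸ I) →ₗ[R] (W ⧸ I) →ₗ[R] (W ⧸ I) :=
  I.liftQ
    { toFun := fun a => I.mapQ I (m a) (fun w hw => h2 a w hw)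
      map_add' := by
        intro a b
        apply Submodule.linearMap_qext
        ext w
        simp
      map_smul' := by
        intro c a
        apply Submodule.linearMap_qext
        ext w
        simp }
    (by
      intro w hw
      rw [LinearMap.mem_ker]
      apply Submodule.linearMap_qext
      ext a
      exact (Submodule.Quotient.mk_eq_zero I).mpr (h1 w hw a))

theorem qmul_mk (m : W →ₗ[R] W →ₗ[R] W) (I : Submodule R W) (h1 : ∀ w ∈ I, ∀ a, m w a ∈ I)
    (h2 : ∀ a, ∀ w ∈ I, m a w ∈ I) (a b : W) :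
    qmul m I h1 h2 (I.mkQ a) (I.mkQ b) = I.mkQ (m a b) := rfl

variable (R) in
/-- bilinear extension from words -/
noncomputable def bil {N : Type} [AddCommGroup N] [Module R N] (b : FreeMagma ℕ → FreeMagma ℕ → N) :
    (FreeMagma ℕ →₀ R) →ₗ[R] (FreeMagma ℕ →₀ R) →ₗ[R] N :=
  Finsupp.linearCombination R (fun m => Finsupp.linearCombination R (fun n => b m n))

theorem bil_single {N : Type} [AddCommGroup N] [Module R N] (b : FreeMagma ℕ → FreeMagma ℕ → N)
    (m n : FreeMagma ℕ) : bil R b (Finsupp.single m 1) (Finsupp.single n 1) = b m n := by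
  unfold bil
  rw [Finsupp.linearCombination_single, one_smul, Finsupp.linearCombination_single, one_smul]

variable (R) in
/-- product of the free nonassociative algebra -/
noncomputable def mW : (FreeMagma ℕ →₀ R) →ₗ[R] (FreeMagma ℕ →₀ R) →ₗ[R] (FreeMagma ℕ →₀ R) :=
  bil R (fun m n => Finsupp.single (m * n) 1)

theorem mW_single (m n : FreeMagma ℕ) : mW R (Finsupp.single m 1) (Finsupp.single n 1) =
    Finsupp.single (m * n) 1 := bil_single _ m n

/-- linear maps on words -/
theorem lin_ext {N : Type} [AddCommGroup N] [Module R N] {f g : (FreeMagma ℕ →₀ R) →ₗ[R] N}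
    (h : ∀ m, f (Finsupp.single m 1) = g (Finsupp.single m 1)) (w : FreeMagma ℕ →₀ R) :
    f w = g w := by
  have : f = g := by
    apply Finsupp.lhom_ext'
    intro m
    ext
    exact h m
  rw [this]

end quot

section lie

variable {F : Type} [Field F] [CharZero F]

/-- `f` vanishes on all Lie algebras -/
def LieV (f : FreeNonUnitalNonAssocAlgebra F ℕ) : Prop :=
  ∀ (L : Type) [NonUnitalNonAssocRing L] [Module F L] [IsScalarTower F L L] [SMulCommClass F L L],
    IsLie L → ∀ v : ℕ → L, FreeNonUnitalNonAssocAlgebra.lift F v f = 0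

theorem lie_ideal (f : FreeNonUnitalNonAssocAlgebra F ℕ) (hf : LieV f)
    (I : Submodule F (FreeMagma ℕ →₀ F)) (h1 : ∀ w ∈ I, ∀ a, mW F w a ∈ I)
    (h2 : ∀ a, ∀ w ∈ I, mW F a w ∈ I) (hsq : ∀ a, mW F a a ∈ I)
    (hj : ∀ a b c, mW F (mW F a b) c + mW F (mW F b c) a + mW F (mW F c a) b ∈ I) :
    f.coeff ∈ I := by
  let Q := (FreeMagma ℕ →₀ F) ⧸ I
  let q := qmul (mW F) I h1 h2
  let _ : NonUnitalNonAssocRing Q :=
    { (inferInstance : AddCommGroup Q) with
      mul := fun a b => q a b
      left_distrib := fun a b c => map_add (q a) b c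
      right_distrib := fun a b c => by
        change q (a + b) c = q a c + q b c
        rw [map_add]; rfl
      zero_mul := fun a => by
        change q 0 a = 0
        rw [map_zero]; rfl
      mul_zero := fun a => map_zero (q a) }
  have hmul : ∀ a b : Q, a * b = q a b := fun _ _ => rfl
  have i1 : IsScalarTower F Q Q := ⟨fun c a b => by
    rw [smul_eq_mul, smul_eq_mul, hmul, hmul, map_smul]; rfl⟩
  have i2 : SMulCommClass F Q Q := ⟨fun c a b => by
    rw [smul_eq_mul, smul_eq_mul, hmul, hmul, map_smul]⟩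
  have hL : IsLie Q := by
    constructor
    · intro x
      obtain ⟨a, rfl⟩ := I.mkQ_surjective x
      exact (Submodule.Quotient.mk_eq_zero I).mpr (hsq a)
    · intro x y z
      obtain ⟨a, rfl⟩ := I.mkQ_surjective x
      obtain ⟨b, rfl⟩ := I.mkQ_surjective y
      obtain ⟨c, rfl⟩ := I.mkQ_surjective z
      exact (Submodule.Quotient.mk_eq_zero I).mpr (hj a b c)
  have key := hf Q hL (fun i => I.mkQ (Finsupp.single (FreeMagma.of i) 1))
  rw [lift_apply] at key
  have hm : ∀ m : FreeMagma ℕ, FreeMagma.lift (fun i => (I.mkQ (Finsupp.single (FreeMagma.of i) 1) : Q)) m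
      = (I.mkQ (Finsupp.single m 1) : Q) := by
    intro m
    induction m with
    | ih1 i => rfl
    | ih2 x y hx hy =>
      rw [map_mul, hx, hy, hmul]
      change I.mkQ (mW F (Finsupp.single x 1) (Finsupp.single y 1)) = _
      rw [mW_single]
  have h3 : (I.mkQ f.coeff : Q) = 0 := by
    rw [← key]
    conv_lhs => rw [← Finsupp.sum_single f.coeff]
    rw [map_finsuppSum]
    refine Finsupp.sum_congr fun m _ => ?_
    rw [hm, ← map_smul, Finsupp.smul_single, smul_eq_mul, mul_one]
  exact (Submodule.Quotient.mk_eq_zero I).mp h3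

end lie

variable {F : Type} [Field F] [CharZero F] {B : Type} [NonUnitalNonAssocRing B] [Module F B]
  [IsScalarTower F B B] [SMulCommClass F B B]
  {J : Submodule F B} {Γ U O : Type} [CommRing Γ] [Algebra F Γ]
  [AddCommGroup U] [Module F U] [Module Γ U] [IsScalarTower F Γ U]
  [AddCommGroup O] [Module F O] [Module Γ O] [IsScalarTower F Γ O]

namespace HSys

variable {S : XSys F B J Γ U O} {H : Type} [AddCommGroup H] [Module F H] (h : HSys S H)
  (v : ℕ → B)

/-- value of an element of the free algebra -/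
noncomputable def evW (F : Type) [Field F] {B : Type} [NonUnitalNonAssocRing B] [Module F B]
    (v : ℕ → B) : (FreeMagma ℕ →₀ F) →ₗ[F] B :=
  Finsupp.linearCombination F (ev v)

theorem evW_single (m : FreeMagma ℕ) : evW F v (Finsupp.single m 1) = ev v m := by
  rw [evW, Finsupp.linearCombination_single, one_smul]

/-- operator of an element of the free algebra -/
noncomputable def lamW : (FreeMagma ℕ →₀ F) →ₗ[F] (H →ₗ[F] H) :=
  Finsupp.linearCombination F (h.op v)

theorem lamW_single (m : FreeMagma ℕ) : h.lamW v (Finsupp.single m 1) = h.op v m := by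
  rw [lamW, Finsupp.linearCombination_single, one_smul]

theorem evW_mul (a b : FreeMagma ℕ →₀ F) : evW F v (mW F a b) = evW F v a * evW F v b := by
  have key : ∀ m, ∀ b, evW F v (mW F (Finsupp.single m 1) b) = ev v m * evW F v b := by
    intro m b
    exact lin_ext (f := (evW F v) ∘ₗ mW F (Finsupp.single m 1))
      (g := LinearMap.mulLeft F (ev v m) ∘ₗ evW F v) (by
        intro n
        simp only [LinearMap.comp_apply, LinearMap.mulLeft_apply]
        rw [mW_single, evW_single, evW_single, ev_mul]) b
  exact lin_ext (f := (evW F v) ∘ₗ (mW F).flip b)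
    (g := LinearMap.mulRight F (evW F v b) ∘ₗ evW F v) (by
      intro m
      simp only [LinearMap.comp_apply, LinearMap.flip_apply, LinearMap.mulRight_apply]
      rw [key, evW_single]) a

theorem lamW_mul (a b : FreeMagma ℕ →₀ F) (t : H) : h.lamW v (mW F a b) t =
    (1 / 2 : F) • (h.lamW v a (h.lamW v b t) - h.lamW v b (h.lamW v a t))
      + (2 / 3 : F) • h.i (S.K (evW F v a) (evW F v b) (h.e t)) := by
  have key : ∀ m, ∀ b, h.lamW v (mW F (Finsupp.single m 1) b) t =
      (1 / 2 : F) • (h.op v m (h.lamW v b t) - h.lamW v b (h.op v m t))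
      + (2 / 3 : F) • h.i (S.K (ev v m) (evW F v b) (h.e t)) := by
    intro m b
    induction b using Finsupp.induction_linear with
    | zero => simp
    | add x y hx hy =>
      simp only [map_add, LinearMap.add_apply, hx, hy]
      module
    | single n c =>
      have e : (Finsupp.single n c : FreeMagma ℕ →₀ F) = c • Finsupp.single n 1 := by
        rw [Finsupp.smul_single, smul_eq_mul, mul_one]
      rw [e]
      simp only [map_smul, LinearMap.smul_apply]
      rw [mW_single, lamW_single, lamW_single, evW_single, h.op_mul]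
      module
  induction a using Finsupp.induction_linear with
  | zero => simp
  | add x y hx hy =>
    simp only [map_add, LinearMap.add_apply, hx, hy]
    module
  | single n c =>
    have e : (Finsupp.single n c : FreeMagma ℕ →₀ F) = c • Finsupp.single n 1 := by
      rw [Finsupp.smul_single, smul_eq_mul, mul_one]
    rw [e]
    simp only [map_smul, LinearMap.smul_apply]
    rw [key, lamW_single, evW_single]
    module

theorem e_lamW (a : FreeMagma ℕ →₀ F) (t : H) : h.e (h.lamW v a t) = S.A (evW F v a) (h.e t) := by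
  induction a using Finsupp.induction_linear with
  | zero => simp
  | add x y hx hy => simp only [map_add, LinearMap.add_apply, hx, hy]
  | single n c =>
    have e : (Finsupp.single n c : FreeMagma ℕ →₀ F) = c • Finsupp.single n 1 := by
      rw [Finsupp.smul_single, smul_eq_mul, mul_one]
    rw [e]
    simp only [map_smul, LinearMap.smul_apply]
    rw [lamW_single, evW_single, h.e_op]

theorem lamW_i (a : FreeMagma ℕ →₀ F) (u : U) : h.lamW v a (h.i u) = h.i (S.L (evW F v a) u) := by
  induction a using Finsupp.induction_linear with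
  | zero => simp
  | add x y hx hy => simp only [map_add, LinearMap.add_apply, hx, hy]
  | single n c =>
    have e : (Finsupp.single n c : FreeMagma ℕ →₀ F) = c • Finsupp.single n 1 := by
      rw [Finsupp.smul_single, smul_eq_mul, mul_one]
    rw [e]
    simp only [map_smul, LinearMap.smul_apply]
    rw [lamW_single, evW_single, h.op_i]

theorem _root_.Pool.Agent.Mal.Syz.XSys.anti (S : XSys F B J Γ U O) (x y : B) :
    x * y = - (y * x) := by
  have h1 := S.sq (x + y)
  rw [add_mul, mul_add, mul_add, S.sq x, S.sq y, zero_add, add_zero] at h1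
  exact eq_neg_of_add_eq_zero_left h1

/-- the ideal of elements acting through `J` -/
noncomputable def II : Submodule F (FreeMagma ℕ →₀ F) where
  carrier := {w | ∃ hj : evW F v w ∈ J, ∀ t, h.lamW v w t = h.i (S.M ⟨evW F v w, hj⟩ (h.e t))}
  add_mem' := by
    rintro a b ⟨ha, ha'⟩ ⟨hb, hb'⟩
    refine ⟨by rw [map_add]; exact J.add_mem ha hb, fun t => ?_⟩
    rw [map_add, LinearMap.add_apply, ha', hb', ← map_add, ← LinearMap.add_apply, ← map_add]
    congr 3
    apply Subtype.ext
    simp
  zero_mem' := by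
    refine ⟨by rw [map_zero]; exact J.zero_mem, fun t => ?_⟩
    rw [map_zero, LinearMap.zero_apply]
    have : (⟨evW F v 0, by rw [map_zero]; exact J.zero_mem⟩ : J) = 0 := by
      apply Subtype.ext
      simp
    rw [this, map_zero, LinearMap.zero_apply, map_zero]
  smul_mem' := by
    rintro c a ⟨ha, ha'⟩
    refine ⟨by rw [map_smul]; exact J.smul_mem c ha, fun t => ?_⟩
    rw [map_smul, LinearMap.smul_apply, ha', ← map_smul, ← LinearMap.smul_apply, ← map_smul]
    congr 3
    apply Subtype.ext
    simp

theorem lamW_anti (a b : FreeMagma ℕ →₀ F) : h.lamW v (mW F a b) = - h.lamW v (mW F b a) := by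
  ext t
  rw [LinearMap.neg_apply, lamW_mul, lamW_mul, S.K_anti (evW F v a), map_neg]
  module

theorem II_right (w : FreeMagma ℕ →₀ F) (hw : w ∈ h.II v) (a : FreeMagma ℕ →₀ F) :
    mW F w a ∈ h.II v := by
  obtain ⟨hj, hw⟩ := hw
  refine ⟨by rw [evW_mul]; exact S.idl _ hj _, fun t => ?_⟩
  rw [lamW_mul, hw, hw, lamW_i, e_lamW, ← map_sub, ← map_smul, ← map_smul, ← map_add,
    S.R5 ⟨evW F v w, hj⟩ (evW F v a)]
  congr 3
  apply Subtype.ext
  simp [evW_mul]

theorem II_left (a w : FreeMagma ℕ →₀ F) (hw : w ∈ h.II v) : mW F a w ∈ h.II v := by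
  obtain ⟨hj, h1⟩ := h.II_right v w hw a
  have e : evW F v (mW F a w) = - evW F v (mW F w a) := by
    rw [evW_mul, evW_mul, S.anti]
  refine ⟨by rw [e]; exact J.neg_mem hj, fun t => ?_⟩
  rw [lamW_anti, LinearMap.neg_apply, h1, ← map_neg, ← LinearMap.neg_apply, ← map_neg]
  congr 3
  apply Subtype.ext
  exact e.symm

theorem II_sq (a : FreeMagma ℕ →₀ F) : mW F a a ∈ h.II v := by
  have e : evW F v (mW F a a) = 0 := by rw [evW_mul, S.sq]
  refine ⟨by rw [e]; exact J.zero_mem, fun t => ?_⟩
  have : (⟨evW F v (mW F a a), by rw [e]; exact J.zero_mem⟩ : J) = 0 := Subtype.ext e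
  rw [this, lamW_mul, S.K_alt]
  simp

theorem II_jac (a b c : FreeMagma ℕ →₀ F) :
    mW F (mW F a b) c + mW F (mW F b c) a + mW F (mW F c a) b ∈ h.II v := by
  have e : evW F v (mW F (mW F a b) c + mW F (mW F b c) a + mW F (mW F c a) b) =
      (evW F v a * evW F v b) * evW F v c + (evW F v b * evW F v c) * evW F v a
        + (evW F v c * evW F v a) * evW F v b := by
    simp only [map_add, evW_mul]
  have hj : evW F v (mW F (mW F a b) c + mW F (mW F b c) a + mW F (mW F c a) b) ∈ J := by
    rw [e]; exact S.jac _ _ _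
  refine ⟨hj, fun t => ?_⟩
  have hM : S.M ⟨_, hj⟩ = S.M ⟨_, S.jac (evW F v a) (evW F v b) (evW F v c)⟩ :=
    congrArg S.M (Subtype.ext e)
  rw [hM]
  have r1 := S.R3 (evW F v a) (evW F v b) (evW F v c) (h.e t)
  have r2 := S.R3 (evW F v b) (evW F v c) (evW F v a) (h.e t)
  have r3 := S.R3 (evW F v c) (evW F v a) (evW F v b) (h.e t)
  have m2 : (⟨_, S.jac (evW F v b) (evW F v c) (evW F v a)⟩ : J) =
      ⟨_, S.jac (evW F v a) (evW F v b) (evW F v c)⟩ := by
    apply Subtype.ext
    change (evW F v b * evW F v c) * evW F v a + (evW F v c * evW F v a) * evW F v b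
      + (evW F v a * evW F v b) * evW F v c = (evW F v a * evW F v b) * evW F v c
      + (evW F v b * evW F v c) * evW F v a + (evW F v c * evW F v a) * evW F v b
    abel
  have m3 : (⟨_, S.jac (evW F v c) (evW F v a) (evW F v b)⟩ : J) =
      ⟨_, S.jac (evW F v a) (evW F v b) (evW F v c)⟩ := by
    apply Subtype.ext
    change (evW F v c * evW F v a) * evW F v b + (evW F v a * evW F v b) * evW F v c
      + (evW F v b * evW F v c) * evW F v a = (evW F v a * evW F v b) * evW F v c
      + (evW F v b * evW F v c) * evW F v a + (evW F v c * evW F v a) * evW F v b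
    abel
  rw [m2] at r2
  rw [m3] at r3
  have k1 := S.K_anti (evW F v a) (evW F v b * evW F v c) (h.e t)
  have k2 := S.K_anti (evW F v b) (evW F v c * evW F v a) (h.e t)
  have k3 := S.K_anti (evW F v c) (evW F v a * evW F v b) (h.e t)
  rw [k1] at r1
  rw [k2] at r2
  rw [k3] at r3
  have s1 := congrArg h.i r1
  have s2 := congrArg h.i r2
  have s3 := congrArg h.i r3
  simp only [map_add, map_sub, map_smul, LinearMap.add_apply, map_zero, map_neg] at s1 s2 s3 ⊢
  simp only [lamW_mul, map_add, map_sub, map_smul, lamW_i, e_lamW, evW_mul]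
  linear_combination (norm := module) (-1 / 3 : F) • s1 + (-1 / 3 : F) • s2 + (-1 / 3 : F) • s3

theorem mem_II (f : FreeNonUnitalNonAssocAlgebra F ℕ) (hf : LieV f) : f.coeff ∈ h.II v :=
  lie_ideal f hf (h.II v) (h.II_right v) (fun a w hw => h.II_left v a w hw) (h.II_sq v) (h.II_jac v)

omit [CharZero F] [Module F B] [IsScalarTower F B B] [SMulCommClass F B B] in
theorem lift_ev (m : FreeMagma ℕ) : FreeMagma.lift v m = ev v m := by
  induction m with
  | ih1 i => rfl
  | ih2 x y hx hy => rw [map_mul, hx, hy]; rfl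

/-- an element killed by all Lie algebras with zero operator has value zero -/
theorem ev_zero (f : FreeNonUnitalNonAssocAlgebra F ℕ) (hf : LieV f)
    (h0 : h.lamW v f.coeff = 0) : FreeNonUnitalNonAssocAlgebra.lift F v f = 0 := by
  obtain ⟨hj, h1⟩ := h.mem_II v f hf
  have h2 := h1 h.one
  rw [h0, LinearMap.zero_apply, h.e_one] at h2
  have h3 : S.M ⟨evW F v f.coeff, hj⟩ S.one = 0 := h.inj (by rw [← h2, map_zero])
  have h4 := S.Minj _ h3
  have h5 : evW F v f.coeff = 0 := congrArg Subtype.val h4
  rw [lift_apply, ← h5, evW, Finsupp.linearCombination_apply]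
  refine Finsupp.sum_congr fun m _ => ?_
  rw [lift_ev]

end HSys

end Pool.Agent.Mal.Syz
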