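import Mathlib
import Pool.Agent.Mal.X4

set_option autoImplicit false
set_option linter.unusedSectionVars false
set_option linter.unusedSimpArgs false

open Finset Equiv

namespace Pool.Agent.Mal.Syz

variable {F : Type} [Field F] [CharZero F] {B : Type} [NonUnitalNonAssocRing B] [Module F B]
  [IsScalarTower F B B] [SMulCommClass F B B]
  {J : Submodule F B} {Γ U O : Type} [CommRing Γ] [Algebra F Γ]
  [AddCommGroup U] [Module F U] [Module Γ U] [IsScalarTower F Γ U]
  [AddCommGroup O] [Module F O] [Module Γ O] [IsScalarTower F Γ O]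

theorem XSys.K0' (S : XSys F B J Γ U O) {ι : Type} (s : Finset ι) (γ : ι → Γ) (b : ι → B)
    (h0 : ∑ i ∈ s, γ i • S.A (b i) S.one = 0) (c : B) (o : O) :
    ∑ i ∈ s, γ i • S.K (b i) c o = 0 := by
  classical
  let e := s.equivFin
  let γ' : ℕ → Γ := fun n => if hn : n < s.card then γ (e.symm ⟨n, hn⟩) else 0
  let b' : ℕ → B := fun n => if hn : n < s.card then b (e.symm ⟨n, hn⟩) else 0
  have conv : ∀ (N : Type) [AddCommGroup N] (g : Γ → B → N),
      ∑ i ∈ Finset.range s.card, g (γ' i) (b' i) = ∑ i ∈ s, g (γ i) (b i) := by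
    intro N _ g
    rw [Finset.sum_range, ← Finset.sum_coe_sort s (fun i => g (γ i) (b i))]
    refine Fintype.sum_equiv e.symm _ _ fun i => ?_
    simp only [γ', b', i.isLt, dif_pos]
  have h1 := S.K0 (Finset.range s.card) γ' b' (by
    rw [conv O (fun g b => g • S.A b S.one)]; exact h0) c o
  rw [conv U (fun g b => g • S.K b c o)] at h1
  exact h1

namespace HSys

variable {S : XSys F B J Γ U O} {H : Type} [AddCommGroup H] [Module F H] (h : HSys S H)
  (v : ℕ → B)

/-- a commutative ring of central operators -/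
theorem exists_ring : ∃ (R : Type) (_ : CommRing R) (_ : Algebra F R) (_ : Module R H)
    (_ : IsScalarTower F R H) (s : FreeMagma ℕ → FreeMagma ℕ → R),
    (∀ a b (t : H), s a b • t = (-1 / 2 : F) • h.acw v a b t) ∧
    (∀ r : R, (∀ t : H, r • t = 0) → r = 0) ∧
    (∀ (r : R) m (t : H), h.op v m (r • t) = r • h.op v m t) ∧
    (∀ r : R, ∃ γ : Γ, (∀ u, r • h.i u = h.i (γ • u)) ∧ (∀ t : H, h.e (r • t) = γ • h.e t)) := by
  let G : Set (Module.End F H) :=
    Set.range (fun p : FreeMagma ℕ × FreeMagma ℕ => (-1 / 2 : F) • (h.acw v p.1 p.2 : Module.End F H))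
  have hcomm : ∀ a ∈ G, ∀ b ∈ G, a * b = b * a := by
    rintro _ ⟨⟨a, b⟩, rfl⟩ _ ⟨⟨c, d⟩, rfl⟩
    ext t
    simp only [Module.End.mul_apply, LinearMap.smul_apply, map_smul]
    rw [h.acw_comm]
  let R := ↥(Algebra.adjoin F G)
  let i1 : CommRing R := Algebra.adjoinCommRingOfComm F hcomm
  let i2 : Algebra F R := (Algebra.adjoin F G).algebra
  let i3 : Module R H :=
    { smul := fun r t => (r : Module.End F H) t
      one_smul := fun t => rfl
      mul_smul := fun r s t => rfl
      smul_zero := fun r => map_zero (r : Module.End F H)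
      smul_add := fun r a b => map_add (r : Module.End F H) a b
      add_smul := fun r s t => rfl
      zero_smul := fun t => rfl }
  have hsm : ∀ (r : R) (t : H), r • t = (r : Module.End F H) t := fun _ _ => rfl
  refine ⟨R, i1, i2, i3, ⟨fun c r t => rfl⟩,
    fun a b => ⟨(-1 / 2 : F) • (h.acw v a b : Module.End F H), Algebra.subset_adjoin ⟨(a, b), rfl⟩⟩,
    fun a b t => rfl, ?_, ?_, ?_⟩
  · intro r hr
    apply Subtype.ext
    ext t
    exact hr t
  · rintro ⟨r, hr⟩ m t
    rw [hsm, hsm]
    change h.op v m (r t) = r (h.op v m t)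
    induction hr using Algebra.adjoin_induction generalizing t with
    | mem x hx =>
      obtain ⟨⟨a, b⟩, rfl⟩ := hx
      simp only [LinearMap.smul_apply, map_smul]
      rw [h.acw_op]
    | algebraMap c =>
      simp only [Module.algebraMap_end_apply, map_smul]
    | add x y _ _ hx hy => rw [LinearMap.add_apply, map_add, hx, hy]; rfl
    | mul x y _ _ hx hy => rw [Module.End.mul_apply, hx, hy]; rfl
  · rintro ⟨r, hr⟩
    simp only [hsm]
    induction hr using Algebra.adjoin_induction with
    | mem x hx =>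
      obtain ⟨⟨a, b⟩, rfl⟩ := hx
      refine ⟨S.q (ev v a) (ev v b), fun u => ?_, fun t => ?_⟩
      · simp only [LinearMap.smul_apply]
        rw [h.acw_i, S.ac_L, map_smul, smul_smul]
        norm_num
      · simp only [LinearMap.smul_apply, map_smul]
        rw [h.e_acw, S.ac_A, smul_smul]
        norm_num
    | algebraMap c =>
      refine ⟨algebraMap F Γ c, fun u => ?_, fun t => ?_⟩
      · rw [Module.algebraMap_end_apply, algebraMap_smul, map_smul]
      · rw [Module.algebraMap_end_apply, algebraMap_smul, map_smul]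
    | add x y _ _ hx hy =>
      obtain ⟨γ, h1, h2⟩ := hx
      obtain ⟨δ, h3, h4⟩ := hy
      refine ⟨γ + δ, fun u => ?_, fun t => ?_⟩
      · rw [LinearMap.add_apply, h1, h3, add_smul, map_add]
      · rw [LinearMap.add_apply, map_add, h2, h4, add_smul]
    | mul x y _ _ hx hy =>
      obtain ⟨γ, h1, h2⟩ := hx
      obtain ⟨δ, h3, h4⟩ := hy
      refine ⟨γ * δ, fun u => ?_, fun t => ?_⟩
      · rw [Module.End.mul_apply, h3, h1, mul_smul]
      · rw [Module.End.mul_apply, h2, h4, mul_smul]

/-- `f` vanishes on all cross product algebras -/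
def _root_.Pool.Agent.Mal.Syz.CpV {F : Type} [Field F] (f : FreeNonUnitalNonAssocAlgebra F ℕ) : Prop :=
  ∀ (R V : Type) [CommRing R] [AddCommGroup V] [Module R V] [Algebra F R] (C : CpAlg R V)
    (v : ℕ → C.Car), FreeNonUnitalNonAssocAlgebra.lift F v f = 0

section ring

variable {R : Type} [CommRing R] [Algebra F R] [Module R H] [IsScalarTower F R H]
  (s : FreeMagma ℕ → FreeMagma ℕ → R)
  (hs : ∀ a b (t : H), s a b • t = (-1 / 2 : F) • h.acw v a b t)
  (hfaith : ∀ r : R, (∀ t : H, r • t = 0) → r = 0)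
  (hop : ∀ (r : R) m (t : H), h.op v m (r • t) = r • h.op v m t)
  (hρ : ∀ r : R, ∃ γ : Γ, (∀ u, r • h.i u = h.i (γ • u)) ∧ (∀ t : H, h.e (r • t) = γ • h.e t))

/-- operators over `R` -/
def opR (m : FreeMagma ℕ) : H →ₗ[R] H where
  toFun := h.op v m
  map_add' := map_add _
  map_smul' r t := hop r m t

/-- `K` over `R` -/
def KR (m n : FreeMagma ℕ) : H →ₗ[R] H where
  toFun t := h.i (S.K (ev v m) (ev v n) (h.e t))
  map_add' a b := by simp only [map_add]
  map_smul' r t := by
    obtain ⟨γ, h1, h2⟩ := hρ r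
    rw [h2, S.K_smul, RingHom.id_apply, h1]

/-- operators of elements -/
noncomputable def Lam : (FreeMagma ℕ →₀ R) →ₗ[R] (H →ₗ[R] H) :=
  Finsupp.linearCombination R (h.opR v hop)

theorem Lam_single (m : FreeMagma ℕ) (t : H) : h.Lam v hop (Finsupp.single m 1) t = h.op v m t := by
  rw [Lam, Finsupp.linearCombination_single, one_smul]; rfl

/-- `K` of elements -/
noncomputable def KK : (FreeMagma ℕ →₀ R) →ₗ[R] (FreeMagma ℕ →₀ R) →ₗ[R] (H →ₗ[R] H) :=
  bil R (h.KR v hρ)

theorem KK_single (m n : FreeMagma ℕ) (t : H) :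
    h.KK v hρ (Finsupp.single m 1) (Finsupp.single n 1) t =
      h.i (S.K (ev v m) (ev v n) (h.e t)) := by
  rw [KK, bil_single]; rfl

/-- induction for bilinear statements -/
theorem bil_ind {N : Type} [AddCommGroup N] [Module R N]
    {f g : (FreeMagma ℕ →₀ R) →ₗ[R] (FreeMagma ℕ →₀ R) →ₗ[R] N}
    (h : ∀ m n, f (Finsupp.single m 1) (Finsupp.single n 1) =
      g (Finsupp.single m 1) (Finsupp.single n 1)) (a b : FreeMagma ℕ →₀ R) : f a b = g a b := by
  have h1 : ∀ m, ∀ b, f (Finsupp.single m 1) b = g (Finsupp.single m 1) b :=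
    fun m b => lin_ext (f := f (Finsupp.single m 1)) (g := g (Finsupp.single m 1)) (h m) b
  exact lin_ext (f := f.flip b) (g := g.flip b) (fun m => h1 m b) a

theorem Lam_mul (a b : FreeMagma ℕ →₀ R) (t : H) : h.Lam v hop (mW R a b) t =
    (1 / 2 : F) • (h.Lam v hop a (h.Lam v hop b t) - h.Lam v hop b (h.Lam v hop a t))
      + (2 / 3 : F) • h.KK v hρ a b t := by
  have key := bil_ind (R := R) (N := H →ₗ[R] H)
    (f := (mW R).compr₂ (h.Lam v hop))
    (g := (algebraMap F R (1 / 2)) • ((LinearMap.mul R (Module.End R H)).compl₁₂ (h.Lam v hop) (h.Lam v hop)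
        - ((LinearMap.mul R (Module.End R H)).compl₁₂ (h.Lam v hop) (h.Lam v hop)).flip)
      + (algebraMap F R (2 / 3)) • h.KK v hρ) (by
      intro m n
      ext t
      change h.Lam v hop (mW R (Finsupp.single m 1) (Finsupp.single n 1)) t =
        algebraMap F R (1 / 2) • (h.Lam v hop (Finsupp.single m 1) (h.Lam v hop (Finsupp.single n 1) t)
          - h.Lam v hop (Finsupp.single n 1) (h.Lam v hop (Finsupp.single m 1) t))
        + algebraMap F R (2 / 3) • h.KK v hρ (Finsupp.single m 1) (Finsupp.single n 1) t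
      rw [mW_single, Lam_single, Lam_single, Lam_single, Lam_single, Lam_single, KK_single,
        algebraMap_smul, algebraMap_smul, h.op_mul]) a b
  have key2 := congrArg (fun T : H →ₗ[R] H => T t) key
  have e : h.Lam v hop (mW R a b) t =
        algebraMap F R (1 / 2) • (h.Lam v hop a (h.Lam v hop b t)
          - h.Lam v hop b (h.Lam v hop a t))
        + algebraMap F R (2 / 3) • h.KK v hρ a b t := key2
  rw [e, algebraMap_smul, algebraMap_smul]

include hs in
theorem fm_smul (a b : FreeMagma ℕ →₀ R) (t : H) : bil R s a b • t =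
    (-1 / 2 : F) • (h.Lam v hop a (h.Lam v hop b t) + h.Lam v hop b (h.Lam v hop a t)) := by
  have key := bil_ind (R := R) (N := H →ₗ[R] H)
    (f := (bil R s).compr₂ (LinearMap.lsmul R (Module.End R H) |>.flip LinearMap.id))
    (g := (algebraMap F R (-1 / 2)) • ((LinearMap.mul R (Module.End R H)).compl₁₂ (h.Lam v hop) (h.Lam v hop)
        + ((LinearMap.mul R (Module.End R H)).compl₁₂ (h.Lam v hop) (h.Lam v hop)).flip)) (by
      intro m n
      ext t
      change (bil R s (Finsupp.single m 1) (Finsupp.single n 1)) • t =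
        algebraMap F R (-1 / 2) • (h.Lam v hop (Finsupp.single m 1) (h.Lam v hop (Finsupp.single n 1) t)
          + h.Lam v hop (Finsupp.single n 1) (h.Lam v hop (Finsupp.single m 1) t))
      rw [bil_single, Lam_single, Lam_single, Lam_single, Lam_single, algebraMap_smul, hs]
      rfl) a b
  have key2 := congrArg (fun T : H →ₗ[R] H => T t) key
  have e : bil R s a b • t =
        algebraMap F R (-1 / 2) • (h.Lam v hop a (h.Lam v hop b t)
          + h.Lam v hop b (h.Lam v hop a t)) := key2
  rw [e, algebraMap_smul]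

theorem KK_anti (a b : FreeMagma ℕ →₀ R) (t : H) : h.KK v hρ a b t = - h.KK v hρ b a t := by
  have key := bil_ind (R := R) (N := H →ₗ[R] H) (f := h.KK v hρ) (g := - (h.KK v hρ).flip) (by
      intro m n
      ext t
      change h.KK v hρ (Finsupp.single m 1) (Finsupp.single n 1) t =
        - h.KK v hρ (Finsupp.single n 1) (Finsupp.single m 1) t
      rw [KK_single, KK_single, S.K_anti, map_neg]) a b
  exact congrArg (fun T : H →ₗ[R] H => T t) key

theorem KK_zero (a : FreeMagma ℕ →₀ R) (ha : h.Lam v hop a = 0) (b : FreeMagma ℕ →₀ R) :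
    h.KK v hρ a b = 0 := by
  refine lin_ext (f := h.KK v hρ a) (g := 0) (fun n => ?_) b
  rw [LinearMap.zero_apply]
  ext t
  rw [LinearMap.zero_apply]
  have hρ' := hρ
  choose γ h1 h2 using hρ'
  have e1 : h.KK v hρ a (Finsupp.single n 1) t
      = ∑ m ∈ a.support, a m • h.i (S.K (ev v m) (ev v n) (h.e t)) := by
    conv_lhs => rw [← Finsupp.sum_single a]
    rw [Finsupp.sum, map_sum, LinearMap.sum_apply, LinearMap.sum_apply]
    refine Finset.sum_congr rfl fun m _ => ?_
    have : (Finsupp.single m (a m) : FreeMagma ℕ →₀ R) = a m • Finsupp.single m 1 := by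
      rw [Finsupp.smul_single, smul_eq_mul, mul_one]
    rw [this, map_smul, LinearMap.smul_apply, LinearMap.smul_apply, KK_single]
  rw [e1]
  have e2 : h.e (h.Lam v hop a h.one) = ∑ m ∈ a.support, γ (a m) • S.A (ev v m) S.one := by
    rw [Lam, Finsupp.linearCombination_apply, Finsupp.sum, LinearMap.sum_apply, map_sum]
    refine Finset.sum_congr rfl fun m _ => ?_
    rw [LinearMap.smul_apply, h2]
    change γ (a m) • h.e (h.op v m h.one) = _
    rw [h.e_op, h.e_one]
  rw [ha, LinearMap.zero_apply, map_zero] at e2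
  have e3 := S.K0' a.support (fun m => γ (a m)) (ev v) e2.symm (ev v n) (h.e t)
  have e4 := congrArg h.i e3
  rw [map_sum, map_zero] at e4
  rw [← e4]
  exact Finset.sum_congr rfl fun m _ => h1 _ _

end ring

end HSys

end Pool.Agent.Mal.Syz
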