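import Mathlib
import Pool.Agent.Mal.X5
import Pool.Agent.Mal.Ht
import Pool.Agent.Mal.SyzML

set_option autoImplicit false
set_option linter.unusedSectionVars false
set_option linter.unusedSimpArgs false

open Finset Equiv

namespace Pool.Agent.Mal.Syz

variable {F : Type} [Field F] [CharZero F] {B : Type} [NonUnitalNonAssocRing B] [Module F B]
  [IsScalarTower F B B] [SMulCommClass F B B]
  {J : Submodule F B} {Γ U O : Type} [CommRing Γ] [Algebra F Γ]
  [AddCommGroup U] [Module F U] [Module Γ U] [IsScalarTower F Γ U]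
  [AddCommGroup O] [Module F O] [Module Γ O] [IsScalarTower F Γ O]

namespace HSys

variable {S : XSys F B J Γ U O} {H : Type} [AddCommGroup H] [Module F H] (h : HSys S H)
  (v : ℕ → B)

section ring

variable {R : Type} [CommRing R] [Algebra F R] [Module R H] [IsScalarTower F R H]
  (s : FreeMagma ℕ → FreeMagma ℕ → R)
  (hs : ∀ a b (t : H), s a b • t = (-1 / 2 : F) • h.acw v a b t)
  (hfaith : ∀ r : R, (∀ t : H, r • t = 0) → r = 0)
  (hop : ∀ (r : R) m (t : H), h.op v m (r • t) = r • h.op v m t)
  (hρ : ∀ r : R, ∃ γ : Γ, (∀ u, r • h.i u = h.i (γ • u)) ∧ (∀ t : H, h.e (r • t) = γ • h.e t))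

include hρ in
theorem ker_right (w : FreeMagma ℕ →₀ R) (hw : w ∈ LinearMap.ker (h.Lam v hop))
    (a : FreeMagma ℕ →₀ R) : mW R w a ∈ LinearMap.ker (h.Lam v hop) := by
  rw [LinearMap.mem_ker] at hw ⊢
  ext t
  rw [h.Lam_mul v hop hρ, hw, h.KK_zero v hop hρ w hw]
  simp

include hρ in
theorem ker_left (a w : FreeMagma ℕ →₀ R) (hw : w ∈ LinearMap.ker (h.Lam v hop)) :
    mW R a w ∈ LinearMap.ker (h.Lam v hop) := by
  rw [LinearMap.mem_ker] at hw ⊢
  ext t
  rw [h.Lam_mul v hop hρ, hw, h.KK_anti v hρ, h.KK_zero v hop hρ w hw]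
  simp

include hs hfaith in
theorem fm_zero (w : FreeMagma ℕ →₀ R) (hw : w ∈ LinearMap.ker (h.Lam v hop))
    (a : FreeMagma ℕ →₀ R) : bil R s w a = 0 := by
  rw [LinearMap.mem_ker] at hw
  apply hfaith
  intro t
  rw [h.fm_smul v s hs hop, hw]
  simp

include hs hfaith hop in
theorem fm_symm (a b : FreeMagma ℕ →₀ R) : bil R s a b = bil R s b a := by
  rw [← sub_eq_zero]
  apply hfaith
  intro t
  rw [sub_smul, h.fm_smul v s hs hop, h.fm_smul v s hs hop]
  module

/-- the form on the quotient -/
noncomputable def qform : ((FreeMagma ℕ →₀ R) ⧸ LinearMap.ker (h.Lam v hop)) →ₗ[R]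
    ((FreeMagma ℕ →₀ R) ⧸ LinearMap.ker (h.Lam v hop)) →ₗ[R] R :=
  (LinearMap.ker (h.Lam v hop)).liftQ
    { toFun := fun a => (LinearMap.ker (h.Lam v hop)).liftQ (bil R s a) (by
        intro w hw
        rw [LinearMap.mem_ker, h.fm_symm v s hs hfaith hop, h.fm_zero v s hs hfaith hop w hw])
      map_add' := by
        intro a b
        apply Submodule.linearMap_qext
        ext w
        simp
      map_smul' := by
        intro c a
        apply Submodule.linearMap_qext
        ext w
        simp }
    (by
      intro w hw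
      rw [LinearMap.mem_ker]
      apply Submodule.linearMap_qext
      ext a
      change bil R s w (Finsupp.single a 1) = 0
      exact h.fm_zero v s hs hfaith hop w hw _)

theorem qform_mk (a b : FreeMagma ℕ →₀ R) : h.qform v s hs hfaith hop
    ((LinearMap.ker (h.Lam v hop)).mkQ a) ((LinearMap.ker (h.Lam v hop)).mkQ b) = bil R s a b := rfl

include hs hfaith in
theorem fm_inv (a b c : FreeMagma ℕ →₀ R) : bil R s (mW R a b) c = bil R s a (mW R b c) := by
  have h0 : ∀ l m n, bil R s (mW R (Finsupp.single l 1) (Finsupp.single m 1)) (Finsupp.single n 1)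
      = bil R s (Finsupp.single l 1) (mW R (Finsupp.single m 1) (Finsupp.single n 1)) := by
    intro l m n
    rw [mW_single, mW_single, bil_single, bil_single, ← sub_eq_zero]
    apply hfaith
    intro t
    rw [sub_smul, hs, hs, h.acw_symm v l, h.swap12, h.acw_swap23, neg_neg, sub_self]
  have h1 : ∀ c, ∀ l m, bil R s (mW R (Finsupp.single l 1) (Finsupp.single m 1)) c
      = bil R s (Finsupp.single l 1) (mW R (Finsupp.single m 1) c) := by
    intro c l m
    exact lin_ext (f := bil R s (mW R (Finsupp.single l 1) (Finsupp.single m 1)))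
      (g := bil R s (Finsupp.single l 1) ∘ₗ mW R (Finsupp.single m 1)) (fun n => h0 l m n) c
  exact bil_ind (R := R) (f := (mW R).compr₂ ((bil R s).flip c))
    (g := (bil R s).compl₂ ((mW R).flip c)) (fun l m => h1 c l m) a b

include hs hρ in
theorem cp3 (a c b : FreeMagma ℕ →₀ R) (t : H) :
    h.Lam v hop (mW R a (mW R c b)) t + h.Lam v hop (mW R c (mW R a b)) t =
      bil R s a b • h.Lam v hop c t + bil R s c b • h.Lam v hop a t
        - (2 : R) • bil R s a c • h.Lam v hop b t := by
  have h0 : ∀ l m n t, h.Lam v hop (mW R (Finsupp.single l 1) (mW R (Finsupp.single m 1) (Finsupp.single n 1))) t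
      + h.Lam v hop (mW R (Finsupp.single m 1) (mW R (Finsupp.single l 1) (Finsupp.single n 1))) t =
      bil R s (Finsupp.single l 1) (Finsupp.single n 1) • h.Lam v hop (Finsupp.single m 1) t
      + bil R s (Finsupp.single m 1) (Finsupp.single n 1) • h.Lam v hop (Finsupp.single l 1) t
      - (2 : R) • bil R s (Finsupp.single l 1) (Finsupp.single m 1) • h.Lam v hop (Finsupp.single n 1) t := by
    intro l m n t
    simp only [mW_single, Lam_single, bil_single, hs]
    rw [h.op_cp]
    have e : (2 : R) • (-1 / 2 : F) • h.acw v l m (h.op v n t) = (-1 : F) • h.acw v l m (h.op v n t) := by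
      rw [show (2 : R) = algebraMap F R 2 from (map_ofNat _ 2).symm, algebraMap_smul, smul_smul]
      norm_num
    rw [e]
    module
  -- extend in the three variables
  have h1 : ∀ l m b t, h.Lam v hop (mW R (Finsupp.single l 1) (mW R (Finsupp.single m 1) b)) t
      + h.Lam v hop (mW R (Finsupp.single m 1) (mW R (Finsupp.single l 1) b)) t =
      bil R s (Finsupp.single l 1) b • h.Lam v hop (Finsupp.single m 1) t
      + bil R s (Finsupp.single m 1) b • h.Lam v hop (Finsupp.single l 1) t
      - (2 : R) • bil R s (Finsupp.single l 1) (Finsupp.single m 1) • h.Lam v hop b t := by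
    intro l m b t
    induction b using Finsupp.induction_linear with
    | zero => simp
    | add x y hx hy =>
      simp only [map_add, LinearMap.add_apply, add_smul, smul_add]
      linear_combination (norm := module) hx + hy
    | single n r =>
      have e : (Finsupp.single n r : FreeMagma ℕ →₀ R) = r • Finsupp.single n 1 := by
        rw [Finsupp.smul_single, smul_eq_mul, mul_one]
      rw [e]
      simp only [map_smul, LinearMap.smul_apply, smul_assoc]
      have := h0 l m n t
      linear_combination (norm := module) r • this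
  have h2 : ∀ l c b t, h.Lam v hop (mW R (Finsupp.single l 1) (mW R c b)) t
      + h.Lam v hop (mW R c (mW R (Finsupp.single l 1) b)) t =
      bil R s (Finsupp.single l 1) b • h.Lam v hop c t
      + bil R s c b • h.Lam v hop (Finsupp.single l 1) t
      - (2 : R) • bil R s (Finsupp.single l 1) c • h.Lam v hop b t := by
    intro l c b t
    induction c using Finsupp.induction_linear with
    | zero => simp
    | add x y hx hy =>
      simp only [map_add, LinearMap.add_apply, add_smul, smul_add]
      linear_combination (norm := module) hx + hy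
    | single n r =>
      have e : (Finsupp.single n r : FreeMagma ℕ →₀ R) = r • Finsupp.single n 1 := by
        rw [Finsupp.smul_single, smul_eq_mul, mul_one]
      rw [e]
      simp only [map_smul, LinearMap.smul_apply, smul_assoc]
      have := h1 l n b t
      linear_combination (norm := module) r • this
  induction a using Finsupp.induction_linear with
  | zero => simp
  | add x y hx hy =>
    simp only [map_add, LinearMap.add_apply, add_smul, smul_add]
    linear_combination (norm := module) hx + hy
  | single n r =>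
    have e : (Finsupp.single n r : FreeMagma ℕ →₀ R) = r • Finsupp.single n 1 := by
      rw [Finsupp.smul_single, smul_eq_mul, mul_one]
    rw [e]
    simp only [map_smul, LinearMap.smul_apply, smul_assoc]
    have := h2 n c b t
    linear_combination (norm := module) r • this

include hρ in
theorem mW_self (a : FreeMagma ℕ →₀ R) : h.Lam v hop (mW R a a) = 0 := by
  ext t
  rw [h.Lam_mul v hop hρ]
  have h1 := h.KK_anti v hρ a a t
  have h2 : (2 : F) • h.KK v hρ a a t = 0 := by
    rw [two_smul]
    nth_rw 1 [h1]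
    simp
  rw [(smul_eq_zero.mp h2).resolve_left two_ne_zero]
  simp

/-- the cross product algebra of operators -/
noncomputable def opCp : CpAlg R ((FreeMagma ℕ →₀ R) ⧸ LinearMap.ker (h.Lam v hop)) where
  mul := qmul (mW R) _ (h.ker_right v hop hρ) (h.ker_left v hop hρ)
  form := h.qform v s hs hfaith hop
  mul_self := by
    intro x
    obtain ⟨a, rfl⟩ := Submodule.mkQ_surjective _ x
    rw [qmul_mk]
    exact (Submodule.Quotient.mk_eq_zero _).mpr (LinearMap.mem_ker.mpr (h.mW_self v hop hρ a))
  form_symm := by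
    intro x y
    obtain ⟨a, rfl⟩ := Submodule.mkQ_surjective _ x
    obtain ⟨b, rfl⟩ := Submodule.mkQ_surjective _ y
    rw [qform_mk, qform_mk, h.fm_symm v s hs hfaith hop]
  form_inv := by
    intro x y z
    obtain ⟨a, rfl⟩ := Submodule.mkQ_surjective _ x
    obtain ⟨b, rfl⟩ := Submodule.mkQ_surjective _ y
    obtain ⟨c, rfl⟩ := Submodule.mkQ_surjective _ z
    rw [qmul_mk, qmul_mk, qform_mk, qform_mk, h.fm_inv v s hs hfaith]
  cp := by
    intro x y
    obtain ⟨a, rfl⟩ := Submodule.mkQ_surjective _ x
    obtain ⟨b, rfl⟩ := Submodule.mkQ_surjective _ y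
    rw [qmul_mk, qmul_mk, qform_mk, qform_mk, ← map_smul, ← map_smul, ← map_sub, ← sub_eq_zero,
      ← map_sub]
    refine (Submodule.Quotient.mk_eq_zero _).mpr (LinearMap.mem_ker.mpr ?_)
    ext t
    have h1 := h.cp3 v s hs hop hρ a a b t
    have h2' : (2 : R) • (h.Lam v hop (mW R a (mW R a b)) t - (bil R s a b • h.Lam v hop a t
        - bil R s a a • h.Lam v hop b t)) = 0 := by
      linear_combination (norm := module) h1
    have h2 : (2 : F) • (h.Lam v hop (mW R a (mW R a b)) t - (bil R s a b • h.Lam v hop a t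
        - bil R s a a • h.Lam v hop b t)) = 0 := by
      rw [show (2 : R) = algebraMap F R 2 from (map_ofNat _ 2).symm, algebraMap_smul] at h2'
      exact h2'
    have h3 := (smul_eq_zero.mp h2).resolve_left two_ne_zero
    simp only [map_sub, map_smul, LinearMap.sub_apply, LinearMap.smul_apply, LinearMap.zero_apply]
    exact h3

end ring

theorem lam_zero (f : FreeNonUnitalNonAssocAlgebra F ℕ) (hf : CpV f) :
    h.lamW v f.coeff = 0 := by
  obtain ⟨R, i1, i2, i3, i4, s, hs, hfaith, hop, hρ⟩ := h.exists_ring v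
  obtain ⟨C, hC⟩ : ∃ C, C = h.opCp v s hs hfaith hop hρ := ⟨_, rfl⟩
  let tc : ((FreeMagma ℕ →₀ R) ⧸ LinearMap.ker (h.Lam v hop)) → C.Car := fun x => x
  let v' : ℕ → C.Car := fun i => tc ((LinearMap.ker (h.Lam v hop)).mkQ
    (Finsupp.single (FreeMagma.of i) 1))
  have key : (f.coeff.sum fun m c => c • FreeMagma.lift v' m) = (0 : C.Car) := hf R _ C v'
  have hmul : ∀ x y, tc x * tc y = tc (C.mul x y) := fun _ _ => rfl
  have hmk : ∀ a b : FreeMagma ℕ →₀ R, C.mul ((LinearMap.ker (h.Lam v hop)).mkQ a)
      ((LinearMap.ker (h.Lam v hop)).mkQ b) = (LinearMap.ker (h.Lam v hop)).mkQ (mW R a b) := by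
    intro a b
    rw [hC]; rfl
  have hm : ∀ m : FreeMagma ℕ, FreeMagma.lift v' m
      = tc ((LinearMap.ker (h.Lam v hop)).mkQ (Finsupp.single m 1)) := by
    intro m
    induction m with
    | ih1 i => rfl
    | ih2 x y hx hy => rw [map_mul, hx, hy, hmul, hmk, mW_single]
  have hsm : ∀ (c : F) x, c • tc x = tc (algebraMap F R c • x) := fun _ _ => rfl
  have hadd : ∀ (s : Finset (FreeMagma ℕ)) (g : FreeMagma ℕ → ((FreeMagma ℕ →₀ R) ⧸
      LinearMap.ker (h.Lam v hop))), ∑ m ∈ s, tc (g m) = tc (∑ m ∈ s, g m) := fun _ _ => rfl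
  have h1 : (LinearMap.ker (h.Lam v hop)).mkQ
      (∑ m ∈ f.coeff.support, algebraMap F R (f.coeff m) • Finsupp.single m 1) = 0 := by
    have h0 : tc ((LinearMap.ker (h.Lam v hop)).mkQ
      (∑ m ∈ f.coeff.support, algebraMap F R (f.coeff m) • Finsupp.single m 1)) = 0 := by
      rw [map_sum, ← hadd, ← key]
      refine Finset.sum_congr rfl fun m _ => ?_
      beta_reduce
      rw [hm, hsm, map_smul]
    exact h0
  have h2 := LinearMap.mem_ker.mp ((Submodule.Quotient.mk_eq_zero _).mp h1)
  ext t
  have h3 := congrArg (fun T : H →ₗ[R] H => T t) h2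
  beta_reduce at h3
  rw [map_sum, LinearMap.sum_apply] at h3
  rw [lamW, Finsupp.linearCombination_apply, Finsupp.sum, LinearMap.sum_apply]
  refine Eq.trans ?_ h3
  refine Finset.sum_congr rfl fun m _ => ?_
  rw [map_smul, LinearMap.smul_apply, LinearMap.smul_apply, Lam_single, algebraMap_smul]

end HSys

/-- **Extension theorem, abstract form.**  An element of the free algebra which vanishes on all Lie
algebras and on all cross product algebras vanishes on every algebra with an `XSys`. -/
theorem xsys_kill (S : XSys F B J Γ U O) (f : FreeNonUnitalNonAssocAlgebra F ℕ) (hl : LieV f)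
    (hc : CpV f) (v : ℕ → B) : FreeNonUnitalNonAssocAlgebra.lift F v f = 0 := by
  obtain ⟨H, i1, i2, ⟨h⟩⟩ := exists_HSys (ht_proof syzML) S
  exact h.ev_zero v f hl (h.lam_zero v f hc)

theorem xsys_kill_sq (S : XSys F B J Γ U O) (f : FreeNonUnitalNonAssocAlgebra F ℕ)
    (hf : SqKill F f) (v : ℕ → B) : FreeNonUnitalNonAssocAlgebra.lift F v f = 0 :=
  xsys_kill S f (fun _ _ _ _ _ hL v => lie_sq f hf hL v)
    (fun _ _ _ _ _ _ C v => CpAlg.kill_sq F C f hf v) v

theorem xsys_kill_three (S : XSys F B J Γ U O) (f : FreeNonUnitalNonAssocAlgebra F ℕ)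
    (hf : ThreeKill F f) (v : ℕ → B) : FreeNonUnitalNonAssocAlgebra.lift F v f = 0 :=
  xsys_kill S f (fun _ _ _ _ _ hL v => lie_three f hf hL v)
    (fun _ _ _ _ _ _ C v => CpAlg.kill_three F C f hf v) v

end Pool.Agent.Mal.Syz
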