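import Mathlib

set_option autoImplicit false

namespace Pool.Agent.Mal

/-- A cross product algebra over a commutative ring. -/
structure CpAlg (R V : Type) [CommRing R] [AddCommGroup V] [Module R V] where
  mul : V →ₗ[R] V →ₗ[R] V
  form : V →ₗ[R] V →ₗ[R] R
  mul_self : ∀ a, mul a a = 0
  form_symm : ∀ a b, form a b = form b a
  form_inv : ∀ a b c, form (mul a b) c = form a (mul b c)
  cp : ∀ a b, mul a (mul a b) = form a b • a - form a a • b

namespace CpAlg

variable {R V : Type} [CommRing R] [AddCommGroup V] [Module R V] (C : CpAlg R V)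

theorem anti (a b : V) : C.mul a b = - C.mul b a := by
  have h := C.mul_self (a + b)
  simp only [map_add, LinearMap.add_apply, C.mul_self, zero_add, add_zero] at h
  rw [eq_neg_iff_add_eq_zero, add_comm]; exact h

theorem cp_lin (a b c : V) :
    C.mul a (C.mul c b) + C.mul c (C.mul a b)
      = C.form a b • c + C.form c b • a - (2 * C.form a c) • b := by
  have h := C.cp (a + c) b
  have h1 := C.cp a b
  have h2 := C.cp c b
  have h3 := C.form_symm c a
  simp only [map_add, LinearMap.add_apply] at h
  rw [h1, h2, h3] at h
  linear_combination (norm := module) h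

/-- one third of the Jacobian -/
def j (a b c : V) : V := C.mul (C.mul a b) c - C.form a c • b + C.form b c • a

theorem mul_mul_right (a b c : V) :
    C.mul (C.mul a b) c = C.j a b c + C.form a c • b - C.form b c • a := by
  unfold j; module

theorem j_swap12 (a b c : V) : C.j b a c = - C.j a b c := by
  unfold j
  rw [C.anti b a, map_neg, LinearMap.neg_apply]
  module

theorem mul_mul_left (a b c : V) :
    C.mul a (C.mul b c) = - C.j b c a - C.form b a • c + C.form c a • b := by
  rw [C.anti a, C.mul_mul_right b c a]
  module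

theorem j_cyc (a b c : V) : C.j c a b = C.j a b c := by
  have h := C.cp_lin b a c
  rw [C.mul_mul_left b c a, C.mul_mul_left c b a, C.form_symm c b, C.form_symm a b,
    C.form_symm a c, C.form_symm b a, C.form_symm c a, C.j_swap12 a b c] at h
  rw [C.form_symm a b, C.form_symm a c] at h
  linear_combination (norm := module) -h

theorem j_swap23 (a b c : V) : C.j a c b = - C.j a b c := by
  rw [C.j_swap12 c a b, C.j_cyc a b c]

/-- the scalar triple product is alternating -/
theorem phi_cyc (a b c : V) : C.form (C.mul a b) c = C.form (C.mul b c) a := by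
  rw [C.form_inv, C.form_symm]

theorem phi_swap (a b c : V) : C.form (C.mul b a) c = - C.form (C.mul a b) c := by
  rw [C.anti b a, map_neg, LinearMap.neg_apply]

theorem phi_231 (a b c : V) : C.form (C.mul b c) a = C.form (C.mul a b) c :=
  (C.phi_cyc a b c).symm

theorem phi_312 (a b c : V) : C.form (C.mul c a) b = C.form (C.mul a b) c := by
  rw [C.phi_cyc c a b]

theorem phi_213 (a b c : V) : C.form (C.mul b a) c = - C.form (C.mul a b) c := C.phi_swap a b c

theorem phi_132 (a b c : V) : C.form (C.mul a c) b = - C.form (C.mul a b) c := by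
  rw [C.phi_swap c a b, C.phi_312]

theorem phi_321 (a b c : V) : C.form (C.mul c b) a = - C.form (C.mul a b) c := by
  rw [C.phi_swap b c a, C.phi_231]

theorem j_swap13 (a b c : V) : C.j c b a = - C.j a b c := by
  rw [C.j_swap12 b c a, C.j_cyc b c a]

theorem star (u d b c : V) :
    C.mul (C.mul u d) (C.mul b c) = C.mul u (C.j b c d) - C.form (C.mul b c) d • u
      + (2 * C.form (C.mul b c) u) • d - C.form u d • C.mul b c + C.form b d • C.mul u c
      - C.form c d • C.mul u b := by
  have e1 := C.mul_mul_right u d (C.mul b c)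
  have e2 := C.mul_mul_left u (C.mul b c) d
  have e3 := congrArg (C.mul u) (C.mul_mul_right b c d)
  have e4 := C.j_swap13 u d (C.mul b c)
  simp only [map_add, map_sub, map_smul] at e3
  rw [C.form_symm u (C.mul b c), C.form_symm d (C.mul b c)] at e1
  rw [C.form_symm d u] at e2
  rw [e4] at e2
  linear_combination (norm := module) e1 - e2 + e3

theorem psi_swap (u b c d : V) :
    C.mul u (C.j b c d) - C.mul b (C.j u c d) =
      C.form (C.mul b c) d • u + C.form (C.mul u d) c • b - (2 * C.form (C.mul u d) b) • c
      - (2 * C.form (C.mul b c) u) • d + C.form u d • C.mul b c - C.form b d • C.mul u c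
      + C.form b c • C.mul u d - C.form u c • C.mul b d := by
  have e1 := C.star u d b c
  have e2 := C.star b c u d
  have e3 := C.anti (C.mul u d) (C.mul b c)
  have e4 := congrArg (C.mul b) (C.j_swap23 u c d)
  simp only [map_neg] at e4
  have e5 := C.anti b u
  have e6 := C.form_symm c d
  rw [e1, e2, e4, e5, e6] at e3
  linear_combination (norm := module) e3

/-- the degree four identity -/
theorem I4 [Invertible (2 : R)] (u b c d : V) :
    C.mul u (C.j b c d) =
      (C.form d u • C.mul b c - C.form (C.mul b c) u • d)
      + (C.form b u • C.mul c d - C.form (C.mul c d) u • b)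
      + (C.form c u • C.mul d b - C.form (C.mul d b) u • c) := by
  have h1 := C.psi_swap u b c d
  have h2 := C.psi_swap b c u d
  have h3 := C.psi_swap c u b d
  have k1 := congrArg (C.mul b) (C.j_swap12 c u d)
  have k2 := congrArg (C.mul c) (C.j_swap12 u b d)
  have k3 := congrArg (C.mul u) (C.j_swap12 b c d)
  simp only [map_neg] at k1 k2 k3
  rw [k1] at h1
  rw [k2] at h2
  rw [k3] at h3
  have m1 := C.anti d b
  have m2 := C.anti b u
  have m3 := C.anti c u
  have m4 := C.anti c b
  have p1 : C.form (C.mul u d) c = - C.form (C.mul c d) u := C.phi_321 c d u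
  have p2 : C.form (C.mul u d) b = - C.form (C.mul b d) u := C.phi_321 b d u
  have p3 : C.form (C.mul c u) d = - C.form (C.mul c d) u := C.phi_132 c d u
  have p4 : C.form (C.mul b d) c = - C.form (C.mul b c) d := C.phi_132 b c d
  have p5 : C.form (C.mul c u) b = C.form (C.mul b c) u := C.phi_231 b c u
  have p6 : C.form (C.mul u b) d = C.form (C.mul b d) u := C.phi_312 b d u
  have p7 : C.form (C.mul u b) c = C.form (C.mul b c) u := C.phi_312 b c u
  have p8 : C.form (C.mul c d) b = C.form (C.mul b c) d := C.phi_231 b c d
  have p9 : C.form (C.mul d b) u = - C.form (C.mul b d) u := C.phi_213 b d u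
  have f1 := C.form_symm u d
  have f2 := C.form_symm u c
  have f3 := C.form_symm u b
  have f4 := C.form_symm c b
  rw [p1, p2, f1, f2] at h1
  rw [p3, p4, p5, m2, m3] at h2
  rw [p6, p7, p8, m4, f1, f3, f4] at h3
  rw [p9, m1]
  have key : (2 : R) • C.mul u (C.j b c d) =
      (2 : R) • ((C.form d u • C.mul b c - C.form (C.mul b c) u • d)
      + (C.form b u • C.mul c d - C.form (C.mul c d) u • b)
      + (C.form c u • -C.mul b d - (-C.form (C.mul b d) u) • c)) := by
    linear_combination (norm := module) h1 - h2 + h3
  have := congrArg (fun x => (⅟(2 : R)) • x) key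
  simpa only [smul_smul, invOf_mul_self, one_smul] using this

/-- the Malcev identity -/
theorem malcev (x y z : V) :
    C.mul (C.mul x y) (C.mul x z) = C.mul (C.mul (C.mul x y) z) x + C.mul (C.mul (C.mul y z) x) x
      + C.mul (C.mul (C.mul z x) x) y := by
  have h := C.star x y x z
  have e1 := congrArg (fun t => C.mul t x) (C.mul_mul_right x y z)
  have e2 : C.mul (C.mul (C.mul y z) x) x = C.mul x (C.mul x (C.mul y z)) := by
    rw [C.anti _ x, C.anti _ x, map_neg, neg_neg]
  have e3 : C.mul (C.mul (C.mul z x) x) y = C.mul (C.mul x (C.mul x z)) y := by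
    rw [C.anti z x, map_neg, LinearMap.neg_apply, C.anti (C.mul x z) x, neg_neg]
  rw [C.cp] at e2 e3
  simp only [map_add, map_sub, map_smul, LinearMap.add_apply, LinearMap.sub_apply,
    LinearMap.smul_apply, C.mul_self, smul_zero, sub_zero] at e1 e2 e3
  have a1 := C.anti y x
  have a2 := C.anti (C.j x y z) x
  have a3 := C.anti z x
  have a4 := C.anti z y
  have a5 := C.j_swap23 x y z
  have p1 : C.form x (C.mul y z) = C.form (C.mul x y) z := (C.form_inv x y z).symm
  have p2 : C.form (C.mul x z) y = - C.form (C.mul x y) z := C.phi_132 x y z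
  have q (t : V) : C.form (C.mul x t) x = 0 := by
    rw [C.phi_231 x x t, C.mul_self, map_zero, LinearMap.zero_apply]
  have p3 : C.form (C.mul z y) x = - C.form (C.mul x y) z := C.phi_321 x y z
  have p4 : C.form (C.mul y x) x = 0 := by
    rw [C.phi_213 x y x, q, neg_zero]
  rw [p1] at e2
  rw [a5, map_neg, C.mul_self, q, p2] at h
  rw [a2, a1] at e1
  rw [a4] at e3
  rw [e1, e2, e3, h]
  module

/-- the formula that expresses `⟨j,j⟩ u` through three elements -/
theorem D_smul [Invertible (2 : R)] (a b c u : V) :
    C.form (C.j a b c) (C.j a b c) • u =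
      C.form (C.j a b c) u • C.j a b c
      - ((C.form c u • C.mul (C.mul a b) (C.j a b c) - C.form (C.mul a b) u • C.mul c (C.j a b c))
        + (C.form a u • C.mul (C.mul b c) (C.j a b c) - C.form (C.mul b c) u • C.mul a (C.j a b c))
        + (C.form b u • C.mul (C.mul c a) (C.j a b c)
          - C.form (C.mul c a) u • C.mul b (C.j a b c))) := by
  have h := C.cp (C.j a b c) u
  rw [C.anti _ u, C.I4 u a b c] at h
  generalize C.j a b c = t at *
  simp only [map_add, map_sub, map_smul, map_neg] at h
  simp only [C.anti t] at h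
  linear_combination (norm := module) h

end CpAlg

end Pool.Agent.Mal
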