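import Pool.Agent.Mal.CpMod

set_option autoImplicit false
set_option linter.unusedSimpArgs false
set_option linter.unusedSectionVars false

open scoped TensorProduct

namespace Pool.Agent.Mal

/-- the trivial square zero extension `R ⊕ V` -/
@[ext]
structure Sq (R V : Type) where
  re : R
  im : V

namespace Sq

variable {R V : Type} [CommRing R] [AddCommGroup V] [Module R V]

instance : Zero (Sq R V) := ⟨⟨0, 0⟩⟩
instance : One (Sq R V) := ⟨⟨1, 0⟩⟩
instance : Add (Sq R V) := ⟨fun a b => ⟨a.re + b.re, a.im + b.im⟩⟩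
instance : Neg (Sq R V) := ⟨fun a => ⟨-a.re, -a.im⟩⟩
instance : Sub (Sq R V) := ⟨fun a b => ⟨a.re - b.re, a.im - b.im⟩⟩
instance : Mul (Sq R V) := ⟨fun a b => ⟨a.re * b.re, a.re • b.im + b.re • a.im⟩⟩

@[simp] theorem re_zero : (0 : Sq R V).re = 0 := rfl
@[simp] theorem im_zero : (0 : Sq R V).im = 0 := rfl
@[simp] theorem re_one : (1 : Sq R V).re = 1 := rfl
@[simp] theorem im_one : (1 : Sq R V).im = 0 := rfl
@[simp] theorem re_add (a b : Sq R V) : (a + b).re = a.re + b.re := rfl
@[simp] theorem im_add (a b : Sq R V) : (a + b).im = a.im + b.im := rfl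
@[simp] theorem re_neg (a : Sq R V) : (-a).re = -a.re := rfl
@[simp] theorem im_neg (a : Sq R V) : (-a).im = -a.im := rfl
@[simp] theorem re_sub (a b : Sq R V) : (a - b).re = a.re - b.re := rfl
@[simp] theorem im_sub (a b : Sq R V) : (a - b).im = a.im - b.im := rfl
@[simp] theorem re_mul (a b : Sq R V) : (a * b).re = a.re * b.re := rfl
@[simp] theorem im_mul (a b : Sq R V) : (a * b).im = a.re • b.im + b.re • a.im := rfl

instance : CommRing (Sq R V) where
  add_assoc a b c := by ext <;> simp [add_assoc]
  zero_add a := by ext <;> simp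
  add_zero a := by ext <;> simp
  add_comm a b := by ext <;> simp [add_comm]
  neg_add_cancel a := by ext <;> simp
  sub_eq_add_neg a b := by ext <;> simp [sub_eq_add_neg]
  nsmul := nsmulRec
  zsmul := zsmulRec
  mul_assoc a b c := by
    ext
    · simp [mul_assoc]
    · simp only [im_mul, re_mul]; module
  one_mul a := by ext <;> simp
  mul_one a := by ext <;> simp
  left_distrib a b c := by
    ext
    · simp [mul_add]
    · simp only [im_mul, re_mul, im_add, re_add]; module
  right_distrib a b c := by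
    ext
    · simp [add_mul]
    · simp only [im_mul, re_mul, im_add, re_add]; module
  zero_mul a := by ext <;> simp
  mul_zero a := by ext <;> simp
  mul_comm a b := by
    ext
    · simp [mul_comm]
    · simp only [im_mul, re_mul]; module

/-- inclusion of scalars -/
def incl : R →+* Sq R V where
  toFun r := ⟨r, 0⟩
  map_one' := rfl
  map_zero' := rfl
  map_add' a b := by ext <;> simp
  map_mul' a b := by ext <;> simp

@[simp] theorem re_incl (r : R) : (incl r : Sq R V).re = r := rfl
@[simp] theorem im_incl (r : R) : (incl r : Sq R V).im = 0 := rfl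

end Sq

namespace CpAlg

variable {R V : Type} [CommRing R] [AddCommGroup V] [Module R V] (C : CpAlg R V)

/-- operators linear in a new variable -/
abbrev MQ : Type := M0 R V ⧸ C.S

/-- right multiplication on the quotient -/
def actQ (d : V) : C.MQ →ₗ[R] C.MQ := C.S.mapQ C.S (C.act d) (fun _ hm => C.act_mem_S hm d)

theorem actQ_mk (d : V) (m : M0 R V) : C.actQ d (C.S.mkQ m) = C.S.mkQ (C.act d m) := rfl

theorem actQ_add (d e : V) (m : C.MQ) : C.actQ (d + e) m = C.actQ d m + C.actQ e m := by
  obtain ⟨m, rfl⟩ := C.S.mkQ_surjective m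
  simp only [actQ_mk, act_add, map_add]

theorem actQ_smul (r : R) (d : V) (m : C.MQ) : C.actQ (r • d) m = r • C.actQ d m := by
  obtain ⟨m, rfl⟩ := C.S.mkQ_surjective m
  simp only [actQ_mk, act_smul, map_smul]

/-- the form on the quotient -/
def formQ : C.MQ →ₗ[R] V →ₗ[R] V :=
  C.S.liftQ C.formM (fun m hm => by
    rw [LinearMap.mem_ker]; ext a; exact C.formM_of_mem_S hm a)

theorem formQ_mk (m : M0 R V) (a : V) : C.formQ (C.S.mkQ m) a = C.formM m a := rfl

/-- the trace on the quotient -/
def trQ : C.MQ →ₗ[R] R :=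
  C.S.liftQ C.tr (fun m hm => by rw [LinearMap.mem_ker]; exact C.tr_of_mem_S hm)

theorem trQ_mk (m : M0 R V) : C.trQ (C.S.mkQ m) = C.tr m := rfl

/-- the rank one operator `y ↦ ⟨v,y⟩ u` -/
def tenQ : V →ₗ[R] V →ₗ[R] C.MQ :=
  (TensorProduct.mk R V V).compr₂ (C.S.mkQ.comp (LinearMap.inl R _ _))

theorem tenQ_eq (u v : V) : C.tenQ u v = C.S.mkQ (ten (u ⊗ₜ v)) := rfl

/-- the identity operator `y` -/
def oneQ : C.MQ := C.S.mkQ (one R V)

theorem actQ_ten (d u v : V) : C.actQ d (C.tenQ u v) = C.tenQ (C.mul u d) v := by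
  rw [tenQ_eq, actQ_mk, act_ten]; rfl

theorem formQ_ten (u v a : V) : C.formQ (C.tenQ u v) a = C.form u a • v := by
  rw [tenQ_eq, formQ_mk, ten, formM_mk, con_tmul]; simp

theorem trQ_ten (u v : V) : C.trQ (C.tenQ u v) = C.form u v := by
  rw [tenQ_eq, trQ_mk, tr_ten]; simp

theorem trQ_one : C.trQ C.oneQ = 7 := by
  rw [oneQ, trQ_mk, tr_one]

theorem formQ_one (a : V) : C.formQ C.oneQ a = a := by
  rw [oneQ, formQ_mk, one, formM_mk]; simp

theorem formQ_act (m : C.MQ) (b c : V) : C.formQ (C.actQ b m) c = C.formQ m (C.mul b c) := by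
  obtain ⟨m, rfl⟩ := C.S.mkQ_surjective m
  rw [actQ_mk, formQ_mk, formQ_mk, formM_act]

theorem actQ_L2 [Invertible (2 : R)] (m : C.MQ) (b c : V) :
    C.actQ (C.mul b c) m - C.actQ b (C.actQ c m)
      = C.form b c • m + C.tenQ b (C.formQ m c) - (2 : R) • C.tenQ c (C.formQ m b) := by
  obtain ⟨m, rfl⟩ := C.S.mkQ_surjective m
  have h := congrArg C.S.mkQ (C.act_L2 m b c)
  have h0 : C.S.mkQ (C.rel b c m.2.2) = 0 := by
    rw [Submodule.mkQ_apply, Submodule.Quotient.mk_eq_zero]; exact C.rel_mem_S _ _ _
  simp only [map_sub, map_add, map_smul, h0, smul_zero, add_zero] at h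
  exact h

theorem actQ_L3 [Invertible (2 : R)] (m : C.MQ) (a : V) :
    C.actQ a (C.actQ a m) = C.tenQ a (C.formQ m a) - C.form a a • m := by
  obtain ⟨m, rfl⟩ := C.S.mkQ_surjective m
  have h := congrArg C.S.mkQ (C.act_L3 m a a)
  simp only [map_sub, map_add, map_smul] at h
  have h2 : (2 : R) • C.actQ a (C.actQ a (C.S.mkQ m)) =
      (2 : R) • (C.tenQ a (C.formQ (C.S.mkQ m) a) - C.form a a • C.S.mkQ m) := by
    rw [actQ_mk, actQ_mk, tenQ_eq, formQ_mk]
    linear_combination (norm := module) h
  have := congrArg (fun x => (⅟(2 : R)) • x) h2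
  simpa only [smul_smul, invOf_mul_self, one_smul] using this

/-- the vectors of the extension -/
@[ext]
structure V1 where
  fst : V
  snd : C.MQ

namespace V1

instance : Zero C.V1 := ⟨⟨0, 0⟩⟩
instance : Add C.V1 := ⟨fun a b => ⟨a.fst + b.fst, a.snd + b.snd⟩⟩
instance : Neg C.V1 := ⟨fun a => ⟨-a.fst, -a.snd⟩⟩
instance : Sub C.V1 := ⟨fun a b => ⟨a.fst - b.fst, a.snd - b.snd⟩⟩
instance : SMul (Sq R V) C.V1 := ⟨fun a x => ⟨a.re • x.fst, a.re • x.snd + C.tenQ x.fst a.im⟩⟩

@[simp] theorem fst_zero : (0 : C.V1).fst = 0 := rfl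
@[simp] theorem snd_zero : (0 : C.V1).snd = 0 := rfl
@[simp] theorem fst_add (x y : C.V1) : (x + y).fst = x.fst + y.fst := rfl
@[simp] theorem snd_add (x y : C.V1) : (x + y).snd = x.snd + y.snd := rfl
@[simp] theorem fst_neg (x : C.V1) : (-x).fst = -x.fst := rfl
@[simp] theorem snd_neg (x : C.V1) : (-x).snd = -x.snd := rfl
@[simp] theorem fst_sub (x y : C.V1) : (x - y).fst = x.fst - y.fst := rfl
@[simp] theorem snd_sub (x y : C.V1) : (x - y).snd = x.snd - y.snd := rfl
@[simp] theorem fst_smul (a : Sq R V) (x : C.V1) : (a • x).fst = a.re • x.fst := rfl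
@[simp] theorem snd_smul (a : Sq R V) (x : C.V1) :
    (a • x).snd = a.re • x.snd + C.tenQ x.fst a.im := rfl

instance : AddCommGroup C.V1 where
  add_assoc a b c := by ext1 <;> simp [add_assoc]
  zero_add a := by ext1 <;> simp
  add_zero a := by ext1 <;> simp
  add_comm a b := by ext1 <;> simp [add_comm]
  neg_add_cancel a := by ext1 <;> simp
  sub_eq_add_neg a b := by ext1 <;> simp [sub_eq_add_neg]
  nsmul := nsmulRec
  zsmul := zsmulRec

instance : Module (Sq R V) C.V1 where
  one_smul x := by ext1 <;> simp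
  mul_smul a b x := by
    ext1
    · simp [mul_smul]
    · simp only [snd_smul, fst_smul, Sq.re_mul, Sq.im_mul, map_add, map_smul,
        LinearMap.smul_apply]
      module
  smul_zero a := by ext1 <;> simp
  smul_add a x y := by
    ext1
    · simp
    · simp only [snd_smul, fst_smul, fst_add, snd_add, map_add, LinearMap.add_apply]
      module
  add_smul a b x := by
    ext1
    · simp [add_smul]
    · simp only [snd_smul, fst_smul, fst_add, snd_add, map_add, Sq.re_add, Sq.im_add]
      module
  zero_smul x := by ext1 <;> simp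

end V1

/-- multiplication of the extension -/
def mulT : C.V1 →ₗ[Sq R V] C.V1 →ₗ[Sq R V] C.V1 :=
  LinearMap.mk₂ (Sq R V)
    (fun x y => ⟨C.mul x.fst y.fst, C.actQ y.fst x.snd - C.actQ x.fst y.snd⟩)
    (by
      intro x y z
      ext1
      · simp
      · simp only [V1.fst_add, V1.snd_add, map_add, actQ_add]; abel)
    (by
      intro a x y
      ext1
      · simp
      · simp only [V1.fst_smul, V1.snd_smul, map_add, actQ_smul, map_smul, actQ_ten]; module)
    (by
      intro x y z
      ext1
      · simp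
      · simp only [V1.fst_add, V1.snd_add, map_add, actQ_add]; abel)
    (by
      intro a x y
      ext1
      · simp
      · simp only [V1.fst_smul, V1.snd_smul, map_add, actQ_smul, map_smul, actQ_ten]
        rw [C.anti x.fst y.fst, map_neg, LinearMap.neg_apply]; module)

@[simp] theorem mulT_fst (x y : C.V1) : (C.mulT x y).fst = C.mul x.fst y.fst := rfl
@[simp] theorem mulT_snd (x y : C.V1) :
    (C.mulT x y).snd = C.actQ y.fst x.snd - C.actQ x.fst y.snd := rfl

/-- form of the extension -/
def formT : C.V1 →ₗ[Sq R V] C.V1 →ₗ[Sq R V] Sq R V :=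
  LinearMap.mk₂ (Sq R V)
    (fun x y => ⟨C.form x.fst y.fst, C.formQ x.snd y.fst + C.formQ y.snd x.fst⟩)
    (by
      intro x y z
      ext
      · simp
      · simp only [V1.fst_add, V1.snd_add, map_add, Sq.im_add, LinearMap.add_apply]; abel)
    (by
      intro a x y
      ext
      · simp
      · simp only [V1.fst_smul, V1.snd_smul, map_add, map_smul, LinearMap.add_apply,
          LinearMap.smul_apply, formQ_ten, smul_eq_mul, Sq.im_mul]; module)
    (by
      intro x y z
      ext
      · simp
      · simp only [V1.fst_add, V1.snd_add, map_add, Sq.im_add, LinearMap.add_apply]; abel)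
    (by
      intro a x y
      ext
      · simp
      · simp only [V1.fst_smul, V1.snd_smul, map_add, map_smul, LinearMap.add_apply,
          LinearMap.smul_apply, formQ_ten, smul_eq_mul, Sq.im_mul]
        rw [C.form_symm y.fst x.fst]; module)

@[simp] theorem formT_re (x y : C.V1) : (C.formT x y).re = C.form x.fst y.fst := rfl
@[simp] theorem formT_im (x y : C.V1) :
    (C.formT x y).im = C.formQ x.snd y.fst + C.formQ y.snd x.fst := rfl

/-- The extension by a new square-zero vector -/
def T [Invertible (2 : R)] : CpAlg (Sq R V) C.V1 where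
  mul := C.mulT
  form := C.formT
  mul_self x := by
    ext1
    · simp [C.mul_self]
    · simp
  form_symm x y := by
    ext
    · simp [C.form_symm x.fst y.fst]
    · simp [add_comm]
  form_inv x y z := by
    ext
    · simp [C.form_inv]
    · simp only [formT_im, mulT_fst, mulT_snd, map_sub, LinearMap.sub_apply, formQ_act]
      rw [C.anti z.fst x.fst, C.anti y.fst x.fst, map_neg, map_neg]; abel
  cp x y := by
    ext1
    · simp [C.cp]
    · simp only [mulT_snd, mulT_fst, formT_im, formT_re, V1.snd_sub, V1.snd_smul, map_sub, map_add]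
      have h1 := C.actQ_L2 x.snd x.fst y.fst
      have h2 := C.actQ_L3 y.snd x.fst
      linear_combination (norm := module) h1 + h2

end CpAlg

end Pool.Agent.Mal
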