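import Pool.Agent.Mal.CpKill
import Pool.Agent.Mal.EvalLem

set_option autoImplicit false
set_option linter.unusedSectionVars false
set_option linter.unusedSimpArgs false

namespace Pool.Agent.Mal

/-- `f` vanishes on the squares of all Malcev algebras -/
def SqKill (F : Type) [Field F] (f : FreeNonUnitalNonAssocAlgebra F ℕ) : Prop :=
  ∀ (M : Type) [NonUnitalNonAssocRing M] [Module F M] [IsScalarTower F M M]
    [SMulCommClass F M M],
    (∀ x : M, x * x = 0) →
    (∀ x y z : M, (x * y) * (x * z) = ((x * y) * z) * x + ((y * z) * x) * x + ((z * x) * x) * y) →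
    ∀ v : ℕ → M,
      (∀ i, v i ∈ Submodule.span F {m : M | ∃ x y : M, x * y = m}) →
      (FreeNonUnitalNonAssocAlgebra.lift F v) f = 0

/-- `f` vanishes on all three-generated Malcev algebras -/
def ThreeKill (F : Type) [Field F] (f : FreeNonUnitalNonAssocAlgebra F ℕ) : Prop :=
  ∀ (M : Type) [NonUnitalNonAssocRing M] [Module F M] [IsScalarTower F M M]
    [SMulCommClass F M M],
    (∀ x : M, x * x = 0) →
    (∀ x y z : M, (x * y) * (x * z) = ((x * y) * z) * x + ((y * z) * x) * x + ((z * x) * x) * y) →
    ∀ a b c : M, ∀ v : ℕ → M,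
      (∀ i, v i ∈ NonUnitalAlgebra.adjoin F ({a, b, c} : Set M)) →
      (FreeNonUnitalNonAssocAlgebra.lift F v) f = 0

namespace CpAlg

section car

variable {R V : Type} [CommRing R] [AddCommGroup V] [Module R V] (C : CpAlg R V)

theorem mul_add' (a b c : V) : C.mul a (b + c) = C.mul a b + C.mul a c := map_add _ _ _

theorem add_mul' (a b c : V) : C.mul (a + b) c = C.mul a c + C.mul b c := by
  rw [map_add, LinearMap.add_apply]

theorem zero_mul' (a : V) : C.mul 0 a = 0 := by rw [map_zero, LinearMap.zero_apply]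

theorem smul_mul' (r : R) (a b : V) : C.mul (r • a) b = r • C.mul a b := by
  rw [map_smul, LinearMap.smul_apply]

theorem mul_smul' (r : R) (a b : V) : C.mul a (r • b) = r • C.mul a b := map_smul _ _ _

theorem form_smul_left (r : R) (a b : V) : C.form (r • a) b = r * C.form a b := by
  rw [map_smul, LinearMap.smul_apply, smul_eq_mul]

/-- the nonassociative algebra of a cross product algebra -/
def Car (_ : CpAlg R V) : Type := V

instance : AddCommGroup C.Car := inferInstanceAs (AddCommGroup V)

instance : NonUnitalNonAssocRing C.Car :=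
  { (inferInstanceAs (AddCommGroup V) : AddCommGroup C.Car) with
    mul := fun a b => C.mul a b
    left_distrib := fun a b c => C.mul_add' a b c
    right_distrib := fun a b c => C.add_mul' a b c
    zero_mul := fun a => C.zero_mul' a
    mul_zero := fun a => map_zero (C.mul a) }

theorem car_mul (a b : C.Car) : a * b = C.mul a b := rfl

instance {F : Type} [CommRing F] [Algebra F R] : Module F C.Car :=
  Module.compHom V (algebraMap F R)

theorem car_smul {F : Type} [CommRing F] [Algebra F R] (c : F) (a : C.Car) :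
    c • a = (algebraMap F R c • (a : V) : V) := rfl

instance {F : Type} [CommRing F] [Algebra F R] : IsScalarTower F C.Car C.Car where
  smul_assoc c a b := C.smul_mul' (algebraMap F R c) a b

instance {F : Type} [CommRing F] [Algebra F R] : SMulCommClass F C.Car C.Car where
  smul_comm c a b := (C.mul_smul' (algebraMap F R c) a b).symm

instance {F : Type} [CommRing F] [Algebra F R] : IsScalarTower F R C.Car where
  smul_assoc c r a := by
    change ((c • r : R) • (a : V) : V) = (algebraMap F R c • (r • (a : V) : V) : V)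
    rw [Algebra.smul_def, mul_smul]

theorem car_mul_self (x : C.Car) : x * x = 0 := C.mul_self x

theorem car_malcev (x y z : C.Car) :
    (x * y) * (x * z) = ((x * y) * z) * x + ((y * z) * x) * x + ((z * x) * x) * y :=
  C.malcev x y z

end car

section hom

variable {F : Type} [Field F] [CharZero F] {R V R' V' : Type} [CommRing R] [AddCommGroup V]
  [Module R V] [CommRing R'] [AddCommGroup V'] [Module R' V'] [Algebra F R] [Algebra F R']
  {C : CpAlg R V} {C' : CpAlg R' V'}

/-- the map of carriers -/
def homCar (g : CpHom F C C') : C.Car →+ C'.Car := g.ψ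

theorem homCar_mul (g : CpHom F C C') (a b : C.Car) : homCar g (a * b) = homCar g a * homCar g b :=
  g.mul a b

theorem homCar_smul (g : CpHom F C C') (c : F) (a : C.Car) : homCar g (c • a) = c • homCar g a := by
  have := g.smul (algebraMap F R c) a
  rw [AlgHom.commutes] at this
  exact this

theorem hom_magma (g : CpHom F C C') (v : ℕ → C.Car) (m : FreeMagma ℕ) :
    homCar g (FreeMagma.lift v m) = FreeMagma.lift (fun i => homCar g (v i)) m := by
  induction m with
  | ih1 i => rfl
  | ih2 x y hx hy =>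
    rw [map_mul (FreeMagma.lift v), map_mul (FreeMagma.lift fun i => homCar g (v i)), homCar_mul,
      hx, hy]

theorem hom_wj (g : CpHom F C C') (v : ℕ → C.Car) (f : FreeNonUnitalNonAssocAlgebra F ℕ) (j : ℕ) :
    homCar g (wj v f j) = wj (fun i => homCar g (v i)) f j := by
  unfold wj
  rw [map_sum]
  refine Finset.sum_congr rfl fun m _ => ?_
  rw [homCar_smul, hom_magma]

end hom

theorem core (F : Type) [Field F] [CharZero F] (f : FreeNonUnitalNonAssocAlgebra F ℕ)
    (h : ∀ (R V : Type) [CommRing R] [AddCommGroup V] [Module R V] [Algebra F R] (C : CpAlg R V)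
      (a b c : C.Car) (v : ℕ → C.Car) (t : F),
      FreeNonUnitalNonAssocAlgebra.lift F (fun i => t • C.dd a b c • v i) f = 0)
    (R V : Type) [CommRing R] [AddCommGroup V] [Module R V] [Algebra F R] (C : CpAlg R V)
    (v : ℕ → C.Car) : FreeNonUnitalNonAssocAlgebra.lift F v f = 0 := by
  rw [sum_wj]
  apply Finset.sum_eq_zero
  intro j _
  obtain ⟨w, hw⟩ : ∃ w : V, w = wj v f j := ⟨_, rfl⟩
  have h0 : (⟨0, w⟩ : Sq R V) = 0 := by
    apply (C.T2 (isUnit_two F R)).eq_zero_of_kills F _ j
    intro R' V' _ _ _ _ C' g a b c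
    change C'.dd a b c ^ j * g.φ _ = 0
    have h1 : (⟨0, w⟩ : Sq R V)
        = (C.T2 (isUnit_two F R)).form ⟨w, 0⟩ ⟨0, C.oneQ⟩ := by
      ext
      · simp
      · simp [formQ_one]
    rw [h1, g.form, ← C'.form_smul_left]
    have h3 := wj_eq_zero_of (C'.dd a b c)
      (fun i => homCar (g.comp (C.inc F (isUnit_two F R))) (v i)) f
      (fun t => h R' V' C' a b c _ t) j
    have h2 := hom_wj (g.comp (C.inc F (isUnit_two F R))) v f j
    rw [← h2, ← hw] at h3
    have h5 : (C'.dd a b c ^ j) • g.ψ (⟨w, 0⟩ : C.V1) = 0 := h3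
    rw [h5, map_zero, LinearMap.zero_apply]
  rw [← hw]
  exact congrArg Sq.im h0

theorem jac_eq {R V : Type} [CommRing R] [AddCommGroup V] [Module R V] (C : CpAlg R V) (a b c : V) :
    C.mul (C.mul a b) c + C.mul (C.mul b c) a + C.mul (C.mul c a) b = (3 : R) • C.j a b c := by
  rw [C.mul_mul_right a b c, C.mul_mul_right b c a, C.mul_mul_right c a b, C.j_cyc a b c,
    (C.j_cyc b c a).symm, C.form_symm c a, C.form_symm b a, C.form_symm c b]
  module

section fin

variable (F : Type) [Field F] [CharZero F] {R V : Type} [CommRing R] [AddCommGroup V]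
  [Module R V] [Algebra F R] (C : CpAlg R V)

/-- one third of the Jacobian, in the carrier -/
def jc (a b c : C.Car) : C.Car := C.j a b c

theorem jac_car (a b c : C.Car) :
    (a * b) * c + (b * c) * a + (c * a) * b = (3 : R) • C.jc a b c := C.jac_eq a b c

theorem jc_eq (a b c : C.Car) :
    C.jc a b c = ((3 : F)⁻¹) • ((a * b) * c + (b * c) * a + (c * a) * b) := by
  have h2 : ((3 : F) • C.jc a b c) = (3 : R) • C.jc a b c := by
    rw [← algebraMap_smul R (3 : F), map_ofNat]
  rw [jac_car, ← h2, smul_smul, inv_mul_cancel₀ (by norm_num), one_smul]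

theorem D_car [Invertible (2 : R)] (a b c u : C.Car) :
    C.dd a b c • u = C.form (C.jc a b c) u • C.jc a b c
      - ((C.form c u • ((a * b) * C.jc a b c) - C.form (C.mul a b) u • (c * C.jc a b c))
        + (C.form a u • ((b * c) * C.jc a b c) - C.form (C.mul b c) u • (a * C.jc a b c))
        + (C.form b u • ((c * a) * C.jc a b c) - C.form (C.mul c a) u • (b * C.jc a b c))) :=
  C.D_smul a b c u

theorem kill_sq (f : FreeNonUnitalNonAssocAlgebra F ℕ) (hf : SqKill F f) (v : ℕ → C.Car) :
    FreeNonUnitalNonAssocAlgebra.lift F v f = 0 := by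
  refine core F f ?_ R V C v
  intro R V _ _ _ _ C a b c v t
  apply hf C.Car C.car_mul_self C.car_malcev
  intro i
  let W : Submodule F C.Car := Submodule.span F {m : C.Car | ∃ x y : C.Car, x * y = m}
  have hm : ∀ (r : R) (x y : C.Car), r • (x * y) ∈ W := fun r x y =>
    Submodule.subset_span ⟨r • x, y, smul_mul_assoc r x y⟩
  have hj : ∀ r : R, r • C.jc a b c ∈ W := by
    intro r
    rw [C.jc_eq F, smul_comm]
    apply W.smul_mem
    rw [smul_add, smul_add]
    exact W.add_mem (W.add_mem (hm _ _ _) (hm _ _ _)) (hm _ _ _)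
  apply W.smul_mem
  have := (isUnit_two F R).invertible
  rw [C.D_car]
  exact W.sub_mem (hj _) (W.add_mem (W.add_mem (W.sub_mem (hm _ _ _) (hm _ _ _))
    (W.sub_mem (hm _ _ _) (hm _ _ _))) (W.sub_mem (hm _ _ _) (hm _ _ _)))

theorem kill_three (f : FreeNonUnitalNonAssocAlgebra F ℕ) (hf : ThreeKill F f) (v : ℕ → C.Car) :
    FreeNonUnitalNonAssocAlgebra.lift F v f = 0 := by
  refine core F f ?_ R V C v
  intro R V _ _ _ _ C a b c v t
  let A : NonUnitalSubalgebra F C.Car := NonUnitalAlgebra.adjoin F ({a, b, c} : Set C.Car)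
  apply vanish_span (R := R) A.toSubmodule f
  · intro v hv
    exact hf C.Car C.car_mul_self C.car_malcev a b c v hv
  intro i
  let W : Submodule R C.Car := Submodule.span R (A.toSubmodule : Set C.Car)
  have ha : a ∈ A := NonUnitalAlgebra.subset_adjoin F (by simp)
  have hb : b ∈ A := NonUnitalAlgebra.subset_adjoin F (by simp)
  have hc : c ∈ A := NonUnitalAlgebra.subset_adjoin F (by simp)
  have hm : ∀ (r : R) (x : C.Car), x ∈ A → r • x ∈ W := fun r x hx =>
    W.smul_mem r (Submodule.subset_span hx)
  have hj : C.jc a b c ∈ A := by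
    rw [C.jc_eq F]
    exact A.smul_mem _ (A.add_mem (A.add_mem (A.mul_mem (A.mul_mem ha hb) hc)
      (A.mul_mem (A.mul_mem hb hc) ha)) (A.mul_mem (A.mul_mem hc ha) hb))
  have hab := A.mul_mem ha hb
  have hbc := A.mul_mem hb hc
  have hca := A.mul_mem hc ha
  change t • C.dd a b c • v i ∈ W
  rw [← algebraMap_smul R t]
  apply W.smul_mem
  have := (isUnit_two F R).invertible
  rw [C.D_car]
  exact W.sub_mem (hm _ _ hj) (W.add_mem (W.add_mem
    (W.sub_mem (hm _ _ (A.mul_mem hab hj)) (hm _ _ (A.mul_mem hc hj)))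
    (W.sub_mem (hm _ _ (A.mul_mem hbc hj)) (hm _ _ (A.mul_mem ha hj))))
    (W.sub_mem (hm _ _ (A.mul_mem hca hj)) (hm _ _ (A.mul_mem hb hj))))

end fin

end CpAlg

end Pool.Agent.Mal
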