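import Pool.Agent.Mal.CpLap

set_option autoImplicit false
set_option linter.unusedSimpArgs false
set_option linter.unusedSectionVars false

namespace Pool.Agent.Mal

namespace CpAlg

theorem isUnit_two (F : Type) [Field F] [CharZero F] (R : Type) [CommRing R] [Algebra F R] :
    IsUnit (2 : R) := by
  have h : IsUnit (2 : F) := isUnit_iff_ne_zero.mpr two_ne_zero
  have := h.map (algebraMap F R)
  rwa [map_ofNat] at this

section

variable (F : Type) [Field F] [CharZero F] {R V : Type} [CommRing R] [AddCommGroup V] [Module R V]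
  [Algebra F R] (C : CpAlg R V)

/-- two-fold extension -/
noncomputable abbrev TT : CpAlg (Sq (Sq R V) C.V1) (C.T2 (isUnit_two F R)).V1 :=
  (C.T2 (isUnit_two F R)).T2 (isUnit_two F (Sq R V))

/-- inclusion in the two-fold extension -/
noncomputable def inc2 : CpHom F C (C.TT F) :=
  ((C.T2 (isUnit_two F R)).inc F (isUnit_two F (Sq R V))).comp (C.inc F (isUnit_two F R))

theorem inc2_φ (r : R) : (C.inc2 F).φ r = Sq.incl (Sq.incl r) := rfl

theorem inc2_ψ (v : V) : (C.inc2 F).ψ v = ⟨⟨v, 0⟩, 0⟩ := rfl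

/-- the generic vector over `z` -/
noncomputable def gen (z : V) : (C.T2 (isUnit_two F R)).V1 :=
  ⟨⟨z, C.oneQ⟩, (C.T2 (isUnit_two F R)).oneQ⟩

/-- vanishing in all extensions -/
def Kills (r : R) (P : ∀ {R' V' : Type} [CommRing R'] [AddCommGroup V'] [Module R' V']
    (_ : CpAlg R' V'), V' → V' → V' → R') : Prop :=
  ∀ (R' V' : Type) [CommRing R'] [AddCommGroup V'] [Module R' V'] [Algebra F R']
    (C' : CpAlg R' V') (f : CpHom F C C') (a b c : V'), P C' a b c * f.φ r = 0

theorem kill_A (r : R) (n m : ℕ)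
    (h : C.Kills F r (fun C' a b c => C'.dd a b c ^ (n + 1) * C'.gr a b ^ m)) :
    C.Kills F r (fun C' a b c => C'.dd a b c ^ n * C'.gr a b ^ (m + 1)) := by
  intro R' V' _ _ _ _ C' f a b c
  have h1 := h _ _ (C'.TT F) ((C'.inc2 F).comp f) ((C'.inc2 F).ψ a) ((C'.inc2 F).ψ b) (C'.gen F c)
  simp only at h1
  rw [dd_eq] at h1
  have hg : (C'.TT F).gr ((C'.inc2 F).ψ a) ((C'.inc2 F).ψ b) = (C'.inc2 F).φ (C'.gr a b) := by
    unfold gr
    simp only [← CpHom.form, map_mul, map_sub, map_pow]
  rw [hg, ← CpHom.mul] at h1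
  simp only [← CpHom.form, ← CpHom.smul, ← map_sub] at h1
  simp only [inc2_φ, inc2_ψ] at h1
  have h2 := C'.lap_step F (isUnit_two F R') (isUnit_two F (Sq R' V')) (C'.gr a b)
    (C'.mul a b) (C'.mul a b) (C'.form b b • a - C'.form a b • b) a
      (C'.form a a • b - C'.form a b • a) b c n 4 (by norm_num) (C'.gr a b ^ m * f.φ r)
      (C'.hG_A a b c) ?_ ?_
  · change C'.dd a b c ^ n * C'.gr a b ^ (m + 1) * f.φ r = 0
    rw [dd_eq]
    linear_combination h2
  · rw [C'.form_mul_mul a b]
    simp only [map_add, map_sub, map_smul, LinearMap.add_apply, LinearMap.sub_apply,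
      LinearMap.smul_apply, smul_eq_mul]
    unfold gr
    push_cast
    rw [C'.form_symm b a]
    ring
  · have e : Sq.incl (Sq.incl (C'.gr a b)) ^ m * (((C'.inc2 F).comp f).φ r) =
        (Sq.incl (Sq.incl (C'.gr a b ^ m * f.φ r)) : Sq (Sq R' V') (C'.V1)) := by
      rw [map_mul, map_mul, map_pow, map_pow]; rfl
    rw [mul_assoc, e] at h1
    exact h1

theorem kill_B (r : R) (n m : ℕ)
    (h : C.Kills F r (fun C' a b _ => C'.gr a b ^ (n + 1) * C'.form a a ^ m)) :
    C.Kills F r (fun C' a b _ => C'.gr a b ^ n * C'.form a a ^ (m + 1)) := by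
  intro R' V' _ _ _ _ C' f a b c
  have h1 := h _ _ (C'.TT F) ((C'.inc2 F).comp f) ((C'.inc2 F).ψ a) (C'.gen F b) (C'.gen F b)
  simp only at h1
  have e0 : ∀ {R' V' : Type} [CommRing R'] [AddCommGroup V'] [Module R' V'] (C' : CpAlg R' V')
      (a b : V'), C'.gr a b = C'.Qf (C'.form a a) a a 0 0 0 0 b := by
    intro R' V' _ _ _ C' a b
    unfold gr Qf
    simp only [map_zero, LinearMap.zero_apply]
    ring
  rw [e0] at h1
  simp only [← CpHom.form] at h1
  simp only [inc2_φ, inc2_ψ] at h1
  have h2 := C'.lap_step F (isUnit_two F R') (isUnit_two F (Sq R' V')) (C'.form a a)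
    a a 0 0 0 0 b n 6 (by norm_num) (C'.form a a ^ m * f.φ r) ?_ ?_ ?_
  · change C'.gr a b ^ n * C'.form a a ^ (m + 1) * f.φ r = 0
    rw [e0]
    linear_combination h2
  · unfold Gf Qf
    simp only [map_add, map_sub, map_smul, LinearMap.add_apply, LinearMap.sub_apply, map_zero,
      LinearMap.zero_apply, zero_smul, smul_zero,
      LinearMap.smul_apply, smul_eq_mul, C'.form_symm b a]
    ring
  · simp only [map_zero]
    push_cast
    ring
  · have e : Sq.incl (Sq.incl (C'.form a a)) ^ m * (((C'.inc2 F).comp f).φ r) =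
        (Sq.incl (Sq.incl (C'.form a a ^ m * f.φ r)) : Sq (Sq R' V') (C'.V1)) := by
      rw [map_mul, map_mul, map_pow, map_pow]; rfl
    rw [mul_assoc, e] at h1
    exact h1

theorem kill_C (r : R) (n : ℕ)
    (h : C.Kills F r (fun C' a _ _ => C'.form a a ^ (n + 1))) :
    C.Kills F r (fun C' a _ _ => C'.form a a ^ n) := by
  intro R' V' _ _ _ _ C' f a b c
  have h1 := h _ _ (C'.TT F) ((C'.inc2 F).comp f) (C'.gen F a) (C'.gen F a) (C'.gen F a)
  simp only at h1
  have e0 : ∀ {R' V' : Type} [CommRing R'] [AddCommGroup V'] [Module R' V'] (C' : CpAlg R' V')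
      (a : V'), C'.form a a = C'.Qf 1 0 0 0 0 0 0 a := by
    intro R' V' _ _ _ C' a
    unfold Qf
    simp only [map_zero, LinearMap.zero_apply]
    ring
  rw [e0] at h1
  have h2 := C'.lap_step F (isUnit_two F R') (isUnit_two F (Sq R' V')) 1
    0 0 0 0 0 0 a n 7 (by norm_num) (f.φ r) ?_ ?_ ?_
  · change C'.form a a ^ n * f.φ r = 0
    rw [e0]
    linear_combination h2
  · unfold Gf Qf
    simp only [map_add, map_sub, map_smul, LinearMap.add_apply, LinearMap.sub_apply, map_zero,
      LinearMap.zero_apply, zero_smul, smul_zero,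
      LinearMap.smul_apply, smul_eq_mul]
    ring
  · simp only [map_zero]
    push_cast
    ring
  · exact h1

/-- the Laplacian argument: a scalar killed by a power of the norm of all associators in all
extensions is zero -/
theorem eq_zero_of_kills (r : R) (N : ℕ)
    (h : C.Kills F r (fun C' a b c => C'.dd a b c ^ N)) : r = 0 := by
  have hA : ∀ k m : ℕ, C.Kills F r (fun C' a b c => C'.dd a b c ^ k * C'.gr a b ^ m) →
      C.Kills F r (fun C' a b c => C'.dd a b c ^ 0 * C'.gr a b ^ (m + k)) := by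
    intro k
    induction k with
    | zero => intro m hm; exact hm
    | succ k ih =>
      intro m hm
      have := ih (m + 1) (C.kill_A F r k m hm)
      rwa [show m + 1 + k = m + (k + 1) by ring] at this
  have hB : ∀ k m : ℕ, C.Kills F r (fun C' a b _ => C'.gr a b ^ k * C'.form a a ^ m) →
      C.Kills F r (fun C' a b _ => C'.gr a b ^ 0 * C'.form a a ^ (m + k)) := by
    intro k
    induction k with
    | zero => intro m hm; exact hm
    | succ k ih =>
      intro m hm
      have := ih (m + 1) (C.kill_B F r k m hm)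
      rwa [show m + 1 + k = m + (k + 1) by ring] at this
  have hC : ∀ k : ℕ, C.Kills F r (fun C' a _ _ => C'.form a a ^ k) →
      C.Kills F r (fun C' a _ _ => C'.form a a ^ 0) := by
    intro k
    induction k with
    | zero => intro hm; exact hm
    | succ k ih => intro hm; exact ih (C.kill_C F r k hm)
  have h1 : C.Kills F r (fun C' a b c => C'.dd a b c ^ N * C'.gr a b ^ 0) := by
    intro R' V' _ _ _ _ C' f a b c
    have := h _ _ C' f a b c
    simpa using this
  have h2 := hA N 0 h1
  have h3 : C.Kills F r (fun C' a b _ => C'.gr a b ^ N * C'.form a a ^ 0) := by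
    intro R' V' _ _ _ _ C' f a b c
    have := h2 _ _ C' f a b c
    simpa using this
  have h4 := hB N 0 h3
  have h5 : C.Kills F r (fun C' a _ _ => C'.form a a ^ N) := by
    intro R' V' _ _ _ _ C' f a b c
    have := h4 _ _ C' f a b c
    simpa using this
  have h6 := hC N h5 R V C (CpHom.id F C) 0 0 0
  simpa [CpHom.id] using h6

end

end CpAlg

end Pool.Agent.Mal
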