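import Pool.Agent.Mal.CpExt

set_option autoImplicit false
set_option linter.unusedSimpArgs false
set_option linter.unusedSectionVars false

open scoped TensorProduct

namespace Pool.Agent.Mal

namespace Sq

variable {R V : Type} [CommRing R] [AddCommGroup V] [Module R V]

theorem re_pow (x : Sq R V) (k : ℕ) : (x ^ k).re = x.re ^ k := by
  induction k with
  | zero => simp
  | succ k ih => rw [pow_succ, pow_succ, re_mul, ih]

theorem im_pow (x : Sq R V) (k : ℕ) : (x ^ (k + 1)).im = (((k + 1 : ℕ) : R) * x.re ^ k) • x.im := by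
  induction k with
  | zero => simp
  | succ k ih =>
    rw [pow_succ, im_mul, ih, re_pow]
    push_cast
    module

theorem re_natCast (n : ℕ) : ((n : Sq R V)).re = n := by
  induction n with
  | zero => simp
  | succ n ih => push_cast; simp [ih]

theorem im_natCast (n : ℕ) : ((n : Sq R V)).im = 0 := by
  induction n with
  | zero => simp
  | succ n ih => push_cast; simp [ih]

instance {F : Type} [CommRing F] [Algebra F R] : Algebra F (Sq R V) :=
  ((Sq.incl : R →+* Sq R V).comp (algebraMap F R)).toAlgebra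

theorem algebraMap_eq {F : Type} [CommRing F] [Algebra F R] (c : F) :
    algebraMap F (Sq R V) c = Sq.incl (algebraMap F R c) := rfl

end Sq

/-- homomorphisms of cross product algebras -/
structure CpHom (F : Type) [CommRing F] {R V R' V' : Type} [CommRing R] [AddCommGroup V] [Module R V]
    [CommRing R'] [AddCommGroup V'] [Module R' V'] [Algebra F R] [Algebra F R']
    (C : CpAlg R V) (C' : CpAlg R' V') where
  φ : R →ₐ[F] R'
  ψ : V →+ V'
  smul : ∀ r v, ψ (r • v) = φ r • ψ v
  mul : ∀ a b, ψ (C.mul a b) = C'.mul (ψ a) (ψ b)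
  form : ∀ a b, φ (C.form a b) = C'.form (ψ a) (ψ b)

namespace CpHom

variable {F : Type} [CommRing F] {R V R' V' R'' V'' : Type} [CommRing R] [AddCommGroup V] [Module R V]
    [CommRing R'] [AddCommGroup V'] [Module R' V'] [CommRing R''] [AddCommGroup V''] [Module R'' V'']
    [Algebra F R] [Algebra F R'] [Algebra F R'']
    {C : CpAlg R V} {C' : CpAlg R' V'} {C'' : CpAlg R'' V''}

/-- identity -/
def id (F : Type) [CommRing F] {R V : Type} [CommRing R] [AddCommGroup V] [Module R V] [Algebra F R]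
    (C : CpAlg R V) : CpHom F C C where
  φ := AlgHom.id F R
  ψ := AddMonoidHom.id V
  smul _ _ := rfl
  mul _ _ := rfl
  form _ _ := rfl

/-- composition -/
def comp (h' : CpHom F C' C'') (h : CpHom F C C') : CpHom F C C'' where
  φ := h'.φ.comp h.φ
  ψ := h'.ψ.comp h.ψ
  smul r v := by simp [h.smul, h'.smul]
  mul a b := by simp [h.mul, h'.mul]
  form a b := by simp [h.form, h'.form]

end CpHom

namespace CpAlg

variable {R V : Type} [CommRing R] [AddCommGroup V] [Module R V] (C : CpAlg R V)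

/-- The extension by a new square-zero vector, with an existence hypothesis for one half. -/
noncomputable def T2 (h2 : IsUnit (2 : R)) : CpAlg (Sq R V) C.V1 :=
  letI := h2.invertible
  C.T

@[simp] theorem T2_mul (h2 : IsUnit (2 : R)) : (C.T2 h2).mul = C.mulT := rfl

@[simp] theorem T2_form (h2 : IsUnit (2 : R)) : (C.T2 h2).form = C.formT := rfl

/-- inclusion in the extension -/
noncomputable def inc (F : Type) [CommRing F] [Algebra F R] (h2 : IsUnit (2 : R)) :
    CpHom F C (C.T2 h2) where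
  φ := { (Sq.incl : R →+* Sq R V) with commutes' := fun _ => rfl }
  ψ := { toFun := fun u => ⟨u, 0⟩, map_zero' := rfl, map_add' := by intro a b; ext1 <;> simp }
  smul r v := by ext1 <;> simp
  mul a b := by ext1 <;> simp
  form a b := by ext <;> simp

/-- a quadratic function -/
def Qf (c : R) (a1 b1 a2 b2 a3 b3 z : V) : R :=
  c * C.form z z - C.form b1 z * C.form a1 z - C.form b2 z * C.form a2 z
    - C.form b3 z * C.form a3 z

/-- its gradient -/
def Gf (c : R) (a1 b1 a2 b2 a3 b3 z : V) : V :=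
  (2 * c) • z - (C.form b1 z • a1 + C.form a1 z • b1) - (C.form b2 z • a2 + C.form a2 z • b2)
    - (C.form b3 z • a3 + C.form a3 z • b3)

theorem Qf_T (h2 : IsUnit (2 : R)) (c : R) (a1 b1 a2 b2 a3 b3 z : V) :
    (C.T2 h2).Qf (Sq.incl c) ⟨a1, 0⟩ ⟨b1, 0⟩ ⟨a2, 0⟩ ⟨b2, 0⟩ ⟨a3, 0⟩ ⟨b3, 0⟩ ⟨z, C.oneQ⟩
      = ⟨C.Qf c a1 b1 a2 b2 a3 b3 z, C.Gf c a1 b1 a2 b2 a3 b3 z⟩ := by
  unfold Qf Gf
  ext
  · simp
  · simp [formQ_one]
    module

theorem Gf_T (h2 : IsUnit (2 : R)) (c : R) (a1 b1 a2 b2 a3 b3 z : V) :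
    (C.T2 h2).Gf (Sq.incl c) ⟨a1, 0⟩ ⟨b1, 0⟩ ⟨a2, 0⟩ ⟨b2, 0⟩ ⟨a3, 0⟩ ⟨b3, 0⟩ ⟨z, C.oneQ⟩
      = ⟨C.Gf c a1 b1 a2 b2 a3 b3 z, (2 * c) • C.oneQ
        - (C.tenQ a1 b1 + C.tenQ b1 a1) - (C.tenQ a2 b2 + C.tenQ b2 a2)
        - (C.tenQ a3 b3 + C.tenQ b3 a3)⟩ := by
  unfold Gf
  have h20 : ((2 : Sq R V)).re = 2 := by
    have := Sq.re_natCast (R := R) (V := V) 2
    simpa using this
  have h21 : ((2 : Sq R V)).im = 0 := by
    have := Sq.im_natCast (R := R) (V := V) 2
    simpa using this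
  ext1
  · simp [h20]
  · simp [formQ_one, h20, h21]

/-- one application of the Laplacian -/
theorem lap_step (F : Type) [Field F] [CharZero F] [Algebra F R] (h2 : IsUnit (2 : R))
    (h2' : IsUnit (2 : Sq R V)) (c : R) (a1 b1 a2 b2 a3 b3 z : V) (n t : ℕ) (ht : 0 < t) (r : R)
    (hG : C.form (C.Gf c a1 b1 a2 b2 a3 b3 z) (C.Gf c a1 b1 a2 b2 a3 b3 z)
      = 4 * c * C.Qf c a1 b1 a2 b2 a3 b3 z)
    (htr : 7 * c - C.form a1 b1 - C.form a2 b2 - C.form a3 b3 = t * c)
    (h : ((C.T2 h2).T2 h2').Qf (Sq.incl (Sq.incl c)) ⟨⟨a1, 0⟩, 0⟩ ⟨⟨b1, 0⟩, 0⟩ ⟨⟨a2, 0⟩, 0⟩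
      ⟨⟨b2, 0⟩, 0⟩ ⟨⟨a3, 0⟩, 0⟩ ⟨⟨b3, 0⟩, 0⟩ ⟨⟨z, C.oneQ⟩, (C.T2 h2).oneQ⟩ ^ (n + 1)
      * Sq.incl (Sq.incl r) = 0) :
    C.Qf c a1 b1 a2 b2 a3 b3 z ^ n * (c * r) = 0 := by
  rw [Qf_T, Qf_T, Gf_T] at h
  have him := congrArg Sq.im h
  simp only [Sq.im_mul, Sq.im_incl, smul_zero, zero_add, Sq.re_incl, Sq.im_zero, Sq.im_pow] at him
  have hs := congrArg V1.snd him
  simp only [V1.snd_smul, V1.fst_smul, Sq.re_mul, Sq.im_mul, Sq.re_pow, Sq.re_natCast, Sq.im_natCast, Sq.re_incl,
    Sq.im_incl, V1.snd_zero] at hs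
  have ht' := congrArg C.trQ hs
  simp only [map_add, map_sub, map_smul, trQ_one, trQ_ten, smul_zero, map_zero, add_zero, smul_eq_mul,
    C.form_symm b1 a1, C.form_symm b2 a2, C.form_symm b3 a3] at ht'
  have key : r * ((((n + 1 : ℕ) : R)) * (C.Qf c a1 b1 a2 b2 a3 b3 z ^ n * (2 * t * c + 4 * n * c))) = 0 := by
    rcases n with _ | m
    · simp only [pow_zero, Sq.im_one, smul_zero, map_zero, mul_zero, add_zero] at ht'
      push_cast at ht' ⊢
      linear_combination ht' - 2 * r * htr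
    · rw [Sq.im_pow] at ht'
      simp only [map_smul, smul_eq_mul, hG] at ht'
      push_cast at ht' ⊢
      linear_combination ht' - 2 * r * (m + 1 + 1) * C.Qf c a1 b1 a2 b2 a3 b3 z ^ (m + 1) * htr
  have hN : (((n + 1) * (2 * t + 4 * n) : ℕ) : F) ≠ 0 := by
    rw [Nat.cast_ne_zero]; positivity
  have key2 : algebraMap F R (((n + 1) * (2 * t + 4 * n) : ℕ) : F) *
      (C.Qf c a1 b1 a2 b2 a3 b3 z ^ n * (c * r)) = 0 := by
    rw [map_natCast]
    push_cast
    push_cast at key
    linear_combination key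
  have key3 := congrArg (fun x => algebraMap F R ((((n + 1) * (2 * t + 4 * n) : ℕ) : F)⁻¹) * x) key2
  simp only [mul_zero, ← mul_assoc, ← map_mul, inv_mul_cancel₀ hN, map_one, one_mul] at key3
  linear_combination key3

theorem form_mul_left (a b : V) : C.form (C.mul a b) a = 0 := by
  rw [C.phi_231 a a b, C.mul_self, map_zero, LinearMap.zero_apply]

theorem form_mul_right (a b : V) : C.form (C.mul a b) b = 0 := by
  rw [C.form_inv, C.mul_self, map_zero]

theorem form_mul_mul (a b : V) :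
    C.form (C.mul a b) (C.mul a b) = C.form a a * C.form b b - C.form a b ^ 2 := by
  rw [C.form_inv, C.anti a b, map_neg, C.cp b a, map_neg, map_sub, map_smul, map_smul, smul_eq_mul,
    smul_eq_mul, C.form_symm b a]
  ring

/-- Gram determinant of two vectors -/
def gr (a b : V) : R := C.form a a * C.form b b - C.form a b ^ 2

/-- the norm of the associator -/
def dd (a b c : V) : R := C.form (C.j a b c) (C.j a b c)

theorem dd_eq (a b z : V) : C.dd a b z =
    C.Qf (C.gr a b) (C.mul a b) (C.mul a b) (C.form b b • a - C.form a b • b) a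
      (C.form a a • b - C.form a b • a) b z := by
  have e1 : C.mul b (C.mul a b) = C.form b b • a - C.form a b • b := by
    rw [C.anti a b, map_neg, C.cp, C.form_symm b a]; module
  have e2 : C.mul a (C.mul a b) = C.form a b • a - C.form a a • b := C.cp a b
  have h1 : C.form (C.mul (C.mul a b) z) b = C.form b b * C.form a z - C.form a b * C.form b z := by
    rw [C.phi_312 (C.mul a b) z b |>.symm, e1]
    simp only [map_sub, map_smul, LinearMap.sub_apply, LinearMap.smul_apply, smul_eq_mul]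
  have h2 : C.form (C.mul (C.mul a b) z) a = C.form a b * C.form a z - C.form a a * C.form b z := by
    rw [C.phi_312 (C.mul a b) z a |>.symm, e2]
    simp only [map_sub, map_smul, LinearMap.sub_apply, LinearMap.smul_apply, smul_eq_mul]
  have h3 := C.form_mul_mul (C.mul a b) z
  rw [C.form_mul_mul a b] at h3
  unfold dd j Qf gr
  simp only [map_add, map_sub, map_smul, LinearMap.add_apply, LinearMap.sub_apply,
    LinearMap.smul_apply, smul_eq_mul]
  rw [C.form_symm b (C.mul (C.mul a b) z), C.form_symm a (C.mul (C.mul a b) z), h1, h2, h3,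
    C.form_symm b a]
  ring

theorem hG_A (a b z : V) :
    C.form (C.Gf (C.gr a b) (C.mul a b) (C.mul a b) (C.form b b • a - C.form a b • b) a
      (C.form a a • b - C.form a b • a) b z)
      (C.Gf (C.gr a b) (C.mul a b) (C.mul a b) (C.form b b • a - C.form a b • b) a
      (C.form a a • b - C.form a b • a) b z)
      = 4 * C.gr a b * C.Qf (C.gr a b) (C.mul a b) (C.mul a b) (C.form b b • a - C.form a b • b) a
      (C.form a a • b - C.form a b • a) b z := by
  have h1 := C.form_mul_mul a b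
  have h2 := C.form_mul_left a b
  have h3 := C.form_mul_right a b
  have h4 : C.form a (C.mul a b) = 0 := by rw [C.form_symm, h2]
  have h5 : C.form b (C.mul a b) = 0 := by rw [C.form_symm, h3]
  unfold Gf Qf gr
  simp only [map_add, map_sub, map_smul, LinearMap.add_apply, LinearMap.sub_apply,
    LinearMap.smul_apply, smul_eq_mul, h1, h2, h3, h4, h5, C.form_symm z a, C.form_symm z b,
    C.form_symm z (C.mul a b), C.form_symm b a]
  ring

end CpAlg

end Pool.Agent.Mal
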