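import Pool.Agent.Mal.CpBasic

set_option autoImplicit false
set_option linter.unusedSimpArgs false

open scoped TensorProduct

namespace Pool.Agent.Mal

namespace CpAlg

variable {R V : Type} [CommRing R] [AddCommGroup V] [Module R V] (C : CpAlg R V)

/-- formal operators, before the quotient -/
abbrev M0 (R V : Type) [CommRing R] [AddCommGroup V] [Module R V] : Type := (V ⊗[R] V) × (R × V)

/-- right multiplication by `d` -/
def act (d : V) : M0 R V →ₗ[R] M0 R V where
  toFun m := (LinearMap.rTensor V (C.mul.flip d) m.1 - d ⊗ₜ m.2.2 + (2 : R) • (m.2.2 ⊗ₜ d),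
    (- C.form m.2.2 d, m.2.1 • d + C.mul d m.2.2))
  map_add' m n := by
    refine Prod.ext ?_ (Prod.ext ?_ ?_)
    · simp only [Prod.fst_add, Prod.snd_add, map_add, TensorProduct.tmul_add, TensorProduct.add_tmul]
      module
    · simp only [Prod.fst_add, Prod.snd_add, map_add, LinearMap.add_apply]
      ring
    · simp only [Prod.fst_add, Prod.snd_add, map_add]
      module
  map_smul' r m := by
    refine Prod.ext ?_ (Prod.ext ?_ ?_)
    · simp only [Prod.smul_fst, Prod.smul_snd, map_smul, TensorProduct.tmul_smul,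
        ← TensorProduct.smul_tmul', RingHom.id_apply]
      module
    · simp only [Prod.smul_fst, Prod.smul_snd, map_smul, LinearMap.smul_apply, RingHom.id_apply,
        smul_eq_mul]
      ring
    · simp only [Prod.smul_fst, Prod.smul_snd, map_smul, RingHom.id_apply, smul_eq_mul]
      module

theorem act_mk (d : V) (t : V ⊗[R] V) (s : R) (b : V) :
    C.act d (t, (s, b)) = (LinearMap.rTensor V (C.mul.flip d) t - d ⊗ₜ b + (2 : R) • (b ⊗ₜ d),
      (- C.form b d, s • d + C.mul d b)) := rfl

theorem act_add (d e : V) (m : M0 R V) : C.act (d + e) m = C.act d m + C.act e m := by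
  obtain ⟨t, s, b⟩ := m
  rw [act_mk, act_mk, act_mk]
  refine Prod.ext ?_ (Prod.ext ?_ ?_)
  · simp only [Prod.fst_add, Prod.mk_add_mk, map_add, TensorProduct.tmul_add, TensorProduct.add_tmul,
      LinearMap.rTensor_add, LinearMap.add_apply]
    module
  · simp only [Prod.mk_add_mk, map_add]
    ring
  · simp only [Prod.mk_add_mk, map_add, LinearMap.add_apply]
    module

theorem act_smul (r : R) (d : V) (m : M0 R V) : C.act (r • d) m = r • C.act d m := by
  obtain ⟨t, s, b⟩ := m
  rw [act_mk, act_mk]
  refine Prod.ext ?_ (Prod.ext ?_ ?_)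
  · simp only [Prod.smul_mk, map_smul, TensorProduct.tmul_smul, ← TensorProduct.smul_tmul',
      LinearMap.rTensor_smul, LinearMap.smul_apply]
    module
  · simp only [Prod.smul_mk, map_smul, smul_eq_mul]
    ring
  · simp only [Prod.smul_mk, map_smul, LinearMap.smul_apply]
    module

/-- contraction of the first factor with `a` -/
def con (a : V) : V ⊗[R] V →ₗ[R] V :=
  TensorProduct.lift ((LinearMap.lsmul R V).comp (C.form.flip a))

theorem con_tmul (a u v : V) : C.con a (u ⊗ₜ v) = C.form u a • v := by
  simp [con]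

theorem con_add (a b : V) (t : V ⊗[R] V) : C.con (a + b) t = C.con a t + C.con b t := by
  induction t with
  | zero => simp
  | tmul u v => simp only [con_tmul, map_add]; module
  | add x y hx hy => simp only [map_add, hx, hy]; abel

theorem con_smul (r : R) (a : V) (t : V ⊗[R] V) : C.con (r • a) t = r • C.con a t := by
  induction t with
  | zero => simp
  | tmul u v => simp only [con_tmul, map_smul, smul_eq_mul]; module
  | add x y hx hy => simp only [map_add, hx, hy]; module

/-- the form between a formal operator and a vector (values in `V`) -/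
def formM : M0 R V →ₗ[R] V →ₗ[R] V :=
  LinearMap.mk₂ R (fun m a => C.con a m.1 + m.2.1 • a + C.mul m.2.2 a)
    (by intro m n a; simp only [Prod.fst_add, Prod.snd_add, map_add, LinearMap.add_apply]; module)
    (by intro r m a; simp only [Prod.smul_fst, Prod.smul_snd, map_smul, LinearMap.smul_apply,
          smul_eq_mul]; module)
    (by intro m a b; simp only [con_add, map_add]; module)
    (by intro r m a; simp only [con_smul, map_smul]; module)

theorem formM_mk (t : V ⊗[R] V) (s : R) (b a : V) :
    C.formM (t, (s, b)) a = C.con a t + s • a + C.mul b a := rfl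

/-- the trace -/
def tr : M0 R V →ₗ[R] R :=
  (TensorProduct.lift C.form).comp (LinearMap.fst R _ _)
    + (7 : R) • ((LinearMap.fst R _ _).comp (LinearMap.snd R _ _))

theorem tr_mk (t : V ⊗[R] V) (s : R) (b : V) :
    C.tr (t, (s, b)) = TensorProduct.lift C.form t + 7 * s := rfl

/-- The tensor part as an operator -/
def ten (t : V ⊗[R] V) : M0 R V := (t, (0, 0))

theorem con_rTensor (b c : V) (t : V ⊗[R] V) :
    C.con c (LinearMap.rTensor V (C.mul.flip b) t) = C.con (C.mul b c) t := by
  induction t with
  | zero => simp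
  | tmul u v =>
    simp only [LinearMap.rTensor_tmul, con_tmul, LinearMap.flip_apply, C.form_inv]
  | add x y hx hy => simp only [map_add, hx, hy]

theorem formM_act (m : M0 R V) (b c : V) : C.formM (C.act b m) c = C.formM m (C.mul b c) := by
  obtain ⟨t, s, d⟩ := m
  rw [act_mk, formM_mk, formM_mk]
  simp only [map_add, map_sub, map_smul, con_rTensor, con_tmul, LinearMap.add_apply,
    LinearMap.smul_apply]
  rw [C.mul_mul_right b d c, C.mul_mul_left d b c, C.j_swap23 b c d, C.form_symm b d,
    C.form_symm c d]
  module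

/-- the relation elements -/
def rel (b c d : V) : M0 R V :=
  (-((C.mul b c) ⊗ₜ d - d ⊗ₜ (C.mul b c) + ((C.mul c d) ⊗ₜ b - b ⊗ₜ (C.mul c d))
    + ((C.mul d b) ⊗ₜ c - c ⊗ₜ (C.mul d b))), (0, C.j b c d))

theorem rTensor_L2 (b c : V) (t : V ⊗[R] V) :
    LinearMap.rTensor V (C.mul.flip (C.mul b c)) t
      - LinearMap.rTensor V (C.mul.flip b) (LinearMap.rTensor V (C.mul.flip c) t)
      = C.form b c • t + b ⊗ₜ C.con c t - (2 : R) • (c ⊗ₜ C.con b t) := by
  induction t with
  | zero => simp
  | tmul u v =>
    simp only [LinearMap.rTensor_tmul, con_tmul, LinearMap.flip_apply]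
    have h : C.mul u (C.mul b c) - C.mul (C.mul u c) b
        = C.form b c • u + C.form u c • b - (2 * C.form u b) • c := by
      have := C.cp_lin u c b
      rw [C.anti (C.mul u c) b]
      linear_combination (norm := module) this
    have h2 := congrArg (fun x => x ⊗ₜ[R] v) h
    simp only [TensorProduct.sub_tmul, TensorProduct.add_tmul, ← TensorProduct.smul_tmul'] at h2
    rw [h2]
    simp only [TensorProduct.tmul_smul]
    module
  | add x y hx hy =>
    simp only [map_add, TensorProduct.tmul_add] at *
    linear_combination (norm := module) hx + hy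

theorem act_L2 (m : M0 R V) (b c : V) :
    C.act (C.mul b c) m - C.act b (C.act c m)
      = C.form b c • m + ten (b ⊗ₜ C.formM m c) - (2 : R) • ten (c ⊗ₜ C.formM m b)
        + (2 : R) • C.rel b c m.2.2 := by
  obtain ⟨t, s, d⟩ := m
  have e := C.rTensor_L2 b c t
  rw [act_mk, act_mk, act_mk, formM_mk, formM_mk, rel]
  refine Prod.ext ?_ (Prod.ext ?_ ?_)
  · simp only [Prod.fst_sub, Prod.snd_sub, Prod.fst_add, Prod.snd_add, Prod.smul_fst, Prod.smul_snd, ten,
      map_add, map_sub, map_smul, LinearMap.rTensor_tmul, LinearMap.flip_apply,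
      TensorProduct.add_tmul, TensorProduct.tmul_add, TensorProduct.tmul_smul,
      ← TensorProduct.smul_tmul', C.anti d b, C.anti c b, C.anti d c, TensorProduct.neg_tmul,
      TensorProduct.tmul_neg]
    linear_combination (norm := module) e
  · simp only [Prod.fst_sub, Prod.snd_sub, Prod.fst_add, Prod.snd_add, Prod.smul_fst, Prod.smul_snd, ten,
      map_add, map_sub, map_smul, LinearMap.add_apply, LinearMap.smul_apply, smul_eq_mul]
    rw [C.form_symm c b, C.phi_231 b c d, C.form_symm d (C.mul b c)]
    ring
  · simp only [Prod.fst_sub, Prod.snd_sub, Prod.fst_add, Prod.snd_add, Prod.smul_fst, Prod.smul_snd, ten,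
      map_add, map_sub, map_smul]
    rw [C.mul_mul_right b c d, C.mul_mul_left b c d, C.j_cyc c d b,
      C.form_symm d c, C.form_symm d b, C.form_symm c b]
    module

theorem rTensor_L3 (a b : V) (t : V ⊗[R] V) :
    LinearMap.rTensor V (C.mul.flip a) (LinearMap.rTensor V (C.mul.flip b) t)
      + LinearMap.rTensor V (C.mul.flip b) (LinearMap.rTensor V (C.mul.flip a) t)
      = a ⊗ₜ C.con b t + b ⊗ₜ C.con a t - (2 * C.form a b) • t := by
  induction t with
  | zero => simp
  | tmul u v =>
    simp only [LinearMap.rTensor_tmul, con_tmul, LinearMap.flip_apply]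
    have h : C.mul (C.mul u b) a + C.mul (C.mul u a) b
        = C.form u b • a + C.form u a • b - (2 * C.form a b) • u := by
      have := C.cp_lin a u b
      rw [C.anti (C.mul u b) a, C.anti (C.mul u a) b, C.anti u b, C.anti u a, map_neg, map_neg,
        C.form_symm u a, C.form_symm u b]
      linear_combination (norm := module) this
    have h2 := congrArg (fun x => x ⊗ₜ[R] v) h
    simp only [TensorProduct.sub_tmul, TensorProduct.add_tmul, ← TensorProduct.smul_tmul'] at h2
    rw [h2]
    simp only [TensorProduct.tmul_smul]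
  | add x y hx hy =>
    simp only [map_add, TensorProduct.tmul_add] at *
    linear_combination (norm := module) hx + hy

theorem act_L3 (m : M0 R V) (a b : V) :
    C.act a (C.act b m) + C.act b (C.act a m)
      = ten (a ⊗ₜ C.formM m b) + ten (b ⊗ₜ C.formM m a) - (2 * C.form a b) • m := by
  obtain ⟨t, s, d⟩ := m
  have e := C.rTensor_L3 a b t
  rw [act_mk, act_mk, act_mk, act_mk, formM_mk, formM_mk]
  refine Prod.ext ?_ (Prod.ext ?_ ?_)
  · simp only [Prod.fst_sub, Prod.snd_sub, Prod.fst_add, Prod.snd_add, Prod.smul_fst, Prod.smul_snd, ten,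
      map_add, map_sub, map_smul, LinearMap.rTensor_tmul, LinearMap.flip_apply,
      TensorProduct.add_tmul, TensorProduct.tmul_add, TensorProduct.tmul_smul,
      ← TensorProduct.smul_tmul', C.anti d b, C.anti b a, C.anti d a, TensorProduct.neg_tmul,
      TensorProduct.tmul_neg]
    linear_combination (norm := module) e
  · simp only [Prod.fst_sub, Prod.snd_sub, Prod.fst_add, Prod.snd_add, Prod.smul_fst, Prod.smul_snd, ten,
      map_add, map_sub, map_smul, LinearMap.add_apply, LinearMap.smul_apply, smul_eq_mul]
    rw [C.form_symm b a, C.phi_321 a d b]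
    ring
  · simp only [Prod.fst_sub, Prod.snd_sub, Prod.fst_add, Prod.snd_add, Prod.smul_fst, Prod.smul_snd, ten,
      map_add, map_sub, map_smul]
    have h := C.cp_lin a d b
    rw [C.anti b a, C.form_symm d a, C.form_symm d b]
    linear_combination (norm := module) h

theorem formM_rel [Invertible (2 : R)] (b c d a : V) : C.formM (C.rel b c d) a = 0 := by
  have h := C.I4 a b c d
  rw [rel, formM_mk, C.anti _ a, h]
  simp only [map_add, map_sub, map_neg, con_tmul]
  module

/-- the operator `y ↦ y b` -/
def rho (b : V) : M0 R V := (0, (0, b))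

/-- the identity operator -/
def one (R V : Type) [CommRing R] [AddCommGroup V] [Module R V] : M0 R V := (0, (1, 0))

/-- precomposition with `y ↦ y b` -/
def lam (b : V) (m : M0 R V) : M0 R V :=
  ten (LinearMap.lTensor V (C.mul b) m.1) + m.2.1 • rho b + C.act m.2.2 (rho b)

theorem tr_lTensor (b : V) (t : V ⊗[R] V) :
    TensorProduct.lift C.form (LinearMap.lTensor V (C.mul b) t)
      = TensorProduct.lift C.form (LinearMap.rTensor V (C.mul.flip b) t) := by
  induction t with
  | zero => simp
  | tmul u v => simp [C.form_inv]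
  | add x y hx hy => simp only [map_add, hx, hy]

theorem tr_lam (b : V) (m : M0 R V) : C.tr (C.lam b m) = C.tr (C.act b m) := by
  obtain ⟨t, s, c⟩ := m
  rw [lam, map_add, map_add, map_smul, rho, ten, act_mk, act_mk, tr_mk, tr_mk, tr_mk, tr_mk]
  simp only [tr_lTensor, map_add, map_sub, map_zero, TensorProduct.lift.tmul, map_smul, smul_eq_mul]
  rw [C.form_symm b c]
  ring

theorem act_ten (d : V) (t : V ⊗[R] V) :
    C.act d (ten t) = ten (LinearMap.rTensor V (C.mul.flip d) t) := by
  rw [ten, act_mk, ten]
  simp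

theorem ten_add (t u : V ⊗[R] V) : (ten (t + u) : M0 R V) = ten t + ten u := by
  simp [ten]

theorem ten_smul (r : R) (t : V ⊗[R] V) : (ten (r • t) : M0 R V) = r • ten t := by
  simp [ten]

theorem ten_sub (t u : V ⊗[R] V) : (ten (t - u) : M0 R V) = ten t - ten u := by
  simp [ten]

theorem formM_rho (b a : V) : C.formM (rho b) a = C.mul b a := by
  rw [rho, formM_mk]; simp

theorem act_lam (b d : V) (m : M0 R V) :
    C.act d (C.lam b m) = C.lam b (C.act d m) - (2 : R) • C.rel d m.2.2 b := by
  obtain ⟨t, s, c⟩ := m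
  have h := C.act_L2 (rho b) d c
  have comm : ∀ t : V ⊗[R] V, LinearMap.rTensor V (C.mul.flip d) (LinearMap.lTensor V (C.mul b) t)
      = LinearMap.lTensor V (C.mul b) (LinearMap.rTensor V (C.mul.flip d) t) := by
    intro t
    induction t with
    | zero => simp
    | tmul u v => simp
    | add x y hx hy => simp only [map_add, hx, hy]
  rw [formM_rho, formM_rho] at h
  change _ = _ + (2 : R) • C.rel d c b at h
  change C.act d (ten (LinearMap.lTensor V (C.mul b) t) + s • rho b + C.act c (rho b))
    = ten (LinearMap.lTensor V (C.mul b) (LinearMap.rTensor V (C.mul.flip d) t - d ⊗ₜ c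
        + (2 : R) • (c ⊗ₜ d))) + (- C.form c d) • rho b + C.act (s • d + C.mul d c) (rho b)
      - (2 : R) • C.rel d c b
  simp only [map_add, map_sub, map_smul, act_add, act_smul, act_ten, comm, ten_add, ten_sub, ten_smul,
    LinearMap.lTensor_tmul]
  rw [C.form_symm d c] at h
  linear_combination (norm := module) -h

/-- iterated right multiplication -/
def acts (m : M0 R V) (ds : List V) : M0 R V := ds.foldl (fun m d => C.act d m) m

theorem acts_nil (m : M0 R V) : C.acts m [] = m := rfl

theorem acts_cons (m : M0 R V) (d : V) (ds : List V) : C.acts m (d :: ds) = C.acts (C.act d m) ds := rfl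

theorem acts_add (m n : M0 R V) (ds : List V) : C.acts (m + n) ds = C.acts m ds + C.acts n ds := by
  induction ds generalizing m n with
  | nil => rfl
  | cons d ds ih => rw [acts_cons, map_add, ih]; rfl

theorem acts_smul (r : R) (m : M0 R V) (ds : List V) : C.acts (r • m) ds = r • C.acts m ds := by
  induction ds generalizing m with
  | nil => rfl
  | cons d ds ih => rw [acts_cons, map_smul, ih]; rfl

theorem acts_append (m : M0 R V) (ds es : List V) : C.acts m (ds ++ es) = C.acts (C.acts m ds) es := by
  simp [acts]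

theorem acts_sub (m n : M0 R V) (ds : List V) : C.acts (m - n) ds = C.acts m ds - C.acts n ds := by
  have h := C.acts_add (m - n) n ds
  rw [sub_add_cancel] at h
  rw [h]; abel

theorem cyc_aux (N : ℕ)
    (hP : ∀ (b c d : V) (ds : List V), ds.length < N → C.tr (C.acts (C.rel b c d) ds) = 0)
    (b : V) (ds : List V) : ∀ (es : List V) (m : M0 R V), ds.length + es.length ≤ N →
      C.tr (C.acts (C.lam b (C.acts m ds)) es) = C.tr (C.acts (C.lam b m) (ds ++ es)) := by
  induction ds with
  | nil => intro es m _; rfl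
  | cons d ds ih =>
    intro es m hl
    rw [List.length_cons] at hl
    rw [acts_cons, ih es _ (by omega), List.cons_append, acts_cons, act_lam, acts_sub, acts_smul,
      map_sub, map_smul, hP, smul_zero, sub_zero]
    rw [List.length_append]; omega

/-- evaluation at a vector -/
def ev (u : V) : M0 R V →ₗ[R] V :=
  (TensorProduct.lift (LinearMap.lsmul R V).flip).comp
      ((LinearMap.lTensor V (C.form.flip u)).comp (LinearMap.fst R _ _))
    + ((LinearMap.fst R _ _).comp (LinearMap.snd R _ _)).smulRight u
    + (C.mul u).comp ((LinearMap.snd R _ _).comp (LinearMap.snd R _ _))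

theorem ev_ten_tmul (u a b : V) : C.ev u (ten (a ⊗ₜ b)) = C.form b u • a := by
  simp [ev, ten]

theorem ev_mk (u : V) (t : V ⊗[R] V) (s : R) (b : V) :
    C.ev u (t, (s, b)) = C.ev u (ten t) + s • u + C.mul u b := by
  simp [ev, ten]

theorem ev_act_ten (u d : V) (t : V ⊗[R] V) :
    C.ev u (C.act d (ten t)) = C.mul (C.ev u (ten t)) d := by
  rw [act_ten]
  induction t with
  | zero => simp [ten, ev]
  | tmul a b => simp only [LinearMap.rTensor_tmul, ev_ten_tmul, LinearMap.flip_apply, map_smul,
      LinearMap.smul_apply]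
  | add x y hx hy => simp only [map_add, ten_add, hx, hy, LinearMap.add_apply]

theorem ev_act (u d : V) (m : M0 R V) : C.ev u (C.act d m) = C.mul (C.ev u m) d := by
  obtain ⟨t, s, b⟩ := m
  have e : ((t, (s, b)) : M0 R V) = ten t + s • one R V + rho b := by
    simp [ten, one, rho]
  rw [e]
  simp only [map_add, map_smul, ev_act_ten, LinearMap.add_apply, LinearMap.smul_apply]
  have h1 : C.ev u (C.act d (one R V)) = C.mul u d := by
    rw [one, act_mk]; simp [ev]
  have h2 : C.ev u (one R V) = u := by simp [ev, one]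
  have h3 : C.ev u (rho b) = C.mul u b := by simp [ev, rho]
  have h4 : C.ev u (C.act d (rho b)) = C.mul (C.mul u b) d := by
    have : C.act d (rho b) = -ten (d ⊗ₜ b) + (2 : R) • ten (b ⊗ₜ d) + (-C.form b d) • one R V
        + rho (C.mul d b) := by
      rw [rho, act_mk]
      simp [ten, one, rho]
    rw [this]
    simp only [map_add, map_smul, map_neg, ev_ten_tmul, h2]
    have h5 : C.ev u (rho (C.mul d b)) = C.mul u (C.mul d b) := by simp [ev, rho]
    rw [h5, C.mul_mul_left u d b, C.mul_mul_right u b d, C.j_swap13 u b d,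
      C.form_symm u d]
    module
  rw [h1, h2, h3, h4]

theorem form_ev_acts (u v : V) (ds : List V) :
    C.tr (C.acts (ten (u ⊗ₜ v)) ds) = C.form (C.ev u (C.acts (one R V) ds)) v := by
  have key : ∀ (ds : List V) (w : V) (m : M0 R V), C.ev u m = w →
      C.tr (C.acts (ten (w ⊗ₜ v)) ds) = C.form (C.ev u (C.acts m ds)) v := by
    intro ds
    induction ds with
    | nil =>
      intro w m hw
      rw [acts_nil, acts_nil, hw, ten, tr_mk]
      simp
    | cons d ds ih =>
      intro w m hw
      rw [acts_cons, acts_cons, act_ten]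
      rw [LinearMap.rTensor_tmul]
      exact ih _ _ (by rw [ev_act, hw]; rfl)
  exact key ds u (one R V) (by simp [ev, one])

theorem tr_act_j_ten [Invertible (2 : R)] (a b c : V) (t : V ⊗[R] V) :
    C.tr (C.act (C.j a b c) (ten t)) =
      (C.form (C.ev (C.mul a b) (ten t)) c - C.form (C.ev c (ten t)) (C.mul a b))
      + (C.form (C.ev (C.mul b c) (ten t)) a - C.form (C.ev a (ten t)) (C.mul b c))
      + (C.form (C.ev (C.mul c a) (ten t)) b - C.form (C.ev b (ten t)) (C.mul c a)) := by
  rw [act_ten, ten, tr_mk]
  induction t with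
  | zero =>
    have h0 : (ten (0 : V ⊗[R] V) : M0 R V) = 0 := rfl
    simp [h0]
  | tmul u v =>
    simp only [LinearMap.rTensor_tmul, ev_ten_tmul, LinearMap.flip_apply, TensorProduct.lift.tmul,
      map_smul, LinearMap.smul_apply, smul_eq_mul]
    have h := C.I4 u a b c
    rw [h]
    simp only [map_add, map_sub, map_smul, LinearMap.add_apply, LinearMap.sub_apply,
      LinearMap.smul_apply, smul_eq_mul]
    rw [C.form_symm v (C.mul a b), C.form_symm v (C.mul b c), C.form_symm v (C.mul c a),
      C.form_symm v a, C.form_symm v b, C.form_symm v c,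
      C.form_symm u a, C.form_symm u b, C.form_symm u c, C.form_symm u (C.mul a b),
      C.form_symm u (C.mul b c), C.form_symm u (C.mul c a)]
    ring
  | add x y hx hy =>
    simp only [map_add, ten_add, LinearMap.add_apply] at *
    linear_combination hx + hy

theorem mk_eq (t : V ⊗[R] V) (s : R) (b : V) :
    ((t, (s, b)) : M0 R V) = ten t + s • one R V + rho b := by
  simp [ten, one, rho]

theorem ev_one (u : V) : C.ev u (one R V) = u := by simp [ev, one]

theorem ev_rho (u b : V) : C.ev u (rho b) = C.mul u b := by simp [ev, rho]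

theorem act_one (d : V) : C.act d (one R V) = rho d := by
  rw [one, act_mk]; simp [rho]

theorem act_rho (b d : V) : C.act d (rho b) = -ten (d ⊗ₜ b) + (2 : R) • ten (b ⊗ₜ d)
    + (-C.form b d) • one R V + rho (C.mul d b) := by
  rw [rho, act_mk]
  simp [ten, one, rho]

theorem tr_ten (t : V ⊗[R] V) : C.tr (ten t) = TensorProduct.lift C.form t := by
  rw [ten, tr_mk]; ring

theorem tr_one : C.tr (one R V) = 7 := by
  rw [one, tr_mk]; simp

theorem tr_rho (b : V) : C.tr (rho b) = 0 := by
  rw [rho, tr_mk]; simp

theorem tr_act_rho (b d : V) : C.tr (C.act d (rho b)) = - 6 * C.form b d := by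
  rw [act_rho]
  simp only [map_add, map_neg, map_smul, tr_ten, tr_one, tr_rho, TensorProduct.lift.tmul, smul_eq_mul]
  rw [C.form_symm d b]
  ring

theorem psi_swap34 (a b c e : V) : C.form (C.j a b e) c = - C.form (C.j a b c) e := by
  unfold j
  simp only [map_add, map_sub, map_smul, LinearMap.add_apply, LinearMap.sub_apply,
    LinearMap.smul_apply, smul_eq_mul]
  rw [C.form_inv (C.mul a b) e c, C.form_inv (C.mul a b) c e, C.anti e c, map_neg]
  ring

theorem tr_act_j [Invertible (2 : R)] (a b c : V) (m : M0 R V) :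
    C.tr (C.act (C.j a b c) m) =
      (C.form (C.ev (C.mul a b) m) c - C.form (C.ev c m) (C.mul a b))
      + (C.form (C.ev (C.mul b c) m) a - C.form (C.ev a m) (C.mul b c))
      + (C.form (C.ev (C.mul c a) m) b - C.form (C.ev b m) (C.mul c a)) := by
  obtain ⟨t, s, e⟩ := m
  rw [mk_eq]
  simp only [map_add, map_smul, LinearMap.add_apply, LinearMap.smul_apply, tr_act_j_ten, ev_one,
    ev_rho, act_one, tr_rho, tr_act_rho, smul_eq_mul]
  rw [C.form_symm c (C.mul a b), C.form_symm a (C.mul b c), C.form_symm b (C.mul c a)]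
  have h : ∀ a b c : V, C.form (C.mul (C.mul a b) e) c - C.form (C.mul c e) (C.mul a b)
      = - 2 * C.form (C.j a b c) e + 2 * (C.form a e * C.form b c - C.form b e * C.form a c) := by
    intro a b c
    have e1 : C.form (C.mul (C.mul a b) e) c = - C.form c (C.mul e (C.mul a b)) := by
      rw [C.anti (C.mul a b) e, map_neg, LinearMap.neg_apply, C.form_symm]
    rw [C.form_inv c e, e1, C.mul_mul_left e a b]
    simp only [map_add, map_sub, map_neg, map_smul, smul_eq_mul]
    rw [C.form_symm c (C.j a b e), C.psi_swap34 a b c e, C.form_symm c b, C.form_symm c a]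
    ring
  rw [← sub_eq_zero]
  have h1 := h a b c
  have h2 := h b c a
  have h3 := h c a b
  have j1 : C.j b c a = C.j a b c := (C.j_cyc b c a).symm
  have j2 : C.j c a b = C.j a b c := C.j_cyc a b c
  rw [j1, C.form_symm c a, C.form_symm b a] at h2
  rw [j2, C.form_symm c b] at h3
  rw [C.form_symm e (C.j a b c)]
  linear_combination - h1 - h2 - h3

theorem rel_eq (b c d : V) : C.rel b c d =
    rho (C.j b c d) - ((ten ((C.mul b c) ⊗ₜ d) - ten (d ⊗ₜ (C.mul b c)))
      + (ten ((C.mul c d) ⊗ₜ b) - ten (b ⊗ₜ (C.mul c d)))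
      + (ten ((C.mul d b) ⊗ₜ c) - ten (c ⊗ₜ (C.mul d b)))) := by
  simp [rel, ten, rho]

theorem tr_acts_rho (N : ℕ)
    (hP : ∀ (b c d : V) (ds : List V), ds.length < N → C.tr (C.acts (C.rel b c d) ds) = 0)
    (b : V) (ds : List V) (hl : ds.length ≤ N) :
    C.tr (C.acts (rho b) ds) = C.tr (C.act b (C.acts (one R V) ds)) := by
  have h := C.cyc_aux N hP b ds [] (one R V) (by simpa using hl)
  rw [acts_nil, List.append_nil, tr_lam] at h
  rw [h]
  have : C.lam b (one R V) = rho b := by
    have h0 : C.act (0 : V) (rho b) = 0 := by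
      have := C.act_smul (0 : R) (0 : V) (rho b)
      rwa [smul_zero, zero_smul] at this
    rw [lam]
    change ten (LinearMap.lTensor V (C.mul b) 0) + (1 : R) • rho b + C.act 0 (rho b) = rho b
    rw [h0, map_zero]
    simp [ten]
  rw [this]

theorem tr_acts_rel [Invertible (2 : R)] (N : ℕ) :
    ∀ (b c d : V) (ds : List V), ds.length < N → C.tr (C.acts (C.rel b c d) ds) = 0 := by
  induction N with
  | zero => intro b c d ds h; omega
  | succ N ih =>
    intro b c d ds hl
    have h1 := C.tr_acts_rho N ih (C.j b c d) ds (by omega)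
    rw [C.tr_act_j] at h1
    rw [rel_eq]
    simp only [acts_sub, acts_add, map_add, map_sub, h1, form_ev_acts]
    ring

/-- the submodule of relations -/
def S : Submodule R (M0 R V) where
  carrier := {m | ∀ ds : List V, C.tr (C.acts m ds) = 0 ∧ ∀ a, C.formM (C.acts m ds) a = 0}
  add_mem' {m n} hm hn ds := by
    rw [acts_add, map_add, (hm ds).1, (hn ds).1, add_zero]
    refine ⟨rfl, fun a => ?_⟩
    rw [map_add, LinearMap.add_apply, (hm ds).2, (hn ds).2, add_zero]
  zero_mem' ds := by
    have h : C.acts (0 : M0 R V) ds = 0 := by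
      have := C.acts_smul (0 : R) (0 : M0 R V) ds
      rwa [smul_zero, zero_smul] at this
    rw [h]; simp
  smul_mem' r m hm ds := by
    rw [acts_smul, map_smul, (hm ds).1, smul_zero]
    refine ⟨rfl, fun a => ?_⟩
    rw [map_smul, LinearMap.smul_apply, (hm ds).2, smul_zero]

theorem mem_S {m : M0 R V} :
    m ∈ C.S ↔ ∀ ds : List V, C.tr (C.acts m ds) = 0 ∧ ∀ a, C.formM (C.acts m ds) a = 0 := Iff.rfl

theorem act_mem_S {m : M0 R V} (hm : m ∈ C.S) (d : V) : C.act d m ∈ C.S :=
  fun ds => hm (d :: ds)

theorem tr_of_mem_S {m : M0 R V} (hm : m ∈ C.S) : C.tr m = 0 := (hm []).1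

theorem formM_of_mem_S {m : M0 R V} (hm : m ∈ C.S) (a : V) : C.formM m a = 0 := (hm []).2 a

theorem rel_mem_S [Invertible (2 : R)] (b c d : V) : C.rel b c d ∈ C.S := by
  intro ds
  refine ⟨C.tr_acts_rel (ds.length + 1) b c d ds (Nat.lt_succ_self _), ?_⟩
  have h : ∀ (ds : List V) (m : M0 R V), (∀ a, C.formM m a = 0) →
      ∀ a, C.formM (C.acts m ds) a = 0 := by
    intro ds
    induction ds with
    | nil => intro m hm; exact hm
    | cons d ds ih =>
      intro m hm
      exact ih _ (fun a => by rw [formM_act]; exact hm _)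
  exact h ds _ (C.formM_rel b c d)

end CpAlg

end Pool.Agent.Mal
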